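import Mathlib

/-!
# Robin eigenvalue with negative parameter: common definitions

`Em m` is Euclidean space of dimension `m + 1`. Surface measure is the `m`-dimensional Hausdorff
measure divided by the constant `cH m`.
-/

set_option autoImplicit false

open MeasureTheory Metric
open scoped MeasureTheory NNReal ENNReal

namespace Pool.Agent.RobinBall

/-- Euclidean space of dimension `m + 1`. -/
abbrev Em (m : ℕ) := EuclideanSpace ℝ (Fin (m + 1))

/-- Boundary condition of the frozen statement: near every boundary point `Ω` is, after a linear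
isometry, the region below the graph of a Lipschitz function. -/
def IsLipDom {m : ℕ} (Ω : Set (Em m)) : Prop :=
  ∀ x ∈ frontier Ω, ∃ r : ℝ, 0 < r ∧
      ∃ R : Em m ≃ₗᵢ[ℝ] Em m,
      ∃ K : NNReal, ∃ g : (Fin m → ℝ) → ℝ, LipschitzWith K g ∧
        ∀ y ∈ Metric.ball x r,
          (y ∈ Ω ↔ EuclideanSpace.proj (Fin.last m) (R y) <
              g (fun i => EuclideanSpace.proj (Fin.castSucc i) (R y)))

/-- The ratio of the `m`-dimensional Hausdorff measure to Lebesgue measure on the Euclidean space of
dimension `m`. -/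
noncomputable def cH (m : ℕ) : ℝ :=
  (Measure.hausdorffMeasure (m : ℝ) (Metric.ball (0 : EuclideanSpace ℝ (Fin m)) 1)).toReal /
    (volume (Metric.ball (0 : EuclideanSpace ℝ (Fin m)) 1)).toReal

/-- Divergence of a vector field: trace of the derivative. -/
noncomputable def dv {m : ℕ} (F : Em m → Em m) (x : Em m) : ℝ :=
  LinearMap.trace ℝ (Em m) (fderiv ℝ F x : Em m →ₗ[ℝ] Em m)

/-- Trace of a continuous linear endomorphism. -/
noncomputable def trc {m : ℕ} (M : Em m →L[ℝ] Em m) : ℝ :=
  LinearMap.trace ℝ (Em m) (M : Em m →ₗ[ℝ] Em m)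

/-- Second derivative of a scalar function as an endomorphism (derivative of the gradient). -/
noncomputable def hess {m : ℕ} (h : Em m → ℝ) (x : Em m) : Em m →L[ℝ] Em m :=
  fderiv ℝ (fun y => gradient h y) x

/-- The graph map `x' ↦ (x', g x')` into Euclidean space of dimension `m + 1`. -/
noncomputable def graphMap {m : ℕ} (g : (Fin m → ℝ) → ℝ) (x' : Fin m → ℝ) : Em m :=
  WithLp.toLp 2 (Fin.snoc x' (g x') : Fin (m + 1) → ℝ)

/-- The first `m` coordinates. -/
def init' {m : ℕ} (y : Em m) : Fin m → ℝ := fun i => y (Fin.castSucc i)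

/-- The region below the graph of `g`. -/
def below {m : ℕ} (g : (Fin m → ℝ) → ℝ) : Set (Em m) := {y | y (Fin.last m) < g (init' y)}

/-- The area density of the graph of `g`. -/
noncomputable def jac {m : ℕ} (g : (Fin m → ℝ) → ℝ) (x' : Fin m → ℝ) : ℝ :=
  Real.sqrt (1 + ∑ i, (fderiv ℝ g x' (Pi.single i 1)) ^ 2)

end Pool.Agent.RobinBall
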