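import Mathlib
import Pool.Agent.RobinBall.Defs

/-! # Calculus preliminaries for the ABP step: gradient, Hessian, second order Taylor expansion -/

set_option autoImplicit false

open MeasureTheory Metric Filter Asymptotics
open scoped MeasureTheory NNReal ENNReal Topology RealInnerProductSpace

namespace Pool.Agent.RobinBall

variable {m : ℕ}

/-- The inverse Riesz map as a real continuous linear map. -/
noncomputable def Jr (m : ℕ) : (Em m →L[ℝ] ℝ) →L[ℝ] Em m :=
  ∑ i : Fin (m + 1), (ContinuousLinearMap.apply ℝ ℝ (EuclideanSpace.single i (1 : ℝ))).smulRight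
    (EuclideanSpace.single i (1 : ℝ))

theorem Jr_inner (l : Em m →L[ℝ] ℝ) (v : Em m) : inner ℝ (Jr m l) v = l v := by
  have hv : v = ∑ i : Fin (m + 1), v i • EuclideanSpace.single i (1 : ℝ) := by
    have := (EuclideanSpace.basisFun (Fin (m + 1)) ℝ).sum_repr v
    simpa using this.symm
  have h1 : Jr m l = ∑ i : Fin (m + 1), l (EuclideanSpace.single i (1 : ℝ)) •
      EuclideanSpace.single i (1 : ℝ) := by
    simp [Jr]
  rw [h1, sum_inner]
  conv_rhs => rw [hv]
  rw [map_sum]
  refine Finset.sum_congr rfl fun i _ => ?_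
  rw [map_smul, inner_smul_left]
  simp [EuclideanSpace.inner_single_left, mul_comm]

theorem gradient_eq_Jr (h : Em m → ℝ) (y : Em m) : gradient h y = Jr m (fderiv ℝ h y) := by
  refine ext_inner_right ℝ fun v => ?_
  rw [Jr_inner, gradient, InnerProductSpace.toDual_symm_apply]

theorem inner_gradient (h : Em m → ℝ) (y v : Em m) :
    inner ℝ (gradient h y) v = fderiv ℝ h y v := by
  rw [gradient_eq_Jr, Jr_inner]

theorem gradient_fun_eq (h : Em m → ℝ) : (fun y => gradient h y) = fun y => Jr m (fderiv ℝ h y) :=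
  funext fun y => gradient_eq_Jr h y

theorem hess_eq {h : Em m → ℝ} {x : Em m} (hd : DifferentiableAt ℝ (fderiv ℝ h) x) :
    hess h x = (Jr m).comp (fderiv ℝ (fderiv ℝ h) x) := by
  unfold hess
  rw [gradient_fun_eq]
  exact ((Jr m).hasFDerivAt.comp x hd.hasFDerivAt).fderiv

theorem inner_hess {h : Em m → ℝ} {x : Em m} (hd : DifferentiableAt ℝ (fderiv ℝ h) x)
    (v w : Em m) : inner ℝ (hess h x v) w = fderiv ℝ (fderiv ℝ h) x v w := by
  rw [hess_eq hd]
  exact Jr_inner _ _

theorem symm_d2 {h : Em m → ℝ} {x : Em m} (hh : ContDiffAt ℝ 2 h x) (v w : Em m) :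
    fderiv ℝ (fderiv ℝ h) x v w = fderiv ℝ (fderiv ℝ h) x w v :=
  (hh.isSymmSndFDerivAt (by simp)).eq v w

theorem differentiableAt_fderiv {h : Em m → ℝ} {x : Em m} (hh : ContDiffAt ℝ 2 h x) :
    DifferentiableAt ℝ (fderiv ℝ h) x :=
  (hh.fderiv_right (m := 1) (by norm_num)).differentiableAt (by norm_num)

/-- Second order Taylor expansion with Peano remainder. -/
theorem taylor2 {h : Em m → ℝ} {x : Em m} (hh : ContDiffAt ℝ 2 h x) :
    (fun y => h y - h x - fderiv ℝ h x (y - x) -
      (1 / 2) * fderiv ℝ (fderiv ℝ h) x (y - x) (y - x)) =o[𝓝 x] fun y => ‖y - x‖ ^ 2 := by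
  set A := fderiv ℝ (fderiv ℝ h) x with hA
  have hd : HasFDerivAt (fderiv ℝ h) A x := (differentiableAt_fderiv hh).hasFDerivAt
  have hev : ∀ᶠ y in 𝓝 x, DifferentiableAt ℝ h y := by
    have := hh.eventually (by simp)
    filter_upwards [this] with y hy using hy.differentiableAt (by norm_num)
  rw [isLittleO_iff]
  intro c hc
  have h1 := (hasFDerivAt_iff_isLittleO.mp hd)
  rw [isLittleO_iff] at h1
  have h2 := (h1 hc).and hev
  obtain ⟨r, hr, hball⟩ := Metric.eventually_nhds_iff_ball.mp h2
  filter_upwards [Metric.ball_mem_nhds x hr] with y hy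
  have hder : ∀ z ∈ segment ℝ x y, HasFDerivWithinAt
      (fun y => h y - h x - fderiv ℝ h x (y - x) - (1 / 2) * A (y - x) (y - x))
      (fderiv ℝ h z - fderiv ℝ h x - A (z - x)) (segment ℝ x y) z := by
    intro z hz
    have hzb : z ∈ ball x r := by
      have := (convex_ball x r).segment_subset (mem_ball_self hr) hy hz
      exact this
    have hdz : HasFDerivAt h (fderiv ℝ h z) z := (hball z hzb).2.hasFDerivAt
    have hsub : HasFDerivAt (fun y : Em m => y - x) (ContinuousLinearMap.id ℝ (Em m)) z :=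
      (hasFDerivAt_id z).sub_const x
    have hlin : HasFDerivAt (fun y : Em m => fderiv ℝ h x (y - x)) (fderiv ℝ h x) z := by
      have := (fderiv ℝ h x).hasFDerivAt.comp z hsub
      rwa [ContinuousLinearMap.comp_id] at this
    have hA1 : HasFDerivAt (fun y : Em m => A (y - x)) A z := by
      have := A.hasFDerivAt.comp z hsub
      rwa [ContinuousLinearMap.comp_id] at this
    have hquad := hA1.clm_apply hsub
    have := ((hdz.sub_const (h x)).sub hlin).sub (hquad.const_mul (1 / 2 : ℝ))
    refine (this.congr_fderiv ?_).hasFDerivWithinAt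
    ext v
    simp only [sub_apply, smul_apply,
      add_apply, ContinuousLinearMap.comp_apply,
      ContinuousLinearMap.flip_apply, ContinuousLinearMap.id_apply, smul_eq_mul]
    rw [hA, symm_d2 hh v (z - x)]
    ring
  have hbd : ∀ z ∈ segment ℝ x y, ‖fderiv ℝ h z - fderiv ℝ h x - A (z - x)‖ ≤ c * ‖y - x‖ := by
    intro z hz
    have hzb : z ∈ ball x r := (convex_ball x r).segment_subset (mem_ball_self hr) hy hz
    refine (hball z hzb).1.trans ?_
    refine mul_le_mul_of_nonneg_left ?_ hc.le
    obtain ⟨a, b, ha, hb, hab, rfl⟩ := hz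
    have : a • x + b • y - x = b • (y - x) := by
      have : a = 1 - b := by linarith
      rw [this]; module
    rw [this, norm_smul, Real.norm_of_nonneg hb]
    have : b ≤ 1 := by linarith
    exact mul_le_of_le_one_left (norm_nonneg _) this
  have := (convex_segment x y).norm_image_sub_le_of_norm_hasFDerivWithin_le hder hbd
    (left_mem_segment ℝ x y) (right_mem_segment ℝ x y)
  simp only [sub_self, map_zero, mul_zero, sub_zero] at this
  rw [norm_pow, norm_norm]
  calc _ ≤ c * ‖y - x‖ * ‖y - x‖ := this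
    _ = c * ‖y - x‖ ^ 2 := by ring

/-- Uniform second order remainder bound near a point. -/
theorem c11_bound {h : Em m → ℝ} {x : Em m} (hh : ContDiffAt ℝ 2 h x) :
    ∃ C r : ℝ, 0 ≤ C ∧ 0 < r ∧ ∀ y ∈ ball x r, ∀ z ∈ ball x r,
      |h y - h z - fderiv ℝ h z (y - z)| ≤ C * ‖y - z‖ ^ 2 := by
  have h1 : ContDiffAt ℝ 1 (fderiv ℝ h) x := hh.fderiv_right (m := 1) (by norm_num)
  obtain ⟨K, t, ht, hK⟩ := h1.exists_lipschitzOnWith
  have hev : ∀ᶠ y in 𝓝 x, DifferentiableAt ℝ h y := by
    have := hh.eventually (by simp)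
    filter_upwards [this] with y hy using hy.differentiableAt (by norm_num)
  obtain ⟨r, hr, hball⟩ := Metric.eventually_nhds_iff_ball.mp (hev.and ht)
  refine ⟨K, r, K.2, hr, fun y hy z hz => ?_⟩
  have hseg : segment ℝ z y ⊆ ball x r := (convex_ball x r).segment_subset hz hy
  have hder : ∀ w ∈ segment ℝ z y, HasFDerivWithinAt
      (fun y => h y - h z - fderiv ℝ h z (y - z)) (fderiv ℝ h w - fderiv ℝ h z)
      (segment ℝ z y) w := by
    intro w hw
    have hdw : HasFDerivAt h (fderiv ℝ h w) w := (hball w (hseg hw)).1.hasFDerivAt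
    have hsub : HasFDerivAt (fun y : Em m => y - z) (ContinuousLinearMap.id ℝ (Em m)) w :=
      (hasFDerivAt_id w).sub_const z
    have hlin : HasFDerivAt (fun y : Em m => fderiv ℝ h z (y - z)) (fderiv ℝ h z) w := by
      have := (fderiv ℝ h z).hasFDerivAt.comp w hsub
      rwa [ContinuousLinearMap.comp_id] at this
    exact ((hdw.sub_const (h z)).sub hlin).hasFDerivWithinAt
  have hbd : ∀ w ∈ segment ℝ z y, ‖fderiv ℝ h w - fderiv ℝ h z‖ ≤ K * ‖y - z‖ := by
    intro w hw
    have h3 := hK.dist_le_mul w (hball w (hseg hw)).2 z (hball z hz).2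
    rw [dist_eq_norm, dist_eq_norm] at h3
    refine h3.trans (mul_le_mul_of_nonneg_left ?_ K.2)
    obtain ⟨a, b, ha, hb, hab, rfl⟩ := hw
    have : a • z + b • y - z = b • (y - z) := by
      have : a = 1 - b := by linarith
      rw [this]; module
    rw [this, norm_smul, Real.norm_of_nonneg hb]
    have : b ≤ 1 := by linarith
    exact mul_le_of_le_one_left (norm_nonneg _) this
  have := (convex_segment z y).norm_image_sub_le_of_norm_hasFDerivWithin_le hder hbd
    (left_mem_segment ℝ z y) (right_mem_segment ℝ z y)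
  simp only [sub_self, map_zero, sub_zero, Real.norm_eq_abs] at this
  calc _ ≤ K * ‖y - z‖ * ‖y - z‖ := this
    _ = K * ‖y - z‖ ^ 2 := by ring

/-- Nonnegative second differences give a positive Hessian. -/
theorem hess_isPositive {h : Em m → ℝ} {x : Em m} (hh : ContDiffAt ℝ 2 h x)
    (hsd : ∀ v : Em m, ∀ᶠ t in 𝓝[>] (0 : ℝ), 0 ≤ h (x + t • v) + h (x - t • v) - 2 * h x) :
    (hess h x).IsPositive := by
  have hd := differentiableAt_fderiv hh
  refine ⟨?_, ?_⟩
  · intro v w
    change inner ℝ (hess h x v) w = inner ℝ v (hess h x w)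
    rw [inner_hess hd, real_inner_comm, inner_hess hd, symm_d2 hh]
  · intro v
    rw [ContinuousLinearMap.reApplyInnerSelf_apply]
    change 0 ≤ inner ℝ (hess h x v) v
    rw [inner_hess hd]
    set A := fderiv ℝ (fderiv ℝ h) x with hA
    by_contra hneg
    push Not at hneg
    -- Taylor along both directions
    have hT := taylor2 hh
    rw [← hA] at hT
    have hc : 0 < -(A v v) / (4 * (‖v‖ ^ 2 + 1)) := by
      apply div_pos (by linarith) (by positivity)
    rw [isLittleO_iff] at hT
    have hT' := hT hc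
    have ht1 : Tendsto (fun t : ℝ => x + t • v) (𝓝[>] 0) (𝓝 x) := by
      have : Continuous fun t : ℝ => x + t • v := by fun_prop
      have := this.tendsto 0
      simp only [zero_smul, add_zero] at this
      exact this.mono_left nhdsWithin_le_nhds
    have ht2 : Tendsto (fun t : ℝ => x - t • v) (𝓝[>] 0) (𝓝 x) := by
      have : Continuous fun t : ℝ => x - t • v := by fun_prop
      have := this.tendsto 0
      simp only [zero_smul, sub_zero] at this
      exact this.mono_left nhdsWithin_le_nhds
    have h3 := ((ht1.eventually hT').and (ht2.eventually hT')).and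
      ((hsd v).and self_mem_nhdsWithin)
    obtain ⟨t, ⟨h4, h5⟩, h6, h7⟩ := h3.exists
    have ht : 0 < t := h7
    have e1 : x + t • v - x = t • v := by abel
    have e2 : x - t • v - x = -(t • v) := by abel
    rw [e1] at h4
    rw [e2] at h5
    simp only [map_smul, map_neg, smul_apply, neg_apply,
      smul_eq_mul, norm_neg, neg_neg, mul_neg] at h4 h5
    rw [Real.norm_eq_abs] at h4 h5
    have h8 := (abs_le.mp h4).2
    have h9 := (abs_le.mp h5).2
    rw [norm_pow, norm_norm, norm_smul, Real.norm_of_nonneg ht.le, mul_pow] at h8 h9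
    have key : -(A v v) / (4 * (‖v‖ ^ 2 + 1)) * (t ^ 2 * ‖v‖ ^ 2) ≤ -(A v v) / 4 * t ^ 2 := by
      have : ‖v‖ ^ 2 / (‖v‖ ^ 2 + 1) ≤ 1 := by
        rw [div_le_one (by positivity)]; linarith
      calc -(A v v) / (4 * (‖v‖ ^ 2 + 1)) * (t ^ 2 * ‖v‖ ^ 2)
          = -(A v v) / 4 * t ^ 2 * (‖v‖ ^ 2 / (‖v‖ ^ 2 + 1)) := by field_simp
        _ ≤ -(A v v) / 4 * t ^ 2 * 1 := by
            apply mul_le_mul_of_nonneg_left this
            have : 0 ≤ -(A v v) / 4 := by linarith
            positivity
        _ = _ := by ring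
    have ht2' : 0 < t ^ 2 := by positivity
    nlinarith [mul_pos ht2' (neg_pos.mpr hneg)]

end Pool.Agent.RobinBall
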