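import Mathlib
import Pool.Agent.RobinBall.Abp1

/-! # Mollification for the ABP step -/

set_option autoImplicit false
set_option linter.unusedSectionVars false

open MeasureTheory Metric Filter Asymptotics
open scoped MeasureTheory NNReal ENNReal Topology RealInnerProductSpace Convolution ContDiff

namespace Pool.Agent.RobinBall

variable {E : Type*} [NormedAddCommGroup E] [InnerProductSpace ℝ E] [FiniteDimensional ℝ E]
  [MeasurableSpace E] [BorelSpace E]

/-- The bump function used for mollification. -/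
noncomputable def bmp (E : Type*) [NormedAddCommGroup E] [InnerProductSpace ℝ E] :
    ContDiffBump (0 : E) := ⟨1 / 2, 1, by norm_num, by norm_num⟩

/-- The mollifier kernel. -/
noncomputable def rho (E : Type*) [NormedAddCommGroup E] [InnerProductSpace ℝ E]
    [FiniteDimensional ℝ E] [MeasurableSpace E] [BorelSpace E] : E → ℝ := (bmp E).normed volume

theorem rho_contDiff : ContDiff ℝ ∞ (rho E) := (bmp E).contDiff_normed

theorem rho_hcs : HasCompactSupport (rho E) := (bmp E).hasCompactSupport_normed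

theorem rho_nonneg (x : E) : 0 ≤ rho E x := (bmp E).nonneg_normed x

theorem rho_integral : ∫ x, rho E x = 1 := (bmp E).integral_normed

theorem rho_neg (x : E) : rho E (-x) = rho E x := (bmp E).normed_neg x

theorem rho_continuous : Continuous (rho E) := rho_contDiff.continuous

theorem rho_support : Function.support (rho E) = ball (0 : E) 1 :=
  (bmp E).support_normed_eq

theorem rho_tsupport : tsupport (rho E) = closedBall (0 : E) 1 :=
  (bmp E).tsupport_normed_eq

theorem rho_integrable_mul {g : E → ℝ} (hg : Continuous g) :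
    Integrable (fun u => rho E u * g u) :=
  (rho_continuous.mul hg).integrable_of_hasCompactSupport rho_hcs.mul_right

/-- Mollification at scale one. -/
noncomputable def mol (g : E → ℝ) : E → ℝ :=
  rho E ⋆[ContinuousLinearMap.lsmul ℝ ℝ, volume] g

theorem mol_apply (g : E → ℝ) (z : E) : mol g z = ∫ u, rho E u * g (z - u) := rfl

theorem mol_contDiff {g : E → ℝ} (hg : Continuous g) : ContDiff ℝ ∞ (mol g) :=
  rho_hcs.contDiff_convolution_left _ rho_contDiff hg.locallyIntegrable

theorem fderiv_rho_contDiff : ContDiff ℝ ∞ (fderiv ℝ (rho E)) :=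
  rho_contDiff.fderiv_right (by simp)

theorem fderiv_rho_hcs : HasCompactSupport (fderiv ℝ (rho E)) := rho_hcs.fderiv ℝ

theorem fderiv_rho_zero {u : E} (hu : 1 < ‖u‖) : fderiv ℝ (rho E) u = 0 := by
  have h := support_fderiv_subset ℝ (f := rho E)
  by_contra hne
  have := h hne
  rw [rho_tsupport, mem_closedBall_zero_iff] at this
  linarith

/-- The scalar kernels obtained by one differentiation. -/
noncomputable def psi (w : E) : E → ℝ := fun u => fderiv ℝ (rho E) u w

theorem psi_contDiff (w : E) : ContDiff ℝ ∞ (psi w) :=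
  fderiv_rho_contDiff.clm_apply contDiff_const

theorem psi_hcs (w : E) : HasCompactSupport (psi w) :=
  fderiv_rho_hcs.comp_left (g := fun l : E →L[ℝ] ℝ => l w) rfl

theorem psi_zero (w : E) {u : E} (hu : 1 < ‖u‖) : psi w u = 0 := by
  unfold psi; rw [fderiv_rho_zero hu]; rfl

theorem fderiv_psi_zero (w : E) {u : E} (hu : 1 < ‖u‖) : fderiv ℝ (psi w) u = 0 := by
  by_contra hne
  have h1 := support_fderiv_subset ℝ (f := psi w) hne
  have h2 : tsupport (psi w) ⊆ closedBall (0 : E) 1 := by
    apply closure_minimal _ isClosed_closedBall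
    intro z hz
    rw [mem_closedBall_zero_iff]
    by_contra hlt
    exact hz (psi_zero w (not_le.mp hlt))
  have h3 := h2 h1
  rw [mem_closedBall_zero_iff] at h3
  linarith

theorem mol_hasFDerivAt {g : E → ℝ} (hg : Continuous g) (z : E) :
    HasFDerivAt (mol g) (∫ u, g (z - u) • fderiv ℝ (rho E) u) z := by
  have h := rho_hcs.hasFDerivAt_convolution_left (μ := volume)
    (ContinuousLinearMap.lsmul ℝ ℝ) (rho_contDiff.of_le (by simp)) hg.locallyIntegrable z
  refine h.congr_fderiv ?_
  rw [convolution_def]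
  refine integral_congr_ae (Eventually.of_forall fun u => ?_)
  ext v
  simp [mul_comm]

theorem fderiv_mol {g : E → ℝ} (hg : Continuous g) (z : E) :
    fderiv ℝ (mol g) z = ∫ u, g (z - u) • fderiv ℝ (rho E) u :=
  (mol_hasFDerivAt hg z).fderiv

theorem fderiv_mol_apply {g : E → ℝ} (hg : Continuous g) (z w : E) :
    fderiv ℝ (mol g) z w = ∫ u, g (z - u) * psi w u := by
  rw [fderiv_mol hg, ContinuousLinearMap.integral_apply]
  · rfl
  · have h1 : Continuous fun u : E => g (z - u) := by fun_prop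
    exact (h1.smul fderiv_rho_contDiff.continuous).integrable_of_hasCompactSupport
      fderiv_rho_hcs.smul_left

theorem fderiv_mol_apply_hasFDerivAt {g : E → ℝ} (hg : Continuous g) (z w : E) :
    HasFDerivAt (fun z => fderiv ℝ (mol g) z w) (∫ u, g (z - u) • fderiv ℝ (psi w) u) z := by
  have h0 : (fun z => fderiv ℝ (mol g) z w) = psi w ⋆[ContinuousLinearMap.lsmul ℝ ℝ, volume] g := by
    funext z
    rw [fderiv_mol_apply hg, convolution_def]
    refine integral_congr_ae (Eventually.of_forall fun u => ?_)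
    simp [mul_comm]
  rw [h0]
  have h := (psi_hcs w).hasFDerivAt_convolution_left (μ := volume)
    (ContinuousLinearMap.lsmul ℝ ℝ) ((psi_contDiff w).of_le (by simp)) hg.locallyIntegrable z
  refine h.congr_fderiv ?_
  rw [convolution_def]
  refine integral_congr_ae (Eventually.of_forall fun u => ?_)
  ext v
  simp [mul_comm]

/-- Mollification at scale `ε`. -/
noncomputable def feps (ε : ℝ) (g : E → ℝ) : E → ℝ :=
  fun x => mol (fun y => g (ε • y)) (ε⁻¹ • x)

theorem feps_apply {ε : ℝ} (hε : ε ≠ 0) (g : E → ℝ) (x : E) :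
    feps ε g x = ∫ u, rho E u * g (x - ε • u) := by
  unfold feps
  rw [mol_apply]
  simp only [smul_sub, smul_smul, mul_inv_cancel₀ hε, one_smul]

theorem scale_continuous {g : E → ℝ} (hg : Continuous g) (ε : ℝ) :
    Continuous fun y => g (ε • y) := by fun_prop

theorem feps_contDiff {g : E → ℝ} (hg : Continuous g) (ε : ℝ) : ContDiff ℝ ∞ (feps ε g) :=
  (mol_contDiff (scale_continuous hg ε)).comp (contDiff_const_smul _)

theorem feps_hasFDerivAt {g : E → ℝ} (hg : Continuous g) {ε : ℝ} (hε : ε ≠ 0) (x : E) :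
    HasFDerivAt (feps ε g) (ε⁻¹ • ∫ u, g (x - ε • u) • fderiv ℝ (rho E) u) x := by
  have h1 := mol_hasFDerivAt (scale_continuous hg ε) (ε⁻¹ • x)
  have h2 : HasFDerivAt (fun x : E => ε⁻¹ • x) (ε⁻¹ • ContinuousLinearMap.id ℝ (E)) x :=
    (hasFDerivAt_id x).const_smul ε⁻¹
  refine (h1.comp x h2).congr_fderiv ?_
  ext v
  simp only [ContinuousLinearMap.comp_apply, smul_apply, ContinuousLinearMap.id_apply, map_smul,
    smul_sub, smul_smul, mul_inv_cancel₀ hε, one_smul]

theorem feps_fderiv {g : E → ℝ} (hg : Continuous g) {ε : ℝ} (hε : ε ≠ 0) (x : E) :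
    fderiv ℝ (feps ε g) x = ε⁻¹ • ∫ u, g (x - ε • u) • fderiv ℝ (rho E) u :=
  (feps_hasFDerivAt hg hε x).fderiv

theorem feps_fderiv2 {g : E → ℝ} (hg : Continuous g) {ε : ℝ} (hε : ε ≠ 0) (x v w : E) :
    fderiv ℝ (fderiv ℝ (feps ε g)) x v w =
      (ε⁻¹ * ε⁻¹) • ∫ u, g (x - ε • u) • fderiv ℝ (psi w) u v := by
  have hd : DifferentiableAt ℝ (fderiv ℝ (feps ε g)) x :=
    ((feps_contDiff hg ε).fderiv_right (m := (⊤ : ℕ∞)) (by simp)).differentiable (by simp) x
  have e1 : fderiv ℝ (fderiv ℝ (feps ε g)) x v w =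
      fderiv ℝ (fun y => fderiv ℝ (feps ε g) y w) x v := by
    have := hd.hasFDerivAt.clm_apply (hasFDerivAt_const w x)
    rw [this.fderiv]
    simp
  rw [e1]
  have h0 : (fun y => fderiv ℝ (feps ε g) y w) =
      fun y => ε⁻¹ * fderiv ℝ (mol (fun y => g (ε • y))) (ε⁻¹ • y) w := by
    funext x
    rw [feps_fderiv hg hε, fderiv_mol (scale_continuous hg ε)]
    simp only [smul_sub, smul_smul, mul_inv_cancel₀ hε, one_smul, smul_apply, smul_eq_mul]
  rw [h0]
  have h1 := fderiv_mol_apply_hasFDerivAt (scale_continuous hg ε) (ε⁻¹ • x) w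
  have h2 : HasFDerivAt (fun x : E => ε⁻¹ • x) (ε⁻¹ • ContinuousLinearMap.id ℝ E) x :=
    (hasFDerivAt_id x).const_smul ε⁻¹
  have h3 := (h1.comp x h2).const_mul ε⁻¹
  have h4 : fderiv ℝ (fun y => ε⁻¹ * fderiv ℝ (mol (fun y => g (ε • y))) (ε⁻¹ • y) w) x = _ :=
    h3.fderiv
  rw [h4]
  have hi : Integrable fun u => g (x - ε • u) • fderiv ℝ (psi w) u := by
    have h1 : Continuous fun u : E => g (x - ε • u) := by fun_prop
    exact (h1.smul ((psi_contDiff w).continuous_fderiv (by simp))).integrable_of_hasCompactSupport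
      ((psi_hcs w).fderiv ℝ).smul_left
  simp only [ContinuousLinearMap.comp_apply, smul_apply, ContinuousLinearMap.id_apply, map_smul,
    smul_sub, smul_smul, mul_inv_cancel₀ hε, one_smul, smul_eq_mul]
  rw [ContinuousLinearMap.integral_apply hi]
  simp only [smul_apply, smul_eq_mul]
  ring

/-- The quadratic polynomial with given 2-jet at `x`. -/
noncomputable def quad (x : E) (c : ℝ) (l : E →L[ℝ] ℝ) (B : E →L[ℝ] E →L[ℝ] ℝ) :
    E → ℝ := fun y => c + l (y - x) + (1 / 2) * B (y - x) (y - x)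

theorem quad_continuous (x : E) (c : ℝ) (l : E →L[ℝ] ℝ) (B : E →L[ℝ] E →L[ℝ] ℝ) :
    Continuous (quad x c l B) := by unfold quad; fun_prop

theorem quad_hasFDerivAt (x : E) (c : ℝ) (l : E →L[ℝ] ℝ) {B : E →L[ℝ] E →L[ℝ] ℝ}
    (hB : ∀ v w, B v w = B w v) (y : E) :
    HasFDerivAt (quad x c l B) (l + B (y - x)) y := by
  have hsub : HasFDerivAt (fun y : E => y - x) (ContinuousLinearMap.id ℝ (E)) y :=
    (hasFDerivAt_id y).sub_const x
  have hlin : HasFDerivAt (fun y : E => l (y - x)) l y := by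
    have := l.hasFDerivAt.comp y hsub
    rwa [ContinuousLinearMap.comp_id] at this
  have hA1 : HasFDerivAt (fun y : E => B (y - x)) B y := by
    have := B.hasFDerivAt.comp y hsub
    rwa [ContinuousLinearMap.comp_id] at this
  have hquad := hA1.clm_apply hsub
  have := (hlin.const_add c).add (hquad.const_mul (1 / 2 : ℝ))
  refine this.congr_fderiv ?_
  ext v
  simp only [smul_apply, add_apply, ContinuousLinearMap.comp_apply,
    ContinuousLinearMap.flip_apply, ContinuousLinearMap.id_apply, smul_eq_mul]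
  rw [hB v (y - x)]
  ring

theorem quad_fderiv (x : E) (c : ℝ) (l : E →L[ℝ] ℝ) {B : E →L[ℝ] E →L[ℝ] ℝ}
    (hB : ∀ v w, B v w = B w v) :
    fderiv ℝ (quad x c l B) = fun y => l + B (y - x) :=
  funext fun y => (quad_hasFDerivAt x c l hB y).fderiv

theorem quad_fderiv2 (x : E) (c : ℝ) (l : E →L[ℝ] ℝ) {B : E →L[ℝ] E →L[ℝ] ℝ}
    (hB : ∀ v w, B v w = B w v) (y : E) :
    fderiv ℝ (fderiv ℝ (quad x c l B)) y = B := by
  rw [quad_fderiv x c l hB]
  have hsub : HasFDerivAt (fun y : E => y - x) (ContinuousLinearMap.id ℝ (E)) y :=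
    (hasFDerivAt_id y).sub_const x
  have hA1 : HasFDerivAt (fun y : E => B (y - x)) B y := by
    have := B.hasFDerivAt.comp y hsub
    rwa [ContinuousLinearMap.comp_id] at this
  exact (hA1.const_add l).fderiv

theorem integral_rho_linear (l : E →L[ℝ] ℝ) : ∫ u, rho E u * l u = 0 := by
  have h : ∫ u, rho E u * l u = ∫ u, rho E (-u) * l (-u) :=
    (integral_neg_eq_self (fun u => rho E u * l u) volume).symm
  have h2 : ∫ u, rho E (-u) * l (-u) = -∫ u, rho E u * l u := by
    rw [← integral_neg]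
    refine integral_congr_ae (Eventually.of_forall fun u => ?_)
    simp [rho_neg]
  linarith

theorem feps_quad {ε : ℝ} (hε : ε ≠ 0) (x : E) (c : ℝ) (l : E →L[ℝ] ℝ)
    {B : E →L[ℝ] E →L[ℝ] ℝ} (hB : ∀ v w, B v w = B w v) (y : E) :
    feps ε (quad x c l B) y = quad x c l B y + ε ^ 2 / 2 * ∫ u, rho E u * B u u := by
  rw [feps_apply hε]
  have h1 : ∀ u, rho E u * quad x c l B (y - ε • u) =
      quad x c l B y * rho E u - ε * (rho E u * (l + B (y - x)) u) +
        ε ^ 2 / 2 * (rho E u * B u u) := by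
    intro u
    unfold quad
    have : y - ε • u - x = (y - x) - ε • u := by abel
    rw [this]
    simp only [map_sub, map_smul, sub_apply, smul_apply, add_apply, smul_eq_mul]
    have hs := hB u (y - x)
    simp only [map_sub, sub_apply] at hs
    linear_combination (-(ε / 2 * rho E u)) * hs
  simp_rw [h1]
  have i1 : Integrable (fun u => quad x c l B y * rho E u) :=
    ((rho_continuous (E := E)).integrable_of_hasCompactSupport rho_hcs).const_mul _
  have i2 : Integrable (fun u => ε * (rho E u * (l + B (y - x)) u)) :=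
    (rho_integrable_mul (l + B (y - x)).continuous).const_mul _
  have i3 : Integrable (fun u => ε ^ 2 / 2 * (rho E u * B u u)) :=
    (rho_integrable_mul (by fun_prop)).const_mul _
  have e1 := integral_add (i1.sub i2) i3
  have e2 := integral_sub i1 i2
  simp only [Pi.sub_apply] at e1
  rw [e1, e2, integral_const_mul, integral_const_mul, integral_const_mul, rho_integral,
    integral_rho_linear]
  ring

theorem feps_quad_fderiv {ε : ℝ} (hε : ε ≠ 0) (x : E) (c : ℝ) (l : E →L[ℝ] ℝ)
    {B : E →L[ℝ] E →L[ℝ] ℝ} (hB : ∀ v w, B v w = B w v) :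
    fderiv ℝ (feps ε (quad x c l B)) = fderiv ℝ (quad x c l B) := by
  have : feps ε (quad x c l B) = fun y => quad x c l B y + ε ^ 2 / 2 * ∫ u, rho E u * B u u :=
    funext fun y => feps_quad hε x c l hB y
  rw [this]
  funext y
  rw [fderiv_add_const]

theorem integrable_smul_gen {F : Type*} [NormedAddCommGroup F] [NormedSpace ℝ F] {Φ : E → F}
    (hΦc : Continuous Φ) (hΦs : HasCompactSupport Φ) {g : E → ℝ} (hg : Continuous g) (x : E)
    (ε : ℝ) : Integrable fun u => g (x - ε • u) • Φ u := by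
  have h1 : Continuous fun u : E => g (x - ε • u) := by fun_prop
  exact (h1.smul hΦc).integrable_of_hasCompactSupport hΦs.smul_left

/-- Generic limit: scaled moments of a function which is `o(|y - x|^2)` tend to zero. -/
theorem tendsto_gen {F : Type*} [NormedAddCommGroup F] [NormedSpace ℝ F] {Φ : E → F}
    (hΦc : Continuous Φ) (hΦs : HasCompactSupport Φ) (hΦ0 : ∀ u : E, 1 < ‖u‖ → Φ u = 0)
    {g q : E → ℝ} (hg : Continuous g) (hqc : Continuous q) {x : E}
    (hT : (fun y => g y - q y) =o[𝓝 x] fun y => ‖y - x‖ ^ 2) {a : ℝ → ℝ}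
    (ha : ∀ ε, 0 < ε → ε < 1 → |a ε| ≤ (ε ^ 2)⁻¹) :
    Tendsto (fun ε => a ε • (∫ u, g (x - ε • u) • Φ u) - a ε • ∫ u, q (x - ε • u) • Φ u)
      (𝓝[>] 0) (𝓝 0) := by
  have hsmall : ∀ η : ℝ, 0 < η → ∀ᶠ ε in 𝓝[>] (0 : ℝ), ∀ u : E, ‖u‖ ≤ 1 →
      |g (x - ε • u) - q (x - ε • u)| ≤ η * ε ^ 2 := by
    intro η hη
    rw [isLittleO_iff] at hT
    obtain ⟨r, hr, hball⟩ := Metric.eventually_nhds_iff_ball.mp (hT hη)
    filter_upwards [Ioo_mem_nhdsGT hr] with ε hε u hu
    have hmem : x - ε • u ∈ ball x r := by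
      rw [mem_ball, dist_eq_norm]
      have : x - ε • u - x = -(ε • u) := by abel
      rw [this, norm_neg, norm_smul, Real.norm_of_nonneg hε.1.le]
      calc ε * ‖u‖ ≤ ε * 1 := mul_le_mul_of_nonneg_left hu hε.1.le
        _ < r := by rw [mul_one]; exact hε.2
    have h := hball _ hmem
    rw [Real.norm_eq_abs] at h
    refine h.trans ?_
    rw [norm_pow, norm_norm]
    have : x - ε • u - x = -(ε • u) := by abel
    rw [this, norm_neg, norm_smul, Real.norm_of_nonneg hε.1.le, mul_pow]
    apply mul_le_mul_of_nonneg_left _ hη.le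
    have h1 : ‖u‖ ^ 2 ≤ 1 := pow_le_one₀ (norm_nonneg _) hu
    nlinarith [sq_nonneg ε]
  set C := ∫ u, ‖Φ u‖ with hC
  have iC : Integrable fun u => ‖Φ u‖ := (hΦc.norm).integrable_of_hasCompactSupport hΦs.norm
  have hC' : 0 ≤ C := integral_nonneg fun _ => norm_nonneg _
  rw [Metric.tendsto_nhds]
  intro δ hδ
  have hη : 0 < δ / (2 * (C + 1)) := by positivity
  filter_upwards [hsmall _ hη, Ioo_mem_nhdsGT (zero_lt_one)] with ε h1 h3
  have hε : (0 : ℝ) < ε := h3.1
  rw [dist_zero_right, ← smul_sub, ← integral_sub (integrable_smul_gen hΦc hΦs hg x ε)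
    (integrable_smul_gen hΦc hΦs hqc x ε)]
  simp only [← sub_smul]
  rw [norm_smul, Real.norm_eq_abs]
  have e2 : ‖∫ u, (g (x - ε • u) - q (x - ε • u)) • Φ u‖ ≤
      ∫ u, δ / (2 * (C + 1)) * ε ^ 2 * ‖Φ u‖ := by
    refine norm_integral_le_of_norm_le (iC.const_mul _) (Eventually.of_forall fun u => ?_)
    by_cases hu : ‖u‖ ≤ 1
    · rw [norm_smul, Real.norm_eq_abs]
      exact mul_le_mul_of_nonneg_right (h1 u hu) (norm_nonneg _)
    · rw [hΦ0 u (not_le.mp hu)]
      simp
  rw [integral_const_mul] at e2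
  calc |a ε| * ‖∫ u, (g (x - ε • u) - q (x - ε • u)) • Φ u‖
      ≤ (ε ^ 2)⁻¹ * (δ / (2 * (C + 1)) * ε ^ 2 * C) :=
        mul_le_mul (ha ε hε h3.2) e2 (norm_nonneg _) (by positivity)
    _ = δ / 2 * (C / (C + 1)) := by field_simp
    _ ≤ δ / 2 * 1 := by
        apply mul_le_mul_of_nonneg_left _ (by positivity)
        rw [div_le_one (by positivity)]; linarith
    _ < δ := by linarith

/-- Convergence of the mollified 2-jet at a point of second order differentiability. -/
theorem tendsto_feps {g : E → ℝ} (hg : Continuous g) {x : E} {c : ℝ} {l : E →L[ℝ] ℝ}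
    {B : E →L[ℝ] E →L[ℝ] ℝ} (hB : ∀ v w, B v w = B w v)
    (hT : (fun y => g y - quad x c l B y) =o[𝓝 x] fun y => ‖y - x‖ ^ 2) :
    Tendsto (fun ε => fderiv ℝ (feps ε g) x) (𝓝[>] 0) (𝓝 l) ∧
      ∀ v w, Tendsto (fun ε => fderiv ℝ (fderiv ℝ (feps ε g)) x v w) (𝓝[>] 0) (𝓝 (B v w)) := by
  set q := quad x c l B with hq
  have hqc : Continuous q := quad_continuous x c l B
  have hql : ∀ ε : ℝ, ε ≠ 0 → fderiv ℝ (feps ε q) x = l := by
    intro ε hε
    rw [hq, feps_quad_fderiv hε x c l hB, quad_fderiv x c l hB]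
    simp
  have hqB : ∀ ε : ℝ, ε ≠ 0 → fderiv ℝ (fderiv ℝ (feps ε q)) x = B := by
    intro ε hε
    rw [hq, feps_quad_fderiv hε x c l hB, quad_fderiv2 x c l hB]
  constructor
  · have h := tendsto_gen (a := fun ε => ε⁻¹) fderiv_rho_contDiff.continuous fderiv_rho_hcs
      (fun u hu => fderiv_rho_zero hu) hg hqc hT (fun ε h0 h1 => by
        rw [abs_of_pos (by positivity)]
        gcongr
        nlinarith)
    rw [tendsto_iff_norm_sub_tendsto_zero]
    have h' := h.norm
    rw [norm_zero] at h'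
    refine h'.congr' ?_
    filter_upwards [self_mem_nhdsWithin] with ε hε
    have hε' : ε ≠ 0 := ne_of_gt hε
    conv_rhs => rw [← hql ε hε', feps_fderiv hg hε', feps_fderiv hqc hε']
  · intro v w
    have hc1 : Continuous fun u => fderiv ℝ (psi w) u v :=
      ((psi_contDiff w).continuous_fderiv (by simp)).clm_apply continuous_const
    have hc2 : HasCompactSupport fun u => fderiv ℝ (psi w) u v :=
      ((psi_hcs w).fderiv ℝ).comp_left (g := fun l : E →L[ℝ] ℝ => l v) rfl
    have h := tendsto_gen (a := fun ε => ε⁻¹ * ε⁻¹) hc1 hc2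
      (fun u hu => by rw [fderiv_psi_zero w hu]; rfl) hg hqc hT (fun ε h0 h1 => by
        rw [abs_of_pos (by positivity), pow_two, mul_inv])
    rw [tendsto_iff_norm_sub_tendsto_zero]
    have h' := h.norm
    rw [norm_zero] at h'
    refine h'.congr' ?_
    filter_upwards [self_mem_nhdsWithin] with ε hε
    have hε' : ε ≠ 0 := ne_of_gt hε
    conv_rhs => rw [← hqB ε hε', feps_fderiv2 hg hε', feps_fderiv2 hqc hε']

theorem feps_lipschitz {g : E → ℝ} {K : ℝ≥0} (hg : LipschitzWith K g) {ε : ℝ} (hε : ε ≠ 0) :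
    LipschitzWith K (feps ε g) := by
  refine LipschitzWith.of_dist_le_mul fun x y => ?_
  rw [dist_eq_norm, feps_apply hε, feps_apply hε]
  have hi : ∀ x : E, Integrable fun u => rho E u * g (x - ε • u) := by
    intro x
    have := hg.continuous
    exact rho_integrable_mul (by fun_prop)
  rw [← integral_sub (hi x) (hi y)]
  have : ‖∫ u, (rho E u * g (x - ε • u) - rho E u * g (y - ε • u))‖ ≤
      ∫ u, K * dist x y * rho E u := by
    refine norm_integral_le_of_norm_le
      (((rho_continuous (E := E)).integrable_of_hasCompactSupport rho_hcs).const_mul _)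
      (Eventually.of_forall fun u => ?_)
    rw [← mul_sub, norm_mul, Real.norm_of_nonneg (rho_nonneg u), mul_comm]
    apply mul_le_mul_of_nonneg_right _ (rho_nonneg u)
    rw [← dist_eq_norm]
    refine (hg.dist_le_mul _ _).trans ?_
    rw [dist_sub_right]
  rwa [integral_const_mul, rho_integral, mul_one] at this

theorem feps_second_diff {g : E → ℝ} (hg : Continuous g)
    (hc : ∀ x v : E, 0 ≤ g (x + v) + g (x - v) - 2 * g x) {ε : ℝ} (hε : ε ≠ 0) (x v : E) :
    0 ≤ feps ε g (x + v) + feps ε g (x - v) - 2 * feps ε g x := by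
  rw [feps_apply hε, feps_apply hε, feps_apply hε]
  have hi : ∀ x : E, Integrable fun u => rho E u * g (x - ε • u) := by
    intro x
    exact rho_integrable_mul (by fun_prop)
  have e1 := integral_add (hi (x + v)) (hi (x - v))
  have e2 := integral_sub ((hi (x + v)).add (hi (x - v))) ((hi x).const_mul 2)
  simp only [Pi.add_apply] at e2
  rw [← integral_const_mul, ← e1, ← e2]
  refine integral_nonneg fun u => ?_
  have h1 := hc (x - ε • u) v
  have e1 : x + v - ε • u = x - ε • u + v := by abel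
  have e2 : x - v - ε • u = x - ε • u - v := by abel
  simp only [Pi.zero_apply]
  rw [e1, e2]
  nlinarith [rho_nonneg u, mul_nonneg (rho_nonneg u) h1]

end Pool.Agent.RobinBall
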