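import Mathlib
import Pool.Agent.RobinBall.Abp1
import Pool.Agent.RobinBall.Abp2

/-! # Contact set and convex envelope for the ABP step -/

set_option autoImplicit false

open MeasureTheory Metric Filter Asymptotics
open scoped MeasureTheory NNReal Topology RealInnerProductSpace

namespace Pool.Agent.RobinBall

variable {m : ℕ}

/-- The contact set. -/
def contactSet (D : Set (Em m)) (h : Em m → ℝ) (b : ℝ) : Set (Em m) :=
  {x | x ∈ D ∧ ‖gradient h x‖ ≤ b ∧ ∀ y ∈ D, h x + inner ℝ (gradient h x) (y - x) ≤ h y}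

/-- The affine function touching at `z`. -/
noncomputable def aff (h : Em m → ℝ) (z y : Em m) : ℝ := h z + inner ℝ (gradient h z) (y - z)

/-- The convex envelope generated by the contact set. -/
noncomputable def env (D : Set (Em m)) (h : Em m → ℝ) (b : ℝ) (y : Em m) : ℝ :=
  ⨆ z : contactSet D h b, aff h z y

theorem aff_sub {h : Em m → ℝ} (z y y' : Em m) :
    aff h z y = aff h z y' + inner ℝ (gradient h z) (y - y') := by
  unfold aff
  have : y - z = (y' - z) + (y - y') := by abel
  rw [this, inner_add_right]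
  ring

theorem aff_le_add {D : Set (Em m)} {h : Em m → ℝ} {b : ℝ} {z : Em m}
    (hz : z ∈ contactSet D h b) (y y' : Em m) : aff h z y ≤ aff h z y' + b * ‖y - y'‖ := by
  rw [aff_sub z y y']
  have h1 : inner ℝ (gradient h z) (y - y') ≤ ‖gradient h z‖ * ‖y - y'‖ := real_inner_le_norm _ _
  have h2 : ‖gradient h z‖ * ‖y - y'‖ ≤ b * ‖y - y'‖ :=
    mul_le_mul_of_nonneg_right hz.2.1 (norm_nonneg _)
  linarith

theorem env_bdd {D : Set (Em m)} {h : Em m → ℝ} {b : ℝ} {y₀ : Em m} (hy₀ : y₀ ∈ D) (y : Em m) :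
    BddAbove (Set.range fun z : contactSet D h b => aff h z y) := by
  refine ⟨h y₀ + b * ‖y - y₀‖, ?_⟩
  rintro _ ⟨z, rfl⟩
  have h1 := aff_le_add z.2 y y₀
  have h2 : aff h z y₀ ≤ h y₀ := z.2.2.2 y₀ hy₀
  simp only
  linarith

theorem aff_le_env {D : Set (Em m)} {h : Em m → ℝ} {b : ℝ} {z : Em m}
    (hz : z ∈ contactSet D h b) (y : Em m) : aff h z y ≤ env D h b y :=
  le_ciSup (env_bdd hz.1 y) ⟨z, hz⟩

theorem env_le {D : Set (Em m)} {h : Em m → ℝ} {b : ℝ} (hne : (contactSet D h b).Nonempty)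
    {y : Em m} {a : ℝ} (ha : ∀ z ∈ contactSet D h b, aff h z y ≤ a) : env D h b y ≤ a := by
  have : Nonempty (contactSet D h b) := hne.to_subtype
  exact ciSup_le fun z => ha z z.2

theorem env_le_h {D : Set (Em m)} {h : Em m → ℝ} {b : ℝ} (hne : (contactSet D h b).Nonempty)
    {y : Em m} (hy : y ∈ D) : env D h b y ≤ h y :=
  env_le hne fun _ hz => hz.2.2 y hy

theorem env_lipschitz {D : Set (Em m)} {h : Em m → ℝ} {b : ℝ≥0}
    (hne : (contactSet D h b).Nonempty) : LipschitzWith b (env D h b) := by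
  refine LipschitzWith.of_le_add_mul _ fun y y' => ?_
  refine env_le hne fun z hz => ?_
  have h1 := aff_le_add hz y y'
  have h2 := aff_le_env hz y'
  rw [dist_eq_norm]
  linarith

theorem env_second_diff {D : Set (Em m)} {h : Em m → ℝ} {b : ℝ}
    (hne : (contactSet D h b).Nonempty) (x v : Em m) :
    0 ≤ env D h b (x + v) + env D h b (x - v) - 2 * env D h b x := by
  have : env D h b x ≤ (env D h b (x + v) + env D h b (x - v)) / 2 := by
    refine env_le hne fun z hz => ?_
    have h1 := aff_le_env hz (x + v)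
    have h2 := aff_le_env hz (x - v)
    rw [aff_sub z (x + v) x] at h1
    rw [aff_sub z (x - v) x] at h2
    have e1 : x + v - x = v := by abel
    have e2 : x - v - x = -v := by abel
    rw [e1] at h1
    rw [e2, inner_neg_right] at h2
    linarith
  linarith

theorem contactSet_subset {D : Set (Em m)} {h : Em m → ℝ} {b : ℝ} : contactSet D h b ⊆ D :=
  fun _ hx => hx.1

theorem contDiffAt_of {D : Set (Em m)} (hD : IsOpen D) {h : Em m → ℝ}
    (hh : ContDiffOn ℝ (⊤ : ℕ∞) h D) {x : Em m} (hx : x ∈ D) : ContDiffAt ℝ 2 h x :=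
  (hh.contDiffAt (hD.mem_nhds hx)).of_le ENat.LEInfty.out

theorem measurableSet_contactSet {D : Set (Em m)} (hD : IsOpen D) {h : Em m → ℝ} {b : ℝ}
    (hh : ContDiffOn ℝ (⊤ : ℕ∞) h D) : MeasurableSet (contactSet D h b) := by
  have hcl : contactSet D h b = D ∩ closure (contactSet D h b) := by
    apply Set.Subset.antisymm
    · exact fun x hx => ⟨hx.1, subset_closure hx⟩
    · rintro x ⟨hxD, hxc⟩
      have hc2 := contDiffAt_of hD hh hxD
      have hcont : ContinuousAt h x := hc2.continuousAt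
      have hfc : ContinuousAt (fderiv ℝ h) x := (differentiableAt_fderiv hc2).continuousAt
      have hgc : ContinuousAt (fun y => gradient h y) x := by
        rw [gradient_fun_eq]
        exact (Jr m).continuous.continuousAt.comp hfc
      rw [mem_closure_iff_frequently] at hxc
      refine ⟨hxD, ?_, fun y hy => ?_⟩
      · have h1 : Tendsto (fun y => ‖gradient h y‖) (𝓝 x) (𝓝 ‖gradient h x‖) := hgc.norm
        by_contra hlt
        push Not at hlt
        have h2 := h1.eventually (lt_mem_nhds hlt)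
        obtain ⟨z, hz1, hz2⟩ := (hxc.and_eventually h2).exists
        exact absurd hz1.2.1 (not_le.mpr hz2)
      · have h1 : Tendsto (fun z => h z + inner ℝ (gradient h z) (y - z)) (𝓝 x)
            (𝓝 (h x + inner ℝ (gradient h x) (y - x))) :=
          hcont.add (hgc.inner (continuousAt_const.sub continuousAt_id))
        by_contra hlt
        push Not at hlt
        have h2 := h1.eventually (lt_mem_nhds hlt)
        obtain ⟨z, hz1, hz2⟩ := (hxc.and_eventually h2).exists
        exact absurd (hz1.2.2 y hy) (not_le.mpr hz2)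
  rw [hcl]
  exact hD.measurableSet.inter isClosed_closure.measurableSet

/-- At almost every contact point the envelope has the second order expansion of `h`. -/
theorem env_peano {D : Set (Em m)} (hD : IsOpen D) {h : Em m → ℝ} {b : ℝ}
    (hh : ContDiffOn ℝ (⊤ : ℕ∞) h D) (hne : (contactSet D h b).Nonempty) :
    ∀ᵐ x ∂(volume.restrict (contactSet D h b)),
      (fun y => env D h b y - quad x (h x) (fderiv ℝ h x) (fderiv ℝ (fderiv ℝ h) x) y)
        =o[𝓝 x] fun y => ‖y - x‖ ^ 2 := by
  have hdens : ∀ᵐ x ∂(volume.restrict (contactSet D h b)), ∀ K : ℕ, ∀ᶠ y in 𝓝[≠] x,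
      (contactSet D h b ∩ closedBall y (‖y - x‖ / (K + 1))).Nonempty := by
    rw [ae_all_iff]
    intro K
    filter_upwards [IsUnifLocDoublingMeasure.ae_tendsto_measure_inter_div volume
      (contactSet D h b) ((K : ℝ) + 1)] with x hx
    have hK : (0 : ℝ) < (K : ℝ) + 1 := by positivity
    have hlim : Tendsto (fun y : Em m => ‖y - x‖ / ((K : ℝ) + 1)) (𝓝[≠] x) (𝓝[>] 0) := by
      rw [tendsto_nhdsWithin_iff]
      constructor
      · have : Continuous fun y : Em m => ‖y - x‖ / ((K : ℝ) + 1) := by fun_prop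
        have h1 := this.tendsto x
        simp only [sub_self, norm_zero, zero_div] at h1
        exact h1.mono_left nhdsWithin_le_nhds
      · filter_upwards [self_mem_nhdsWithin] with y hy
        have : 0 < ‖y - x‖ := norm_pos_iff.mpr (sub_ne_zero.mpr hy)
        exact div_pos this hK
    have h2 := hx (fun y => y) (fun y : Em m => ‖y - x‖ / ((K : ℝ) + 1)) hlim
      (Eventually.of_forall fun y => by
        rw [mul_div_cancel₀ _ hK.ne', mem_closedBall, dist_comm, dist_eq_norm])
    have h3 := h2.eventually (lt_mem_nhds (show (0 : ENNReal) < 1 by norm_num))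
    filter_upwards [h3] with y hy
    by_contra hemp
    rw [Set.not_nonempty_iff_eq_empty] at hemp
    rw [hemp] at hy
    simp at hy
  filter_upwards [hdens, ae_restrict_mem (measurableSet_contactSet hD hh)] with x hx hxΓ
  have hxD : x ∈ D := hxΓ.1
  have hc2 := contDiffAt_of hD hh hxD
  obtain ⟨C, r, hC, hr, hb⟩ := c11_bound hc2
  have hT := taylor2 hc2
  rw [isLittleO_iff] at hT ⊢
  intro c hc
  have hc' : 0 < c / 2 := by positivity
  obtain ⟨K, hK⟩ := exists_nat_gt (2 * C / c)
  have hKK : C * (1 / ((K : ℝ) + 1)) ^ 2 ≤ c / 2 := by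
    have h0 : (1 : ℝ) ≤ (K : ℝ) + 1 := by linarith [Nat.cast_nonneg (α := ℝ) K]
    have h1 : C / ((K : ℝ) + 1) ≤ c / 2 := by
      rw [div_le_iff₀ (by positivity)]
      rw [div_lt_iff₀ hc] at hK
      nlinarith
    calc C * (1 / ((K : ℝ) + 1)) ^ 2 = C / ((K : ℝ) + 1) * (1 / ((K : ℝ) + 1)) := by ring
      _ ≤ C / ((K : ℝ) + 1) * 1 := by
          apply mul_le_mul_of_nonneg_left _ (by positivity)
          rw [div_le_one (by positivity)]; exact h0
      _ ≤ c / 2 := by rw [mul_one]; exact h1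
  have hxK := hx K
  rw [eventually_nhdsWithin_iff] at hxK
  filter_upwards [hT hc', hxK, hD.mem_nhds hxD, ball_mem_nhds x (half_pos hr)] with y h1 h2 h3 h4
  by_cases hyx : y = x
  · subst hyx
    have e1 : env D h b y = h y := by
      apply le_antisymm (env_le_h hne h3)
      have := aff_le_env hxΓ y
      simpa [aff] using this
    simp [quad, e1]
  obtain ⟨z, hzΓ, hzb⟩ := h2 hyx
  rw [mem_closedBall, dist_eq_norm] at hzb
  rw [mem_ball, dist_eq_norm] at h4
  have hK0 : (0 : ℝ) < (K : ℝ) + 1 := by positivity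
  have hzy : ‖y - z‖ ≤ ‖y - x‖ * (1 / ((K : ℝ) + 1)) := by
    rw [norm_sub_rev]; rw [mul_one_div]; exact hzb
  have hzy' : ‖y - z‖ ≤ ‖y - x‖ := by
    refine hzy.trans (mul_le_of_le_one_right (norm_nonneg _) ?_)
    rw [div_le_one hK0]; linarith [Nat.cast_nonneg (α := ℝ) K]
  have hzball : z ∈ ball x r := by
    rw [mem_ball, dist_eq_norm]
    calc ‖z - x‖ = ‖(y - x) - (y - z)‖ := by congr 1; abel
      _ ≤ ‖y - x‖ + ‖y - z‖ := norm_sub_le _ _
      _ < r := by linarith
  have hyball : y ∈ ball x r := by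
    rw [mem_ball, dist_eq_norm]; linarith
  have h5 := hb y hyball z hzball
  have h6 : C * ‖y - z‖ ^ 2 ≤ c / 2 * ‖y - x‖ ^ 2 := by
    calc C * ‖y - z‖ ^ 2 ≤ C * (‖y - x‖ * (1 / ((K : ℝ) + 1))) ^ 2 := by gcongr
      _ = C * (1 / ((K : ℝ) + 1)) ^ 2 * ‖y - x‖ ^ 2 := by ring
      _ ≤ c / 2 * ‖y - x‖ ^ 2 := by gcongr
  have h7 : aff h z y ≤ env D h b y := aff_le_env hzΓ y
  have h8 : env D h b y ≤ h y := env_le_h hne h3
  have h9 : aff h z y = h z + fderiv ℝ h z (y - z) := by
    unfold aff; rw [inner_gradient]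
  rw [Real.norm_eq_abs] at h1 ⊢
  rw [norm_pow, norm_norm] at h1 ⊢
  have h10 := abs_le.mp h5
  have h11 := abs_le.mp h1
  unfold quad
  rw [abs_le]
  constructor <;> nlinarith

end Pool.Agent.RobinBall
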