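import Mathlib
import Pool.Agent.RobinBall.Defs
import Pool.Agent.RobinBall.Abp3

/-! # Traces, the test fields and the contact map for the ABP step -/

set_option autoImplicit false

open MeasureTheory Metric Filter Asymptotics
open scoped MeasureTheory NNReal Topology RealInnerProductSpace

namespace Pool.Agent.RobinBall

variable {m : ℕ}

theorem trc_eq_sum (M : Em m →L[ℝ] Em m) :
    trc M = ∑ i, (M (EuclideanSpace.single i 1)) i := by
  unfold trc
  rw [LinearMap.trace_eq_sum_inner _ (EuclideanSpace.basisFun (Fin (m + 1)) ℝ)]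
  refine Finset.sum_congr rfl fun i _ => ?_
  simp [EuclideanSpace.inner_single_left]

theorem continuous_trc : Continuous (trc : (Em m →L[ℝ] Em m) → ℝ) := by
  have : (trc : (Em m →L[ℝ] Em m) → ℝ) = fun M => ∑ i, (M (EuclideanSpace.single i 1)) i :=
    funext trc_eq_sum
  rw [this]
  fun_prop

theorem dv_eq_trc (F : Em m → Em m) (x : Em m) : dv F x = trc (fderiv ℝ F x) := rfl

theorem continuous_dv {F : Em m → Em m} (hF : ContDiff ℝ 1 F) : Continuous (dv F) := by
  have : dv F = fun x => trc (fderiv ℝ F x) := rfl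
  rw [this]
  exact continuous_trc.comp (hF.continuous_fderiv (by simp))

theorem hasCompactSupport_dv {F : Em m → Em m} (hF : HasCompactSupport F) :
    HasCompactSupport (dv F) := by
  have : dv F = (trc : (Em m →L[ℝ] Em m) → ℝ) ∘ (fderiv ℝ F) := rfl
  rw [this]
  exact (hF.fderiv ℝ).comp_left (by simp [trc])

theorem norm_Jr_le (l : Em m →L[ℝ] ℝ) : ‖Jr m l‖ ≤ ‖l‖ := by
  have h1 : ‖Jr m l‖ * ‖Jr m l‖ ≤ ‖l‖ * ‖Jr m l‖ := by
    rw [← real_inner_self_eq_norm_mul_norm, Jr_inner]
    exact (le_abs_self _).trans (l.le_opNorm _)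
  by_cases h0 : ‖Jr m l‖ = 0
  · rw [h0]; exact norm_nonneg _
  · exact le_of_mul_le_mul_right h1 (lt_of_le_of_ne (norm_nonneg _) (Ne.symm h0))

theorem norm_gradient_le {f : Em m → ℝ} {K : ℝ≥0} (hf : LipschitzWith K f) (x : Em m) :
    ‖gradient f x‖ ≤ K := by
  rw [gradient_eq_Jr]
  exact (norm_Jr_le _).trans (norm_fderiv_le_of_lipschitz ℝ hf)

theorem Em_sum (v : Em m) : v = ∑ i : Fin (m + 1), v i • EuclideanSpace.single i (1 : ℝ) := by
  have := (EuclideanSpace.basisFun (Fin (m + 1)) ℝ).sum_repr v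
  simpa using this.symm

theorem trc_comp_hess (A : Em m →L[ℝ] Em m) {f : Em m → ℝ} {x : Em m}
    (hd : DifferentiableAt ℝ (fderiv ℝ f) x) :
    trc (A.comp (hess f x)) = ∑ i, ∑ j,
      fderiv ℝ (fderiv ℝ f) x (EuclideanSpace.single i 1) (EuclideanSpace.single j 1) *
        (A (EuclideanSpace.single j 1)) i := by
  rw [trc_eq_sum]
  refine Finset.sum_congr rfl fun i _ => ?_
  rw [ContinuousLinearMap.comp_apply]
  conv_lhs => rw [Em_sum (hess f x (EuclideanSpace.single i 1))]
  rw [map_sum]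
  simp only [map_smul]
  rw [WithLp.ofLp_sum, Finset.sum_apply]
  refine Finset.sum_congr rfl fun j _ => ?_
  have h1 : (hess f x (EuclideanSpace.single i 1)) j =
      fderiv ℝ (fderiv ℝ f) x (EuclideanSpace.single i 1) (EuclideanSpace.single j 1) := by
    rw [← inner_hess hd, EuclideanSpace.inner_single_right]
    simp
  rw [h1]
  simp

theorem contDiff_gradient {f : Em m → ℝ} (hf : ContDiff ℝ (⊤ : ℕ∞) f) :
    ContDiff ℝ 1 (fun y => gradient f y) := by
  rw [gradient_fun_eq]
  have h2 : ContDiff ℝ 2 f := hf.of_le ENat.LEInfty.out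
  have h1 : ContDiff ℝ 1 (fderiv ℝ f) := h2.fderiv_right (m := 1) (by norm_num)
  exact (Jr m).contDiff.comp h1

/-- The test field inequality. -/
theorem field_ineq {Ω : Set (Em m)} (hb : Bornology.IsBounded Ω) (hO : IsOpen Ω) {S β β' : ℝ}
    (hββ : β' < β)
    (hS : ∀ F : Em m → Em m, ContDiff ℝ 1 F → HasCompactSupport F → (∀ x, ‖F x‖ ≤ 1) →
      ∫ x in Ω, dv F x ≤ S)
    {Y : Em m → Em m}
    (hY : ContDiffOn ℝ 1 Y (Metric.ball 0 β)) (hY1 : ∀ p ∈ Metric.ball (0 : Em m) β, ‖Y p‖ ≤ 1)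
    (hY0 : ∀ p ∈ Metric.ball (0 : Em m) β, ∀ M : Em m →L[ℝ] Em m, M.IsPositive →
        0 ≤ trc ((fderiv ℝ Y p).comp M))
    {f : Em m → ℝ} (hf : ContDiff ℝ (⊤ : ℕ∞) f) (hg : ∀ x, ‖gradient f x‖ ≤ β')
    (hpos : ∀ x, (hess f x).IsPositive) {Γ : Set (Em m)} (hΓΩ : Γ ⊆ Ω) :
    ∫⁻ x in Γ, ENNReal.ofReal (trc ((fderiv ℝ Y (gradient f x)).comp (hess f x))) ≤
      ENNReal.ofReal S := by
  obtain ⟨R, hR⟩ := hb.subset_ball (0 : Em m)
  set R' : ℝ := max R 1 with hR'
  have hR'0 : 0 < R' := lt_of_lt_of_le one_pos (le_max_right _ _)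
  have hΩR : Ω ⊆ ball 0 R' := hR.trans (ball_subset_ball (le_max_left _ _))
  let χ : ContDiffBump (0 : Em m) := ⟨R', R' + 1, hR'0, by linarith⟩
  set F : Em m → Em m := fun x => χ x • Y (gradient f x) with hF
  have hgb : ∀ x, gradient f x ∈ ball (0 : Em m) β := by
    intro x
    rw [mem_ball_zero_iff]
    exact (hg x).trans_lt hββ
  have hcomp : ContDiff ℝ 1 (fun x => Y (gradient f x)) :=
    hY.comp_contDiff (contDiff_gradient hf) hgb
  have hF1 : ContDiff ℝ 1 F := χ.contDiff.smul hcomp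
  have hFc : HasCompactSupport F := χ.hasCompactSupport.smul_right
  have hFn : ∀ x, ‖F x‖ ≤ 1 := by
    intro x
    rw [hF]
    simp only [norm_smul, Real.norm_of_nonneg χ.nonneg]
    exact mul_le_one₀ χ.le_one (norm_nonneg _) (hY1 _ (hgb x))
  have hdv : ∀ x ∈ Ω, dv F x = trc ((fderiv ℝ Y (gradient f x)).comp (hess f x)) := by
    intro x hx
    rw [dv_eq_trc]
    have hev : F =ᶠ[𝓝 x] fun x => Y (gradient f x) := by
      filter_upwards [isOpen_ball.mem_nhds (hΩR hx)] with y hy
      rw [hF]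
      have : χ y = 1 := χ.one_of_mem_closedBall (ball_subset_closedBall hy)
      simp only [this, one_smul]
    rw [hev.fderiv_eq]
    congr 1
    have h1 : DifferentiableAt ℝ Y (gradient f x) :=
      (hY.contDiffAt (isOpen_ball.mem_nhds (hgb x))).differentiableAt (by norm_num)
    have h2 : DifferentiableAt ℝ (fun y => gradient f y) x :=
      (contDiff_gradient hf).contDiffAt.differentiableAt (by norm_num)
    exact fderiv_comp x h1 h2
  have hpos' : ∀ x ∈ Ω, 0 ≤ dv F x := by
    intro x hx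
    rw [hdv x hx]
    exact hY0 _ (hgb x) _ (hpos x)
  have hint : Integrable (dv F) :=
    (continuous_dv hF1).integrable_of_hasCompactSupport (hasCompactSupport_dv hFc)
  calc ∫⁻ x in Γ, ENNReal.ofReal (trc ((fderiv ℝ Y (gradient f x)).comp (hess f x)))
      ≤ ∫⁻ x in Ω, ENNReal.ofReal (trc ((fderiv ℝ Y (gradient f x)).comp (hess f x))) :=
        lintegral_mono_set hΓΩ
    _ = ∫⁻ x in Ω, ENNReal.ofReal (dv F x) := by
        refine setLIntegral_congr_fun hO.measurableSet fun x hx => ?_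
        simp only [hdv x hx]
    _ = ENNReal.ofReal (∫ x in Ω, dv F x) := by
        rw [ofReal_integral_eq_lintegral_ofReal hint.integrableOn]
        exact (ae_restrict_iff' hO.measurableSet).mpr (Eventually.of_forall hpos')
    _ ≤ ENNReal.ofReal S := ENNReal.ofReal_le_ofReal (hS F hF1 hFc hFn)

/-- A minimum point of `h - ⟨p, ·⟩` on the open set `D` lies in the contact set with gradient
`p`. -/
theorem contact_surj {D : Set (Em m)} (hD : IsOpen D) {h : Em m → ℝ}
    (hh : ContDiffOn ℝ (⊤ : ℕ∞) h D) {b : ℝ} {p : Em m} (hp : ‖p‖ ≤ b)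
    (hc : ∃ x ∈ D, ∀ y ∈ D, h x - inner ℝ p x ≤ h y - inner ℝ p y) :
    ∃ x ∈ contactSet D h b, gradient h x = p := by
  obtain ⟨x, hx, hmin⟩ := hc
  have hdiff : DifferentiableAt ℝ h x := (contDiffAt_of hD hh hx).differentiableAt (by norm_num)
  have hlm : IsLocalMin (fun y => h y - inner ℝ p y) x := by
    filter_upwards [hD.mem_nhds hx] with y hy using hmin y hy
  have h0 := hlm.fderiv_eq_zero
  have hg : gradient h x = p := by
    refine ext_inner_right ℝ fun v => ?_
    rw [inner_gradient]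
    have h1 : HasFDerivAt (fun y => h y - inner ℝ p y) (fderiv ℝ h x - innerSL ℝ p) x :=
      hdiff.hasFDerivAt.sub (innerSL ℝ p).hasFDerivAt
    rw [h1.fderiv] at h0
    have h2 := DFunLike.congr_fun h0 v
    simp only [sub_apply, innerSL_apply_apply, zero_apply] at h2
    linarith
  refine ⟨x, ⟨hx, by rw [hg]; exact hp, fun y hy => ?_⟩, hg⟩
  rw [hg, inner_sub_right]
  have := hmin y hy
  linarith

theorem hess_pos_contact {D : Set (Em m)} (hD : IsOpen D) {h : Em m → ℝ}
    (hh : ContDiffOn ℝ (⊤ : ℕ∞) h D) {b : ℝ} {x : Em m} (hx : x ∈ contactSet D h b) :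
    (hess h x).IsPositive := by
  refine hess_isPositive (contDiffAt_of hD hh hx.1) fun v => ?_
  have ht1 : Tendsto (fun t : ℝ => x + t • v) (𝓝[>] 0) (𝓝 x) := by
    have : Continuous fun t : ℝ => x + t • v := by fun_prop
    have := this.tendsto 0
    simp only [zero_smul, add_zero] at this
    exact this.mono_left nhdsWithin_le_nhds
  have ht2 : Tendsto (fun t : ℝ => x - t • v) (𝓝[>] 0) (𝓝 x) := by
    have : Continuous fun t : ℝ => x - t • v := by fun_prop
    have := this.tendsto 0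
    simp only [zero_smul, sub_zero] at this
    exact this.mono_left nhdsWithin_le_nhds
  filter_upwards [ht1.eventually (hD.mem_nhds hx.1), ht2.eventually (hD.mem_nhds hx.1)]
    with t h1 h2
  have h3 := hx.2.2 _ h1
  have h4 := hx.2.2 _ h2
  have e1 : x + t • v - x = t • v := by abel
  have e2 : x - t • v - x = -(t • v) := by abel
  rw [e1] at h3
  rw [e2, inner_neg_right] at h4
  linarith

theorem det_nonneg_of_isPositive {M : Em m →L[ℝ] Em m} (hM : M.IsPositive) :
    0 ≤ LinearMap.det (M : Em m →ₗ[ℝ] Em m) := by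
  have hM' : (M : Em m →ₗ[ℝ] Em m).IsPositive := hM.toLinearMap
  have hn : Module.finrank ℝ (Em m) = m + 1 := by simp
  rw [hM'.isSymmetric.det_eq_prod_eigenvalues hn]
  exact Finset.prod_nonneg fun i _ => by
    simpa using hM'.nonneg_eigenvalues hn i

end Pool.Agent.RobinBall
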