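import Mathlib
import Pool.Agent.RobinBall.Defs
import Pool.Agent.RobinBall.Abp4

/-! # The ABP inequality (package D) -/

set_option autoImplicit false

open MeasureTheory Metric Filter Asymptotics
open scoped MeasureTheory NNReal ENNReal Topology RealInnerProductSpace

namespace Pool.Agent.RobinBall

variable {m : ℕ}

theorem measurable_gradient (h : Em m → ℝ) : Measurable fun y => gradient h y := by
  rw [gradient_fun_eq]
  exact (Jr m).continuous.measurable.comp (measurable_fderiv ℝ h)

theorem measurable_det_hess (h : Em m → ℝ) :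
    Measurable fun y => (hess h y).det := by
  have h1 : Measurable (fun y => hess h y) := measurable_fderiv ℝ _
  exact ContinuousLinearMap.continuous_det.measurable.comp h1

/-- Weighted area inequality for the contact map. -/
theorem area_ineq {D : Set (Em m)} (hD : IsOpen D) {h : Em m → ℝ}
    (hh : ContDiffOn ℝ (⊤ : ℕ∞) h D) {b : ℝ}
    (hcontact : ∀ p ∈ Metric.closedBall (0 : Em m) b, ∃ x ∈ D, ∀ y ∈ D,
        h x - inner ℝ p x ≤ h y - inner ℝ p y)
    {w : Em m → ℝ≥0∞} (hw : Measurable w) :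
    ∫⁻ p in ball (0 : Em m) b, w p ≤
      ∫⁻ x in contactSet D h b, ENNReal.ofReal |(hess h x).det| * w (gradient h x) := by
  set Γ := contactSet D h b with hΓ
  have hΓm : MeasurableSet Γ := measurableSet_contactSet hD hh
  have hgm := measurable_gradient h
  have hdm : Measurable fun x => ENNReal.ofReal |(hess h x).det| :=
    ENNReal.measurable_ofReal.comp (continuous_abs.measurable.comp (measurable_det_hess h))
  set ν : Measure (Em m) := (volume.restrict Γ).withDensity
    fun x => ENNReal.ofReal |(hess h x).det| with hν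
  have hle : volume.restrict (ball (0 : Em m) b) ≤ ν.map (fun y => gradient h y) := by
    refine Measure.le_iff.mpr fun A hA => ?_
    rw [Measure.restrict_apply hA, Measure.map_apply hgm hA, hν,
      withDensity_apply _ (hgm hA), Measure.restrict_restrict (hgm hA)]
    have hsub : A ∩ ball (0 : Em m) b ⊆ (fun y => gradient h y) ''
        ((fun y => gradient h y) ⁻¹' A ∩ Γ) := by
      rintro p ⟨hpA, hpb⟩
      obtain ⟨x, hx, hxp⟩ := contact_surj hD hh (mem_ball_zero_iff.mp hpb).le
        (hcontact p (ball_subset_closedBall hpb))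
      exact ⟨x, ⟨by simpa [hxp] using hpA, hx⟩, hxp⟩
    refine (measure_mono hsub).trans ?_
    refine addHaar_image_le_lintegral_abs_det_fderiv volume ((hgm hA).inter hΓm)
      (f' := fun x => hess h x) fun x hx => ?_
    have hc2 := contDiffAt_of hD hh hx.2.1
    have hd := differentiableAt_fderiv hc2
    have : DifferentiableAt ℝ (fun y => gradient h y) x := by
      rw [gradient_fun_eq]
      exact (Jr m).differentiableAt.comp x hd
    exact this.hasFDerivAt.hasFDerivWithinAt
  calc ∫⁻ p in ball (0 : Em m) b, w p ≤ ∫⁻ p, w p ∂(ν.map (fun y => gradient h y)) :=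
        lintegral_mono' hle le_rfl
    _ = ∫⁻ x, w (gradient h x) ∂ν := lintegral_map hw hgm
    _ = ∫⁻ x in Γ, ENNReal.ofReal |(hess h x).det| * w (gradient h x) := by
        exact lintegral_withDensity_eq_lintegral_mul (volume.restrict Γ) hdm (hw.comp hgm)

/-- The trace inequality integrated over the contact set. -/
theorem contact_trace_le {Ω D : Set (Em m)} (hb : Bornology.IsBounded Ω)
    (hO : IsOpen Ω) (hD : IsOpen D) (hDΩ : D ⊆ Ω) {S β β' : ℝ} (hβ' : 0 < β') (hββ : β' < β)
    (hS : ∀ F : Em m → Em m, ContDiff ℝ 1 F → HasCompactSupport F → (∀ x, ‖F x‖ ≤ 1) →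
      ∫ x in Ω, dv F x ≤ S)
    {Y : Em m → Em m}
    (hY : ContDiffOn ℝ 1 Y (Metric.ball 0 β)) (hY1 : ∀ p ∈ Metric.ball (0 : Em m) β, ‖Y p‖ ≤ 1)
    (hY0 : ∀ p ∈ Metric.ball (0 : Em m) β, ∀ M : Em m →L[ℝ] Em m, M.IsPositive →
        0 ≤ trc ((fderiv ℝ Y p).comp M))
    {h : Em m → ℝ} (hh : ContDiffOn ℝ (⊤ : ℕ∞) h D)
    (hne : (contactSet D h β').Nonempty) :
    ∫⁻ x in contactSet D h β',
      ENNReal.ofReal (trc ((fderiv ℝ Y (gradient h x)).comp (hess h x))) ≤ ENNReal.ofReal S := by
  set Γ := contactSet D h β' with hΓ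
  have hΓm : MeasurableSet Γ := measurableSet_contactSet hD hh
  have hb' : ((β'.toNNReal : ℝ≥0) : ℝ) = β' := Real.coe_toNNReal _ hβ'.le
  set g := env D h β' with hg
  have hgL : LipschitzWith β'.toNNReal g := by
    have hne' : (contactSet D h ((β'.toNNReal : ℝ≥0) : ℝ)).Nonempty := by rw [hb']; exact hne
    have := env_lipschitz (D := D) (h := h) (b := β'.toNNReal) hne'
    rwa [hb'] at this
  have hgc : Continuous g := hgL.continuous
  -- the mollified functions
  set e : ℕ → ℝ := fun n => 1 / ((n : ℝ) + 1) with he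
  have he0 : ∀ n, 0 < e n := fun n => by rw [he]; positivity
  have hetend : Tendsto e atTop (𝓝[>] 0) := by
    rw [tendsto_nhdsWithin_iff]
    exact ⟨tendsto_one_div_add_atTop_nhds_zero_nat, Eventually.of_forall he0⟩
  set f : ℕ → Em m → ℝ := fun n => feps (e n) g with hf
  have hfc : ∀ n, ContDiff ℝ (⊤ : ℕ∞) (f n) := fun n => feps_contDiff hgc (e n)
  have hfg : ∀ n x, ‖gradient (f n) x‖ ≤ β' := by
    intro n x
    have h1 := feps_lipschitz hgL (he0 n).ne'
    have := norm_gradient_le h1 x
    rwa [hb'] at this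
  have hfp : ∀ n x, (hess (f n) x).IsPositive := by
    intro n x
    refine hess_isPositive ((hfc n).contDiffAt.of_le ENat.LEInfty.out) fun v => ?_
    refine Eventually.of_forall fun t => ?_
    exact feps_second_diff hgc (fun x v => env_second_diff hne x v) (he0 n).ne' x (t • v)
  have hΓΩ : Γ ⊆ Ω := contactSet_subset.trans hDΩ
  have hineq : ∀ n, ∫⁻ x in Γ,
      ENNReal.ofReal (trc ((fderiv ℝ Y (gradient (f n) x)).comp (hess (f n) x))) ≤
        ENNReal.ofReal S := fun n =>
    field_ineq hb hO hββ hS hY hY1 hY0 (hfc n) (hfg n) (hfp n) hΓΩ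
  -- pointwise convergence
  have hlim : ∀ᵐ x ∂(volume.restrict Γ), Tendsto
      (fun n => ENNReal.ofReal (trc ((fderiv ℝ Y (gradient (f n) x)).comp (hess (f n) x))))
      atTop (𝓝 (ENNReal.ofReal (trc ((fderiv ℝ Y (gradient h x)).comp (hess h x))))) := by
    filter_upwards [env_peano hD hh hne, ae_restrict_mem hΓm] with x hx hxΓ
    have hc2 := contDiffAt_of hD hh hxΓ.1
    have hd := differentiableAt_fderiv hc2
    obtain ⟨t1, t2⟩ := tendsto_feps hgc (symm_d2 hc2) hx
    have t1' := t1.comp hetend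
    have hgrad : Tendsto (fun n => gradient (f n) x) atTop (𝓝 (gradient h x)) := by
      simp only [gradient_eq_Jr]
      exact ((Jr m).continuous.tendsto _).comp t1'
    have hgb : gradient h x ∈ ball (0 : Em m) β := by
      rw [mem_ball_zero_iff]
      exact hxΓ.2.1.trans_lt hββ
    have hYc : ContinuousAt (fderiv ℝ Y) (gradient h x) := by
      have : ContDiffAt ℝ 1 Y (gradient h x) := hY.contDiffAt (isOpen_ball.mem_nhds hgb)
      exact (this.fderiv_right (m := 0) (by norm_num)).continuousAt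
    have hYt : Tendsto (fun n => fderiv ℝ Y (gradient (f n) x)) atTop
        (𝓝 (fderiv ℝ Y (gradient h x))) := hYc.tendsto.comp hgrad
    refine (ENNReal.continuous_ofReal.tendsto _).comp ?_
    have e1 : ∀ n, trc ((fderiv ℝ Y (gradient (f n) x)).comp (hess (f n) x)) = ∑ i, ∑ j,
      fderiv ℝ (fderiv ℝ (f n)) x (EuclideanSpace.single i 1) (EuclideanSpace.single j 1) *
        (fderiv ℝ Y (gradient (f n) x) (EuclideanSpace.single j 1)) i := fun n =>
      trc_comp_hess _ (differentiableAt_fderiv ((hfc n).contDiffAt.of_le ENat.LEInfty.out))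
    simp only [e1]
    rw [trc_comp_hess _ hd]
    refine tendsto_finsetSum _ fun i _ => tendsto_finsetSum _ fun j _ => ?_
    refine Tendsto.mul ((t2 _ _).comp hetend) ?_
    have hev : Continuous fun A : Em m →L[ℝ] Em m => (A (EuclideanSpace.single j 1)) i := by
      fun_prop
    exact (hev.tendsto _).comp hYt
  have hmeas : ∀ n, AEMeasurable
      (fun x => ENNReal.ofReal (trc ((fderiv ℝ Y (gradient (f n) x)).comp (hess (f n) x))))
      (volume.restrict Γ) := by
    intro n
    have hYm : Measurable (fderiv ℝ Y) := measurable_fderiv ℝ Y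
    have h1 : Measurable fun x => fderiv ℝ Y (gradient (f n) x) :=
      hYm.comp (measurable_gradient _)
    have h2 : Measurable fun x => hess (f n) x := measurable_fderiv ℝ _
    have h3 : Measurable fun x => (fderiv ℝ Y (gradient (f n) x)).comp (hess (f n) x) := by
      have hc : Continuous fun q : (Em m →L[ℝ] Em m) × (Em m →L[ℝ] Em m) => q.1.comp q.2 := by
        fun_prop
      exact hc.measurable.comp (h1.prodMk h2)
    exact (ENNReal.measurable_ofReal.comp (continuous_trc.measurable.comp h3)).aemeasurable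
  calc ∫⁻ x in Γ, ENNReal.ofReal (trc ((fderiv ℝ Y (gradient h x)).comp (hess h x)))
      = ∫⁻ x in Γ, liminf (fun n => ENNReal.ofReal
          (trc ((fderiv ℝ Y (gradient (f n) x)).comp (hess (f n) x)))) atTop := by
        refine lintegral_congr_ae ?_
        filter_upwards [hlim] with x hx using hx.liminf_eq.symm
    _ ≤ liminf (fun n => ∫⁻ x in Γ, ENNReal.ofReal
          (trc ((fderiv ℝ Y (gradient (f n) x)).comp (hess (f n) x)))) atTop :=
        lintegral_liminf_le' hmeas
    _ ≤ ENNReal.ofReal S := by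
        refine liminf_le_of_le ?_ ?_
        · isBoundedDefault
        · intro b hb
          obtain ⟨n, hn⟩ := hb.exists
          exact hn.trans (hineq n)

theorem abp {m : ℕ} (hm : 1 ≤ m) {Ω D : Set (Em m)} (hb : Bornology.IsBounded Ω)
    (hO : IsOpen Ω) (hD : IsOpen D) (hDΩ : D ⊆ Ω) {S β β' θ κ : ℝ} (hβ' : 0 < β') (hββ : β' < β)
    (hθ : 0 < θ) (hθ1 : θ ≤ 1)
    (hS : ∀ F : Em m → Em m, ContDiff ℝ 1 F → HasCompactSupport F → (∀ x, ‖F x‖ ≤ 1) →
      ∫ x in Ω, dv F x ≤ S)
    {Y : Em m → Em m} {s : Em m → ℝ}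
    (hY : ContDiffOn ℝ 1 Y (Metric.ball 0 β)) (hY1 : ∀ p ∈ Metric.ball (0 : Em m) β, ‖Y p‖ ≤ 1)
    (hs : ContinuousOn s (Metric.ball 0 β)) (hs0 : ∀ p ∈ Metric.ball (0 : Em m) β, 0 ≤ s p)
    (hY0 : ∀ p ∈ Metric.ball (0 : Em m) β, ∀ M : Em m →L[ℝ] Em m, M.IsPositive →
        0 ≤ trc ((fderiv ℝ Y p).comp M))
    (hYs : ∀ p ∈ Metric.ball (0 : Em m) β, ∀ M : Em m →L[ℝ] Em m, M.IsPositive →
        trc M ≤ θ * (κ ^ 2 - ‖p‖ ^ 2) →
        (θ ^ m)⁻¹ * s p * LinearMap.det (M : Em m →ₗ[ℝ] Em m) ≤ trc ((fderiv ℝ Y p).comp M))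
    {h : Em m → ℝ} (hh : ContDiffOn ℝ (⊤ : ℕ∞) h D)
    (hcontact : ∀ p ∈ Metric.closedBall (0 : Em m) β', ∃ x ∈ D, ∀ y ∈ D,
        h x - inner ℝ p x ≤ h y - inner ℝ p y)
    (hpde : ∀ x ∈ D, (hess h x).IsPositive →
        trc (hess h x) ≤ θ * (κ ^ 2 - ‖gradient h x‖ ^ 2)) :
    (θ ^ m)⁻¹ * ∫ p in Metric.ball (0 : Em m) β', s p ≤ S := by
  have hne : (contactSet D h β').Nonempty := by
    obtain ⟨x, hx, -⟩ := contact_surj hD hh (b := β') (p := 0) (by simpa using hβ'.le)
      (hcontact 0 (by simpa using hβ'.le))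
    exact ⟨x, hx⟩
  have hS0 : 0 ≤ S := by
    have h1 := hS (fun _ => 0) contDiff_const HasCompactSupport.zero (by simp)
    have h2 : ∀ x : Em m, dv (fun _ => (0 : Em m)) x = 0 := by
      intro x
      rw [dv_eq_trc]
      simp [trc]
    simpa [h2] using h1
  have hθm : 0 < (θ ^ m)⁻¹ := by positivity
  set Γ := contactSet D h β' with hΓ
  have hΓm : MeasurableSet Γ := measurableSet_contactSet hD hh
  have hsub : ball (0 : Em m) β' ⊆ ball 0 β := ball_subset_ball hββ.le
  have hsubc : closedBall (0 : Em m) β' ⊆ ball 0 β := closedBall_subset_ball hββ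
  -- the weight
  classical
  set w : Em m → ℝ≥0∞ := (ball (0 : Em m) β).piecewise
    (fun p => ENNReal.ofReal ((θ ^ m)⁻¹ * s p)) 0 with hw
  have hwm : Measurable w := by
    refine ContinuousOn.measurable_piecewise ?_ continuousOn_const measurableSet_ball
    exact ENNReal.continuous_ofReal.comp_continuousOn (continuousOn_const.mul hs)
  have hwe : ∀ p ∈ ball (0 : Em m) β, w p = ENNReal.ofReal ((θ ^ m)⁻¹ * s p) := fun p hp =>
    Set.piecewise_eq_of_mem _ _ _ hp
  have hsint : IntegrableOn (fun p => (θ ^ m)⁻¹ * s p) (ball (0 : Em m) β') :=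
    ((continuousOn_const.mul (hs.mono hsubc)).integrableOn_compact
      (isCompact_closedBall _ _)).mono_set ball_subset_closedBall
  have key : ENNReal.ofReal ((θ ^ m)⁻¹ * ∫ p in Metric.ball (0 : Em m) β', s p) ≤
      ENNReal.ofReal S := by
    calc ENNReal.ofReal ((θ ^ m)⁻¹ * ∫ p in Metric.ball (0 : Em m) β', s p)
        = ∫⁻ p in ball (0 : Em m) β', ENNReal.ofReal ((θ ^ m)⁻¹ * s p) := by
          rw [← integral_const_mul, ofReal_integral_eq_lintegral_ofReal hsint]
          refine (ae_restrict_iff' measurableSet_ball).mpr (Eventually.of_forall fun p hp => ?_)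
          exact mul_nonneg hθm.le (hs0 p (hsub hp))
      _ = ∫⁻ p in ball (0 : Em m) β', w p := by
          refine setLIntegral_congr_fun measurableSet_ball fun p hp => ?_
          exact (hwe p (hsub hp)).symm
      _ ≤ ∫⁻ x in Γ, ENNReal.ofReal |(hess h x).det| * w (gradient h x) :=
          area_ineq hD hh hcontact hwm
      _ ≤ ∫⁻ x in Γ, ENNReal.ofReal (trc ((fderiv ℝ Y (gradient h x)).comp (hess h x))) := by
          refine setLIntegral_mono' hΓm fun x hx => ?_
          have hgb : gradient h x ∈ ball (0 : Em m) β := by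
            rw [mem_ball_zero_iff]
            exact hx.2.1.trans_lt hββ
          have hpos := hess_pos_contact hD hh hx
          have hdet : 0 ≤ (hess h x).det := det_nonneg_of_isPositive hpos
          rw [hwe _ hgb, ← ENNReal.ofReal_mul (abs_nonneg _), abs_of_nonneg hdet]
          refine ENNReal.ofReal_le_ofReal ?_
          have h1 := hYs _ hgb _ hpos (hpde x hx.1 hpos)
          calc (hess h x).det * ((θ ^ m)⁻¹ * s (gradient h x))
              = (θ ^ m)⁻¹ * s (gradient h x) * LinearMap.det (hess h x : Em m →ₗ[ℝ] Em m) := by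
                rw [mul_comm]
            _ ≤ _ := h1
      _ ≤ ENNReal.ofReal S := contact_trace_le hb hO hD hDΩ hβ' hββ hS hY hY1 hY0 hh hne
  exact (ENNReal.ofReal_le_ofReal_iff hS0).mp key

end Pool.Agent.RobinBall
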