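import Mathlib
import Pool.Agent.RobinBall.Defs

/-!
# Area formula for Lipschitz graphs with respect to Hausdorff measure
-/

set_option autoImplicit false

open MeasureTheory Metric Set Filter Topology
open scoped MeasureTheory NNReal ENNReal

namespace Pool.Agent.RobinBall

/-! ## The constant `cH` -/

theorem cH_isHaar (m : ℕ) :
    (Measure.hausdorffMeasure (m : ℝ) : Measure (EuclideanSpace ℝ (Fin m))).IsAddHaarMeasure := by
  have h := isAddHaarMeasure_hausdorffMeasure (E := EuclideanSpace ℝ (Fin m))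
  simpa using h

theorem hausdorff_eq_smul (m : ℕ) (s : Set (EuclideanSpace ℝ (Fin m))) :
    Measure.hausdorffMeasure (m : ℝ) s = ENNReal.ofReal (cH m) * volume s := by
  have := cH_isHaar m
  have key : (Measure.hausdorffMeasure (m : ℝ) : Measure (EuclideanSpace ℝ (Fin m))) =
      Measure.addHaarScalarFactor (Measure.hausdorffMeasure (m : ℝ))
        (volume : Measure (EuclideanSpace ℝ (Fin m))) • volume :=
    Measure.isAddLeftInvariant_eq_smul _ _
  set c : ℝ≥0 := Measure.addHaarScalarFactor (Measure.hausdorffMeasure (m : ℝ))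
        (volume : Measure (EuclideanSpace ℝ (Fin m))) with hc
  have hb : (Measure.hausdorffMeasure (m : ℝ) (Metric.ball (0 : EuclideanSpace ℝ (Fin m)) 1)) =
      (c : ℝ≥0∞) * volume (Metric.ball (0 : EuclideanSpace ℝ (Fin m)) 1) := by
    conv_lhs => rw [key]
    rfl
  have hv : 0 < (volume (Metric.ball (0 : EuclideanSpace ℝ (Fin m)) 1)).toReal :=
    ENNReal.toReal_pos (Metric.measure_ball_pos _ _ one_pos).ne' measure_ball_lt_top.ne
  have hcH : cH m = (c : ℝ) := by
    rw [cH, hb, ENNReal.toReal_mul, ENNReal.coe_toReal]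
    field_simp
  rw [hcH, ENNReal.ofReal_coe_nnreal]
  conv_lhs => rw [key]
  rfl

theorem cH_pos (m : ℕ) : 0 < cH m := by
  have := cH_isHaar m
  unfold cH
  apply div_pos
  · apply ENNReal.toReal_pos (Metric.measure_ball_pos _ _ one_pos).ne' measure_ball_lt_top.ne
  · apply ENNReal.toReal_pos (Metric.measure_ball_pos _ _ one_pos).ne' measure_ball_lt_top.ne

/-! ## Comparison of images -/

theorem hausdorff_image_le_of_edist {X Y Z : Type*} [Nonempty X]
    [EMetricSpace Y] [MeasurableSpace Y] [BorelSpace Y]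
    [EMetricSpace Z] [MeasurableSpace Z] [BorelSpace Z] {F : X → Y} {T : X → Z} {s : Set X}
    {K : ℝ≥0} {d : ℝ} (hd : 0 ≤ d)
    (h : ∀ x ∈ s, ∀ y ∈ s, edist (F x) (F y) ≤ K * edist (T x) (T y)) :
    Measure.hausdorffMeasure d (F '' s) ≤ (K : ℝ≥0∞) ^ d * Measure.hausdorffMeasure d (T '' s) := by
  classical
  set φ : Z → Y := fun z => F (Function.invFunOn T s z) with hφ
  have hinv : ∀ x ∈ s, Function.invFunOn T s (T x) ∈ s ∧ T (Function.invFunOn T s (T x)) = T x := by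
    intro x hx
    exact ⟨Function.invFunOn_mem ⟨x, hx, rfl⟩, Function.invFunOn_eq ⟨x, hx, rfl⟩⟩
  have hφe : ∀ x ∈ s, φ (T x) = F x := by
    intro x hx
    obtain ⟨h1, h2⟩ := hinv x hx
    have := h _ h1 x hx
    rw [h2, edist_self, mul_zero] at this
    exact edist_le_zero.1 this
  have hLip : LipschitzOnWith K φ (T '' s) := by
    rintro _ ⟨x, hx, rfl⟩ _ ⟨y, hy, rfl⟩
    rw [hφe x hx, hφe y hy]
    exact h x hx y hy
  have himg : φ '' (T '' s) = F '' s := by
    ext y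
    constructor
    · rintro ⟨_, ⟨x, hx, rfl⟩, rfl⟩
      exact ⟨x, hx, (hφe x hx).symm⟩
    · rintro ⟨x, hx, rfl⟩
      exact ⟨T x, ⟨x, hx, rfl⟩, hφe x hx⟩
  rw [← himg]
  exact hLip.hausdorffMeasure_image_le hd

/-! ## The comparison linear map -/

/-- `1 + Σ a_i²`, square rooted. -/
noncomputable def wt {m : ℕ} (A : (Fin m → ℝ) →L[ℝ] ℝ) : ℝ :=
  Real.sqrt (1 + ∑ i, (A (Pi.single i 1)) ^ 2)

theorem one_le_wt {m : ℕ} (A : (Fin m → ℝ) →L[ℝ] ℝ) : 1 ≤ wt A := by
  unfold wt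
  rw [Real.one_le_sqrt]
  have : 0 ≤ ∑ i, (A (Pi.single i 1)) ^ 2 := Finset.sum_nonneg fun i _ => sq_nonneg _
  linarith

theorem wt_sq {m : ℕ} (A : (Fin m → ℝ) →L[ℝ] ℝ) :
    wt A ^ 2 = 1 + ∑ i, (A (Pi.single i 1)) ^ 2 := by
  unfold wt
  rw [Real.sq_sqrt]
  have : 0 ≤ ∑ i, (A (Pi.single i 1)) ^ 2 := Finset.sum_nonneg fun i _ => sq_nonneg _
  linarith

theorem apply_eq_sum {m : ℕ} (A : (Fin m → ℝ) →L[ℝ] ℝ) (x : Fin m → ℝ) :
    A x = ∑ i, x i * A (Pi.single i 1) := by
  conv_lhs => rw [← Finset.univ_sum_single x]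
  rw [map_sum]
  refine Finset.sum_congr rfl fun i _ => ?_
  have : (Pi.single i (x i) : Fin m → ℝ) = x i • Pi.single i 1 := by
    rw [← Pi.single_smul]; simp
  rw [this, map_smul, smul_eq_mul]

/-- The linear map `x + (A x)/(1+w) a` where `a` is the gradient of `A`; it has the same
pull-back metric as the graph of `A`. -/
noncomputable def cmpMap {m : ℕ} (A : (Fin m → ℝ) →L[ℝ] ℝ) : (Fin m → ℝ) →ₗ[ℝ] (Fin m → ℝ) :=
  LinearMap.transvection (A : (Fin m → ℝ) →ₗ[ℝ] ℝ)
    ((1 + wt A)⁻¹ • fun i => A (Pi.single i 1))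

theorem cmpMap_apply {m : ℕ} (A : (Fin m → ℝ) →L[ℝ] ℝ) (x : Fin m → ℝ) (i : Fin m) :
    cmpMap A x i = x i + A x * ((1 + wt A)⁻¹ * A (Pi.single i 1)) := by
  simp [cmpMap, LinearMap.transvection.apply]

theorem det_cmpMap {m : ℕ} (A : (Fin m → ℝ) →L[ℝ] ℝ) :
    LinearMap.det (cmpMap A) = wt A := by
  unfold cmpMap
  rw [LinearMap.transvection.det]
  have h1 := one_le_wt A
  have h2 := wt_sq A
  have h3 : A (fun i => A (Pi.single i 1)) = ∑ i, (A (Pi.single i 1)) ^ 2 := by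
    rw [apply_eq_sum]
    exact Finset.sum_congr rfl fun i _ => by ring
  simp only [map_smul, smul_eq_mul, ContinuousLinearMap.coe_coe]
  rw [h3]
  have h4 : ∑ i, (A (Pi.single i 1)) ^ 2 = (wt A - 1) * (1 + wt A) := by nlinarith
  rw [h4]
  have : (1 + wt A) ≠ 0 := by linarith
  field_simp
  ring

theorem sum_sq_cmpMap {m : ℕ} (A : (Fin m → ℝ) →L[ℝ] ℝ) (x : Fin m → ℝ) :
    ∑ i, (cmpMap A x i) ^ 2 = ∑ i, (x i) ^ 2 + (A x) ^ 2 := by
  have h1 := one_le_wt A
  have h2 := wt_sq A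
  have h4 : ∑ i, (A (Pi.single i 1)) ^ 2 = (wt A - 1) * (1 + wt A) := by nlinarith
  have e : ∀ i, (cmpMap A x i) ^ 2 = (x i) ^ 2 + 2 * (A x) * (1 + wt A)⁻¹ * (x i * A (Pi.single i 1))
      + (A x) ^ 2 * ((1 + wt A)⁻¹) ^ 2 * (A (Pi.single i 1)) ^ 2 := by
    intro i
    rw [cmpMap_apply]
    ring
  simp_rw [e]
  rw [Finset.sum_add_distrib, Finset.sum_add_distrib, ← Finset.mul_sum, ← Finset.mul_sum,
    ← apply_eq_sum, h4]
  have : (1 + wt A) ≠ 0 := by linarith
  field_simp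
  ring

/-- Comparison map into Euclidean space. -/
noncomputable def cmpE {m : ℕ} (A : (Fin m → ℝ) →L[ℝ] ℝ) (x : Fin m → ℝ) :
    EuclideanSpace ℝ (Fin m) := WithLp.toLp 2 (cmpMap A x)

theorem dist_cmpE {m : ℕ} (A : (Fin m → ℝ) →L[ℝ] ℝ) (x y : Fin m → ℝ) :
    dist (cmpE A x) (cmpE A y) = Real.sqrt (∑ i, (x i - y i) ^ 2 + (A x - A y) ^ 2) := by
  rw [EuclideanSpace.dist_eq]
  congr 1
  have := sum_sq_cmpMap A (x - y)
  simp only [map_sub, Pi.sub_apply] at this
  rw [← this]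
  refine Finset.sum_congr rfl fun i _ => ?_
  rw [Real.dist_eq, sq_abs]
  rfl

theorem dist_graphMap {m : ℕ} (g : (Fin m → ℝ) → ℝ) (x y : Fin m → ℝ) :
    dist (graphMap g x) (graphMap g y) =
      Real.sqrt (∑ i, (x i - y i) ^ 2 + (g x - g y) ^ 2) := by
  rw [EuclideanSpace.dist_eq]
  congr 1
  rw [Fin.sum_univ_castSucc]
  simp only [graphMap, Fin.snoc_castSucc, Fin.snoc_last, Real.dist_eq, sq_abs]

theorem volume_cmpE {m : ℕ} (A : (Fin m → ℝ) →L[ℝ] ℝ) (s : Set (Fin m → ℝ)) :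
    volume (cmpE A '' s) = ENNReal.ofReal (wt A) * volume s := by
  have h1 : cmpE A '' s = (@WithLp.ofLp 2 (Fin m → ℝ)) ⁻¹' (cmpMap A '' s) := by
    ext y
    constructor
    · rintro ⟨x, hx, rfl⟩
      exact ⟨x, hx, rfl⟩
    · rintro ⟨x, hx, h⟩
      refine ⟨x, hx, ?_⟩
      unfold cmpE
      rw [h]
  rw [h1]
  have h2 := (PiLp.volume_preserving_ofLp (Fin m))
  rw [h2.measure_preimage_emb (MeasurableEquiv.toLp 2 (Fin m → ℝ)).symm.measurableEmbedding,
    Measure.addHaar_image_linearMap, det_cmpMap, abs_of_nonneg (by linarith [one_le_wt A])]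

/-! ## Comparison on a piece -/

theorem sqrt_tri {N : ℝ} (hN : 0 ≤ N) (a b : ℝ) :
    Real.sqrt (N + b ^ 2) ≤ Real.sqrt (N + a ^ 2) + |b - a| := by
  rw [Real.sqrt_le_left (by positivity)]
  have h1 : Real.sqrt (N + a ^ 2) ^ 2 = N + a ^ 2 := Real.sq_sqrt (by positivity)
  have h2 : |a| ≤ Real.sqrt (N + a ^ 2) := Real.abs_le_sqrt (by nlinarith)
  have h3 : |b - a| ^ 2 = (b - a) ^ 2 := sq_abs _
  have h4 : a * (b - a) ≤ |a| * |b - a| := by rw [← abs_mul]; exact le_abs_self _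
  have h5 : |a| * |b - a| ≤ Real.sqrt (N + a ^ 2) * |b - a| :=
    mul_le_mul_of_nonneg_right h2 (abs_nonneg _)
  nlinarith

theorem norm_le_sqrt_sum {m : ℕ} (v : Fin m → ℝ) : ‖v‖ ≤ Real.sqrt (∑ i, (v i) ^ 2) := by
  rw [pi_norm_le_iff_of_nonneg (Real.sqrt_nonneg _)]
  intro i
  apply Real.abs_le_sqrt
  exact Finset.single_le_sum (f := fun i => (v i) ^ 2) (fun i _ => sq_nonneg _) (Finset.mem_univ i)

theorem dist_compare {m : ℕ} {g : (Fin m → ℝ) → ℝ} {A : (Fin m → ℝ) →L[ℝ] ℝ} {s : Set (Fin m → ℝ)}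
    {δ : ℝ≥0} (hg : ApproximatesLinearOn g A s δ) {x y : Fin m → ℝ} (hx : x ∈ s) (hy : y ∈ s) :
    dist (graphMap g x) (graphMap g y) ≤ (1 + δ) * dist (cmpE A x) (cmpE A y) ∧
    dist (cmpE A x) (cmpE A y) ≤ (1 + δ) * dist (graphMap g x) (graphMap g y) := by
  rw [dist_graphMap, dist_cmpE]
  have h := hg x hx y hy
  set N := ∑ i, (x i - y i) ^ 2 with hN
  have hN0 : 0 ≤ N := Finset.sum_nonneg fun i _ => sq_nonneg _
  have h1 : ‖x - y‖ ≤ Real.sqrt N := norm_le_sqrt_sum (x - y)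
  rw [map_sub, Real.norm_eq_abs] at h
  have h2 : |g x - g y - (A x - A y)| ≤ δ * Real.sqrt N :=
    h.trans (mul_le_mul_of_nonneg_left h1 δ.2)
  constructor
  · have h3 := sqrt_tri hN0 (A x - A y) (g x - g y)
    have h4 : Real.sqrt N ≤ Real.sqrt (N + (A x - A y) ^ 2) :=
      Real.sqrt_le_sqrt (by nlinarith [sq_nonneg (A x - A y)])
    nlinarith [mul_le_mul_of_nonneg_left h4 δ.2]
  · have h3 := sqrt_tri hN0 (g x - g y) (A x - A y)
    rw [abs_sub_comm] at h3
    have h4 : Real.sqrt N ≤ Real.sqrt (N + (g x - g y) ^ 2) :=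
      Real.sqrt_le_sqrt (by nlinarith [sq_nonneg (g x - g y)])
    nlinarith [mul_le_mul_of_nonneg_left h4 δ.2]

theorem edist_of_dist_le {X Y : Type*} [PseudoMetricSpace X] [PseudoMetricSpace Y] {a b : X}
    {c d : Y} {K : ℝ≥0} (h : dist a b ≤ K * dist c d) : edist a b ≤ K * edist c d := by
  rw [edist_nndist, edist_nndist, ← ENNReal.coe_mul, ENNReal.coe_le_coe]
  exact_mod_cast h

theorem piece_upper {m : ℕ} {g : (Fin m → ℝ) → ℝ} {A : (Fin m → ℝ) →L[ℝ] ℝ}
    {s : Set (Fin m → ℝ)} {δ : ℝ≥0} (hg : ApproximatesLinearOn g A s δ) :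
    Measure.hausdorffMeasure (m : ℝ) (graphMap g '' s) ≤
      ((1 + δ : ℝ≥0) : ℝ≥0∞) ^ m *
        (ENNReal.ofReal (cH m) * (ENNReal.ofReal (wt A) * volume s)) := by
  rw [← volume_cmpE, ← hausdorff_eq_smul, ← ENNReal.rpow_natCast]
  apply hausdorff_image_le_of_edist (by positivity)
  intro x hx y hy
  apply edist_of_dist_le
  have := (dist_compare hg hx hy).1
  push_cast
  exact this

theorem piece_lower {m : ℕ} {g : (Fin m → ℝ) → ℝ} {A : (Fin m → ℝ) →L[ℝ] ℝ}
    {s : Set (Fin m → ℝ)} {δ : ℝ≥0} (hg : ApproximatesLinearOn g A s δ) :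
    (ENNReal.ofReal (cH m) * (ENNReal.ofReal (wt A) * volume s)) ≤
    ((1 + δ : ℝ≥0) : ℝ≥0∞) ^ m * Measure.hausdorffMeasure (m : ℝ) (graphMap g '' s)
         := by
  rw [← volume_cmpE, ← hausdorff_eq_smul, ← ENNReal.rpow_natCast]
  apply hausdorff_image_le_of_edist (by positivity)
  intro x hx y hy
  apply edist_of_dist_le
  have := (dist_compare hg hx hy).2
  push_cast
  exact this

theorem ae_close {m : ℕ} {g : (Fin m → ℝ) → ℝ} {A : (Fin m → ℝ) →L[ℝ] ℝ}
    {s : Set (Fin m → ℝ)} {δ : ℝ≥0} (hg : ApproximatesLinearOn g A s δ) (hs : MeasurableSet s)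
    (hd : ∀ x ∈ s, DifferentiableAt ℝ g x) :
    ∀ᵐ x ∂(volume.restrict s), ‖fderiv ℝ g x - A‖ ≤ δ := by
  rcases Nat.eq_zero_or_pos m with h0 | hm
  · subst h0
    refine Filter.Eventually.of_forall fun x => ?_
    have : fderiv ℝ g x - A = 0 := by
      ext v
      have : v = 0 := Subsingleton.elim _ _
      rw [this, map_zero, map_zero]
    rw [this, norm_zero]
    exact δ.2
  · have : Nonempty (Fin m) := ⟨⟨0, hm⟩⟩
    set e : Fin m → ℝ := fun _ => 1 with he
    have hen : ‖e‖ = 1 := by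
      rw [he, pi_norm_const]; simp
    have h1 : ApproximatesLinearOn (fun x => g x • e) (A.smulRight e) s δ := by
      intro x hx y hy
      have := hg x hx y hy
      have h2 : g x • e - g y • e - (A.smulRight e) (x - y) = (g x - g y - A (x - y)) • e := by
        simp [sub_smul]
      rw [h2, norm_smul, hen, mul_one]
      exact this
    have h2 := h1.norm_fderiv_sub_le (μ := volume) hs (fun x => (fderiv ℝ g x).smulRight e)
      (fun x hx => ((hd x hx).hasFDerivAt.hasFDerivWithinAt).smul_const e)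
    filter_upwards [h2] with x hx
    have h3 : (fderiv ℝ g x).smulRight e - A.smulRight e = (fderiv ℝ g x - A).smulRight e := by
      ext v i
      simp [sub_mul]
    rw [h3] at hx
    have h4 : ‖(fderiv ℝ g x - A).smulRight e‖ = ‖fderiv ℝ g x - A‖ := by
      rw [ContinuousLinearMap.norm_smulRight_apply, hen, mul_one]
    have h5 : ‖(fderiv ℝ g x - A).smulRight e‖ ≤ δ := hx
    rw [h4] at h5
    exact h5

theorem wt_le_of_norm_sub {m : ℕ} {A B : (Fin m → ℝ) →L[ℝ] ℝ} {δ : ℝ} (hδ : 0 ≤ δ)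
    (h : ‖A - B‖ ≤ δ) : wt A ≤ (1 + m * δ) * wt B := by
  have hB := one_le_wt B
  have hBs := wt_sq B
  conv_lhs => unfold wt
  rw [Real.sqrt_le_left (by positivity)]
  have h1 : ∀ i : Fin m, |A (Pi.single i 1) - B (Pi.single i 1)| ≤ δ := by
    intro i
    have h2 := (A - B).le_opNorm (Pi.single i 1)
    have h3 : ‖(Pi.single i 1 : Fin m → ℝ)‖ ≤ 1 := by
      rw [pi_norm_le_iff_of_nonneg zero_le_one]
      intro j
      by_cases hj : j = i
      · subst hj; simp
      · simp [Pi.single_eq_of_ne hj]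
    rw [sub_apply, Real.norm_eq_abs] at h2
    have h4 : ‖A - B‖ * ‖(Pi.single i 1 : Fin m → ℝ)‖ ≤ ‖A - B‖ * 1 :=
      mul_le_mul_of_nonneg_left h3 (norm_nonneg _)
    linarith
  have h2 : ∀ i : Fin m, |B (Pi.single i 1)| ≤ wt B := by
    intro i
    apply Real.abs_le_sqrt
    have := Finset.single_le_sum (f := fun i => (B (Pi.single i 1)) ^ 2)
      (fun i _ => sq_nonneg _) (Finset.mem_univ i)
    linarith
  have h3 : ∀ i : Fin m, (A (Pi.single i 1)) ^ 2 ≤
      (B (Pi.single i 1)) ^ 2 + (2 * δ * wt B + δ ^ 2) := by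
    intro i
    have h4 := h1 i
    have h5 := h2 i
    set a := A (Pi.single i 1)
    set b := B (Pi.single i 1)
    have h6 : a = b + (a - b) := by ring
    have h7 : (a - b) ^ 2 ≤ δ ^ 2 := by
      rw [← sq_abs]
      exact pow_le_pow_left₀ (abs_nonneg _) h4 2
    have h8 : b * (a - b) ≤ wt B * δ := by
      calc b * (a - b) ≤ |b * (a - b)| := le_abs_self _
        _ = |b| * |a - b| := abs_mul _ _
        _ ≤ wt B * δ := mul_le_mul h5 h4 (abs_nonneg _) (by linarith)
    nlinarith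
  have h4 : ∑ i, (A (Pi.single i 1)) ^ 2 ≤
      ∑ i, (B (Pi.single i 1)) ^ 2 + m * (2 * δ * wt B + δ ^ 2) := by
    refine (Finset.sum_le_sum fun i _ => h3 i).trans ?_
    rw [Finset.sum_add_distrib]
    simp [mul_add]
  have h5 : (m : ℝ) ≤ (m : ℝ) ^ 2 := by
    have : m ≤ m ^ 2 := Nat.le_self_pow (by norm_num) m
    exact_mod_cast this
  have h6 : (m : ℝ) * δ ^ 2 ≤ (m : ℝ) ^ 2 * δ ^ 2 * wt B ^ 2 := by
    have h7 : (1 : ℝ) ≤ wt B ^ 2 := by nlinarith
    have h8 : (m : ℝ) * δ ^ 2 ≤ (m : ℝ) ^ 2 * δ ^ 2 :=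
      mul_le_mul_of_nonneg_right h5 (sq_nonneg _)
    have h9 : (m : ℝ) ^ 2 * δ ^ 2 * 1 ≤ (m : ℝ) ^ 2 * δ ^ 2 * wt B ^ 2 :=
      mul_le_mul_of_nonneg_left h7 (by positivity)
    linarith
  have h7 : (m : ℝ) * (2 * δ * wt B) ≤ m * (2 * δ * wt B ^ 2) := by
    have : wt B ≤ wt B ^ 2 := by nlinarith
    have : (m : ℝ) * (2 * δ) * wt B ≤ m * (2 * δ) * wt B ^ 2 :=
      mul_le_mul_of_nonneg_left this (by positivity)
    linarith
  nlinarith

/-! ## The measure identity -/

theorem le_of_pieces {α : Type*} [MeasurableSpace α] {ρ1 ρ2 : Measure α} {P : ℕ → Set α}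
    (hP : ∀ n, MeasurableSet (P n)) (hd : Pairwise (Function.onFun Disjoint P))
    (h0 : ρ1 (⋃ n, P n)ᶜ = 0)
    (h : ∀ n B, MeasurableSet B → B ⊆ P n → ρ1 B ≤ ρ2 B) : ρ1 ≤ ρ2 := by
  rw [Measure.le_iff]
  intro B hB
  have h1 : B ⊆ (B ∩ (⋃ n, P n)ᶜ) ∪ ⋃ n, B ∩ P n := by
    intro x hx
    by_cases hx' : x ∈ ⋃ n, P n
    · right
      obtain ⟨n, hn⟩ := mem_iUnion.1 hx'
      exact mem_iUnion.2 ⟨n, hx, hn⟩
    · left
      exact ⟨hx, hx'⟩
  calc ρ1 B ≤ ρ1 ((B ∩ (⋃ n, P n)ᶜ) ∪ ⋃ n, B ∩ P n) := measure_mono h1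
    _ ≤ ρ1 (B ∩ (⋃ n, P n)ᶜ) + ρ1 (⋃ n, B ∩ P n) := measure_union_le _ _
    _ = ρ1 (⋃ n, B ∩ P n) := by
        rw [measure_mono_null inter_subset_right h0, zero_add]
    _ ≤ ∑' n, ρ1 (B ∩ P n) := measure_iUnion_le _
    _ ≤ ∑' n, ρ2 (B ∩ P n) :=
        ENNReal.tsum_le_tsum fun n => h n _ (hB.inter (hP n)) inter_subset_right
    _ = ρ2 (⋃ n, B ∩ P n) := by
        rw [measure_iUnion]
        · intro i j hij
          exact (hd hij).mono inter_subset_right inter_subset_right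
        · exact fun n => hB.inter (hP n)
    _ ≤ ρ2 B := measure_mono (iUnion_subset fun n => inter_subset_left)

theorem continuous_graphMap {m : ℕ} {g : (Fin m → ℝ) → ℝ} (hg : Continuous g) :
    Continuous (graphMap g) := by
  unfold graphMap
  apply (PiLp.continuous_toLp 2 _).comp
  refine continuous_pi fun i => ?_
  refine Fin.lastCases ?_ (fun j => ?_) i
  · simpa using hg
  · simpa using continuous_apply j

theorem injective_graphMap {m : ℕ} (g : (Fin m → ℝ) → ℝ) : Function.Injective (graphMap g) := by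
  intro x y h
  funext i
  have := congrArg (fun z : Em m => z (Fin.castSucc i)) h
  simpa [graphMap] using this

theorem measurableEmbedding_graphMap {m : ℕ} {g : (Fin m → ℝ) → ℝ} (hg : Continuous g) :
    MeasurableEmbedding (graphMap g) :=
  (continuous_graphMap hg).measurableEmbedding (injective_graphMap g)

theorem measurable_jac {m : ℕ} (g : (Fin m → ℝ) → ℝ) : Measurable (jac g) := by
  unfold jac
  apply Measurable.sqrt
  apply Measurable.const_add
  apply Finset.measurable_sum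
  intro i _
  exact (measurable_fderiv_apply_const ℝ g (Pi.single i 1)).pow_const 2

theorem measure_le_of_partition {m : ℕ} {g : (Fin m → ℝ) → ℝ} {K : ℝ≥0} (hg : LipschitzWith K g)
    {δ : ℝ≥0} (hδ : 0 < δ) :
    Measure.comap (graphMap g) (Measure.hausdorffMeasure (m : ℝ)) ≤
      (((1 + δ) ^ m * (1 + m * δ) : ℝ≥0) : ℝ≥0∞) •
        (ENNReal.ofReal (cH m) • volume.withDensity (fun x => ENNReal.ofReal (jac g x))) ∧
      (ENNReal.ofReal (cH m) • volume.withDensity (fun x => ENNReal.ofReal (jac g x))) ≤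
      (((1 + δ) ^ m * (1 + m * δ) : ℝ≥0) : ℝ≥0∞) •
       Measure.comap (graphMap g) (Measure.hausdorffMeasure (m : ℝ)) := by
  have hemb := measurableEmbedding_graphMap hg.continuous
  set D : Set (Fin m → ℝ) := {x | DifferentiableAt ℝ g x} with hD
  have hDm : MeasurableSet D := measurableSet_of_differentiableAt ℝ g
  have hDn : volume Dᶜ = 0 := by
    have := hg.ae_differentiableAt (μ := volume)
    rw [ae_iff] at this
    exact this
  obtain ⟨t, A, hdisj, htm, hcov, happ, -⟩ :=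
    exists_partition_approximatesLinearOn_of_hasFDerivWithinAt g D (fderiv ℝ g)
      (fun x hx => (show DifferentiableAt ℝ g x from hx).hasFDerivAt.hasFDerivWithinAt)
      (fun _ => δ) (fun _ => hδ.ne')
  set P : ℕ → Set (Fin m → ℝ) := fun n => D ∩ t n with hP
  have hPm : ∀ n, MeasurableSet (P n) := fun n => hDm.inter (htm n)
  have hPd : Pairwise (Function.onFun Disjoint P) := fun i j hij =>
    (hdisj hij).mono inter_subset_right inter_subset_right
  have hPU : (⋃ n, P n)ᶜ ⊆ Dᶜ := by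
    rw [compl_subset_compl]
    intro x hx
    obtain ⟨n, hn⟩ := mem_iUnion.1 (hcov hx)
    exact mem_iUnion.2 ⟨n, hx, hn⟩
  have hjac : ∀ x, jac g x = wt (fderiv ℝ g x) := fun x => rfl
  have hnull : ∀ N : Set (Fin m → ℝ), volume N = 0 →
      Measure.hausdorffMeasure (m : ℝ) (graphMap g '' N) = 0 := by
    intro N hN
    have h1 : ApproximatesLinearOn g (0 : (Fin m → ℝ) →L[ℝ] ℝ) N K := by
      intro x _ y _
      have := hg.dist_le_mul x y
      rw [Real.dist_eq] at this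
      simpa [dist_eq_norm] using this
    have h2 := piece_upper h1
    rw [hN, mul_zero, mul_zero, mul_zero] at h2
    exact nonpos_iff_eq_zero.1 h2
  constructor
  · refine le_of_pieces hPm hPd ?_ ?_
    · rw [hemb.comap_apply]
      exact hnull _ (measure_mono_null hPU hDn)
    · intro n B hB hBP
      rw [hemb.comap_apply]
      have h1 := piece_upper ((happ n).mono_set hBP)
      have h2 := ae_close ((happ n).mono_set hBP) hB (fun x hx => (hBP hx).1)
      refine h1.trans ?_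
      have h3 : ENNReal.ofReal (wt (A n)) * volume B ≤
          (1 + m * δ : ℝ≥0) * ∫⁻ x in B, ENNReal.ofReal (jac g x) := by
        rw [← lintegral_const_mul _ (measurable_jac g).ennreal_ofReal, ← setLIntegral_const]
        apply lintegral_mono_ae
        filter_upwards [h2] with x hx
        rw [← ENNReal.ofReal_coe_nnreal, ← ENNReal.ofReal_mul (by positivity)]
        apply ENNReal.ofReal_le_ofReal
        rw [hjac]
        have := wt_le_of_norm_sub δ.2 (by rw [norm_sub_rev]; exact hx)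
        push_cast
        exact this
      rw [Measure.smul_apply, Measure.smul_apply, withDensity_apply _ hB, smul_eq_mul, smul_eq_mul]
      calc ((1 + δ : ℝ≥0) : ℝ≥0∞) ^ m *
            (ENNReal.ofReal (cH m) * (ENNReal.ofReal (wt (A n)) * volume B)) ≤
          ((1 + δ : ℝ≥0) : ℝ≥0∞) ^ m *
            (ENNReal.ofReal (cH m) * ((1 + m * δ : ℝ≥0) * ∫⁻ x in B, ENNReal.ofReal (jac g x))) := by
              gcongr
        _ = _ := by
          push_cast
          ring
  · refine le_of_pieces hPm hPd ?_ ?_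
    · rw [Measure.smul_apply, smul_eq_mul]
      have : (volume.withDensity (fun x => ENNReal.ofReal (jac g x))) (⋃ n, P n)ᶜ = 0 :=
        withDensity_absolutelyContinuous _ _ (measure_mono_null hPU hDn)
      rw [this, mul_zero]
    · intro n B hB hBP
      rw [Measure.smul_apply, Measure.smul_apply, hemb.comap_apply]
      have h1 := piece_lower ((happ n).mono_set hBP)
      have h2 := ae_close ((happ n).mono_set hBP) hB (fun x hx => (hBP hx).1)
      have h3 : ∫⁻ x in B, ENNReal.ofReal (jac g x) ≤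
          (1 + m * δ : ℝ≥0) * (ENNReal.ofReal (wt (A n)) * volume B) := by
        rw [← setLIntegral_const, ← lintegral_const_mul _ measurable_const]
        apply lintegral_mono_ae
        filter_upwards [h2] with x hx
        rw [← ENNReal.ofReal_coe_nnreal, ← ENNReal.ofReal_mul (by positivity)]
        apply ENNReal.ofReal_le_ofReal
        rw [hjac]
        have := wt_le_of_norm_sub δ.2 hx
        push_cast
        exact this
      rw [withDensity_apply _ hB, smul_eq_mul, smul_eq_mul]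
      calc ENNReal.ofReal (cH m) * ∫⁻ x in B, ENNReal.ofReal (jac g x)
          ≤ ENNReal.ofReal (cH m) * ((1 + m * δ : ℝ≥0) * (ENNReal.ofReal (wt (A n)) * volume B)) := by
            gcongr
        _ = (1 + m * δ : ℝ≥0) * (ENNReal.ofReal (cH m) * (ENNReal.ofReal (wt (A n)) * volume B)) := by
            ring
        _ ≤ (1 + m * δ : ℝ≥0) * (((1 + δ : ℝ≥0) : ℝ≥0∞) ^ m *
              Measure.hausdorffMeasure (m : ℝ) (graphMap g '' B)) := by gcongr
        _ = _ := by
          push_cast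
          ring

theorem le_of_forall_factor {m : ℕ} {a b : ℝ≥0∞}
    (h : ∀ δ : ℝ≥0, 0 < δ → a ≤ (((1 + δ) ^ m * (1 + m * δ) : ℝ≥0) : ℝ≥0∞) * b) : a ≤ b := by
  have h1 : Tendsto (fun δ : ℝ≥0 => (((1 + δ) ^ m * (1 + m * δ) : ℝ≥0) : ℝ≥0∞) * b)
      (𝓝[>] 0) (𝓝 (((1 : ℝ≥0) : ℝ≥0∞) * b)) := by
    apply ENNReal.Tendsto.mul_const
    · rw [ENNReal.tendsto_coe]
      have h2 : Continuous (fun δ : ℝ≥0 => (1 + δ) ^ m * (1 + m * δ)) := by fun_prop
      have h3 := (h2.tendsto 0).mono_left (nhdsWithin_le_nhds (s := Set.Ioi 0))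
      simpa using h3
    · left
      simp
  rw [ENNReal.coe_one, one_mul] at h1
  refine ge_of_tendsto h1 ?_
  filter_upwards [self_mem_nhdsWithin] with δ hδ
  exact h δ hδ

theorem comap_graphMap {m : ℕ} {g : (Fin m → ℝ) → ℝ} {K : ℝ≥0} (hg : LipschitzWith K g) :
    Measure.comap (graphMap g) (Measure.hausdorffMeasure (m : ℝ)) =
      ENNReal.ofReal (cH m) • volume.withDensity (fun x => ENNReal.ofReal (jac g x)) := by
  apply le_antisymm
  · rw [Measure.le_iff]
    intro B hB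
    apply le_of_forall_factor (m := m)
    intro δ hδ
    exact (measure_le_of_partition hg hδ).1 B
  · rw [Measure.le_iff]
    intro B hB
    apply le_of_forall_factor (m := m)
    intro δ hδ
    exact (measure_le_of_partition hg hδ).2 B

theorem graph_area {m : ℕ} {g : (Fin m → ℝ) → ℝ} {K : ℝ≥0} (hg : LipschitzWith K g)
    {f : Em m → ℝ≥0∞} (hf : Measurable f) :
    ∫⁻ y in Set.range (graphMap g), f y ∂(Measure.hausdorffMeasure (m : ℝ)) =
      ENNReal.ofReal (cH m) * ∫⁻ x', f (graphMap g x') * ENNReal.ofReal (jac g x') := by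
  have hemb := measurableEmbedding_graphMap hg.continuous
  have h1 := lintegral_withDensity_eq_lintegral_mul (volume : Measure (Fin m → ℝ))
    (measurable_jac g).ennreal_ofReal (hf.comp hemb.measurable)
  simp only [Pi.mul_apply, Function.comp_apply] at h1
  rw [← hemb.map_comap, hemb.lintegral_map, comap_graphMap hg, lintegral_smul_measure, h1,
    smul_eq_mul]
  congr 1
  apply lintegral_congr
  intro x
  rw [mul_comm]

end Pool.Agent.RobinBall
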