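import Mathlib
import Pool.Agent.RobinBall.Defs

/-!
# Divergence theorem for the region below the graph of a Lipschitz function
-/

set_option autoImplicit false

open MeasureTheory Metric Set
open scoped MeasureTheory NNReal ENNReal

namespace Pool.Agent.RobinBall

/-- The half line integral of the derivative of a compactly supported Lipschitz function. -/
theorem integral_Iio_deriv {φ : ℝ → ℝ} {L : ℝ≥0} (hφ : LipschitzWith L φ)
    (hc : HasCompactSupport φ) : ∫ s in Iio (0 : ℝ), deriv φ s = φ 0 := by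
  obtain ⟨R, hR0, hR⟩ := hc.isCompact.isBounded.subset_ball_lt 0 0
  have hz : ∀ s, s ≤ -R → φ s = 0 := by
    intro s hs
    by_contra h
    have := hR (subset_tsupport _ (Function.mem_support.2 h))
    rw [mem_ball_zero_iff, Real.norm_eq_abs, abs_lt] at this
    linarith
  have h1 : ∫ s in (-R - 1)..0, deriv φ s = φ 0 - φ (-R - 1) :=
    (hφ.lipschitzOnWith (s := Set.uIcc (-R - 1) 0)).absolutelyContinuousOnInterval.integral_deriv_eq_sub
  rw [hz (-R - 1) (by linarith), sub_zero, intervalIntegral.integral_of_le (by linarith)] at h1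
  rw [← h1, integral_Ioc_eq_integral_Ioo]
  refine (setIntegral_eq_of_subset_of_forall_sdiff_eq_zero measurableSet_Iio
    (fun x hx => hx.2) ?_)
  intro x hx
  have hx1 : x ≤ -R - 1 := by
    by_contra h
    exact hx.2 ⟨by linarith, hx.1⟩
  have : φ =ᶠ[nhds x] fun _ => 0 := by
    filter_upwards [Iio_mem_nhds (show x < -R by linarith)] with y hy
    exact hz y hy.le
  rw [this.deriv_eq]
  simp

/-- Integral of a line derivative of a compactly supported Lipschitz function. -/
theorem integral_lineDeriv_eq_zero {n : ℕ} {φ : (Fin n → ℝ) → ℝ} {L : ℝ≥0}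
    (hφ : LipschitzWith L φ) (hc : HasCompactSupport φ) (v : Fin n → ℝ) :
    ∫ x, lineDeriv ℝ φ x v = 0 := by
  have h := LipschitzWith.integral_lineDeriv_mul_eq (μ := volume) (f := fun _ : Fin n → ℝ => (1 : ℝ))
    (C := 0) (LipschitzWith.const 1) hφ hc (-v)
  simpa [lineDeriv] using h.symm

section

variable {m : ℕ}

instance isAddHaarMeasure_volume_prod :
    (volume : Measure ((Fin m → ℝ) × ℝ)).IsAddHaarMeasure := by
  rw [Measure.volume_eq_prod]; infer_instance

/-- Derivatives of compactly supported Lipschitz functions are integrable. -/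
theorem integrable_fderiv_apply {Φ : (Fin m → ℝ) × ℝ → ℝ} {L : ℝ≥0} (hΦ : LipschitzWith L Φ)
    (hc : HasCompactSupport Φ) (v : (Fin m → ℝ) × ℝ) : Integrable (fun p => fderiv ℝ Φ p v) := by
  have h1 : IntegrableOn (fun p => fderiv ℝ Φ p v) (tsupport Φ) := by
    refine Measure.integrableOn_of_bounded (M := L * ‖v‖) hc.isCompact.measure_lt_top.ne
      (measurable_fderiv_apply_const ℝ Φ v).aestronglyMeasurable ?_
    refine Filter.Eventually.of_forall fun p => ?_
    exact (ContinuousLinearMap.le_opNorm _ _).trans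
      (mul_le_mul_of_nonneg_right (norm_fderiv_le_of_lipschitz ℝ hΦ) (norm_nonneg _))
  refine (integrableOn_iff_integrable_of_support_subset ?_).1 h1
  intro p hp
  by_contra h
  apply hp
  have : Φ =ᶠ[nhds p] fun _ => 0 := notMem_tsupport_iff_eventuallyEq.1 h
  simp [this.fderiv_eq]

theorem lipschitz_slice_left {Φ : (Fin m → ℝ) × ℝ → ℝ} {L : ℝ≥0} (hΦ : LipschitzWith L Φ)
    (s : ℝ) : LipschitzWith L (fun x => Φ (x, s)) := by
  have := hΦ.comp (LipschitzWith.prodMk_right (α := Fin m → ℝ) s)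
  simpa [Function.comp_def] using this

theorem lipschitz_slice_right {Φ : (Fin m → ℝ) × ℝ → ℝ} {L : ℝ≥0} (hΦ : LipschitzWith L Φ)
    (x : Fin m → ℝ) : LipschitzWith L (fun s => Φ (x, s)) := by
  have := hΦ.comp (LipschitzWith.prodMk_left (β := ℝ) x)
  simpa [Function.comp_def] using this

theorem compact_slice_left {Φ : (Fin m → ℝ) × ℝ → ℝ} (hc : HasCompactSupport Φ)
    (s : ℝ) : HasCompactSupport (fun x => Φ (x, s)) := by
  refine HasCompactSupport.of_support_subset_isCompact (hc.isCompact.image continuous_fst) ?_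
  intro x hx
  exact ⟨(x, s), subset_tsupport _ hx, rfl⟩

theorem compact_slice_right {Φ : (Fin m → ℝ) × ℝ → ℝ} (hc : HasCompactSupport Φ)
    (x : Fin m → ℝ) : HasCompactSupport (fun s => Φ (x, s)) := by
  refine HasCompactSupport.of_support_subset_isCompact (hc.isCompact.image continuous_snd) ?_
  intro s hs
  exact ⟨(x, s), subset_tsupport _ hs, rfl⟩

theorem integral_slab_horizontal {Φ : (Fin m → ℝ) × ℝ → ℝ} {L : ℝ≥0} (hΦ : LipschitzWith L Φ)
    (hc : HasCompactSupport Φ) (v : Fin m → ℝ) :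
    ∫ p in (univ ×ˢ Iio (0 : ℝ) : Set ((Fin m → ℝ) × ℝ)), fderiv ℝ Φ p (v, 0) = 0 := by
  have hae : ∀ᵐ p : (Fin m → ℝ) × ℝ, fderiv ℝ Φ p (v, 0) =
      lineDeriv ℝ (fun x => Φ (x, p.2)) p.1 v := by
    filter_upwards [hΦ.ae_differentiableAt] with p hp
    have h1 : HasFDerivAt (fun x => Φ (x, p.2)) ((fderiv ℝ Φ p).comp
        (ContinuousLinearMap.inl ℝ (Fin m → ℝ) ℝ)) p.1 := by
      have h2 : HasFDerivAt (fun x : Fin m → ℝ => (x, p.2))
          (ContinuousLinearMap.inl ℝ (Fin m → ℝ) ℝ) p.1 := hasFDerivAt_prodMk_left p.1 p.2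
      exact HasFDerivAt.comp p.1 (g := Φ) (by exact hp.hasFDerivAt) h2
    rw [(h1.hasLineDerivAt v).lineDeriv]
    simp
  have hint : Integrable (fun p : (Fin m → ℝ) × ℝ => lineDeriv ℝ (fun x => Φ (x, p.2)) p.1 v) :=
    (integrable_fderiv_apply hΦ hc (v, 0)).congr hae
  rw [integral_congr_ae (ae_restrict_of_ae hae), Measure.volume_eq_prod, ← Measure.prod_restrict,
    integral_prod_symm]
  · simp only [Measure.restrict_univ]
    have : ∀ s : ℝ, ∫ x : Fin m → ℝ, lineDeriv ℝ (fun x => Φ (x, s)) x v = 0 := fun s =>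
      integral_lineDeriv_eq_zero (lipschitz_slice_left hΦ s) (compact_slice_left hc s) v
    simp [this]
  · rw [Measure.prod_restrict, ← Measure.volume_eq_prod]
    exact hint.integrableOn

theorem integral_slab_vertical {Φ : (Fin m → ℝ) × ℝ → ℝ} {L : ℝ≥0} (hΦ : LipschitzWith L Φ)
    (hc : HasCompactSupport Φ) {w : (Fin m → ℝ) → ℝ} (hw : Measurable w) {C : ℝ}
    (hwC : ∀ x, |w x| ≤ C) :
    ∫ p in (univ ×ˢ Iio (0 : ℝ) : Set ((Fin m → ℝ) × ℝ)), w p.1 * fderiv ℝ Φ p (0, 1) =
      ∫ x, w x * Φ (x, 0) := by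
  have hae : ∀ᵐ p : (Fin m → ℝ) × ℝ, w p.1 * fderiv ℝ Φ p (0, 1) =
      w p.1 * deriv (fun s => Φ (p.1, s)) p.2 := by
    filter_upwards [hΦ.ae_differentiableAt] with p hp
    have h1 : HasFDerivAt (fun s => Φ (p.1, s)) ((fderiv ℝ Φ p).comp
        (ContinuousLinearMap.inr ℝ (Fin m → ℝ) ℝ)) p.2 := by
      have h2 : HasFDerivAt (fun s : ℝ => (p.1, s))
          (ContinuousLinearMap.inr ℝ (Fin m → ℝ) ℝ) p.2 := hasFDerivAt_prodMk_right p.1 p.2
      exact HasFDerivAt.comp p.2 (g := Φ) (by exact hp.hasFDerivAt) h2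
    rw [h1.hasDerivAt.deriv]
    simp
  have hint0 : Integrable (fun p : (Fin m → ℝ) × ℝ => w p.1 * fderiv ℝ Φ p (0, 1)) := by
    refine (integrable_fderiv_apply hΦ hc (0, 1)).bdd_mul (c := C)
      (hw.comp measurable_fst).aestronglyMeasurable ?_
    exact Filter.Eventually.of_forall fun p => hwC p.1
  have hint := hint0.congr hae
  rw [integral_congr_ae (ae_restrict_of_ae hae), Measure.volume_eq_prod, ← Measure.prod_restrict,
    integral_prod]
  · simp only [Measure.restrict_univ]
    have : ∀ x : Fin m → ℝ, ∫ s in Iio (0 : ℝ), w x * deriv (fun s => Φ (x, s)) s =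
        w x * Φ (x, 0) := fun x => by
      rw [integral_const_mul,
        integral_Iio_deriv (lipschitz_slice_right hΦ x) (compact_slice_right hc x)]
    simp only [this]
  · rw [Measure.prod_restrict, ← Measure.volume_eq_prod]
    exact hint.integrableOn

/-- The shear `(x, s) ↦ (x, g x + s)`. -/
def shear (g : (Fin m → ℝ) → ℝ) (p : (Fin m → ℝ) × ℝ) : (Fin m → ℝ) × ℝ := (p.1, g p.1 + p.2)

/-- The shear as a homeomorphism. -/
def shearHomeo (g : (Fin m → ℝ) → ℝ) (hg : Continuous g) :
    ((Fin m → ℝ) × ℝ) ≃ₜ ((Fin m → ℝ) × ℝ) where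
  toFun := shear g
  invFun p := (p.1, p.2 - g p.1)
  left_inv p := by ext <;> simp [shear]
  right_inv p := by ext <;> simp [shear]
  continuous_toFun := by unfold shear; fun_prop
  continuous_invFun := by fun_prop

theorem measurePreserving_shear {g : (Fin m → ℝ) → ℝ} (hg : Continuous g) :
    MeasurePreserving (shear g) := by
  rw [Measure.volume_eq_prod]
  refine MeasurePreserving.skew_product (f := id) (g := fun x s => g x + s)
    (MeasurePreserving.id volume) ?_ ?_
  · simp only [Function.uncurry_def]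
    fun_prop
  · exact Filter.Eventually.of_forall fun x => (measurePreserving_add_left volume (g x)).map_eq

theorem lipschitz_shear {g : (Fin m → ℝ) → ℝ} {K : ℝ≥0} (hg : LipschitzWith K g) :
    LipschitzWith (max 1 (K + 1)) (shear g) := by
  unfold shear
  have h1 : LipschitzWith (K + 1) (fun p : (Fin m → ℝ) × ℝ => g p.1 + p.2) := by
    have := (hg.comp (LipschitzWith.prod_fst (α := Fin m → ℝ) (β := ℝ))).add
      (LipschitzWith.prod_snd (α := Fin m → ℝ) (β := ℝ))
    simpa [Function.comp_def] using this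
  exact LipschitzWith.prodMk LipschitzWith.prod_fst h1

theorem setIntegral_below_eq {g : (Fin m → ℝ) → ℝ} (hg : Continuous g)
    (h : (Fin m → ℝ) × ℝ → ℝ) :
    ∫ p in {p : (Fin m → ℝ) × ℝ | p.2 < g p.1}, h p =
      ∫ p in (univ ×ˢ Iio (0 : ℝ) : Set ((Fin m → ℝ) × ℝ)), h (shear g p) := by
  have h1 := (measurePreserving_shear hg).setIntegral_preimage_emb
    (shearHomeo g hg).measurableEmbedding h {p : (Fin m → ℝ) × ℝ | p.2 < g p.1}
  rw [← h1]
  congr 2
  ext p
  simp [shear]

theorem ae_shear {g : (Fin m → ℝ) → ℝ} (hg : Continuous g) {q : (Fin m → ℝ) × ℝ → Prop}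
    (hq : ∀ᵐ p, q p) : ∀ᵐ p, q (shear g p) :=
  (measurePreserving_shear hg).quasiMeasurePreserving.ae hq

theorem compact_shear {g : (Fin m → ℝ) → ℝ} (hg : Continuous g) {f : (Fin m → ℝ) × ℝ → ℝ}
    (hc : HasCompactSupport f) : HasCompactSupport (f ∘ shear g) :=
  hc.comp_homeomorph (shearHomeo g hg)

/-- Almost everywhere chain rule for the shear. -/
theorem ae_fderiv_shear {g : (Fin m → ℝ) → ℝ} {K : ℝ≥0} (hg : LipschitzWith K g)
    {f : (Fin m → ℝ) × ℝ → ℝ} {L : ℝ≥0} (hf : LipschitzWith L f) :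
    ∀ᵐ p : (Fin m → ℝ) × ℝ, ∀ v : Fin m → ℝ, ∀ t : ℝ,
      fderiv ℝ (f ∘ shear g) p (v, t) = fderiv ℝ f (shear g p) (v, fderiv ℝ g p.1 v + t) := by
  have h1 : ∀ᵐ p : (Fin m → ℝ) × ℝ, DifferentiableAt ℝ g p.1 := by
    have := (MeasureTheory.Measure.quasiMeasurePreserving_fst (μ := (volume : Measure (Fin m → ℝ)))
      (ν := (volume : Measure ℝ))).ae hg.ae_differentiableAt
    exact this
  filter_upwards [h1, ae_shear hg.continuous hf.ae_differentiableAt] with p hp hp2 v t
  have h2 : HasFDerivAt (shear g) ((ContinuousLinearMap.fst ℝ (Fin m → ℝ) ℝ).prod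
      ((fderiv ℝ g p.1).comp (ContinuousLinearMap.fst ℝ (Fin m → ℝ) ℝ) +
        ContinuousLinearMap.snd ℝ (Fin m → ℝ) ℝ)) p := by
    unfold shear
    exact HasFDerivAt.prodMk hasFDerivAt_fst
      ((hp.hasFDerivAt.comp p hasFDerivAt_fst).add hasFDerivAt_snd)
  rw [(hp2.hasFDerivAt.comp p h2).fderiv]
  simp

theorem integral_below_vertical {g : (Fin m → ℝ) → ℝ} {K : ℝ≥0} (hg : LipschitzWith K g)
    {f : (Fin m → ℝ) × ℝ → ℝ} {L : ℝ≥0} (hf : LipschitzWith L f) (hc : HasCompactSupport f) :
    ∫ p in {p : (Fin m → ℝ) × ℝ | p.2 < g p.1}, fderiv ℝ f p (0, 1) = ∫ x, f (x, g x) := by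
  rw [setIntegral_below_eq hg.continuous]
  have h1 := integral_slab_vertical (hf.comp (lipschitz_shear hg))
    (compact_shear hg.continuous hc) (w := fun _ => 1) measurable_const (C := 1) (by simp)
  simp only [one_mul, Function.comp_apply] at h1
  have h2 : ∀ x : Fin m → ℝ, shear g (x, 0) = (x, g x) := fun x => by simp [shear]
  simp only [h2] at h1
  rw [← h1]
  refine integral_congr_ae (ae_restrict_of_ae ?_)
  filter_upwards [ae_fderiv_shear hg hf] with p hp
  have := hp 0 1
  simp only [map_zero, zero_add] at this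
  exact this.symm

theorem integral_below_horizontal {g : (Fin m → ℝ) → ℝ} {K : ℝ≥0} (hg : LipschitzWith K g)
    {f : (Fin m → ℝ) × ℝ → ℝ} {L : ℝ≥0} (hf : LipschitzWith L f) (hc : HasCompactSupport f)
    (v : Fin m → ℝ) :
    ∫ p in {p : (Fin m → ℝ) × ℝ | p.2 < g p.1}, fderiv ℝ f p (v, 0) =
      - ∫ x, fderiv ℝ g x v * f (x, g x) := by
  rw [setIntegral_below_eq hg.continuous]
  have hb : ∀ x, |fderiv ℝ g x v| ≤ K * ‖v‖ := fun x =>
    (ContinuousLinearMap.le_opNorm _ _).trans
      (mul_le_mul_of_nonneg_right (norm_fderiv_le_of_lipschitz ℝ hg) (norm_nonneg _))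
  have hL := hf.comp (lipschitz_shear hg)
  have hC := compact_shear hg.continuous hc
  have h1 := integral_slab_vertical hL hC (w := fun x => fderiv ℝ g x v)
    (measurable_fderiv_apply_const ℝ g v) hb
  have h3 := integral_slab_horizontal hL hC v
  simp only [Function.comp_apply] at h1
  have h2 : ∀ x : Fin m → ℝ, shear g (x, 0) = (x, g x) := fun x => by simp [shear]
  simp only [h2] at h1
  rw [← h1]
  have h4 : ∫ p in (univ ×ˢ Iio (0 : ℝ) : Set ((Fin m → ℝ) × ℝ)), fderiv ℝ f (shear g p) (v, 0) =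
      ∫ p in (univ ×ˢ Iio (0 : ℝ) : Set ((Fin m → ℝ) × ℝ)),
        (fderiv ℝ (f ∘ shear g) p (v, 0) - fderiv ℝ g p.1 v * fderiv ℝ (f ∘ shear g) p (0, 1)) := by
    refine integral_congr_ae (ae_restrict_of_ae ?_)
    filter_upwards [ae_fderiv_shear hg hf] with p hp
    rw [hp v 0, hp 0 1, add_zero, map_zero, zero_add, ← smul_eq_mul, ← map_smul, ← map_sub]
    simp
  rw [h4, integral_sub, h3, zero_sub]
  · exact (integrable_fderiv_apply hL hC (v, 0)).integrableOn
  · refine Integrable.integrableOn ?_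
    refine (integrable_fderiv_apply hL hC (0, 1)).bdd_mul (c := K * ‖v‖)
      ((measurable_fderiv_apply_const ℝ g v).comp measurable_fst).aestronglyMeasurable ?_
    exact Filter.Eventually.of_forall fun p => hb p.1

/-- The coordinates `(x', s) ↦ (x', s)` of Euclidean space. -/
noncomputable def coordEquiv (m : ℕ) : ((Fin m → ℝ) × ℝ) ≃L[ℝ] Em m :=
  LinearEquiv.toContinuousLinearEquiv
    { toFun := fun p => WithLp.toLp 2 (Fin.snoc p.1 p.2 : Fin (m + 1) → ℝ)
      invFun := fun y => (init' y, y (Fin.last m))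
      map_add' := by
        intro p q
        ext j
        refine Fin.lastCases ?_ (fun i => ?_) j <;> simp
      map_smul' := by
        intro c p
        ext j
        refine Fin.lastCases ?_ (fun i => ?_) j <;> simp
      left_inv := by
        intro p
        ext <;> simp [init']
      right_inv := by
        intro y
        ext j
        refine Fin.lastCases ?_ (fun i => ?_) j <;> simp [init'] }

theorem coordEquiv_apply (p : (Fin m → ℝ) × ℝ) :
    coordEquiv m p = WithLp.toLp 2 (Fin.snoc p.1 p.2 : Fin (m + 1) → ℝ) := rfl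

@[simp] theorem coordEquiv_last (p : (Fin m → ℝ) × ℝ) : coordEquiv m p (Fin.last m) = p.2 := by
  simp [coordEquiv_apply]

@[simp] theorem coordEquiv_castSucc (p : (Fin m → ℝ) × ℝ) (i : Fin m) :
    coordEquiv m p (Fin.castSucc i) = p.1 i := by
  simp [coordEquiv_apply]

theorem coordEquiv_graph (g : (Fin m → ℝ) → ℝ) (x : Fin m → ℝ) :
    coordEquiv m (x, g x) = graphMap g x := rfl

theorem measurePreserving_coordEquiv : MeasurePreserving (coordEquiv m) := by
  have h1 : MeasurePreserving (MeasurableEquiv.piFinSuccAbove (fun _ : Fin (m + 1) => ℝ)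
      (Fin.last m)).symm := (volume_preserving_piFinSuccAbove (fun _ => ℝ) (Fin.last m)).symm _
  have h2 : MeasurePreserving (Prod.swap : (Fin m → ℝ) × ℝ → ℝ × (Fin m → ℝ)) := by
    rw [Measure.volume_eq_prod, Measure.volume_eq_prod]
    exact Measure.measurePreserving_swap
  have h3 : MeasurePreserving (WithLp.toLp 2 : (Fin (m + 1) → ℝ) → Em m) :=
    PiLp.volume_preserving_toLp (Fin (m + 1))
  have h4 := h3.comp (h1.comp h2)
  have : ⇑(coordEquiv m) = WithLp.toLp 2 ∘ ((MeasurableEquiv.piFinSuccAbove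
      (fun _ : Fin (m + 1) => ℝ) (Fin.last m)).symm ∘ Prod.swap) := by
    funext p
    rw [coordEquiv_apply]
    simp only [Function.comp_apply]
    congr 1
    funext j
    refine Fin.lastCases ?_ (fun i => ?_) j
    · simp [MeasurableEquiv.piFinSuccAbove]
    · simp [MeasurableEquiv.piFinSuccAbove, Fin.insertNthEquiv]
  rw [this]
  exact h4

theorem setIntegral_below (g : (Fin m → ℝ) → ℝ) (h : Em m → ℝ) :
    ∫ y in below g, h y = ∫ p in {p : (Fin m → ℝ) × ℝ | p.2 < g p.1}, h (coordEquiv m p) := by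
  rw [← (measurePreserving_coordEquiv (m := m)).setIntegral_preimage_emb
    (coordEquiv m).toHomeomorph.measurableEmbedding h (below g)]
  congr 2
  ext p
  have h1 : init' (coordEquiv m p) = p.1 := by
    ext i
    simp [init']
  simp [below, h1]

theorem dv_eq_sum (F : Em m → Em m) (y : Em m) :
    dv F y = ∑ j, (fderiv ℝ F y (EuclideanSpace.single j 1)) j := by
  unfold dv
  rw [LinearMap.trace_eq_matrix_trace ℝ (EuclideanSpace.basisFun (Fin (m + 1)) ℝ).toBasis,
    Matrix.trace]
  simp [LinearMap.toMatrix_apply]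

theorem integrable_graph {g : (Fin m → ℝ) → ℝ} (hg : Continuous g)
    {f : (Fin m → ℝ) × ℝ → ℝ} (hf : Continuous f) (hc : HasCompactSupport f) :
    Integrable (fun x => f (x, g x)) := by
  refine Continuous.integrable_of_hasCompactSupport (by fun_prop) ?_
  refine HasCompactSupport.of_support_subset_isCompact (hc.isCompact.image continuous_fst) ?_
  intro x hx
  exact ⟨(x, g x), subset_tsupport _ hx, rfl⟩

theorem integrable_graph_mul {g : (Fin m → ℝ) → ℝ} {K : ℝ≥0} (hg : LipschitzWith K g)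
    {f : (Fin m → ℝ) × ℝ → ℝ} (hf : Continuous f) (hc : HasCompactSupport f) (v : Fin m → ℝ) :
    Integrable (fun x => fderiv ℝ g x v * f (x, g x)) := by
  refine (integrable_graph hg.continuous hf hc).bdd_mul (c := K * ‖v‖)
      (measurable_fderiv_apply_const ℝ g v).aestronglyMeasurable ?_
  exact Filter.Eventually.of_forall fun x => (ContinuousLinearMap.le_opNorm _ _).trans
    (mul_le_mul_of_nonneg_right (norm_fderiv_le_of_lipschitz ℝ hg) (norm_nonneg _))

theorem graph_divergence {g : (Fin m → ℝ) → ℝ} {K : ℝ≥0} (hg : LipschitzWith K g)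
    {F : Em m → Em m} {L : ℝ≥0} (hF : LipschitzWith L F) (hFc : HasCompactSupport F) :
    ∫ y in below g, dv F y =
      ∫ x', (F (graphMap g x') (Fin.last m) -
        ∑ i, fderiv ℝ g x' (Pi.single i 1) * F (graphMap g x') (Fin.castSucc i)) := by
  set f : Fin (m + 1) → (Fin m → ℝ) × ℝ → ℝ := fun j p => F (coordEquiv m p) j with hf
  have hfL : ∀ j, ∃ M : ℝ≥0, LipschitzWith M (f j) := by
    intro j
    have h1 := ((EuclideanSpace.proj (𝕜 := ℝ) j : Em m →L[ℝ] ℝ).lipschitz).comp
      (hF.comp (coordEquiv m).lipschitz)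
    exact ⟨_, h1⟩
  choose M hM using hfL
  have hfc : ∀ j, HasCompactSupport (f j) := by
    intro j
    have h1 : HasCompactSupport (F ∘ coordEquiv m) :=
      hFc.comp_homeomorph (coordEquiv m).toHomeomorph
    exact h1.comp_left (g := fun y : Em m => y j) (by simp)
  have hae : ∀ᵐ p : (Fin m → ℝ) × ℝ, dv F (coordEquiv m p) =
      ∑ i : Fin m, fderiv ℝ (f (Fin.castSucc i)) p (Pi.single i 1, 0) +
        fderiv ℝ (f (Fin.last m)) p (0, 1) := by
    have h1 : ∀ᵐ p : (Fin m → ℝ) × ℝ, DifferentiableAt ℝ F (coordEquiv m p) :=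
      (measurePreserving_coordEquiv (m := m)).quasiMeasurePreserving.ae hF.ae_differentiableAt
    filter_upwards [h1] with p hp
    have h2 : ∀ j w, fderiv ℝ (f j) p w = (fderiv ℝ F (coordEquiv m p) (coordEquiv m w)) j := by
      intro j w
      have h3 : HasFDerivAt (f j) ((EuclideanSpace.proj (𝕜 := ℝ) j : Em m →L[ℝ] ℝ).comp
          ((fderiv ℝ F (coordEquiv m p)).comp (coordEquiv m : (Fin m → ℝ) × ℝ →L[ℝ] Em m))) p :=
        (EuclideanSpace.proj (𝕜 := ℝ) j : Em m →L[ℝ] ℝ).hasFDerivAt.comp p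
          (hp.hasFDerivAt.comp p (coordEquiv m).hasFDerivAt)
      rw [h3.fderiv]
      simp
    have h4 : ∀ i : Fin m, coordEquiv m (Pi.single i 1, 0) =
        EuclideanSpace.single (Fin.castSucc i) 1 := by
      intro i
      ext j
      refine Fin.lastCases ?_ (fun i' => ?_) j
      · simp [Fin.castSucc_ne_last]
      · simp [Pi.single_apply]
    have h5 : coordEquiv m (0, 1) = EuclideanSpace.single (Fin.last m) 1 := by
      ext j
      refine Fin.lastCases ?_ (fun i' => ?_) j
      · simp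
      · simp [Fin.castSucc_ne_last]
    rw [dv_eq_sum, Fin.sum_univ_castSucc, h2, h5]
    congr 1
    refine Finset.sum_congr rfl fun i _ => ?_
    rw [h2, h4]
  have hi1 : ∀ i : Fin m, Integrable (fun x => fderiv ℝ g x (Pi.single i 1) *
      f (Fin.castSucc i) (x, g x)) := fun i => integrable_graph_mul hg (hM _).continuous (hfc _) _
  have hi2 : Integrable (fun x => f (Fin.last m) (x, g x)) :=
    integrable_graph hg.continuous (hM _).continuous (hfc _)
  rw [setIntegral_below, integral_congr_ae (ae_restrict_of_ae hae), integral_add,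
    integral_finsetSum, integral_below_vertical hg (hM _) (hfc _)]
  · simp only [integral_below_horizontal hg (hM _) (hfc _)]
    have h6 : ∫ x', (F (graphMap g x') (Fin.last m) -
        ∑ i, fderiv ℝ g x' (Pi.single i 1) * F (graphMap g x') (Fin.castSucc i)) =
        (∫ x', f (Fin.last m) (x', g x')) -
          ∑ i, ∫ x', fderiv ℝ g x' (Pi.single i 1) * f (Fin.castSucc i) (x', g x') := by
      rw [← integral_finsetSum _ fun i _ => hi1 i, ← integral_sub hi2
        (integrable_finsetSum _ fun i _ => hi1 i)]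
      rfl
    rw [h6, Finset.sum_neg_distrib]
    ring
  · exact fun i _ => (integrable_fderiv_apply (hM _) (hfc _) _).integrableOn
  · exact integrable_finsetSum _ fun i _ =>
      (integrable_fderiv_apply (hM _) (hfc _) _).integrableOn
  · exact (integrable_fderiv_apply (hM _) (hfc _) _).integrableOn

end

end Pool.Agent.RobinBall
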