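import Mathlib
import Pool.Agent.RobinBall.Defs
import Pool.Agent.RobinBall.GraphArea
import Pool.Agent.RobinBall.GraphDiv

/-!
# Charts of Lipschitz domains: the local divergence formula, the frontier, partitions of unity
-/

set_option autoImplicit false

open MeasureTheory Metric Set
open scoped MeasureTheory NNReal ENNReal Topology

namespace Pool.Agent.RobinBall

/-- Divergence is invariant under conjugation by a linear isometry. -/
theorem dv_conj {m : ℕ} (R : Em m ≃ₗᵢ[ℝ] Em m) (F : Em m → Em m) (y : Em m) :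
    dv (fun z => R (F (R.symm z))) y = dv F (R.symm y) := by
  unfold dv
  have h1 : fderiv ℝ (fun z => R (F (R.symm z))) y =
      (R : Em m →L[ℝ] Em m).comp ((fderiv ℝ F (R.symm y)).comp (R.symm : Em m →L[ℝ] Em m)) := by
    have e1 : (fun z => R (F (R.symm z))) = R ∘ (F ∘ R.symm) := rfl
    rw [e1]
    have e2 := R.comp_fderiv (f := F ∘ R.symm) (x := y)
    have e3 := R.symm.toContinuousLinearEquiv.comp_right_fderiv (f := F) (x := y)
    rw [e2]
    congr 1
  rw [h1]
  have h2 : (((R : Em m →L[ℝ] Em m).comp ((fderiv ℝ F (R.symm y)).comp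
      (R.symm : Em m →L[ℝ] Em m)) : Em m →L[ℝ] Em m) : Em m →ₗ[ℝ] Em m) =
      R.toLinearEquiv.conj ((fderiv ℝ F (R.symm y) : Em m →L[ℝ] Em m) : Em m →ₗ[ℝ] Em m) := by
    ext z
    rfl
  rw [h2, LinearMap.trace_conj']

/-- The divergence vanishes off the topological support. -/
theorem dv_eq_zero_of_notMem {m : ℕ} {F : Em m → Em m} {y : Em m} (hy : y ∉ tsupport F) :
    dv F y = 0 := by
  have h : F =ᶠ[𝓝 y] 0 := notMem_tsupport_iff_eventuallyEq.mp hy
  unfold dv
  rw [h.fderiv_eq]
  simp [Pi.zero_def]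

theorem dv_congr_of_eventuallyEq {m : ℕ} {F G : Em m → Em m} {y : Em m} (h : F =ᶠ[𝓝 y] G) :
    dv F y = dv G y := by
  unfold dv
  rw [h.fderiv_eq]

/-- The boundary integrand in graph coordinates. -/
noncomputable def bdry {m : ℕ} (g : (Fin m → ℝ) → ℝ) (F : Em m → Em m) (x' : Fin m → ℝ) : ℝ :=
  F (graphMap g x') (Fin.last m) -
        ∑ i, fderiv ℝ g x' (Pi.single i 1) * F (graphMap g x') (Fin.castSucc i)

/-- Chart hypothesis. -/
def IsChart {m : ℕ} (Ω : Set (Em m)) (U : Set (Em m)) (R : Em m ≃ₗᵢ[ℝ] Em m)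
    (g : (Fin m → ℝ) → ℝ) : Prop :=
  ∀ y ∈ U, (y ∈ Ω ↔ R y ∈ below g)

/-- Local divergence formula. -/
theorem local_div {m : ℕ} {Ω U : Set (Em m)} (R : Em m ≃ₗᵢ[ℝ] Em m)
    {g : (Fin m → ℝ) → ℝ} {K : ℝ≥0} (hg : LipschitzWith K g) (hc : IsChart Ω U R g)
    {F : Em m → Em m} {L : ℝ≥0} (hF : LipschitzWith L F) (hFc : HasCompactSupport F)
    (hFU : tsupport F ⊆ U) (hΩ : MeasurableSet Ω) :
    ∫ y in Ω, dv F y = ∫ x', bdry g (fun z => R (F (R.symm z))) x' := by
  have hbm : MeasurableSet (below g) := by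
    unfold below
    apply measurableSet_lt
    · fun_prop
    · apply hg.continuous.measurable.comp
      unfold init'
      fun_prop
  have hF' : LipschitzWith L (fun z => R (F (R.symm z))) := by
    have := (R.lipschitz.comp (hF.comp R.symm.lipschitz))
    rw [one_mul, mul_one] at this
    exact this
  have hFc' : HasCompactSupport (fun z => R (F (R.symm z))) := by
    have h1 : HasCompactSupport (F ∘ R.symm) := hFc.comp_homeomorph R.symm.toHomeomorph
    exact h1.comp_left (g := R) (map_zero R)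
  have h := graph_divergence hg hF' hFc'
  unfold bdry
  rw [← h]
  have h1 : ∫ y in Ω, dv F y = ∫ y in R ⁻¹' (below g), dv F y := by
    rw [← integral_indicator hΩ, ← integral_indicator (R.continuous.measurable hbm)]
    congr 1
    ext y
    by_cases hy : y ∈ tsupport F
    · have := hc y (hFU hy)
      by_cases h2 : y ∈ Ω
      · rw [indicator_of_mem h2, indicator_of_mem (show y ∈ R ⁻¹' (below g) from this.mp h2)]
      · rw [indicator_of_notMem h2,
          indicator_of_notMem (show y ∉ R ⁻¹' (below g) from fun h3 => h2 (this.mpr h3))]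
    · have h0 := dv_eq_zero_of_notMem hy
      simp [indicator, h0]
  rw [h1]
  have h2 : ∫ y in below g, dv (fun z => R (F (R.symm z))) y =
      ∫ y in below g, dv F (R.symm y) := by
    congr 1
    ext y
    exact dv_conj R F y
  rw [h2]
  have h3 := (R.measurePreserving).setIntegral_preimage_emb
    R.toHomeomorph.measurableEmbedding (fun y => dv F (R.symm y)) (below g)
  simpa using h3

theorem continuous_init' {m : ℕ} : Continuous (init' : Em m → (Fin m → ℝ)) := by
  unfold init'
  fun_prop

theorem graphMap_init' {m : ℕ} {g : (Fin m → ℝ) → ℝ} {y : Em m}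
    (hy : y (Fin.last m) = g (init' y)) : graphMap g (init' y) = y := by
  unfold graphMap
  ext i
  refine Fin.lastCases ?_ (fun j => ?_) i
  · simp [hy]
  · simp [init']

theorem init'_graphMap {m : ℕ} {g : (Fin m → ℝ) → ℝ} (x' : Fin m → ℝ) :
    init' (graphMap g x') = x' := by
  ext i
  simp [init', graphMap]

theorem graphMap_last {m : ℕ} {g : (Fin m → ℝ) → ℝ} (x' : Fin m → ℝ) :
    (graphMap g x') (Fin.last m) = g x' := by
  simp [graphMap]

theorem mem_range_graphMap {m : ℕ} {g : (Fin m → ℝ) → ℝ} {y : Em m} :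
    y ∈ range (graphMap g) ↔ y (Fin.last m) = g (init' y) := by
  constructor
  · rintro ⟨x', rfl⟩
    rw [graphMap_last, init'_graphMap]
  · intro hy
    exact ⟨init' y, graphMap_init' hy⟩

theorem frontier_below {m : ℕ} {g : (Fin m → ℝ) → ℝ} (hg : Continuous g) :
    frontier (below g) = range (graphMap g) := by
  have h1 : Continuous fun y : Em m => y (Fin.last m) := by fun_prop
  have h2 : Continuous fun y : Em m => g (init' y) := hg.comp continuous_init'
  have hopen : IsOpen (below g) := isOpen_lt h1 h2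
  apply Subset.antisymm
  · intro y hy
    have := frontier_lt_subset_eq h1 h2 hy
    exact mem_range_graphMap.mpr this
  · intro y hy
    rw [mem_range_graphMap] at hy
    rw [hopen.frontier_eq]
    refine ⟨?_, ?_⟩
    · have hlim : Filter.Tendsto (fun t : ℝ => y - t • EuclideanSpace.single (Fin.last m) (1 : ℝ))
          (𝓝[>] 0) (𝓝 y) := by
        have : Continuous (fun t : ℝ => y - t • EuclideanSpace.single (Fin.last m) (1 : ℝ)) := by
          fun_prop
        have h3 := this.tendsto 0
        simp only [zero_smul, sub_zero] at h3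
        exact h3.mono_left nhdsWithin_le_nhds
      refine mem_closure_of_tendsto hlim ?_
      filter_upwards [self_mem_nhdsWithin] with t ht
      have ht' : 0 < t := ht
      have h4 : init' (y - t • EuclideanSpace.single (Fin.last m) (1 : ℝ)) = init' y := by
        ext i
        simp [init', Fin.castSucc_ne_last]
      change (y - t • EuclideanSpace.single (Fin.last m) (1 : ℝ)) (Fin.last m) < g (init' _)
      rw [h4, ← hy]
      simp [ht']
    · intro h5
      exact absurd hy (ne_of_lt h5)

theorem isOpen_below {m : ℕ} {g : (Fin m → ℝ) → ℝ} (hg : Continuous g) : IsOpen (below g) :=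
  isOpen_lt (by fun_prop : Continuous fun y : Em m => y (Fin.last m))
    (hg.comp continuous_init')

/-- In a chart the frontier of the domain is the graph. -/
theorem mem_frontier_iff {m : ℕ} {Ω U : Set (Em m)} (hU : IsOpen U) {R : Em m ≃ₗᵢ[ℝ] Em m}
    {g : (Fin m → ℝ) → ℝ} (hg : Continuous g) (hc : IsChart Ω U R g) {y : Em m} (hy : y ∈ U) :
    y ∈ frontier Ω ↔ R y ∈ range (graphMap g) := by
  have h1 : Ω ∩ U = (R ⁻¹' below g) ∩ U := by
    ext z
    constructor
    · rintro ⟨h1, h2⟩
      exact ⟨(hc z h2).mp h1, h2⟩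
    · rintro ⟨h1, h2⟩
      exact ⟨(hc z h2).mpr h1, h2⟩
  have h2 : frontier Ω ∩ U = frontier (R ⁻¹' below g) ∩ U := by
    rw [← frontier_inter_open_inter hU, h1, frontier_inter_open_inter hU]
  have h3 : frontier (R ⁻¹' below g) = R ⁻¹' (range (graphMap g)) := by
    rw [← frontier_below hg]
    exact (R.toHomeomorph.preimage_frontier (below g)).symm
  rw [h3] at h2
  constructor
  · intro h
    have : y ∈ frontier Ω ∩ U := ⟨h, hy⟩
    rw [h2] at this
    exact this.1
  · intro h
    have : y ∈ R ⁻¹' (range (graphMap g)) ∩ U := ⟨h, hy⟩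
    rw [← h2] at this
    exact this.1

theorem graphMap_injective {m : ℕ} {g : (Fin m → ℝ) → ℝ} : Function.Injective (graphMap g) := by
  intro x y h
  have := congrArg init' h
  rwa [init'_graphMap, init'_graphMap] at this

theorem isClosed_range_graphMap {m : ℕ} {g : (Fin m → ℝ) → ℝ} (hg : Continuous g) :
    IsClosed (range (graphMap g)) := by
  have : range (graphMap g) = {y : Em m | y (Fin.last m) = g (init' y)} := by
    ext y
    exact mem_range_graphMap
  rw [this]
  exact isClosed_eq (by fun_prop) (hg.comp continuous_init')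

theorem jac_nonneg {m : ℕ} (g : (Fin m → ℝ) → ℝ) (x' : Fin m → ℝ) : 0 ≤ jac g x' :=
  Real.sqrt_nonneg _

theorem one_le_jac {m : ℕ} (g : (Fin m → ℝ) → ℝ) (x' : Fin m → ℝ) : 1 ≤ jac g x' := by
  unfold jac
  rw [Real.one_le_sqrt]
  have : 0 ≤ ∑ i, (fderiv ℝ g x' (Pi.single i 1)) ^ 2 := Finset.sum_nonneg (fun i _ => sq_nonneg _)
  linarith

theorem abs_partial_le {m : ℕ} {g : (Fin m → ℝ) → ℝ} {K : ℝ≥0} (hg : LipschitzWith K g)
    (x' : Fin m → ℝ) (i : Fin m) : |fderiv ℝ g x' (Pi.single i 1)| ≤ K := by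
  have h1 : ‖fderiv ℝ g x'‖ ≤ K := norm_fderiv_le_of_lipschitz ℝ hg
  have h2 : ‖(Pi.single i (1 : ℝ) : Fin m → ℝ)‖ = 1 := by
    rw [Pi.norm_single]
    simp
  calc |fderiv ℝ g x' (Pi.single i 1)| = ‖fderiv ℝ g x' (Pi.single i 1)‖ := rfl
    _ ≤ ‖fderiv ℝ g x'‖ * ‖(Pi.single i (1 : ℝ) : Fin m → ℝ)‖ := (fderiv ℝ g x').le_opNorm _
    _ ≤ K := by rw [h2, mul_one]; exact h1

theorem jac_le {m : ℕ} {g : (Fin m → ℝ) → ℝ} {K : ℝ≥0} (hg : LipschitzWith K g)
    (x' : Fin m → ℝ) : jac g x' ≤ Real.sqrt (1 + m * K ^ 2) := by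
  unfold jac
  apply Real.sqrt_le_sqrt
  have : ∑ i, (fderiv ℝ g x' (Pi.single i 1)) ^ 2 ≤ ∑ _i : Fin m, (K : ℝ) ^ 2 := by
    apply Finset.sum_le_sum
    intro i _
    have := abs_partial_le hg x' i
    rw [← sq_abs]
    exact pow_le_pow_left₀ (abs_nonneg _) this 2
  simp only [Finset.sum_const, Finset.card_univ, Fintype.card_fin, nsmul_eq_mul] at this
  linarith

/-- Surface measure on the graph as an image measure. -/
theorem restrict_range_eq {m : ℕ} {g : (Fin m → ℝ) → ℝ} {K : ℝ≥0} (hg : LipschitzWith K g) :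
    (Measure.hausdorffMeasure (m : ℝ) : Measure (Em m)).restrict (range (graphMap g)) =
      (ENNReal.ofReal (cH m)) • ((volume.withDensity (fun x' => ENNReal.ofReal (jac g x'))).map
        (graphMap g)) := by
  ext s hs
  have hme := measurableEmbedding_graphMap hg.continuous
  have h1 := graph_area hg (f := s.indicator 1) (measurable_one.indicator hs)
  rw [lintegral_indicator hs] at h1
  simp only [Pi.one_apply, lintegral_const, one_mul, Measure.restrict_apply_univ] at h1
  rw [h1, Measure.smul_apply, smul_eq_mul, hme.map_apply, withDensity_apply _ (hme.measurable hs),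
    ← lintegral_indicator (hme.measurable hs)]
  congr 2
  ext x'
  by_cases hx : graphMap g x' ∈ s
  · have : x' ∈ graphMap g ⁻¹' s := hx
    rw [indicator_of_mem hx, indicator_of_mem this]
    simp
  · have : x' ∉ graphMap g ⁻¹' s := hx
    rw [indicator_of_notMem hx, indicator_of_notMem this]
    simp

theorem integral_graph {m : ℕ} {g : (Fin m → ℝ) → ℝ} {K : ℝ≥0} (hg : LipschitzWith K g)
    (f : Em m → ℝ) :
    ∫ y in range (graphMap g), f y ∂(Measure.hausdorffMeasure (m : ℝ)) =
      cH m * ∫ x', f (graphMap g x') * jac g x' := by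
  rw [restrict_range_eq hg, integral_smul_measure,
    (measurableEmbedding_graphMap hg.continuous).integral_map,
    integral_withDensity_eq_integral_toReal_smul]
  · rw [ENNReal.toReal_ofReal (cH_pos m).le, smul_eq_mul]
    congr 2
    ext x'
    rw [ENNReal.toReal_ofReal (jac_nonneg g x'), smul_eq_mul, mul_comm]
  · exact (measurable_jac g).ennreal_ofReal
  · filter_upwards with x'
    exact ENNReal.ofReal_lt_top

/-- Surface integral over the frontier of a function supported in a chart. -/
theorem integral_frontier_chart {m : ℕ} {Ω U : Set (Em m)} (hU : IsOpen U) (R : Em m ≃ₗᵢ[ℝ] Em m)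
    {g : (Fin m → ℝ) → ℝ} {K : ℝ≥0} (hg : LipschitzWith K g) (hc : IsChart Ω U R g)
    {f : Em m → ℝ} (hf : ∀ y, y ∉ U → f y = 0) :
    ∫ y in frontier Ω, f y ∂(Measure.hausdorffMeasure (m : ℝ)) =
      cH m * ∫ x', f (R.symm (graphMap g x')) * jac g x' := by
  have h0 := integral_graph hg (fun z => f (R.symm z))
  rw [← h0]
  have hcl : IsClosed (range (graphMap g)) := isClosed_range_graphMap hg.continuous
  have h1 : ∫ y in frontier Ω, f y ∂(Measure.hausdorffMeasure (m : ℝ)) =
      ∫ y in R ⁻¹' (range (graphMap g)), f y ∂(Measure.hausdorffMeasure (m : ℝ)) := by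
    rw [← integral_indicator isClosed_frontier.measurableSet,
      ← integral_indicator (hcl.preimage R.continuous).measurableSet]
    congr 1
    ext y
    by_cases hy : y ∈ U
    · have := mem_frontier_iff hU hg.continuous hc hy
      by_cases h2 : y ∈ frontier Ω
      · rw [indicator_of_mem h2,
          indicator_of_mem (show y ∈ R ⁻¹' (range (graphMap g)) from this.mp h2)]
      · rw [indicator_of_notMem h2,
          indicator_of_notMem (show y ∉ R ⁻¹' (range (graphMap g)) from fun h3 => h2 (this.mpr h3))]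
    · have h0 := hf y hy
      simp [indicator, h0]
  rw [h1]
  have h3 := (R.toIsometryEquiv.measurePreserving_hausdorffMeasure (m : ℝ)).setIntegral_preimage_emb
    R.toHomeomorph.measurableEmbedding (fun y => f (R.symm y)) (range (graphMap g))
  simpa using h3

/-- The measure of the part of the frontier in a bounded chart is finite. -/
theorem frontier_inter_lt_top {m : ℕ} {Ω U : Set (Em m)} (hU : IsOpen U)
    (hUb : Bornology.IsBounded U) (R : Em m ≃ₗᵢ[ℝ] Em m)
    {g : (Fin m → ℝ) → ℝ} {K : ℝ≥0} (hg : LipschitzWith K g) (hc : IsChart Ω U R g) :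
    Measure.hausdorffMeasure (m : ℝ) (frontier Ω ∩ U) < ⊤ := by
  have h1 : frontier Ω ∩ U = R ⁻¹' (range (graphMap g) ∩ R.symm ⁻¹' U) := by
    ext y
    constructor
    · rintro ⟨h1, h2⟩
      exact ⟨(mem_frontier_iff hU hg.continuous hc h2).mp h1, by simpa using h2⟩
    · rintro ⟨h1, h2⟩
      have h2' : y ∈ U := by simpa using h2
      exact ⟨(mem_frontier_iff hU hg.continuous hc h2').mpr h1, h2'⟩
  have hUm : MeasurableSet (R.symm ⁻¹' U) := (hU.preimage R.symm.continuous).measurableSet
  have h2 : Measure.hausdorffMeasure (m : ℝ) (frontier Ω ∩ U) =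
      Measure.hausdorffMeasure (m : ℝ) (range (graphMap g) ∩ R.symm ⁻¹' U) := by
    rw [h1]
    exact R.toIsometryEquiv.hausdorffMeasure_preimage _ _
  rw [h2, inter_comm, ← Measure.restrict_apply hUm, restrict_range_eq hg, Measure.smul_apply,
    smul_eq_mul, (measurableEmbedding_graphMap hg.continuous).map_apply,
    withDensity_apply _ ((measurableEmbedding_graphMap hg.continuous).measurable hUm)]
  apply ENNReal.mul_lt_top ENNReal.ofReal_lt_top
  have hbd : Bornology.IsBounded (graphMap g ⁻¹' (R.symm ⁻¹' U)) := by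
    have hb2 : Bornology.IsBounded (R.symm ⁻¹' U) := by
      have : R.symm ⁻¹' U = R '' U := by
        ext z
        constructor
        · intro hz
          exact ⟨R.symm z, hz, by simp⟩
        · rintro ⟨w, hw, rfl⟩
          simpa using hw
      rw [this]
      exact R.lipschitz.isBounded_image hUb
    have hb3 : Bornology.IsBounded (init' '' (R.symm ⁻¹' U)) := by
      have hl : LipschitzWith 1 (init' : Em m → (Fin m → ℝ)) := by
        apply LipschitzWith.of_dist_le_mul
        intro a b
        rw [NNReal.coe_one, one_mul, dist_pi_le_iff dist_nonneg]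
        intro i
        rw [EuclideanSpace.dist_eq]
        apply Real.le_sqrt_of_sq_le
        exact Finset.single_le_sum (f := fun j => dist (a j) (b j) ^ 2)
          (fun j _ => sq_nonneg _) (Finset.mem_univ (Fin.castSucc i))
      exact hl.isBounded_image hb2
    apply hb3.subset
    intro x' hx'
    exact ⟨graphMap g x', hx', init'_graphMap x'⟩
  calc ∫⁻ x' in graphMap g ⁻¹' (R.symm ⁻¹' U), ENNReal.ofReal (jac g x')
      ≤ ∫⁻ x' in graphMap g ⁻¹' (R.symm ⁻¹' U), ENNReal.ofReal (Real.sqrt (1 + m * K ^ 2)) := by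
        apply lintegral_mono
        intro x'
        exact ENNReal.ofReal_le_ofReal (jac_le hg x')
    _ = ENNReal.ofReal (Real.sqrt (1 + m * K ^ 2)) *
        volume (graphMap g ⁻¹' (R.symm ⁻¹' U)) := by
        rw [setLIntegral_const]
    _ < ⊤ := ENNReal.mul_lt_top ENNReal.ofReal_lt_top hbd.measure_lt_top

/-- Finite partition of unity on the closure of a bounded open set, adapted to boundary balls. -/
theorem exists_pou {m : ℕ} {Ω : Set (Em m)} (hO : IsOpen Ω) (hb : Bornology.IsBounded Ω)
    (P : Em m → ℝ → Prop) (hP : ∀ x ∈ frontier Ω, ∃ r, 0 < r ∧ P x r) :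
    ∃ (ι : Type) (_ : Fintype ι) (c : ι → Em m) (r : ι → ℝ) (χ₀ : Em m → ℝ)
      (χ : ι → Em m → ℝ), (∀ i, 0 < r i ∧ P (c i) (r i)) ∧ ContDiff ℝ (⊤ : ℕ∞) χ₀ ∧
      tsupport χ₀ ⊆ Ω ∧ (∀ i, ContDiff ℝ (⊤ : ℕ∞) (χ i)) ∧
      (∀ i, tsupport (χ i) ⊆ ball (c i) (r i)) ∧ (∀ i x, 0 ≤ χ i x) ∧ (∀ i x, χ i x ≤ 1) ∧
      (∀ x ∈ closure Ω, χ₀ x + ∑ i, χ i x = 1) ∧ frontier Ω ⊆ ⋃ i, ball (c i) (r i) := by
  classical
  choose! r hr0 hrP using hP
  have hcomp : IsCompact (frontier Ω) :=
    Metric.isCompact_of_isClosed_isBounded isClosed_frontier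
      (hb.closure.subset frontier_subset_closure)
  obtain ⟨t, htF, ht⟩ := hcomp.elim_nhds_subcover (fun x => ball x (r x))
    (fun x hx => ball_mem_nhds x (hr0 x hx))
  let U : Option t → Set (Em m) := fun o => o.elim Ω (fun i => ball (i : Em m) (r i))
  have hUo : ∀ o, IsOpen (U o) := by
    intro o
    cases o with
    | none => exact hO
    | some i => exact isOpen_ball
  have hcov : closure Ω ⊆ ⋃ o, U o := by
    intro x hx
    by_cases hxΩ : x ∈ Ω
    · exact mem_iUnion.mpr ⟨none, hxΩ⟩
    · have hxf : x ∈ frontier Ω := by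
        rw [hO.frontier_eq]
        exact ⟨hx, hxΩ⟩
      obtain ⟨y, hy, hxy⟩ := mem_iUnion₂.mp (ht hxf)
      exact mem_iUnion.mpr ⟨some ⟨y, hy⟩, hxy⟩
  obtain ⟨f, hf⟩ := SmoothPartitionOfUnity.exists_isSubordinate
    (modelWithCornersSelf ℝ (Em m)) (isClosed_closure (s := Ω)) U hUo hcov
  refine ⟨t, inferInstance, fun i => (i : Em m), fun i => r i, f none, fun i => f (some i),
    ?_, ?_, hf none, ?_, fun i => hf (some i), fun i x => f.nonneg _ x, fun i x => f.le_one _ x,
    ?_, ?_⟩
  · intro i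
    exact ⟨hr0 i (htF i i.2), hrP i (htF i i.2)⟩
  · exact (f none).contMDiff.contDiff
  · intro i
    exact (f (some i)).contMDiff.contDiff
  · intro x hx
    have := f.sum_eq_one hx
    rw [finsum_eq_sum_of_fintype, Fintype.sum_option] at this
    exact this
  · intro x hx
    obtain ⟨y, hy, hxy⟩ := mem_iUnion₂.mp (ht hx)
    exact mem_iUnion.mpr ⟨⟨y, hy⟩, hxy⟩

end Pool.Agent.RobinBall
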