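import Mathlib
import Pool.Agent.RobinBall.Defs
import Pool.Agent.RobinBall.Chart

/-!
# Decomposition of the integral of the divergence by a partition of unity
-/

set_option autoImplicit false

open MeasureTheory Metric Set
open scoped MeasureTheory NNReal ENNReal Topology

namespace Pool.Agent.RobinBall

/-- The trace as a continuous linear functional. -/
noncomputable def trcL (m : ℕ) : (Em m →L[ℝ] Em m) →L[ℝ] ℝ :=
  LinearMap.toContinuousLinearMap
    ((LinearMap.trace ℝ (Em m)).comp
      (ContinuousLinearMap.coeLM ℝ : (Em m →L[ℝ] Em m) →ₗ[ℝ] (Em m →ₗ[ℝ] Em m)))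

theorem trcL_apply {m : ℕ} (M : Em m →L[ℝ] Em m) : trcL m M = trc M := rfl

theorem dv_eq_trc {m : ℕ} (F : Em m → Em m) (x : Em m) : dv F x = trc (fderiv ℝ F x) := rfl

theorem abs_trc_le {m : ℕ} (M : Em m →L[ℝ] Em m) : |trc M| ≤ ‖trcL m‖ * ‖M‖ := by
  rw [← trcL_apply]
  exact (trcL m).le_opNorm M

theorem measurable_dv {m : ℕ} (F : Em m → Em m) : Measurable (dv F) := by
  have : dv F = fun x => trcL m (fderiv ℝ F x) := rfl
  rw [this]
  exact (trcL m).continuous.measurable.comp (measurable_fderiv ℝ F)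

theorem integrable_dv {m : ℕ} {F : Em m → Em m} {L : ℝ≥0} (hF : LipschitzWith L F)
    (hFc : HasCompactSupport F) : Integrable (dv F) := by
  have h1 : IntegrableOn (dv F) (tsupport F) := by
    refine Measure.integrableOn_of_bounded (M := ‖trcL m‖ * L) hFc.measure_lt_top.ne
      (measurable_dv F).aestronglyMeasurable ?_
    filter_upwards with x
    rw [dv_eq_trc, Real.norm_eq_abs]
    refine (abs_trc_le _).trans ?_
    have h0 : 0 ≤ ‖trcL m‖ := norm_nonneg (trcL m)
    exact mul_le_mul_of_nonneg_left (norm_fderiv_le_of_lipschitz ℝ hF) h0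
  refine (integrableOn_iff_integrable_of_support_subset ?_).mp h1
  intro x hx
  by_contra h
  exact hx (dv_eq_zero_of_notMem h)

theorem integral_dv_eq_zero {m : ℕ} {F : Em m → Em m} {L : ℝ≥0} (hF : LipschitzWith L F)
    (hFc : HasCompactSupport F) : ∫ x, dv F x = 0 := by
  obtain ⟨c, hc0, hc⟩ : ∃ c : ℝ, 0 < c ∧ tsupport F ⊆ ball 0 c := by
    obtain ⟨c, hc⟩ := hFc.isBounded.subset_ball 0
    refine ⟨max c 1, by positivity, hc.trans (ball_subset_ball (le_max_left _ _))⟩
  let g : (Fin m → ℝ) → ℝ := fun _ => c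
  have hg : LipschitzWith 0 g := LipschitzWith.const c
  have hchart : IsChart (univ : Set (Em m)) (ball 0 c) (LinearIsometryEquiv.refl ℝ (Em m)) g := by
    intro y hy
    simp only [mem_univ, true_iff]
    change y (Fin.last m) < c
    have h1 : |y (Fin.last m)| ≤ ‖y‖ := by
      have := PiLp.norm_apply_le y (Fin.last m)
      simpa using this
    have h2 : ‖y‖ < c := by simpa using hy
    exact (le_abs_self _).trans_lt (h1.trans_lt h2)
  have h := local_div (LinearIsometryEquiv.refl ℝ (Em m)) hg hchart hF hFc hc MeasurableSet.univ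
  rw [setIntegral_univ] at h
  rw [h]
  have hzero : ∀ x', F (graphMap g x') = 0 := by
    intro x'
    apply image_eq_zero_of_notMem_tsupport
    intro hx
    have h2 : ‖graphMap g x'‖ < c := by simpa using hc hx
    have h1 : |(graphMap g x') (Fin.last m)| ≤ ‖graphMap g x'‖ := by
      have := PiLp.norm_apply_le (graphMap g x') (Fin.last m)
      simpa using this
    rw [graphMap_last] at h1
    have : c ≤ |g x'| := le_abs_self c
    linarith
  have h3 : ∀ x', bdry g (fun z => (LinearIsometryEquiv.refl ℝ (Em m))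
      (F ((LinearIsometryEquiv.refl ℝ (Em m)).symm z))) x' = 0 := by
    intro x'
    unfold bdry
    have hz : (LinearIsometryEquiv.refl ℝ (Em m))
        (F ((LinearIsometryEquiv.refl ℝ (Em m)).symm (graphMap g x'))) = 0 := hzero x'
    beta_reduce
    rw [hz]
    simp
  rw [integral_congr_ae (Filter.Eventually.of_forall h3)]
  simp

theorem setIntegral_dv_eq_zero {m : ℕ} {Ω : Set (Em m)} {F : Em m → Em m} {L : ℝ≥0}
    (hF : LipschitzWith L F) (hFc : HasCompactSupport F) (hs : tsupport F ⊆ Ω) :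
    ∫ x in Ω, dv F x = 0 := by
  rw [setIntegral_eq_integral_of_forall_compl_eq_zero, integral_dv_eq_zero hF hFc]
  intro x hx
  exact dv_eq_zero_of_notMem (fun h => hx (hs h))

/-- A bounded Lipschitz function times a bounded Lipschitz field is Lipschitz. -/
theorem exists_lipschitz_smul {m : ℕ} {χ : Em m → ℝ} (hχ : ContDiff ℝ 1 χ)
    (hχc : HasCompactSupport χ) {F : Em m → Em m} {L : ℝ≥0} (hF : LipschitzWith L F) :
    ∃ L' : ℝ≥0, LipschitzWith L' (fun x => χ x • F x) := by
  obtain ⟨K, hK⟩ := hχ.lipschitzWith_of_hasCompactSupport hχc one_ne_zero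
  obtain ⟨C, hC⟩ := hχ.continuous.bounded_above_of_compact_support hχc
  have hFcont : ContinuousOn F (tsupport χ) := hF.continuous.continuousOn
  obtain ⟨D, hD⟩ := hχc.isCompact.exists_bound_of_continuousOn hFcont
  have hC0 : 0 ≤ C := (norm_nonneg _).trans (hC 0)
  have key : ∀ x y, x ∈ tsupport χ →
      dist (χ x • F x) (χ y • F y) ≤ (K * max D 0 + C * L) * dist x y := by
    intro x y hx
    rw [dist_eq_norm]
    have h1 : χ x • F x - χ y • F y = (χ x - χ y) • F x + χ y • (F x - F y) := by
      rw [sub_smul, smul_sub]; abel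
    rw [h1]
    refine (norm_add_le _ _).trans ?_
    rw [norm_smul, norm_smul, add_mul]
    apply add_le_add
    · have h2 : ‖χ x - χ y‖ ≤ K * dist x y := by
        rw [← dist_eq_norm]; exact hK.dist_le_mul x y
      have h3 : ‖F x‖ ≤ max D 0 := (hD x hx).trans (le_max_left _ _)
      calc ‖χ x - χ y‖ * ‖F x‖ ≤ (K * dist x y) * max D 0 := by gcongr
        _ = K * max D 0 * dist x y := by ring
    · have h2 : ‖F x - F y‖ ≤ L * dist x y := by
        rw [← dist_eq_norm]; exact hF.dist_le_mul x y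
      calc ‖χ y‖ * ‖F x - F y‖ ≤ C * (L * dist x y) := by
            apply mul_le_mul (hC y) h2 (norm_nonneg _) hC0
        _ = C * L * dist x y := by ring
  refine ⟨Real.toNNReal (K * max D 0 + C * L), LipschitzWith.of_dist_le_mul ?_⟩
  intro x y
  rw [Real.coe_toNNReal _ (by positivity)]
  by_cases hx : x ∈ tsupport χ
  · exact key x y hx
  · by_cases hy : y ∈ tsupport χ
    · rw [dist_comm, dist_comm x y]
      exact key y x hy
    · rw [image_eq_zero_of_notMem_tsupport hx, image_eq_zero_of_notMem_tsupport hy]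
      simp only [zero_smul, dist_self]
      positivity

theorem tsupport_smul_subset {m : ℕ} {χ : Em m → ℝ} {F : Em m → Em m} :
    tsupport (fun x => χ x • F x) ⊆ tsupport χ :=
  closure_mono (fun x hx => by
    intro h
    apply hx
    simp [h])

theorem hasCompactSupport_smul {m : ℕ} {χ : Em m → ℝ} (hχc : HasCompactSupport χ)
    {F : Em m → Em m} : HasCompactSupport (fun x => χ x • F x) :=
  hχc.of_isClosed_subset (isClosed_tsupport _) tsupport_smul_subset

/-- Decomposition of the integral of the divergence. -/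
theorem integral_dv_decomp {m : ℕ} {Ω : Set (Em m)} (hO : IsOpen Ω) (hb : Bornology.IsBounded Ω)
    {ι : Type} [Fintype ι] {c : ι → Em m} {r : ι → ℝ} {χ₀ : Em m → ℝ} {χ : ι → Em m → ℝ}
    (hχ₀ : ContDiff ℝ (⊤ : ℕ∞) χ₀) (hs₀ : tsupport χ₀ ⊆ Ω) (hχ : ∀ i, ContDiff ℝ (⊤ : ℕ∞) (χ i))
    (hs : ∀ i, tsupport (χ i) ⊆ ball (c i) (r i))
    (hsum : ∀ x ∈ closure Ω, χ₀ x + ∑ i, χ i x = 1)
    {F : Em m → Em m} {L : ℝ≥0} (hF : LipschitzWith L F) :
    ∫ x in Ω, dv F x = ∑ i, ∫ x in Ω, dv (fun y => χ i y • F y) x := by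
  have hχ₀c : HasCompactSupport χ₀ :=
    Metric.isCompact_of_isClosed_isBounded (isClosed_tsupport _) (hb.subset hs₀)
  have hχc : ∀ i, HasCompactSupport (χ i) := fun i =>
    Metric.isCompact_of_isClosed_isBounded (isClosed_tsupport _) (isBounded_ball.subset (hs i))
  have h1 : ∀ᵐ x, x ∈ Ω → dv F x = dv (fun y => χ₀ y • F y) x +
      ∑ i, dv (fun y => χ i y • F y) x := by
    filter_upwards [hF.ae_differentiableAt] with x hx hxΩ
    have e1 : F =ᶠ[𝓝 x] fun y => χ₀ y • F y + ∑ i, χ i y • F y := by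
      filter_upwards [hO.mem_nhds hxΩ] with y hy
      rw [← Finset.sum_smul, ← add_smul, hsum y (subset_closure hy), one_smul]
    rw [dv_congr_of_eventuallyEq e1]
    have d0 : DifferentiableAt ℝ (fun y => χ₀ y • F y) x :=
      ((hχ₀.differentiable (by simp)).differentiableAt).smul hx
    have di : ∀ i, DifferentiableAt ℝ (fun y => χ i y • F y) x := fun i =>
      (((hχ i).differentiable (by simp)).differentiableAt).smul hx
    rw [dv_eq_trc, dv_eq_trc]
    have e2 : fderiv ℝ (fun y => χ₀ y • F y + ∑ i, χ i y • F y) x =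
        fderiv ℝ (fun y => χ₀ y • F y) x + ∑ i, fderiv ℝ (fun y => χ i y • F y) x := by
      rw [fderiv_fun_add d0 (DifferentiableAt.fun_sum (fun i _ => di i)),
        fderiv_fun_sum (fun i _ => di i)]
    rw [e2, ← trcL_apply, ← trcL_apply, map_add, map_sum]
    rfl
  rw [setIntegral_congr_ae hO.measurableSet h1]
  obtain ⟨L0, hL0⟩ := exists_lipschitz_smul (hχ₀.of_le (by simp)) hχ₀c hF
  have hLi : ∀ i, ∃ L' : ℝ≥0, LipschitzWith L' (fun x => χ i x • F x) := fun i =>
    exists_lipschitz_smul ((hχ i).of_le (by simp)) (hχc i) hF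
  choose Li hLi using hLi
  have i0 := integrable_dv hL0 (hasCompactSupport_smul hχ₀c)
  have ii : ∀ i, Integrable (dv (fun x => χ i x • F x)) := fun i =>
    integrable_dv (hLi i) (hasCompactSupport_smul (hχc i))
  rw [integral_add i0.integrableOn (integrable_finsetSum _ (fun i _ => (ii i).integrableOn)),
    integral_finsetSum _ (fun i _ => (ii i).integrableOn),
    setIntegral_dv_eq_zero hL0 (hasCompactSupport_smul hχ₀c) (tsupport_smul_subset.trans hs₀),
    zero_add]

end Pool.Agent.RobinBall
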