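import Mathlib
import Pool.Agent.RobinBall.Defs
import Pool.Agent.RobinBall.Chart
import Pool.Agent.RobinBall.Decomp

/-!
# Gauss-Green inequality and trace inequality for bounded Lipschitz domains
-/

set_option autoImplicit false

open MeasureTheory Metric Set
open scoped MeasureTheory NNReal ENNReal Topology

namespace Pool.Agent.RobinBall

theorem isClosedEmbedding_graphMap {m : ℕ} {g : (Fin m → ℝ) → ℝ} (hg : Continuous g) :
    Topology.IsClosedEmbedding (graphMap g) :=
  Function.LeftInverse.isClosedEmbedding (f := init') (fun x' => init'_graphMap x')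
    continuous_init' (continuous_graphMap hg)

theorem integrable_comp_graphMap {m : ℕ} {E : Type*} [NormedAddCommGroup E]
    {g : (Fin m → ℝ) → ℝ} (hg : Continuous g) {f : Em m → E} (hf : Continuous f)
    (hfc : HasCompactSupport f) : Integrable (fun x' => f (graphMap g x')) :=
  (hf.comp (continuous_graphMap hg)).integrable_of_hasCompactSupport
    (hfc.comp_isClosedEmbedding (isClosedEmbedding_graphMap hg))

theorem integrable_bdry {m : ℕ} {g : (Fin m → ℝ) → ℝ} {K : ℝ≥0} (hg : LipschitzWith K g)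
    {F : Em m → Em m} (hF : Continuous F) (hFc : HasCompactSupport F) :
    Integrable (bdry g F) := by
  have hcomp : ∀ j : Fin (m + 1), Integrable (fun x' => F (graphMap g x') j) := by
    intro j
    have h1 : Continuous (fun y => F y j) := by fun_prop
    have h2 : HasCompactSupport (fun y => F y j) := hFc.comp_left (g := fun v : Em m => v j) rfl
    exact integrable_comp_graphMap hg.continuous h1 h2
  unfold bdry
  refine (hcomp (Fin.last m)).sub (integrable_finsetSum _ (fun i _ => ?_))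
  refine (hcomp (Fin.castSucc i)).bdd_mul (c := K)
    (measurable_fderiv_apply_const ℝ g _).aestronglyMeasurable ?_
  filter_upwards with x'
  rw [Real.norm_eq_abs]
  exact abs_partial_le hg x' i

theorem bdry_le {m : ℕ} {g : (Fin m → ℝ) → ℝ} (F : Em m → Em m) (x' : Fin m → ℝ) :
    bdry g F x' ≤ ‖F (graphMap g x')‖ * jac g x' := by
  let N : Em m := WithLp.toLp 2 (Fin.snoc (fun i => - fderiv ℝ g x' (Pi.single i 1)) 1)
  have h1 : ‖N‖ = jac g x' := by
    rw [EuclideanSpace.norm_eq, Fin.sum_univ_castSucc]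
    unfold jac
    congr 1
    simp [N]
    ring
  have h2 : bdry g F x' = inner ℝ (F (graphMap g x')) N := by
    rw [PiLp.inner_apply, Fin.sum_univ_castSucc]
    unfold bdry
    simp [N]
    ring
  rw [h2, ← h1]
  exact real_inner_le_norm _ _

theorem gauss_green_chart {m : ℕ} {Ω U : Set (Em m)} (hO : IsOpen Ω) (hU : IsOpen U)
    (R : Em m ≃ₗᵢ[ℝ] Em m)
    {g : (Fin m → ℝ) → ℝ} {K : ℝ≥0} (hg : LipschitzWith K g) (hc : IsChart Ω U R g)
    {F : Em m → Em m} {L : ℝ≥0} (hF : LipschitzWith L F) (hFc : HasCompactSupport F)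
    (hFU : tsupport F ⊆ U) :
    ∫ x in Ω, dv F x ≤
      (cH m)⁻¹ * ∫ x in frontier Ω, ‖F x‖ ∂(Measure.hausdorffMeasure (m : ℝ)) := by
  rw [local_div R hg hc hF hFc hFU hO.measurableSet,
    integral_frontier_chart hU R hg hc (f := fun x => ‖F x‖), ← mul_assoc,
    inv_mul_cancel₀ (cH_pos m).ne', one_mul]
  · have hF'c : Continuous (fun z => R (F (R.symm z))) :=
      R.continuous.comp (hF.continuous.comp R.symm.continuous)
    have hF's : HasCompactSupport (fun z => R (F (R.symm z))) := by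
      have h1 : HasCompactSupport (F ∘ R.symm) := hFc.comp_homeomorph R.symm.toHomeomorph
      exact h1.comp_left (g := R) (map_zero R)
    apply integral_mono (integrable_bdry hg hF'c hF's)
    · have h3 : Integrable (fun x' => ‖F (R.symm (graphMap g x'))‖) := by
        have h4 : Continuous (fun z => ‖F (R.symm z)‖) :=
          (hF.continuous.comp R.symm.continuous).norm
        have h5 : HasCompactSupport (fun z => ‖F (R.symm z)‖) := by
          have h1 : HasCompactSupport (F ∘ R.symm) := hFc.comp_homeomorph R.symm.toHomeomorph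
          exact h1.norm
        exact integrable_comp_graphMap hg.continuous h4 h5
      refine h3.mul_bdd (c := Real.sqrt (1 + m * K ^ 2)) (measurable_jac g).aestronglyMeasurable ?_
      filter_upwards with x'
      rw [Real.norm_eq_abs, abs_of_nonneg (jac_nonneg g x')]
      exact jac_le hg x'
    · intro x'
      have := bdry_le (g := g) (fun z => R (F (R.symm z))) x'
      simpa using this
  · intro y hy
    have : F y = 0 := image_eq_zero_of_notMem_tsupport (fun h => hy (hFU h))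
    simp [this]

theorem isLipDom_charts {m : ℕ} {Ω : Set (Em m)} (hL : IsLipDom Ω) :
    ∀ x ∈ frontier Ω, ∃ r : ℝ, 0 < r ∧ ∃ R : Em m ≃ₗᵢ[ℝ] Em m, ∃ K : ℝ≥0,
      ∃ g : (Fin m → ℝ) → ℝ, LipschitzWith K g ∧ IsChart Ω (ball x r) R g := by
  intro x hx
  obtain ⟨r, hr, R, K, g, hg, h⟩ := hL x hx
  exact ⟨r, hr, R, K, g, hg, fun y hy => h y hy⟩

theorem frontier_lt_top {m : ℕ} (hm : 1 ≤ m) {Ω : Set (Em m)} (hO : IsOpen Ω)
    (hb : Bornology.IsBounded Ω) (hL : IsLipDom Ω) :
    Measure.hausdorffMeasure (m : ℝ) (frontier Ω) < ⊤ := by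
  obtain ⟨ι, hι, c, r, χ₀, χ, hP, -, -, -, -, -, -, -, hcov⟩ :=
    exists_pou hO hb (fun x r => ∃ R : Em m ≃ₗᵢ[ℝ] Em m, ∃ K : ℝ≥0,
      ∃ g : (Fin m → ℝ) → ℝ, LipschitzWith K g ∧ IsChart Ω (ball x r) R g) (isLipDom_charts hL)
  have h1 : frontier Ω ⊆ ⋃ i, (frontier Ω ∩ ball (c i) (r i)) := by
    intro x hx
    obtain ⟨i, hi⟩ := mem_iUnion.mp (hcov hx)
    exact mem_iUnion.mpr ⟨i, hx, hi⟩
  refine (measure_mono h1).trans_lt ?_
  refine (measure_iUnion_fintype_le _ _).trans_lt ?_
  rw [ENNReal.sum_lt_top]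
  intro i _
  obtain ⟨R, K, g, hg, hc⟩ := (hP i).2
  exact frontier_inter_lt_top isOpen_ball isBounded_ball R hg hc

/-- Gauss-Green inequality on a bounded Lipschitz domain. -/
theorem gauss_green_le {m : ℕ} (hm : 1 ≤ m) {Ω : Set (Em m)} (hO : IsOpen Ω)
    (hb : Bornology.IsBounded Ω) (hL : IsLipDom Ω) {F : Em m → Em m} {K : ℝ≥0}
    (hF : LipschitzWith K F) (hFc : HasCompactSupport F) :
    ∫ x in Ω, dv F x ≤
      (cH m)⁻¹ * ∫ x in frontier Ω, ‖F x‖ ∂(Measure.hausdorffMeasure (m : ℝ)) := by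
  obtain ⟨ι, hι, c, r, χ₀, χ, hP, hχ₀, hs₀, hχ, hs, hχ0, hχ1, hsum, hcov⟩ :=
    exists_pou hO hb (fun x r => ∃ R : Em m ≃ₗᵢ[ℝ] Em m, ∃ K : ℝ≥0,
      ∃ g : (Fin m → ℝ) → ℝ, LipschitzWith K g ∧ IsChart Ω (ball x r) R g) (isLipDom_charts hL)
  have hχc : ∀ i, HasCompactSupport (χ i) := fun i =>
    Metric.isCompact_of_isClosed_isBounded (isClosed_tsupport _) (isBounded_ball.subset (hs i))
  rw [integral_dv_decomp hO hb hχ₀ hs₀ hχ hs hsum hF]
  have hi : ∀ i, ∫ x in Ω, dv (fun y => χ i y • F y) x ≤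
      (cH m)⁻¹ * ∫ x in frontier Ω, ‖χ i x • F x‖ ∂(Measure.hausdorffMeasure (m : ℝ)) := by
    intro i
    obtain ⟨R, K', g, hg, hc⟩ := (hP i).2
    obtain ⟨L', hL'⟩ := exists_lipschitz_smul ((hχ i).of_le (by simp)) (hχc i) hF
    exact gauss_green_chart hO isOpen_ball R hg hc hL' (hasCompactSupport_smul (hχc i))
      (tsupport_smul_subset.trans (hs i))
  refine (Finset.sum_le_sum (fun i _ => hi i)).trans ?_
  rw [← Finset.mul_sum]
  have hfin := frontier_lt_top hm hO hb hL
  haveI : IsFiniteMeasure ((Measure.hausdorffMeasure (m : ℝ) : Measure (Em m)).restrict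
      (frontier Ω)) := ⟨by rwa [Measure.restrict_apply_univ]⟩
  rw [← integral_finsetSum]
  · apply le_of_eq
    congr 1
    apply setIntegral_congr_fun isClosed_frontier.measurableSet
    intro x hx
    have h1 := hsum x (frontier_subset_closure hx)
    have h2 : χ₀ x = 0 := by
      apply image_eq_zero_of_notMem_tsupport
      intro h
      have : x ∈ Ω := hs₀ h
      rw [hO.frontier_eq] at hx
      exact hx.2 this
    rw [h2, zero_add] at h1
    have h3 : ∀ i, ‖χ i x • F x‖ = χ i x * ‖F x‖ := by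
      intro i
      rw [norm_smul, Real.norm_eq_abs, abs_of_nonneg (hχ0 i x)]
    simp only [h3]
    rw [← Finset.sum_mul, h1, one_mul]
  · intro i _
    have hcont : Continuous (fun x => ‖χ i x • F x‖) :=
      ((hχ i).continuous.smul hF.continuous).norm
    exact hcont.integrable_of_hasCompactSupport (hasCompactSupport_smul (hχc i)).norm

/-- Divergence of a scalar function times a fixed vector. -/
theorem dv_smul_const {m : ℕ} {φ : Em m → ℝ} {x : Em m} (hφ : DifferentiableAt ℝ φ x) (e : Em m) :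
    dv (fun y => φ y • e) x = fderiv ℝ φ x e := by
  rw [dv_eq_trc, fderiv_smul_const hφ e]
  exact LinearMap.trace_smulRight (fderiv ℝ φ x : Em m →ₗ[ℝ] ℝ) e

theorem trace_chart {m : ℕ} {Ω U : Set (Em m)} (hO : IsOpen Ω) (hU : IsOpen U)
    (R : Em m ≃ₗᵢ[ℝ] Em m)
    {g : (Fin m → ℝ) → ℝ} {K : ℝ≥0} (hg : LipschitzWith K g) (hc : IsChart Ω U R g)
    {χ : Em m → ℝ} (hχ : ContDiff ℝ (⊤ : ℕ∞) χ) (hχc : HasCompactSupport χ)
    (hχU : tsupport χ ⊆ U) (hχ0 : ∀ x, 0 ≤ χ x) (hχ1 : ∀ x, χ x ≤ 1) :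
    ∃ C : ℝ, 0 ≤ C ∧ ∀ v : Em m → ℝ, ContDiff ℝ 1 v → HasCompactSupport v →
      ∫ x in frontier Ω, v x ^ 2 * χ x ∂(Measure.hausdorffMeasure (m : ℝ)) ≤
        C * ∫ x in Ω, (v x ^ 2 + |v x| * ‖fderiv ℝ v x‖) := by
  have hχ' : ContDiff ℝ 1 χ := hχ.of_le (by simp)
  obtain ⟨B, hB⟩ := (hχ'.continuous_fderiv one_ne_zero).bounded_above_of_compact_support
    (hχc.fderiv (𝕜 := ℝ))
  have hB0 : 0 ≤ B := (norm_nonneg _).trans (hB 0)
  set J : ℝ := Real.sqrt (1 + m * K ^ 2) with hJ
  have hJ0 : 0 ≤ J := Real.sqrt_nonneg _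
  have hcH := cH_pos m
  refine ⟨cH m * J * (2 + B), by positivity, ?_⟩
  intro v hv hvc
  set e : Em m := R.symm (EuclideanSpace.single (Fin.last m) (1 : ℝ)) with he
  have henorm : ‖e‖ = 1 := by
    rw [he, LinearIsometryEquiv.norm_map]
    simp
  set φ : Em m → ℝ := fun x => v x ^ 2 * χ x with hφ
  have hφd : ContDiff ℝ 1 φ := (hv.pow 2).mul hχ'
  have hφc : HasCompactSupport φ := hχc.mul_left
  have hφU : tsupport φ ⊆ U := by
    refine (closure_mono ?_).trans hχU
    intro x hx h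
    apply hx
    simp [hφ, h]
  obtain ⟨L, hL⟩ := hφd.lipschitzWith_of_hasCompactSupport hφc one_ne_zero
  have hF : LipschitzWith L (fun x => φ x • e) := by
    apply LipschitzWith.of_dist_le_mul
    intro x y
    rw [dist_eq_norm, ← sub_smul, norm_smul, henorm, mul_one, ← dist_eq_norm]
    exact hL.dist_le_mul x y
  have hFc : HasCompactSupport (fun x => φ x • e) := hφc.smul_right
  have hFU : tsupport (fun x => φ x • e) ⊆ U := by
    refine (closure_mono ?_).trans hφU
    intro x hx h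
    apply hx
    simp [h]
  have h1 := local_div R hg hc hF hFc hFU hO.measurableSet
  have h2 : ∀ x', bdry g (fun z => R (φ (R.symm z) • e)) x' = φ (R.symm (graphMap g x')) := by
    intro x'
    unfold bdry
    simp [he]
  have h3 : ∫ y in Ω, dv (fun x => φ x • e) y = ∫ x', φ (R.symm (graphMap g x')) := by
    rw [h1]
    exact integral_congr_ae (Filter.Eventually.of_forall h2)
  rw [integral_frontier_chart hU R hg hc (f := φ)
    (fun y hy => image_eq_zero_of_notMem_tsupport (fun h => hy (hφU h)))]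
  have hφ0 : ∀ x, 0 ≤ φ x := fun x => mul_nonneg (sq_nonneg _) (hχ0 x)
  have hint : Integrable (fun x' => φ (R.symm (graphMap g x'))) :=
    integrable_comp_graphMap hg.continuous (f := fun z => φ (R.symm z))
      (hφd.continuous.comp R.symm.continuous) (hφc.comp_homeomorph R.symm.toHomeomorph)
  have h4 : ∫ x', φ (R.symm (graphMap g x')) * jac g x' ≤
      J * ∫ y in Ω, dv (fun x => φ x • e) y := by
    rw [h3, ← integral_const_mul]
    apply integral_mono_of_nonneg
    · filter_upwards with x'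
      exact mul_nonneg (hφ0 _) (jac_nonneg g x')
    · exact hint.const_mul J
    · filter_upwards with x'
      rw [mul_comm]
      exact mul_le_mul_of_nonneg_right (jac_le hg x') (hφ0 _)
  have h5 : ∫ y in Ω, dv (fun x => φ x • e) y ≤
      (2 + B) * ∫ x in Ω, (v x ^ 2 + |v x| * ‖fderiv ℝ v x‖) := by
    rw [← integral_const_mul]
    apply integral_mono (integrable_dv hF hFc).integrableOn
    · have hvf : Continuous (fderiv ℝ v) := hv.continuous_fderiv one_ne_zero
      have hcont : Continuous (fun x => (2 + B) * (v x ^ 2 + |v x| * ‖fderiv ℝ v x‖)) := by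
        have := hv.continuous
        fun_prop
      apply Integrable.integrableOn
      apply hcont.integrable_of_hasCompactSupport
      apply hvc.mono
      intro x hx h
      apply hx
      simp [h]
    · intro x
      have hvd : DifferentiableAt ℝ v x := (hv.differentiable one_ne_zero).differentiableAt
      have hχd : DifferentiableAt ℝ χ x := (hχ'.differentiable one_ne_zero).differentiableAt
      change dv (fun x => φ x • e) x ≤ _
      rw [dv_smul_const ((hφd.differentiable one_ne_zero).differentiableAt)]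
      have hfd : fderiv ℝ φ x = (v x ^ 2) • fderiv ℝ χ x + χ x • ((2 * v x) • fderiv ℝ v x) := by
        have hv2 : DifferentiableAt ℝ (fun y => v y ^ 2) x := hvd.pow 2
        rw [hφ, fderiv_fun_mul hv2 hχd, fderiv_fun_pow 2 hvd]
        simp [smul_smul]
      have hle : |fderiv ℝ φ x e| ≤ ‖fderiv ℝ φ x‖ := by
        have := (fderiv ℝ φ x).le_opNorm e
        rwa [henorm, mul_one] at this
      refine (le_abs_self _).trans (hle.trans ?_)
      rw [hfd]
      refine (norm_add_le _ _).trans ?_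
      rw [norm_smul, norm_smul, norm_smul, Real.norm_eq_abs, Real.norm_eq_abs, Real.norm_eq_abs,
        abs_of_nonneg (sq_nonneg (v x)), abs_of_nonneg (hχ0 x), abs_mul, abs_two]
      have a1 : v x ^ 2 * ‖fderiv ℝ χ x‖ ≤ v x ^ 2 * B :=
        mul_le_mul_of_nonneg_left (hB x) (sq_nonneg _)
      have a2 : χ x * (2 * |v x| * ‖fderiv ℝ v x‖) ≤ 1 * (2 * |v x| * ‖fderiv ℝ v x‖) :=
        mul_le_mul_of_nonneg_right (hχ1 x) (by positivity)
      have a3 : 0 ≤ v x ^ 2 := sq_nonneg _
      have a4 : 0 ≤ |v x| * ‖fderiv ℝ v x‖ := by positivity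
      nlinarith
  calc cH m * ∫ x', φ (R.symm (graphMap g x')) * jac g x'
      ≤ cH m * (J * ∫ y in Ω, dv (fun x => φ x • e) y) :=
        mul_le_mul_of_nonneg_left h4 hcH.le
    _ ≤ cH m * (J * ((2 + B) * ∫ x in Ω, (v x ^ 2 + |v x| * ‖fderiv ℝ v x‖))) := by
        apply mul_le_mul_of_nonneg_left _ hcH.le
        exact mul_le_mul_of_nonneg_left h5 hJ0
    _ = cH m * J * (2 + B) * ∫ x in Ω, (v x ^ 2 + |v x| * ‖fderiv ℝ v x‖) := by ring

/-- Trace inequality on a bounded Lipschitz domain. -/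
theorem trace_ineq {m : ℕ} (hm : 1 ≤ m) {Ω : Set (Em m)} (hO : IsOpen Ω)
    (hb : Bornology.IsBounded Ω) (hL : IsLipDom Ω) :
    ∃ C : ℝ, 0 ≤ C ∧ ∀ v : Em m → ℝ, ContDiff ℝ 1 v → HasCompactSupport v →
      ∫ x in frontier Ω, v x ^ 2 ∂(Measure.hausdorffMeasure (m : ℝ)) ≤
        C * ∫ x in Ω, (v x ^ 2 + |v x| * ‖fderiv ℝ v x‖) := by
  obtain ⟨ι, hι, c, r, χ₀, χ, hP, hχ₀, hs₀, hχ, hs, hχ0, hχ1, hsum, hcov⟩ :=
    exists_pou hO hb (fun x r => ∃ R : Em m ≃ₗᵢ[ℝ] Em m, ∃ K : ℝ≥0,
      ∃ g : (Fin m → ℝ) → ℝ, LipschitzWith K g ∧ IsChart Ω (ball x r) R g) (isLipDom_charts hL)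
  have hχc : ∀ i, HasCompactSupport (χ i) := fun i =>
    Metric.isCompact_of_isClosed_isBounded (isClosed_tsupport _) (isBounded_ball.subset (hs i))
  have hi : ∀ i, ∃ C : ℝ, 0 ≤ C ∧ ∀ v : Em m → ℝ, ContDiff ℝ 1 v → HasCompactSupport v →
      ∫ x in frontier Ω, v x ^ 2 * χ i x ∂(Measure.hausdorffMeasure (m : ℝ)) ≤
        C * ∫ x in Ω, (v x ^ 2 + |v x| * ‖fderiv ℝ v x‖) := by
    intro i
    obtain ⟨R, K', g, hg, hc⟩ := (hP i).2
    exact trace_chart hO isOpen_ball R hg hc (hχ i) (hχc i) (hs i) (hχ0 i) (hχ1 i)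
  choose C hC0 hC using hi
  refine ⟨∑ i, C i, Finset.sum_nonneg (fun i _ => hC0 i), ?_⟩
  intro v hv hvc
  rw [Finset.sum_mul]
  refine le_trans ?_ (Finset.sum_le_sum (fun i _ => hC i v hv hvc))
  have hfin := frontier_lt_top hm hO hb hL
  have : IsFiniteMeasure ((Measure.hausdorffMeasure (m : ℝ) : Measure (Em m)).restrict
      (frontier Ω)) := ⟨by rwa [Measure.restrict_apply_univ]⟩
  rw [← integral_finsetSum]
  · apply le_of_eq
    apply setIntegral_congr_fun isClosed_frontier.measurableSet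
    intro x hx
    have h1 := hsum x (frontier_subset_closure hx)
    have h2 : χ₀ x = 0 := by
      apply image_eq_zero_of_notMem_tsupport
      intro h
      have : x ∈ Ω := hs₀ h
      rw [hO.frontier_eq] at hx
      exact hx.2 this
    rw [h2, zero_add] at h1
    change v x ^ 2 = ∑ i, v x ^ 2 * χ i x
    rw [← Finset.mul_sum, h1, mul_one]
  · intro i _
    have hcont : Continuous (fun x => v x ^ 2 * χ i x) :=
      (hv.continuous.pow 2).mul (hχ i).continuous
    exact hcont.integrable_of_hasCompactSupport (hχc i).mul_left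

end Pool.Agent.RobinBall
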