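import Mathlib
import Pool.Agent.RobinBall.Defs
import Pool.Agent.RobinBall.Chart
import Pool.Agent.RobinBall.Decomp
import Pool.Agent.RobinBall.GaussGreen

/-!
# Divergence theorem on balls with respect to the Hausdorff measure of the sphere
-/

set_option autoImplicit false

open MeasureTheory Metric Set
open scoped MeasureTheory NNReal ENNReal Topology

namespace Pool.Agent.RobinBall

/-- The graph function of the upper part of the sphere of radius `ρ`, truncated. -/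
noncomputable def sphG (m : ℕ) (ρ : ℝ) (x' : Fin m → ℝ) : ℝ :=
  Real.sqrt (ρ ^ 2 - (min ‖(WithLp.toLp 2 x' : EuclideanSpace ℝ (Fin m))‖ (4 / 5 * ρ)) ^ 2)

theorem lipschitz_sphG (m : ℕ) {ρ : ℝ} (hρ : 0 < ρ) : ∃ K : ℝ≥0, LipschitzWith K (sphG m ρ) := by
  obtain ⟨K1, hK1⟩ : ∃ K : ℝ≥0, LipschitzWith K
      (fun x' : Fin m → ℝ => (WithLp.toLp 2 x' : EuclideanSpace ℝ (Fin m))) :=
    ⟨_, PiLp.lipschitzWith_toLp 2 _⟩
  have hN : LipschitzWith K1
      (fun x' : Fin m → ℝ => min ‖(WithLp.toLp 2 x' : EuclideanSpace ℝ (Fin m))‖ (4 / 5 * ρ)) := by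
    have := (lipschitzWith_one_norm.comp hK1).min_const (4 / 5 * ρ)
    rw [one_mul] at this
    exact this
  have hφ : ∀ a b : ℝ, 0 ≤ a → a ≤ 4 / 5 * ρ → 0 ≤ b → b ≤ 4 / 5 * ρ →
      |Real.sqrt (ρ ^ 2 - a ^ 2) - Real.sqrt (ρ ^ 2 - b ^ 2)| ≤ 2 * |a - b| := by
    intro a b ha0 ha hb0 hb
    have hA : (3 / 5 * ρ) ≤ Real.sqrt (ρ ^ 2 - a ^ 2) := by
      apply Real.le_sqrt_of_sq_le
      nlinarith
    have hB : (3 / 5 * ρ) ≤ Real.sqrt (ρ ^ 2 - b ^ 2) := by
      apply Real.le_sqrt_of_sq_le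
      nlinarith
    have hA2 : Real.sqrt (ρ ^ 2 - a ^ 2) ^ 2 = ρ ^ 2 - a ^ 2 := Real.sq_sqrt (by nlinarith)
    have hB2 : Real.sqrt (ρ ^ 2 - b ^ 2) ^ 2 = ρ ^ 2 - b ^ 2 := Real.sq_sqrt (by nlinarith)
    set A := Real.sqrt (ρ ^ 2 - a ^ 2)
    set B := Real.sqrt (ρ ^ 2 - b ^ 2)
    have hpos : 0 < A + B := by nlinarith
    have h1 : |A - B| * (A + B) = |a - b| * (a + b) := by
      have e1 : |A - B| * (A + B) = |(A - B) * (A + B)| := by
        rw [abs_mul, abs_of_pos hpos]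
      have e2 : |a - b| * (a + b) = |(b - a) * (a + b)| := by
        rw [abs_mul, abs_of_nonneg (by linarith : 0 ≤ a + b), abs_sub_comm]
      rw [e1, e2]
      congr 1
      nlinarith
    have h2 : |A - B| * (6 / 5 * ρ) ≤ |a - b| * (8 / 5 * ρ) := by
      calc |A - B| * (6 / 5 * ρ) ≤ |A - B| * (A + B) := by
            apply mul_le_mul_of_nonneg_left _ (abs_nonneg _)
            linarith
        _ = |a - b| * (a + b) := h1
        _ ≤ |a - b| * (8 / 5 * ρ) := by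
            apply mul_le_mul_of_nonneg_left _ (abs_nonneg _)
            linarith
    have h3 : 0 ≤ |a - b| := abs_nonneg _
    have h4 : 0 ≤ |A - B| := abs_nonneg _
    by_contra hcon
    push Not at hcon
    nlinarith [mul_pos (sub_pos.mpr hcon) hρ, mul_nonneg h3 hρ.le]
  refine ⟨2 * K1, LipschitzWith.of_dist_le_mul ?_⟩
  intro x y
  rw [Real.dist_eq]
  unfold sphG
  refine (hφ _ _ (le_min (norm_nonneg _) (by positivity)) (min_le_right _ _)
    (le_min (norm_nonneg _) (by positivity)) (min_le_right _ _)).trans ?_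
  have := hN.dist_le_mul x y
  rw [Real.dist_eq] at this
  rw [NNReal.coe_mul, mul_assoc]
  exact mul_le_mul_of_nonneg_left this (by norm_num)

theorem norm_sq_split {m : ℕ} (y : Em m) :
    ‖y‖ ^ 2 = ‖(WithLp.toLp 2 (init' y) : EuclideanSpace ℝ (Fin m))‖ ^ 2 +
      (y (Fin.last m)) ^ 2 := by
  rw [EuclideanSpace.norm_sq_eq, EuclideanSpace.norm_sq_eq, Fin.sum_univ_castSucc]
  simp [init']

/-- Chart of the ball near a point mapped by `R` to the north pole. -/
theorem isChart_ball {m : ℕ} {ρ : ℝ} (hρ : 0 < ρ) {x : Em m} {R : Em m ≃ₗᵢ[ℝ] Em m}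
    (hR : R x = ρ • EuclideanSpace.single (Fin.last m) (1 : ℝ)) :
    IsChart (ball (0 : Em m) ρ) (ball x (ρ / 2)) R (sphG m ρ) := by
  intro y hy
  have h1 : ‖R y - ρ • EuclideanSpace.single (Fin.last m) (1 : ℝ)‖ < ρ / 2 := by
    rw [← hR, ← map_sub, LinearIsometryEquiv.norm_map]
    rwa [mem_ball, dist_eq_norm] at hy
  rw [mem_ball, dist_zero_right, ← R.norm_map y]
  set z := R y with hz
  set N := ‖(WithLp.toLp 2 (init' z) : EuclideanSpace ℝ (Fin m))‖ with hN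
  have hN0 : 0 ≤ N := norm_nonneg _
  have h2 := norm_sq_split z
  have h3 := norm_sq_split (z - ρ • EuclideanSpace.single (Fin.last m) (1 : ℝ))
  have h4 : init' (z - ρ • EuclideanSpace.single (Fin.last m) (1 : ℝ)) = init' z := by
    ext i
    simp [init', Fin.castSucc_ne_last]
  rw [h4] at h3
  have h5 : (z - ρ • EuclideanSpace.single (Fin.last m) (1 : ℝ)) (Fin.last m) =
      z (Fin.last m) - ρ := by simp
  rw [h5] at h3
  have h6 : ‖z - ρ • EuclideanSpace.single (Fin.last m) (1 : ℝ)‖ ^ 2 < (ρ / 2) ^ 2 :=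
    pow_lt_pow_left₀ h1 (norm_nonneg _) two_ne_zero
  rw [h3] at h6
  rw [← hN] at h2 h6
  have h7 : N < ρ / 2 := by
    apply lt_of_pow_lt_pow_left₀ 2 (by positivity)
    nlinarith [sq_nonneg (z (Fin.last m) - ρ)]
  have h8 : 0 < z (Fin.last m) := by nlinarith [sq_nonneg N]
  have hmin : min N (4 / 5 * ρ) = N := min_eq_left (by linarith)
  change ‖z‖ < ρ ↔ z (Fin.last m) < sphG m ρ (init' z)
  unfold sphG
  rw [← hN, hmin, Real.lt_sqrt h8.le]
  constructor
  · intro h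
    have : ‖z‖ ^ 2 < ρ ^ 2 := pow_lt_pow_left₀ h (norm_nonneg _) two_ne_zero
    linarith
  · intro h
    apply lt_of_pow_lt_pow_left₀ 2 hρ.le
    linarith

theorem exists_rotation {m : ℕ} {ρ : ℝ} (hρ : 0 < ρ) {x : Em m} (hx : ‖x‖ = ρ) :
    ∃ R : Em m ≃ₗᵢ[ℝ] Em m, R x = ρ • EuclideanSpace.single (Fin.last m) (1 : ℝ) := by
  refine ⟨(Submodule.span ℝ
    {x - ρ • EuclideanSpace.single (Fin.last m) (1 : ℝ)})ᗮ.reflection, ?_⟩
  apply Submodule.reflection_sub
  rw [hx, norm_smul]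
  simp [abs_of_pos hρ]

theorem ball_charts {m : ℕ} {ρ : ℝ} (hρ : 0 < ρ) :
    ∀ x ∈ frontier (ball (0 : Em m) ρ), ∃ r : ℝ, 0 < r ∧
      (r = ρ / 2 ∧ ∃ R : Em m ≃ₗᵢ[ℝ] Em m,
        R x = ρ • EuclideanSpace.single (Fin.last m) (1 : ℝ)) := by
  intro x hx
  rw [frontier_ball (0 : Em m) hρ.ne', mem_sphere, dist_zero_right] at hx
  exact ⟨ρ / 2, by positivity, rfl, exists_rotation hρ hx⟩

theorem isLipDom_ball {m : ℕ} {ρ : ℝ} (hρ : 0 < ρ) : IsLipDom (ball (0 : Em m) ρ) := by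
  intro x hx
  obtain ⟨r, hr, hrρ, R, hR⟩ := ball_charts hρ x hx
  obtain ⟨K, hK⟩ := lipschitz_sphG m hρ
  subst hrρ
  exact ⟨ρ / 2, hr, R, K, sphG m ρ, hK, fun y hy => isChart_ball hρ hR y hy⟩

theorem toLp_norm_sq {m : ℕ} (x' : Fin m → ℝ) :
    ‖(WithLp.toLp 2 x' : EuclideanSpace ℝ (Fin m))‖ ^ 2 = ∑ i, x' i ^ 2 := by
  rw [EuclideanSpace.norm_sq_eq]
  simp

/-- In the range of the chart the graph function has the expected derivative. -/
theorem sphG_partial {m : ℕ} {ρ : ℝ} (hρ : 0 < ρ) {x' : Fin m → ℝ}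
    (hx : ‖(WithLp.toLp 2 x' : EuclideanSpace ℝ (Fin m))‖ < 4 / 5 * ρ) :
    0 < sphG m ρ x' ∧ sphG m ρ x' ^ 2 = ρ ^ 2 - ∑ i, x' i ^ 2 ∧
      ∀ i, fderiv ℝ (sphG m ρ) x' (Pi.single i 1) = - x' i / sphG m ρ x' := by
  have hN0 : 0 ≤ ‖(WithLp.toLp 2 x' : EuclideanSpace ℝ (Fin m))‖ := norm_nonneg _
  have hval : sphG m ρ x' = Real.sqrt (ρ ^ 2 - ∑ i, x' i ^ 2) := by
    unfold sphG
    rw [min_eq_left hx.le, toLp_norm_sq]
  have hpos : 0 < ρ ^ 2 - ∑ i, x' i ^ 2 := by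
    rw [← toLp_norm_sq]
    nlinarith
  have hsq : sphG m ρ x' ^ 2 = ρ ^ 2 - ∑ i, x' i ^ 2 := by
    rw [hval, Real.sq_sqrt hpos.le]
  refine ⟨by rw [hval]; exact Real.sqrt_pos.mpr hpos, hsq, ?_⟩
  intro i
  have hev : sphG m ρ =ᶠ[𝓝 x'] fun z => Real.sqrt (ρ ^ 2 - ∑ j, z j ^ 2) := by
    have hopen : IsOpen {z : Fin m → ℝ |
        ‖(WithLp.toLp 2 z : EuclideanSpace ℝ (Fin m))‖ < 4 / 5 * ρ} := by
      apply isOpen_lt _ continuous_const
      exact (PiLp.continuous_toLp 2 _).norm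
    filter_upwards [hopen.mem_nhds hx] with z hz
    unfold sphG
    rw [min_eq_left (le_of_lt hz), toLp_norm_sq]
  rw [hev.fderiv_eq]
  have hd : HasFDerivAt (fun z : Fin m → ℝ => ρ ^ 2 - ∑ j, z j ^ 2)
      (- ∑ j, (2 * x' j) • (ContinuousLinearMap.proj j : (Fin m → ℝ) →L[ℝ] ℝ)) x' := by
    have h1 : HasFDerivAt (fun z : Fin m → ℝ => ∑ j, z j ^ 2)
        (∑ j, (2 * x' j) • (ContinuousLinearMap.proj j : (Fin m → ℝ) →L[ℝ] ℝ)) x' := by
      apply HasFDerivAt.fun_sum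
      intro j _
      have h2 : HasFDerivAt (fun z : Fin m → ℝ => z j)
          (ContinuousLinearMap.proj j : (Fin m → ℝ) →L[ℝ] ℝ) x' :=
        (ContinuousLinearMap.proj j : (Fin m → ℝ) →L[ℝ] ℝ).hasFDerivAt
      have h3 := h2.pow 2
      simpa using h3
    exact h1.const_sub (ρ ^ 2)
  have h4 := hd.sqrt hpos.ne'
  rw [h4.fderiv, ← hval]
  have h5 : (∑ j, (2 * x' j) • (ContinuousLinearMap.proj j : (Fin m → ℝ) →L[ℝ] ℝ))
      (Pi.single i 1) = 2 * x' i := by
    rw [ContinuousLinearMap.sum_apply, Finset.sum_eq_single i]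
    · simp
    · intro j _ hj
      simp [hj]
    · simp
  have h6 : sphG m ρ x' ≠ 0 := by
    rw [hval]; exact (Real.sqrt_pos.mpr hpos).ne'
  rw [ContinuousLinearMap.smul_apply, ContinuousLinearMap.neg_apply, h5, smul_eq_mul]
  field_simp

theorem sphG_bdry {m : ℕ} {ρ : ℝ} (hρ : 0 < ρ) {x' : Fin m → ℝ}
    (hx : ‖(WithLp.toLp 2 x' : EuclideanSpace ℝ (Fin m))‖ < 4 / 5 * ρ) (F : Em m → Em m) :
    bdry (sphG m ρ) F x' =
      inner ℝ (F (graphMap (sphG m ρ) x')) (ρ⁻¹ • graphMap (sphG m ρ) x') *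
        jac (sphG m ρ) x' := by
  obtain ⟨hG, hG2, hpart⟩ := sphG_partial hρ hx
  have hjac : jac (sphG m ρ) x' = ρ / sphG m ρ x' := by
    unfold jac
    rw [Real.sqrt_eq_iff_mul_self_eq_of_pos (by positivity)]
    have h1 : ∑ i, (fderiv ℝ (sphG m ρ) x' (Pi.single i 1)) ^ 2 =
        (∑ i, x' i ^ 2) / sphG m ρ x' ^ 2 := by
      rw [Finset.sum_div]
      apply Finset.sum_congr rfl
      intro i _
      rw [hpart i]
      ring
    rw [h1]
    field_simp
    rw [hG2]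
    ring
  rw [hjac]
  have hinner : inner ℝ (F (graphMap (sphG m ρ) x')) (ρ⁻¹ • graphMap (sphG m ρ) x') =
      ρ⁻¹ * (∑ i, x' i * F (graphMap (sphG m ρ) x') (Fin.castSucc i) +
        sphG m ρ x' * F (graphMap (sphG m ρ) x') (Fin.last m)) := by
    rw [real_inner_smul_right, PiLp.inner_apply, Fin.sum_univ_castSucc]
    congr 1
    congr 1
    · apply Finset.sum_congr rfl
      intro i _
      simp [graphMap]
    · simp [graphMap]
  rw [hinner]
  unfold bdry
  simp only [hpart]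
  have h2 : ∑ i, -x' i / sphG m ρ x' * F (graphMap (sphG m ρ) x') (Fin.castSucc i) =
      - (∑ i, x' i * F (graphMap (sphG m ρ) x') (Fin.castSucc i)) / sphG m ρ x' := by
    rw [← Finset.sum_neg_distrib, Finset.sum_div]
    apply Finset.sum_congr rfl
    intro i _
    ring
  rw [h2]
  field_simp
  ring

theorem ball_gg_chart {m : ℕ} {ρ : ℝ} (hρ : 0 < ρ) {x : Em m} {R : Em m ≃ₗᵢ[ℝ] Em m}
    (hR : R x = ρ • EuclideanSpace.single (Fin.last m) (1 : ℝ))
    {F : Em m → Em m} {L : ℝ≥0} (hF : LipschitzWith L F) (hFc : HasCompactSupport F)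
    (hFU : tsupport F ⊆ ball x (ρ / 2)) :
    ∫ x in ball (0 : Em m) ρ, dv F x =
      (cH m)⁻¹ * ∫ x in frontier (ball (0 : Em m) ρ), inner ℝ (F x) (ρ⁻¹ • x)
        ∂(Measure.hausdorffMeasure (m : ℝ)) := by
  obtain ⟨K, hK⟩ := lipschitz_sphG m hρ
  have hc := isChart_ball hρ hR
  rw [local_div R hK hc hF hFc hFU isOpen_ball.measurableSet,
    integral_frontier_chart isOpen_ball R hK hc (f := fun x => inner ℝ (F x) (ρ⁻¹ • x)),
    ← mul_assoc, inv_mul_cancel₀ (cH_pos m).ne', one_mul]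
  · apply integral_congr_ae
    filter_upwards with x'
    by_cases hF0 : F (R.symm (graphMap (sphG m ρ) x')) = 0
    · unfold bdry
      simp [hF0]
    · have h1 : R.symm (graphMap (sphG m ρ) x') ∈ ball x (ρ / 2) :=
        hFU (subset_tsupport _ hF0)
      have h2 : ‖graphMap (sphG m ρ) x' - ρ • EuclideanSpace.single (Fin.last m) (1 : ℝ)‖
          < ρ / 2 := by
        rw [← hR]
        rw [mem_ball, dist_eq_norm, ← R.norm_map, map_sub, R.apply_symm_apply] at h1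
        exact h1
      have h3 := norm_sq_split (graphMap (sphG m ρ) x' -
        ρ • EuclideanSpace.single (Fin.last m) (1 : ℝ))
      have h4 : init' (graphMap (sphG m ρ) x' -
          ρ • EuclideanSpace.single (Fin.last m) (1 : ℝ)) = x' := by
        ext i
        simp [init', graphMap, Fin.castSucc_ne_last]
      rw [h4] at h3
      have h6 : ‖graphMap (sphG m ρ) x' -
          ρ • EuclideanSpace.single (Fin.last m) (1 : ℝ)‖ ^ 2 < (ρ / 2) ^ 2 :=
        pow_lt_pow_left₀ h2 (norm_nonneg _) two_ne_zero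
      have h7 : ‖(WithLp.toLp 2 x' : EuclideanSpace ℝ (Fin m))‖ < 4 / 5 * ρ := by
        apply lt_of_pow_lt_pow_left₀ 2 (by positivity)
        rw [h3] at h6
        nlinarith [sq_nonneg ((graphMap (sphG m ρ) x' -
          ρ • EuclideanSpace.single (Fin.last m) (1 : ℝ)) (Fin.last m))]
      rw [sphG_bdry hρ h7]
      congr 1
      have h8 : ρ⁻¹ • graphMap (sphG m ρ) x' =
          R (ρ⁻¹ • R.symm (graphMap (sphG m ρ) x')) := by
        rw [map_smul, R.apply_symm_apply]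
      rw [h8]
      exact R.inner_map_map _ _
  · intro y hy
    have : F y = 0 := image_eq_zero_of_notMem_tsupport (fun h => hy (hFU h))
    simp [this]

theorem ball_gg0 {m : ℕ} (hm : 1 ≤ m) {ρ : ℝ} (hρ : 0 < ρ)
    {F : Em m → Em m} {L : ℝ≥0} (hF : LipschitzWith L F) :
    ∫ x in ball (0 : Em m) ρ, dv F x =
      (cH m)⁻¹ * ∫ x in frontier (ball (0 : Em m) ρ), inner ℝ (F x) (ρ⁻¹ • x)
        ∂(Measure.hausdorffMeasure (m : ℝ)) := by
  have hO : IsOpen (ball (0 : Em m) ρ) := isOpen_ball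
  have hb : Bornology.IsBounded (ball (0 : Em m) ρ) := isBounded_ball
  obtain ⟨ι, hι, c, r, χ₀, χ, hP, hχ₀, hs₀, hχ, hs, hχ0, hχ1, hsum, hcov⟩ :=
    exists_pou hO hb (fun x r => r = ρ / 2 ∧ ∃ R : Em m ≃ₗᵢ[ℝ] Em m,
        R x = ρ • EuclideanSpace.single (Fin.last m) (1 : ℝ)) (ball_charts hρ)
  have hχc : ∀ i, HasCompactSupport (χ i) := fun i =>
    Metric.isCompact_of_isClosed_isBounded (isClosed_tsupport _) (isBounded_ball.subset (hs i))
  rw [integral_dv_decomp hO hb hχ₀ hs₀ hχ hs hsum hF]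
  have hi : ∀ i, ∫ x in ball (0 : Em m) ρ, dv (fun y => χ i y • F y) x =
      (cH m)⁻¹ * ∫ x in frontier (ball (0 : Em m) ρ), inner ℝ (χ i x • F x) (ρ⁻¹ • x)
        ∂(Measure.hausdorffMeasure (m : ℝ)) := by
    intro i
    obtain ⟨hr, R, hR⟩ := (hP i).2
    obtain ⟨L', hL'⟩ := exists_lipschitz_smul ((hχ i).of_le (by simp)) (hχc i) hF
    have hsi := hs i
    rw [hr] at hsi
    exact ball_gg_chart hρ hR hL' (hasCompactSupport_smul (hχc i))
      (tsupport_smul_subset.trans hsi)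
  rw [Finset.sum_congr rfl (fun i _ => hi i), ← Finset.mul_sum]
  have hfin := frontier_lt_top hm hO hb (isLipDom_ball hρ)
  have : IsFiniteMeasure ((Measure.hausdorffMeasure (m : ℝ) : Measure (Em m)).restrict
      (frontier (ball (0 : Em m) ρ))) := ⟨by rwa [Measure.restrict_apply_univ]⟩
  rw [← integral_finsetSum]
  · congr 1
    apply setIntegral_congr_fun isClosed_frontier.measurableSet
    intro x hx
    have h1 := hsum x (frontier_subset_closure hx)
    have h2 : χ₀ x = 0 := by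
      apply image_eq_zero_of_notMem_tsupport
      intro h
      have : x ∈ ball (0 : Em m) ρ := hs₀ h
      rw [hO.frontier_eq] at hx
      exact hx.2 this
    rw [h2, zero_add] at h1
    change ∑ i, inner ℝ (χ i x • F x) (ρ⁻¹ • x) = inner ℝ (F x) (ρ⁻¹ • x)
    rw [← sum_inner, ← Finset.sum_smul, h1, one_smul]
  · intro i _
    have hcont : Continuous (fun x => (inner ℝ (χ i x • F x) (ρ⁻¹ • x) : ℝ)) :=
      ((hχ i).continuous.smul hF.continuous).inner (continuous_const_smul _)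
    apply hcont.integrable_of_hasCompactSupport
    apply (hχc i).mono
    intro x hx h
    apply hx
    simp [h]

theorem ball_frontier_lt_top {m : ℕ} (hm : 1 ≤ m) (c : Em m) {ρ : ℝ} (hρ : 0 < ρ) :
    Measure.hausdorffMeasure (m : ℝ) (frontier (Metric.ball c ρ)) < ⊤ := by
  have h0 := frontier_lt_top hm isOpen_ball isBounded_ball (isLipDom_ball (m := m) hρ)
  rw [frontier_ball _ hρ.ne'] at h0 ⊢
  have h1 : sphere c ρ = (IsometryEquiv.addRight (-c)) ⁻¹' (sphere (0 : Em m) ρ) := by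
    ext x
    simp [dist_eq_norm, sub_eq_add_neg]
  rw [h1, IsometryEquiv.hausdorffMeasure_preimage]
  exact h0

/-- Divergence theorem on a ball. -/
theorem ball_gauss_green {m : ℕ} (hm : 1 ≤ m) (c : Em m) {ρ : ℝ} (hρ : 0 < ρ)
    {F : Em m → Em m} (hF : ContDiff ℝ 1 F) :
    ∫ x in Metric.ball c ρ, dv F x =
      (cH m)⁻¹ * ∫ x in frontier (Metric.ball c ρ), inner ℝ (F x) (ρ⁻¹ • (x - c))
        ∂(Measure.hausdorffMeasure (m : ℝ)) := by
  -- cutoff
  let η : ContDiffBump (0 : Em m) := ⟨2 * ρ, 3 * ρ, by positivity, by linarith⟩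
  have hη1 : ∀ x ∈ ball (0 : Em m) (2 * ρ), η x = 1 := fun x hx =>
    η.one_of_mem_closedBall (ball_subset_closedBall hx)
  have hG1 : ContDiff ℝ 1 (fun x => η x • F (x + c)) :=
    (η.contDiff (n := 1)).smul (hF.comp (contDiff_id.add contDiff_const))
  have hGc : HasCompactSupport (fun x => η x • F (x + c)) :=
    hasCompactSupport_smul η.hasCompactSupport
  obtain ⟨L, hL⟩ := hG1.lipschitzWith_of_hasCompactSupport hGc one_ne_zero
  have h0 := ball_gg0 hm hρ hL
  have h1 : ∫ x in ball c ρ, dv F x = ∫ x in ball (0 : Em m) ρ, dv F (x + c) := by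
    have h2 : (fun x => x + c) ⁻¹' (ball c ρ) = ball (0 : Em m) ρ := by
      ext x
      simp [dist_eq_norm]
    have h3 := (measurePreserving_add_right (volume : Measure (Em m)) c).setIntegral_preimage_emb
      (measurableEmbedding_addRight c) (dv F) (ball c ρ)
    rw [h2] at h3
    exact h3.symm
  have h4 : ∫ x in frontier (ball c ρ), inner ℝ (F x) (ρ⁻¹ • (x - c))
        ∂(Measure.hausdorffMeasure (m : ℝ)) =
      ∫ x in frontier (ball (0 : Em m) ρ), inner ℝ (F (x + c)) (ρ⁻¹ • x)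
        ∂(Measure.hausdorffMeasure (m : ℝ)) := by
    rw [frontier_ball _ hρ.ne', frontier_ball _ hρ.ne']
    have h2 : (IsometryEquiv.addRight c) ⁻¹' (sphere c ρ) = sphere (0 : Em m) ρ := by
      ext x
      simp [dist_eq_norm]
    have h3 := ((IsometryEquiv.addRight c).measurePreserving_hausdorffMeasure
      (m : ℝ)).setIntegral_preimage_emb
      (IsometryEquiv.addRight c).toHomeomorph.measurableEmbedding
      (fun x => (inner ℝ (F x) (ρ⁻¹ • (x - c)) : ℝ)) (sphere c ρ)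
    rw [h2] at h3
    rw [← h3]
    simp
  rw [h1, h4]
  have h5 : ∫ x in ball (0 : Em m) ρ, dv F (x + c) =
      ∫ x in ball (0 : Em m) ρ, dv (fun x => η x • F (x + c)) x := by
    apply setIntegral_congr_fun isOpen_ball.measurableSet
    intro x hx
    have hx2 : x ∈ ball (0 : Em m) (2 * ρ) := ball_subset_ball (by linarith) hx
    have h6 : (fun x => η x • F (x + c)) =ᶠ[𝓝 x] fun x => F (x + c) := by
      filter_upwards [isOpen_ball.mem_nhds hx2] with y hy
      rw [hη1 y hy, one_smul]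
    change dv F (x + c) = dv (fun x => η x • F (x + c)) x
    rw [dv_congr_of_eventuallyEq h6, dv_eq_trc, dv_eq_trc, fderiv_comp_add_right]
  rw [h5, h0]
  congr 1
  apply setIntegral_congr_fun isClosed_frontier.measurableSet
  intro x hx
  rw [frontier_ball _ hρ.ne', mem_sphere, dist_zero_right] at hx
  have hx2 : x ∈ ball (0 : Em m) (2 * ρ) := by
    rw [mem_ball, dist_zero_right, hx]; linarith
  change inner ℝ (η x • F (x + c)) (ρ⁻¹ • x) = inner ℝ (F (x + c)) (ρ⁻¹ • x)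
  rw [hη1 x hx2, one_smul]

end Pool.Agent.RobinBall
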