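import Mathlib
import Pool.Agent.RobinBall.Defs

/-!
# Package E2, part a: Laplacian of convolutions and logarithms
-/

set_option autoImplicit false

open MeasureTheory Metric Filter Topology
open scoped MeasureTheory NNReal ENNReal Convolution

namespace Pool.Agent.RobinBall.H58

variable {m : ℕ}

/-- the standard basis -/
noncomputable def bb (i : Fin (m + 1)) : Em m := EuclideanSpace.basisFun (Fin (m + 1)) ℝ i

/-- the Laplacian as a sum of second derivatives -/
noncomputable def lp (f : Em m → ℝ) (x : Em m) : ℝ :=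
  ∑ i, fderiv ℝ (fun y => fderiv ℝ f y (bb i)) x (bb i)

/-- derivative in a direction -/
noncomputable def dd (v : Em m) (f : Em m → ℝ) (x : Em m) : ℝ := fderiv ℝ f x v

lemma lp_eq (f : Em m → ℝ) (x : Em m) : lp f x = ∑ i, dd (bb i) (dd (bb i) f) x := rfl

lemma inner_gradient (f : Em m → ℝ) (y v : Em m) : inner ℝ v (gradient f y) = fderiv ℝ f y v := by
  rw [real_inner_comm]
  unfold gradient
  rw [InnerProductSpace.toDual_symm_apply]

lemma differentiableAt_gradient {f : Em m → ℝ} {x : Em m} (hf : ContDiffAt ℝ 2 f x) :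
    DifferentiableAt ℝ (gradient f) x := by
  have h1 : DifferentiableAt ℝ (fderiv ℝ f) x :=
    (hf.fderiv_right (m := 1) (by norm_num)).differentiableAt (by norm_num)
  exact (InnerProductSpace.toDual ℝ (Em m)).symm.toContinuousLinearEquiv.differentiableAt.comp x h1

lemma trace_fderiv_gradient {f : Em m → ℝ} {x : Em m} (hf : ContDiffAt ℝ 2 f x) :
    LinearMap.trace ℝ (Em m) (fderiv ℝ (gradient f) x : Em m →ₗ[ℝ] Em m) = lp f x := by
  rw [LinearMap.trace_eq_sum_inner _ (EuclideanSpace.basisFun (Fin (m + 1)) ℝ)]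
  unfold lp
  refine Finset.sum_congr rfl fun i _ => ?_
  have h1 : (fun y => fderiv ℝ f y (bb i)) = fun y => inner ℝ (bb i) (gradient f y) := by
    funext y
    rw [inner_gradient]
  rw [h1]
  have h2 : HasFDerivAt (fun y => inner ℝ (bb i) (gradient f y))
      ((innerSL ℝ (bb i)).comp (fderiv ℝ (gradient f) x)) x :=
    (innerSL ℝ (bb i)).hasFDerivAt.comp x (differentiableAt_gradient hf).hasFDerivAt
  rw [h2.fderiv]
  rfl

lemma dv_gradient {f : Em m → ℝ} {x : Em m} (hf : ContDiffAt ℝ 2 f x) :
    dv (gradient f) x = lp f x := trace_fderiv_gradient hf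

lemma trc_hess {f : Em m → ℝ} {x : Em m} (hf : ContDiffAt ℝ 2 f x) :
    trc (hess f x) = lp f x := trace_fderiv_gradient hf

lemma norm_gradient_sq (f : Em m → ℝ) (x : Em m) :
    ‖gradient f x‖ ^ 2 = ∑ i, (dd (bb i) f x) ^ 2 := by
  rw [← (EuclideanSpace.basisFun (Fin (m + 1)) ℝ).sum_sq_norm_inner_right (gradient f x)]
  refine Finset.sum_congr rfl fun i _ => ?_
  have : inner ℝ ((EuclideanSpace.basisFun (Fin (m + 1)) ℝ) i) (gradient f x) = dd (bb i) f x :=
    inner_gradient f x (bb i)
  rw [this, Real.norm_eq_abs, sq_abs]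

/-- Laplacian of the logarithm. -/
lemma lp_log {f : Em m → ℝ} (hf : ContDiff ℝ 2 f) {x : Em m} (hx : 0 < f x) :
    lp (fun y => Real.log (f y)) x + ∑ i, (dd (bb i) (fun y => Real.log (f y)) x) ^ 2 =
      lp f x / f x := by
  have hd : Differentiable ℝ f := hf.differentiable (by norm_num)
  have hpos : ∀ᶠ y in 𝓝 x, 0 < f y := hf.continuous.continuousAt.eventually (lt_mem_nhds hx)
  have h1 : ∀ y, 0 < f y → ∀ v, fderiv ℝ (fun y => Real.log (f y)) y v = fderiv ℝ f y v / f y := by
    intro y hy v
    have := (hd y).hasFDerivAt.log hy.ne'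
    rw [this.fderiv]
    simp only [smul_apply, smul_eq_mul]
    rw [div_eq_inv_mul]
  have h2 : ∀ i, dd (bb i) (dd (bb i) (fun y => Real.log (f y))) x =
      (dd (bb i) (dd (bb i) f) x * f x - dd (bb i) f x * dd (bb i) f x) / (f x) ^ 2 := by
    intro i
    have h3 : dd (bb i) (fun y => Real.log (f y)) =ᶠ[𝓝 x]
        fun y => fderiv ℝ f y (bb i) / f y := by
      filter_upwards [hpos] with y hy
      exact h1 y hy _
    have h4 : DifferentiableAt ℝ (fun y => fderiv ℝ f y (bb i)) x := by
      have : DifferentiableAt ℝ (fderiv ℝ f) x :=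
        (hf.contDiffAt.fderiv_right (m := 1) (by norm_num)).differentiableAt (by norm_num)
      exact this.clm_apply (differentiableAt_const _)
    have h5 := h4.hasFDerivAt.mul ((hasDerivAt_inv hx.ne').comp_hasFDerivAt x (hd x).hasFDerivAt)
    unfold dd at h3 ⊢
    rw [h3.fderiv_eq]
    have h6 : (fun y => fderiv ℝ f y (bb i) / f y) =
        (fun y => fderiv ℝ f y (bb i)) * (fun y => y⁻¹) ∘ f := by
      funext y
      simp only [Pi.mul_apply, Function.comp, div_eq_mul_inv]
    rw [h6, h5.fderiv]
    simp only [smul_apply, add_apply, smul_eq_mul, Function.comp]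
    field_simp
    ring
  rw [lp_eq, lp_eq, ← Finset.sum_add_distrib, Finset.sum_div]
  refine Finset.sum_congr rfl fun i _ => ?_
  rw [h2 i]
  unfold dd
  rw [h1 x hx]
  field_simp
  ring

lemma dd_contDiff {f : Em m → ℝ} (hf : ContDiff ℝ (⊤ : ℕ∞) f) (v : Em m) :
    ContDiff ℝ (⊤ : ℕ∞) (dd v f) := by
  unfold dd
  exact (hf.fderiv_right (m := (⊤ : ℕ∞)) (by simp)).clm_apply contDiff_const

lemma dd_hasCompactSupport {f : Em m → ℝ} (hf : HasCompactSupport f) (v : Em m) :
    HasCompactSupport (dd v f) := by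
  have h := hf.fderiv (𝕜 := ℝ)
  exact h.comp_left (g := fun l : Em m →L[ℝ] ℝ => l v) (by simp)

/-- derivative of a convolution -/
lemma dd_conv {f W : Em m → ℝ} (hf : ContDiff ℝ (⊤ : ℕ∞) f) (hc : HasCompactSupport f)
    (hW : LocallyIntegrable W volume) (v x : Em m) :
    dd v (f ⋆[ContinuousLinearMap.lsmul ℝ ℝ, volume] W) x =
      (dd v f ⋆[ContinuousLinearMap.lsmul ℝ ℝ, volume] W) x := by
  have h1 := hc.hasFDerivAt_convolution_left (ContinuousLinearMap.lsmul ℝ ℝ)
    (hf.of_le (by exact_mod_cast le_top)) hW x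
  unfold dd
  rw [h1.fderiv]
  have h2 : ConvolutionExistsAt (fderiv ℝ f) W x
      (ContinuousLinearMap.precompL (Em m) (ContinuousLinearMap.lsmul ℝ ℝ)) volume :=
    HasCompactSupport.convolutionExists_left _ (hc.fderiv (𝕜 := ℝ))
      (hf.continuous_fderiv (by simp)) hW x
  unfold convolution
  rw [ContinuousLinearMap.integral_apply h2.integrable]
  rfl

lemma lp_conv {f W : Em m → ℝ} (hf : ContDiff ℝ (⊤ : ℕ∞) f) (hc : HasCompactSupport f)
    (hW : LocallyIntegrable W volume) (x : Em m) :
    lp (f ⋆[ContinuousLinearMap.lsmul ℝ ℝ, volume] W) x =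
      (lp f ⋆[ContinuousLinearMap.lsmul ℝ ℝ, volume] W) x := by
  have h1 : ∀ i, dd (bb i) (dd (bb i) (f ⋆[ContinuousLinearMap.lsmul ℝ ℝ, volume] W)) x =
      (dd (bb i) (dd (bb i) f) ⋆[ContinuousLinearMap.lsmul ℝ ℝ, volume] W) x := by
    intro i
    have h2 : dd (bb i) (f ⋆[ContinuousLinearMap.lsmul ℝ ℝ, volume] W) =
        (dd (bb i) f ⋆[ContinuousLinearMap.lsmul ℝ ℝ, volume] W) := by
      funext y
      exact dd_conv hf hc hW _ y
    rw [h2]
    exact dd_conv (dd_contDiff hf _) (dd_hasCompactSupport hc _) hW _ x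
  rw [lp_eq, Finset.sum_congr rfl fun i _ => h1 i]
  unfold convolution
  rw [← integral_finsetSum]
  · refine integral_congr_ae (Eventually.of_forall fun t => ?_)
    simp only [lp_eq, ContinuousLinearMap.lsmul_apply, smul_eq_mul, Finset.sum_mul]
  · intro i _
    exact (HasCompactSupport.convolutionExists_left _ (dd_hasCompactSupport
      (dd_hasCompactSupport hc _) _) (dd_contDiff (dd_contDiff hf _) _).continuous hW x).integrable

/-- lower bound for an average -/
lemma conv_ge (φ : ContDiffBump (0 : Em m)) {W : Em m → ℝ} (hW : LocallyIntegrable W volume)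
    {x : Em m} {a : ℝ} (h : ∀ᵐ y ∂(volume : Measure (Em m)), y ∈ ball x φ.rOut → a ≤ W y) :
    a ≤ (φ.normed volume ⋆[ContinuousLinearMap.lsmul ℝ ℝ, volume] W) x := by
  have hc : HasCompactSupport (φ.normed (volume : Measure (Em m))) := φ.hasCompactSupport_normed
  have hcont : Continuous (φ.normed (volume : Measure (Em m))) := φ.continuous_normed
  have h1 : Integrable (fun t => φ.normed volume t * a) volume :=
    (hcont.integrable_of_hasCompactSupport hc).mul_const a
  have h2 : Integrable (fun t => φ.normed volume t * W (x - t)) volume := by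
    have := (HasCompactSupport.convolutionExists_left (ContinuousLinearMap.lsmul ℝ ℝ) hc hcont
      hW x).integrable
    simpa only [ContinuousLinearMap.lsmul_apply, smul_eq_mul] using this
  have h3 : ∫ t, φ.normed volume t * a = a := by
    rw [integral_mul_const, φ.integral_normed, one_mul]
  have h4 : ∀ᵐ t ∂(volume : Measure (Em m)), x - t ∈ ball x φ.rOut → a ≤ W (x - t) :=
    (Measure.measurePreserving_sub_left volume x).quasiMeasurePreserving.ae h
  calc a = ∫ t, φ.normed volume t * a := h3.symm
    _ ≤ ∫ t, φ.normed volume t * W (x - t) := by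
        refine integral_mono_ae h1 h2 ?_
        filter_upwards [h4] with t ht
        by_cases htt : t ∈ ball (0 : Em m) φ.rOut
        · refine mul_le_mul_of_nonneg_left (ht ?_) (φ.nonneg_normed t)
          rw [mem_ball, dist_eq_norm]
          rw [mem_ball_zero_iff] at htt
          simpa using htt
        · have : φ.normed (volume : Measure (Em m)) t = 0 := by
            rw [← Function.notMem_support, φ.support_normed_eq]
            exact htt
          rw [this]
          simp
    _ = _ := by
        unfold convolution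
        rfl

end Pool.Agent.RobinBall.H58
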