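import Mathlib
import Pool.Agent.RobinBall.SuperOfWeakA

/-!
# Package E1, part a: mollification of Lipschitz functions
-/

set_option autoImplicit false

open MeasureTheory Metric Filter Topology
open scoped MeasureTheory NNReal ENNReal Convolution

namespace Pool.Agent.RobinBall.H14

open Pool.Agent.RobinBall.H58

variable {m : ℕ}

/-- Convolutions with Lipschitz functions are Lipschitz. -/
lemma conv_lip {f W : Em m → ℝ} (hf : Continuous f) (hc : HasCompactSupport f) {L : ℝ≥0}
    (hW : LipschitzWith L W) :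
    LipschitzWith (L * (∫ t, |f t|).toNNReal)
      (f ⋆[ContinuousLinearMap.lsmul ℝ ℝ, volume] W) := by
  have hi : Integrable (fun t => |f t|) :=
    (hf.abs).integrable_of_hasCompactSupport (hc.comp_left (g := fun x => |x|) abs_zero)
  have hWl : LocallyIntegrable W volume := hW.continuous.locallyIntegrable
  have hint : ∀ x, Integrable (fun t => f t * W (x - t)) := fun x => by
    have := (HasCompactSupport.convolutionExists_left (ContinuousLinearMap.lsmul ℝ ℝ) hc hf
      hWl x).integrable
    simpa only [ContinuousLinearMap.lsmul_apply, smul_eq_mul] using this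
  refine LipschitzWith.of_dist_le_mul fun x y => ?_
  have h1 : (f ⋆[ContinuousLinearMap.lsmul ℝ ℝ, volume] W) x -
      (f ⋆[ContinuousLinearMap.lsmul ℝ ℝ, volume] W) y = ∫ t, f t * (W (x - t) - W (y - t)) := by
    unfold convolution
    simp only [ContinuousLinearMap.lsmul_apply, smul_eq_mul]
    rw [← integral_sub (hint x) (hint y)]
    congr 1
    funext t
    ring
  rw [Real.dist_eq, h1]
  have h0 : (0 : ℝ) ≤ ∫ t, |f t| := integral_nonneg fun t => abs_nonneg _
  calc |∫ t, f t * (W (x - t) - W (y - t))| ≤ ∫ t, |f t| * (L * dist x y) := by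
        rw [← Real.norm_eq_abs]
        refine norm_integral_le_of_norm_le (hi.mul_const _) (Eventually.of_forall fun t => ?_)
        rw [norm_mul, Real.norm_eq_abs]
        refine mul_le_mul_of_nonneg_left ?_ (abs_nonneg _)
        have := hW.dist_le_mul (x - t) (y - t)
        rwa [dist_sub_right, Real.dist_eq, ← Real.norm_eq_abs] at this
    _ = ((L * (∫ t, |f t|).toNNReal : ℝ≥0) : ℝ) * dist x y := by
        rw [integral_mul_const]
        push_cast
        rw [Real.coe_toNNReal _ h0]
        ring

lemma exists_mollify (m : ℕ) : ∃ C : ℝ, 0 ≤ C ∧ ∀ (L : ℝ≥0) (G : Em m → ℝ), LipschitzWith L G →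
    ∃ H : Em m → ℝ, ContDiff ℝ (⊤ : ℕ∞) H ∧ LipschitzWith L H ∧ (∀ x, |H x - G x| ≤ L) ∧
      (∀ x, |lp H x| ≤ L * C) ∧
      (∀ v, (∀ x (s : ℝ), G (x + s • v) = G x + s) → ∀ x, fderiv ℝ H x v = 1) := by
  let φ : ContDiffBump (0 : Em m) := ⟨1 / 2, 1, by norm_num, by norm_num⟩
  set ρ : Em m → ℝ := φ.normed volume with hρ
  have hρs : ContDiff ℝ (⊤ : ℕ∞) ρ := φ.contDiff_normed
  have hρc : HasCompactSupport ρ := φ.hasCompactSupport_normed
  have hρi : ∫ t, ρ t = 1 := φ.integral_normed
  have hρa : ∫ t, |ρ t| = 1 := by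
    rw [← hρi]
    congr 1
    funext t
    exact abs_of_nonneg (φ.nonneg_normed t)
  refine ⟨∑ i, ∫ t, |dd (bb i) ρ t|, Finset.sum_nonneg fun i _ =>
    integral_nonneg fun t => abs_nonneg _, fun L G hG => ?_⟩
  have hGl : LocallyIntegrable G volume := hG.continuous.locallyIntegrable
  refine ⟨ρ ⋆[ContinuousLinearMap.lsmul ℝ ℝ, volume] G,
    hρc.contDiff_convolution_left _ hρs hGl, ?_, ?_, ?_, ?_⟩
  · have := conv_lip hρs.continuous hρc hG
    rw [hρa] at this
    simpa using this
  · intro x
    have h1 := φ.dist_normed_convolution_le (μ := volume) (g := G) (x₀ := x) (ε := L)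
      hG.continuous.aestronglyMeasurable (fun y hy => by
        have h2 := hG.dist_le_mul y x
        have h3 : dist y x < 1 := mem_ball.1 hy
        refine h2.trans ?_
        have := L.coe_nonneg
        nlinarith)
    rwa [Real.dist_eq] at h1
  · intro x
    rw [lp_eq, Finset.mul_sum]
    refine (Finset.abs_sum_le_sum_abs _ _).trans (Finset.sum_le_sum fun i _ => ?_)
    have h2 : dd (bb i) (ρ ⋆[ContinuousLinearMap.lsmul ℝ ℝ, volume] G) =
        (dd (bb i) ρ ⋆[ContinuousLinearMap.lsmul ℝ ℝ, volume] G) := by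
      funext y
      exact dd_conv hρs hρc hGl _ y
    rw [h2]
    have h3 := conv_lip (dd_contDiff hρs (bb i)).continuous (dd_hasCompactSupport hρc (bb i)) hG
    have h4 := norm_fderiv_le_of_lipschitz ℝ h3 (x₀ := x)
    have h5 : ‖bb (m := m) i‖ = 1 := (EuclideanSpace.basisFun (Fin (m + 1)) ℝ).norm_eq_one i
    unfold dd at h4 ⊢
    have h6 := (ContinuousLinearMap.le_opNorm (fderiv ℝ ((fun x => fderiv ℝ ρ x (bb i))
      ⋆[ContinuousLinearMap.lsmul ℝ ℝ, volume] G) x) (bb i))
    rw [h5, mul_one, Real.norm_eq_abs] at h6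
    refine h6.trans (h4.trans (le_of_eq ?_))
    push_cast
    rw [Real.coe_toNNReal _ (integral_nonneg fun t => abs_nonneg _)]
  · intro v hv x
    have hd : DifferentiableAt ℝ (ρ ⋆[ContinuousLinearMap.lsmul ℝ ℝ, volume] G) x :=
      (hρc.contDiff_convolution_left _ hρs hGl).differentiable (by simp) x
    have hint : ∀ x, Integrable (fun t => ρ t * G (x - t)) := fun x => by
      have := (HasCompactSupport.convolutionExists_left (ContinuousLinearMap.lsmul ℝ ℝ) hρc
        hρs.continuous hGl x).integrable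
      simpa only [ContinuousLinearMap.lsmul_apply, smul_eq_mul] using this
    have h1 : ∀ s : ℝ, (ρ ⋆[ContinuousLinearMap.lsmul ℝ ℝ, volume] G) (x + s • v) =
        (ρ ⋆[ContinuousLinearMap.lsmul ℝ ℝ, volume] G) x + s := by
      intro s
      unfold convolution
      simp only [ContinuousLinearMap.lsmul_apply, smul_eq_mul]
      have h2 : ∀ t, ρ t * G (x + s • v - t) = ρ t * G (x - t) + ρ t * s := by
        intro t
        have : x + s • v - t = (x - t) + s • v := by abel
        rw [this, hv]
        ring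
      simp only [h2]
      rw [integral_add (hint x) ((hρs.continuous.integrable_of_hasCompactSupport hρc).mul_const s),
        integral_mul_const, hρi, one_mul]
    have h2 : HasDerivAt (fun s : ℝ => (ρ ⋆[ContinuousLinearMap.lsmul ℝ ℝ, volume] G) (x + s • v))
        (fderiv ℝ (ρ ⋆[ContinuousLinearMap.lsmul ℝ ℝ, volume] G) x v) 0 := by
      have h3 := hd.hasFDerivAt.hasLineDerivAt v
      exact h3
    simp only [h1] at h2
    have h3 : HasDerivAt (fun s : ℝ => (ρ ⋆[ContinuousLinearMap.lsmul ℝ ℝ, volume] G) x + s) 1 0 := by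
      simpa using (hasDerivAt_id (0 : ℝ)).const_add
        ((ρ ⋆[ContinuousLinearMap.lsmul ℝ ℝ, volume] G) x)
    exact h2.unique h3

end Pool.Agent.RobinBall.H14
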