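import Mathlib
import Pool.Agent.RobinBall.BarrierA

/-!
# Package E1: boundary barrier for Lipschitz graphs
-/

set_option autoImplicit false

open MeasureTheory Metric Filter Topology
open scoped MeasureTheory NNReal ENNReal

namespace Pool.Agent.RobinBall

open Pool.Agent.RobinBall.H58 Pool.Agent.RobinBall.H14

namespace H14

variable {m : ℕ}

lemma exists_mollify_scaled (m : ℕ) : ∃ C : ℝ, 0 ≤ C ∧ ∀ (L : ℝ≥0) (G : Em m → ℝ),
    LipschitzWith L G → ∀ δ : ℝ, 0 < δ →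
    ∃ b : Em m → ℝ, ContDiff ℝ (⊤ : ℕ∞) b ∧ (∀ x, ‖fderiv ℝ b x‖ ≤ L) ∧
      (∀ x, |b x - G x| ≤ L * δ) ∧ (∀ x, |lp b x| ≤ L * C / δ) ∧
      (∀ v, (∀ x (s : ℝ), G (x + s • v) = G x + s) → ∀ x, fderiv ℝ b x v = 1) := by
  obtain ⟨C, hC0, hC⟩ := exists_mollify m
  refine ⟨C, hC0, fun L G hG δ hδ => ?_⟩
  have hGδ : LipschitzWith L (fun x => δ⁻¹ * G (δ • x)) := by
    refine LipschitzWith.of_dist_le_mul fun x y => ?_
    have h1 := hG.dist_le_mul (δ • x) (δ • y)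
    rw [Real.dist_eq, dist_smul₀, Real.norm_eq_abs, abs_of_pos hδ] at h1
    rw [Real.dist_eq, ← mul_sub, abs_mul, abs_of_pos (inv_pos.2 hδ)]
    rw [inv_mul_le_iff₀ hδ]
    linarith
  obtain ⟨H, hH1, hH2, hH3, hH4, hH5⟩ := hC L _ hGδ
  have hHd : Differentiable ℝ H := hH1.differentiable (by simp)
  have hlin : ∀ x : Em m, HasFDerivAt (fun x : Em m => δ⁻¹ • x)
      (δ⁻¹ • ContinuousLinearMap.id ℝ (Em m)) x := fun x =>
    (hasFDerivAt_id x).const_smul δ⁻¹
  have hgen : ∀ (Q : Em m → ℝ), Differentiable ℝ Q → ∀ (x v : Em m) (a : ℝ),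
      fderiv ℝ (fun x => a * Q (δ⁻¹ • x)) x v = a * δ⁻¹ * fderiv ℝ Q (δ⁻¹ • x) v := by
    intro Q hQ x v a
    have h1 : HasFDerivAt (fun x => a * Q (δ⁻¹ • x))
        (a • (fderiv ℝ Q (δ⁻¹ • x)).comp (δ⁻¹ • ContinuousLinearMap.id ℝ (Em m))) x :=
      (((hQ (δ⁻¹ • x)).hasFDerivAt).comp x (hlin x)).const_mul a
    rw [h1.fderiv]
    simp
    ring
  have hδ' : δ ≠ 0 := hδ.ne'
  have hfd : ∀ x v, fderiv ℝ (fun x => δ * H (δ⁻¹ • x)) x v = fderiv ℝ H (δ⁻¹ • x) v := by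
    intro x v
    rw [hgen H hHd, mul_inv_cancel₀ hδ', one_mul]
  refine ⟨fun x => δ * H (δ⁻¹ • x), ?_, ?_, ?_, ?_, ?_⟩
  · exact contDiff_const.mul (hH1.comp (contDiff_const_smul δ⁻¹))
  · intro x
    refine ContinuousLinearMap.opNorm_le_bound _ L.coe_nonneg fun v => ?_
    rw [hfd]
    exact (ContinuousLinearMap.le_opNorm _ _).trans
      (mul_le_mul_of_nonneg_right (norm_fderiv_le_of_lipschitz ℝ hH2) (norm_nonneg _))
  · intro x
    have h1 := hH3 (δ⁻¹ • x)
    rw [smul_inv_smul₀ hδ'] at h1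
    have h2 : δ * H (δ⁻¹ • x) - G x = δ * (H (δ⁻¹ • x) - δ⁻¹ * G x) := by
      field_simp
    rw [h2, abs_mul, abs_of_pos hδ, mul_comm (L : ℝ)]
    exact mul_le_mul_of_nonneg_left h1 hδ.le
  · intro x
    have h1 : lp (fun x => δ * H (δ⁻¹ • x)) x = δ⁻¹ * lp H (δ⁻¹ • x) := by
      rw [lp_eq, lp_eq, Finset.mul_sum]
      refine Finset.sum_congr rfl fun i _ => ?_
      have h2 : dd (bb i) (fun x => δ * H (δ⁻¹ • x)) = fun x => 1 * dd (bb i) H (δ⁻¹ • x) := by
        funext y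
        rw [one_mul]
        exact hfd y (bb i)
      rw [h2]
      unfold dd
      rw [hgen (fun x => fderiv ℝ H x (bb i))]
      · ring
      · exact (dd_contDiff hH1 (bb i)).differentiable (by simp)
    rw [h1, abs_mul, abs_of_pos (inv_pos.2 hδ), div_eq_inv_mul]
    exact mul_le_mul_of_nonneg_left (hH4 _) (inv_pos.2 hδ).le
  · intro v hv x
    rw [hfd]
    refine hH5 v (fun y s => ?_) _
    rw [smul_add, smul_smul, hv]
    field_simp

end H14

/-- The graph function of a chart. -/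
noncomputable def chartFn {m : ℕ} (R : Em m ≃ₗᵢ[ℝ] Em m) (g : (Fin m → ℝ) → ℝ) (y : Em m) : ℝ :=
  EuclideanSpace.proj (𝕜 := ℝ) (Fin.last m) (R y) -
    g (fun i => EuclideanSpace.proj (𝕜 := ℝ) (Fin.castSucc i) (R y))

lemma lipschitz_chartFn {m : ℕ} (R : Em m ≃ₗᵢ[ℝ] Em m) {g : (Fin m → ℝ) → ℝ} {K : ℝ≥0}
    (hg : LipschitzWith K g) : LipschitzWith (1 + K) (chartFn R g) := by
  refine LipschitzWith.of_dist_le_mul fun x y => ?_
  have h1 : ∀ j, |(R x) j - (R y) j| ≤ dist x y := by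
    intro j
    have := PiLp.norm_apply_le (R x - R y) j
    rw [← dist_eq_norm, R.dist_map] at this
    simpa using this
  have h2 := hg.dist_le_mul (fun i => (R x) (Fin.castSucc i)) (fun i => (R y) (Fin.castSucc i))
  have h3 : dist (fun i : Fin m => (R x) (Fin.castSucc i)) (fun i => (R y) (Fin.castSucc i)) ≤
      dist x y := by
    rw [dist_pi_le_iff dist_nonneg]
    intro i
    rw [Real.dist_eq]
    exact h1 _
  rw [Real.dist_eq] at h2 ⊢
  unfold chartFn
  simp only [PiLp.proj_apply]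
  have h4 := h1 (Fin.last m)
  have h5 : (K : ℝ) * dist (fun i : Fin m => (R x) (Fin.castSucc i))
      (fun i => (R y) (Fin.castSucc i)) ≤ K * dist x y :=
    mul_le_mul_of_nonneg_left h3 K.coe_nonneg
  push_cast
  rw [abs_le] at h2 h4 ⊢
  constructor <;> nlinarith

lemma chartFn_add {m : ℕ} (R : Em m ≃ₗᵢ[ℝ] Em m) (g : (Fin m → ℝ) → ℝ) (x : Em m) (s : ℝ) :
    chartFn R g (x + s • R.symm (EuclideanSpace.single (Fin.last m) 1)) = chartFn R g x + s := by
  unfold chartFn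
  simp [Fin.castSucc_ne_last]
  ring


lemma norm_chart_dir {m : ℕ} (R : Em m ≃ₗᵢ[ℝ] Em m) :
    ‖R.symm (EuclideanSpace.single (Fin.last m) (1 : ℝ))‖ = 1 := by
  rw [R.symm.norm_map]; simp

lemma chartFn_nonpos {m : ℕ} {Ω : Set (Em m)} {x0 : Em m} {r : ℝ} (R : Em m ≃ₗᵢ[ℝ] Em m)
    {g : (Fin m → ℝ) → ℝ} {K : ℝ≥0} (hg : LipschitzWith K g)
    (hch : ∀ y ∈ Metric.ball x0 r, (y ∈ Ω ↔ EuclideanSpace.proj (𝕜 := ℝ) (Fin.last m) (R y) <
              g (fun i => EuclideanSpace.proj (𝕜 := ℝ) (Fin.castSucc i) (R y))))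
    {x : Em m} (hx : x ∈ closure Ω) (hxr : x ∈ ball x0 r) : chartFn R g x ≤ 0 := by
  by_contra h
  push Not at h
  have hopen : IsOpen (ball x0 r ∩ {y | 0 < chartFn R g y}) :=
    isOpen_ball.inter (isOpen_lt continuous_const (lipschitz_chartFn R hg).continuous)
  obtain ⟨y, hy, hyΩ⟩ := mem_closure_iff.1 hx _ hopen ⟨hxr, h⟩
  have h1 := (hch y hy.1).1 hyΩ
  have h2 : 0 < chartFn R g y := hy.2
  unfold chartFn at h2
  linarith

lemma chartFn_nonneg {m : ℕ} {Ω : Set (Em m)} {x0 : Em m} {r : ℝ} (hr : 0 < r)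
    (R : Em m ≃ₗᵢ[ℝ] Em m)
    {g : (Fin m → ℝ) → ℝ} {K : ℝ≥0} (hg : LipschitzWith K g)
    (hch : ∀ y ∈ Metric.ball x0 r, (y ∈ Ω ↔ EuclideanSpace.proj (𝕜 := ℝ) (Fin.last m) (R y) <
              g (fun i => EuclideanSpace.proj (𝕜 := ℝ) (Fin.castSucc i) (R y))))
    (hx0 : x0 ∈ frontier Ω) : 0 ≤ chartFn R g x0 := by
  by_contra h
  push Not at h
  have hopen : IsOpen (ball x0 r ∩ {y | chartFn R g y < 0}) :=
    isOpen_ball.inter (isOpen_lt (lipschitz_chartFn R hg).continuous continuous_const)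
  have h1 : x0 ∈ closure Ωᶜ := by
    rw [closure_compl]; exact hx0.2
  obtain ⟨y, hy, hyΩ⟩ := mem_closure_iff.1 h1 _ hopen ⟨mem_ball_self hr, h⟩
  apply hyΩ
  rw [hch y hy.1]
  have h2 : chartFn R g y < 0 := hy.2
  unfold chartFn at h2
  linarith

section calculus

variable {m : ℕ} {b : Em m → ℝ} (hb : ContDiff ℝ (⊤ : ℕ∞) b) (A c B : ℝ) (x0 : Em m)

include hb in
lemma hasFDerivAt_zeta (x : Em m) :
    HasFDerivAt (fun x => A * Real.exp (c * b x) - B * ‖x - x0‖ ^ 2)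
      ((A * c * Real.exp (c * b x)) • fderiv ℝ b x - (2 * B) • innerSL ℝ (x - x0)) x := by
  have hd : HasFDerivAt b (fderiv ℝ b x) x := (hb.differentiable (by simp) x).hasFDerivAt
  have h1 : HasFDerivAt (fun x => A * Real.exp (c * b x))
      (A • (Real.exp (c * b x) • (c • fderiv ℝ b x))) x := ((hd.const_mul c).exp).const_mul A
  have h2 : HasFDerivAt (fun x => ‖x - x0‖ ^ 2) ((2 : ℝ) • innerSL ℝ (x - x0)) x := by
    have := ((hasFDerivAt_id x).sub_const x0).norm_sq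
    simpa [two_smul] using this
  have h3 := h1.sub (h2.const_mul B)
  refine h3.congr_fderiv ?_
  ext v
  simp
  ring

include hb in
lemma lp_zeta (x : Em m) :
    lp (fun x => A * Real.exp (c * b x) - B * ‖x - x0‖ ^ 2) x =
      A * c ^ 2 * Real.exp (c * b x) * ‖gradient b x‖ ^ 2 + A * c * Real.exp (c * b x) * lp b x -
        2 * B * (m + 1) := by
  have h1 : ∀ v : Em m, dd v (fun x => A * Real.exp (c * b x) - B * ‖x - x0‖ ^ 2) =
      fun y => A * c * Real.exp (c * b y) * dd v b y - 2 * B * inner ℝ (y - x0) v := by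
    intro v
    funext y
    unfold dd
    rw [(hasFDerivAt_zeta hb A c B x0 y).fderiv]
    simp [inner_sub_left]
  have h2 : ∀ v : Em m, dd v (dd v (fun x => A * Real.exp (c * b x) - B * ‖x - x0‖ ^ 2)) x =
      A * c ^ 2 * Real.exp (c * b x) * (dd v b x) ^ 2 +
        A * c * Real.exp (c * b x) * dd v (dd v b) x - 2 * B * ‖v‖ ^ 2 := by
    intro v
    rw [h1 v]
    have hd : HasFDerivAt b (fderiv ℝ b x) x := (hb.differentiable (by simp) x).hasFDerivAt
    have hd2 : HasFDerivAt (dd v b) (fderiv ℝ (dd v b) x) x :=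
      ((dd_contDiff hb v).differentiable (by simp) x).hasFDerivAt
    have h3 : HasFDerivAt (fun y => A * c * Real.exp (c * b y))
      ((A * c) • (Real.exp (c * b x) • (c • fderiv ℝ b x))) x :=
        ((hd.const_mul c).exp).const_mul (A * c)
    have h4 : HasFDerivAt (fun y : Em m => inner ℝ (y - x0) v) (innerSL ℝ v) x := by
      have h5 : HasFDerivAt (fun y : Em m => inner ℝ v (y - x0)) (innerSL ℝ v) x := by
        have := (innerSL ℝ v).hasFDerivAt.comp x ((hasFDerivAt_id x).sub_const x0)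
        simpa [Function.comp_def] using this
      simpa [real_inner_comm] using h5
    have h6 : HasFDerivAt (fun y => A * c * Real.exp (c * b y) * dd v b y -
        2 * B * inner ℝ (y - x0) v)
        ((A * c * Real.exp (c * b x)) • fderiv ℝ (dd v b) x +
        (dd v b x) • ((A * c) • (Real.exp (c * b x) • (c • fderiv ℝ b x))) -
      (2 * B) • (innerSL ℝ) v) x := (h3.mul hd2).sub (h4.const_mul (2 * B))
    have h7 : dd v (fun y => A * c * Real.exp (c * b y) * dd v b y -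
        2 * B * inner ℝ (y - x0) v) x = _ := congrArg (fun l => l v) h6.fderiv
    rw [h7]
    simp only [dd]
    simp
    ring
  rw [lp_eq, Finset.sum_congr rfl fun i _ => h2 (bb i)]
  rw [Finset.sum_sub_distrib, Finset.sum_add_distrib, ← Finset.mul_sum, ← Finset.mul_sum,
    norm_gradient_sq, lp_eq]
  have h7 : ∀ i : Fin (m + 1), ‖bb (m := m) i‖ = 1 := fun i =>
    (EuclideanSpace.basisFun (Fin (m + 1)) ℝ).norm_eq_one i
  simp [h7]
  ring

include hb in
lemma norm_gradient_zeta_le (hA : 0 ≤ A) (hc : 0 ≤ c) (hB : 0 ≤ B) (x : Em m) :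
    ‖gradient (fun x => A * Real.exp (c * b x) - B * ‖x - x0‖ ^ 2) x‖ ≤
      A * c * Real.exp (c * b x) * ‖fderiv ℝ b x‖ + 2 * B * ‖x - x0‖ := by
  unfold gradient
  rw [LinearIsometryEquiv.norm_map, (hasFDerivAt_zeta hb A c B x0 x).fderiv]
  refine (norm_sub_le _ _).trans (le_of_eq ?_)
  rw [norm_smul, norm_smul, innerSL_apply_norm, Real.norm_eq_abs, Real.norm_eq_abs,
    abs_of_nonneg (by positivity), abs_of_nonneg (by positivity)]

end calculus

end Pool.Agent.RobinBall
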