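import Mathlib
import Pool.Agent.RobinBall.BarrierB

/-!
# Package E1: boundary barrier for Lipschitz graphs
-/

set_option autoImplicit false

open MeasureTheory Metric Filter Topology
open scoped MeasureTheory NNReal ENNReal

namespace Pool.Agent.RobinBall

open Pool.Agent.RobinBall.H58 Pool.Agent.RobinBall.H14

lemma two_le_top' : (2 : WithTop ℕ∞) ≤ ((⊤ : ℕ∞) : WithTop ℕ∞) := by
  exact WithTop.coe_le_coe.2 (le_top : (2 : ℕ∞) ≤ ⊤)

/-- Choice of the scale. -/
lemma exists_scale {γ κ lam L r0 P Q : ℝ} (hγ : 0 < γ) (hlam : 0 < lam) (hL : 0 < L)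
    (hr0 : 0 < r0) (hP : 0 < P) (hQ : 0 < Q) :
    ∃ δ : ℝ, 0 < δ ∧ κ ^ 2 ≤ γ / (Real.exp (lam * L) * (lam * L / δ + 2 / r0)) * (P / δ ^ 2 - Q) := by
  set E := Real.exp (lam * L) with hE
  have hEpos : 0 < E := Real.exp_pos _
  set c1 := γ / (E * (lam * L + 2 / r0)) with hc1
  have hc1pos : 0 < c1 := by positivity
  refine ⟨min 1 (min (P / (2 * Q)) (c1 * P / (2 * (κ ^ 2 + 1)))), by positivity, ?_⟩
  set δ := min 1 (min (P / (2 * Q)) (c1 * P / (2 * (κ ^ 2 + 1)))) with hδ
  have hδ0 : 0 < δ := by positivity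
  have hδ1 : δ ≤ 1 := min_le_left _ _
  have hδ2 : δ ≤ P / (2 * Q) := (min_le_right _ _).trans (min_le_left _ _)
  have hδ3 : δ ≤ c1 * P / (2 * (κ ^ 2 + 1)) := (min_le_right _ _).trans (min_le_right _ _)
  have h1 : c1 * δ ≤ γ / (E * (lam * L / δ + 2 / r0)) := by
    rw [hc1, div_mul_eq_mul_div, div_le_div_iff₀ (by positivity) (by positivity)]
    have h2 : δ * (lam * L / δ + 2 / r0) ≤ lam * L + 2 / r0 := by
      have : δ * (lam * L / δ + 2 / r0) = lam * L + δ * (2 / r0) := by field_simp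
      rw [this]
      have : 0 < 2 / r0 := by positivity
      nlinarith
    calc γ * δ * (E * (lam * L / δ + 2 / r0)) = γ * E * (δ * (lam * L / δ + 2 / r0)) := by ring
      _ ≤ γ * E * (lam * L + 2 / r0) := mul_le_mul_of_nonneg_left h2 (by positivity)
      _ = γ * (E * (lam * L + 2 / r0)) := by ring
  have h3 : P / (2 * δ ^ 2) ≤ P / δ ^ 2 - Q := by
    rw [le_div_iff₀ (by positivity)] at hδ2
    have h4 : Q ≤ P / (2 * δ ^ 2) := by
      rw [le_div_iff₀ (by positivity)]
      have : δ ^ 2 ≤ δ := by nlinarith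
      nlinarith
    have h5 : P / δ ^ 2 = P / (2 * δ ^ 2) + P / (2 * δ ^ 2) := by field_simp; ring
    linarith
  have h6 : κ ^ 2 ≤ c1 * δ * (P / (2 * δ ^ 2)) := by
    have h7 : c1 * δ * (P / (2 * δ ^ 2)) = c1 * P / (2 * δ) := by field_simp
    rw [h7, le_div_iff₀ (by positivity)]
    rw [le_div_iff₀ (by positivity)] at hδ3
    nlinarith [sq_nonneg κ]
  have h8 : 0 ≤ P / (2 * δ ^ 2) := by positivity
  calc κ ^ 2 ≤ c1 * δ * (P / (2 * δ ^ 2)) := h6
    _ ≤ γ / (E * (lam * L / δ + 2 / r0)) * (P / (2 * δ ^ 2)) := mul_le_mul_of_nonneg_right h1 h8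
    _ ≤ γ / (E * (lam * L / δ + 2 / r0)) * (P / δ ^ 2 - Q) :=
        mul_le_mul_of_nonneg_left h3 (by positivity)

theorem barrier {m : ℕ} {Ω : Set (Em m)} (hL : IsLipDom Ω) {x0 : Em m} (hx0 : x0 ∈ frontier Ω)
    {γ : ℝ} (hγ : 0 < γ) (κ : ℝ) :
    ∃ (ζ : Em m → ℝ) (U : Set (Em m)) (r1 s2 e1 : ℝ), ContDiff ℝ (⊤ : ℕ∞) ζ ∧ IsOpen U ∧
      Bornology.IsBounded U ∧ 0 < r1 ∧ 0 < e1 ∧ ball x0 r1 ⊆ U ∧
      (∀ x ∈ closure Ω ∩ closure U, s2 ≤ ζ x → x ∈ U) ∧
      (∀ x ∈ ball x0 r1, s2 + e1 ≤ ζ x) ∧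
      (∀ x ∈ closure Ω ∩ U, ‖gradient ζ x‖ ≤ γ) ∧
      (∀ x ∈ closure Ω ∩ U, κ ^ 2 ≤ dv (gradient ζ) x) := by
  obtain ⟨r, hr, R, K, g, hg, hch⟩ := hL x0 hx0
  obtain ⟨C, hC0, hC⟩ := exists_mollify_scaled m
  set L : ℝ≥0 := 1 + K with hLdef
  have hL1 : (1 : ℝ) ≤ L := by rw [hLdef]; push_cast; linarith [K.coe_nonneg]
  set C1 : ℝ := L * C with hC1
  have hC10 : 0 ≤ C1 := by positivity
  set lam : ℝ := C1 + 1 with hlam
  have hlam1 : 1 ≤ lam := by linarith
  set M : ℝ := L + 1 with hM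
  set r0 : ℝ := r / 2 with hr0
  have hr0pos : 0 < r0 := by positivity
  set P : ℝ := lam * Real.exp (-(lam * M)) with hP
  set Q : ℝ := 2 * (m + 1) * Real.exp (lam * L) / r0 ^ 2 with hQ
  have hPpos : 0 < P := by positivity
  have hQpos : 0 < Q := by positivity
  obtain ⟨δ, hδ, hδκ⟩ := exists_scale (κ := κ) hγ (by linarith : 0 < lam)
    (by linarith : (0 : ℝ) < L) hr0pos hPpos hQpos
  set A : ℝ := γ / (Real.exp (lam * L) * (lam * L / δ + 2 / r0)) with hA
  have hApos : 0 < A := by positivity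
  set B : ℝ := A * Real.exp (lam * L) / r0 ^ 2 with hB
  have hBpos : 0 < B := by positivity
  obtain ⟨b, hb1, hb2, hb3, hb4, hb5⟩ := hC L (chartFn R g) (lipschitz_chartFn R hg) δ hδ
  have hG0 : ∀ x ∈ closure Ω, x ∈ ball x0 r → chartFn R g x ≤ 0 := fun x hx hxr =>
    chartFn_nonpos R hg hch hx hxr
  have hG1 : 0 ≤ chartFn R g x0 := chartFn_nonneg hr R hg hch hx0
  have hbup : ∀ x ∈ closure Ω, x ∈ ball x0 r → b x ≤ L * δ := by
    intro x hx hxr
    have h1 := hG0 x hx hxr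
    have h2 := (abs_le.1 (hb3 x)).2
    linarith
  have hbx0 : -(L * δ) ≤ b x0 := by
    have h2 := (abs_le.1 (hb3 x0)).1
    linarith
  have hgrad1 : ∀ x, 1 ≤ ‖gradient b x‖ := by
    intro x
    have h1 := hb5 _ (chartFn_add R g) x
    have h2 := (fderiv ℝ b x).le_opNorm (R.symm (EuclideanSpace.single (Fin.last m) 1))
    rw [h1, norm_chart_dir, mul_one, norm_one] at h2
    unfold gradient
    rwa [LinearIsometryEquiv.norm_map]
  set c : ℝ := lam / δ with hc
  have hcpos : 0 < c := by positivity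
  set ζ : Em m → ℝ := fun x => A * Real.exp (c * b x) - B * ‖x - x0‖ ^ 2 with hζ
  set U : Set (Em m) := ball x0 r0 ∩ {x | -(M * δ) < b x} with hU
  set s1 : ℝ := A * Real.exp (-(lam * M)) with hs1
  set gap : ℝ := A * Real.exp (-(lam * L)) - s1 with hgap
  have hgappos : 0 < gap := by
    rw [hgap, hs1, ← mul_sub]
    apply mul_pos hApos
    rw [sub_pos, Real.exp_lt_exp, hM]
    nlinarith
  have hcb : ∀ t : ℝ, c * (t * δ) = lam * t := by
    intro t; rw [hc]; field_simp
  have hUopen : IsOpen U := isOpen_ball.inter (isOpen_lt continuous_const hb1.continuous)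
  have hUΩ : ∀ x ∈ closure Ω ∩ U, b x ≤ L * δ ∧ -(M * δ) < b x ∧ ‖x - x0‖ < r0 := by
    rintro x ⟨hx1, hx2, hx3⟩
    have h1 : x ∈ ball x0 r := ball_subset_ball (by rw [hr0]; linarith) hx2
    exact ⟨hbup x hx1 h1, hx3, mem_ball_iff_norm.1 hx2⟩
  have hζc : ContDiff ℝ (⊤ : ℕ∞) ζ := by
    rw [hζ]
    refine (contDiff_const.mul ((contDiff_const.mul hb1).exp)).sub (contDiff_const.mul ?_)
    exact (contDiff_id.sub contDiff_const).norm_sq ℝ
  have hx0U : x0 ∈ U := by
    refine ⟨mem_ball_self hr0pos, ?_⟩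
    change -(M * δ) < b x0
    rw [hM]; nlinarith
  have hζx0 : s1 + gap / 3 + gap / 3 < ζ x0 := by
    have h1 : A * Real.exp (-(lam * L)) ≤ ζ x0 := by
      simp only [hζ, sub_self, norm_zero]
      have h2 : Real.exp (-(lam * L)) ≤ Real.exp (c * b x0) := by
        rw [Real.exp_le_exp]
        have h3 := mul_le_mul_of_nonneg_left hbx0 hcpos.le
        have h4 := hcb L
        have h5 : c * -(L * δ) = -(c * (L * δ)) := by ring
        rw [h5, h4] at h3
        exact h3
      have := mul_le_mul_of_nonneg_left h2 hApos.le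
      simpa using this
    linarith
  obtain ⟨r1, hr1, hr1U⟩ : ∃ r1 > 0, ball x0 r1 ⊆ U ∩ {x | s1 + gap / 3 + gap / 3 < ζ x} := by
    have hopen : IsOpen (U ∩ {x | s1 + gap / 3 + gap / 3 < ζ x}) :=
      hUopen.inter (isOpen_lt continuous_const hζc.continuous)
    exact Metric.isOpen_iff.1 hopen x0 ⟨hx0U, hζx0⟩
  refine ⟨ζ, U, r1, s1 + gap / 3, gap / 3, hζc, hUopen, isBounded_ball.subset
    Set.inter_subset_left, hr1, by positivity, fun x hx => (hr1U hx).1, ?_,
    fun x hx => (hr1U hx).2.le, ?_, ?_⟩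
  · rintro x ⟨hx1, hx2⟩ hx3
    have hcl1 : x ∈ closedBall x0 r0 := closure_ball_subset_closedBall
      (closure_mono Set.inter_subset_left hx2)
    have hcl2 : -(M * δ) ≤ b x := by
      have h0 : U ⊆ {x | -(M * δ) ≤ b x} := fun y hy => by
        have : -(M * δ) < b y := hy.2
        exact this.le
      have h1 : closure U ⊆ {x | -(M * δ) ≤ b x} := closure_minimal h0
        (isClosed_le continuous_const hb1.continuous)
      exact h1 hx2
    have hxr : x ∈ ball x0 r := by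
      rw [mem_ball]
      have := mem_closedBall.1 hcl1
      rw [hr0] at this
      linarith
    have hbx := hbup x hx1 hxr
    have hs1pos : 0 < s1 := by positivity
    refine ⟨?_, ?_⟩
    · by_contra h
      have h1 : r0 ≤ ‖x - x0‖ := by
        rw [mem_ball_iff_norm] at h
        exact not_lt.1 h
      have h2 : Real.exp (c * b x) ≤ Real.exp (lam * L) := by
        rw [Real.exp_le_exp, ← hcb L]
        exact mul_le_mul_of_nonneg_left hbx hcpos.le
      have h3 : ζ x ≤ 0 := by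
        simp only [hζ]
        have h4 : B * r0 ^ 2 ≤ B * ‖x - x0‖ ^ 2 :=
          mul_le_mul_of_nonneg_left (pow_le_pow_left₀ hr0pos.le h1 2) hBpos.le
        have h5 : B * r0 ^ 2 = A * Real.exp (lam * L) := by
          rw [hB]; field_simp
        have h6 := mul_le_mul_of_nonneg_left h2 hApos.le
        linarith
      linarith
    · by_contra h
      have h1 : b x ≤ -(M * δ) := not_lt.1 h
      have h2 : Real.exp (c * b x) ≤ Real.exp (-(lam * M)) := by
        rw [Real.exp_le_exp]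
        have h3 := mul_le_mul_of_nonneg_left h1 hcpos.le
        have h5 : c * -(M * δ) = -(c * (M * δ)) := by ring
        rw [h5, hcb M] at h3
        exact h3
      have h3 : ζ x ≤ s1 := by
        simp only [hζ]
        have h4 : 0 ≤ B * ‖x - x0‖ ^ 2 := by positivity
        have h6 := mul_le_mul_of_nonneg_left h2 hApos.le
        linarith
      linarith
  · intro x hx
    obtain ⟨h1, h2, h3⟩ := hUΩ x hx
    have h4 := norm_gradient_zeta_le hb1 A c B x0 hApos.le hcpos.le hBpos.le x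
    refine h4.trans ?_
    have h5 : Real.exp (c * b x) ≤ Real.exp (lam * L) := by
      rw [Real.exp_le_exp, ← hcb L]
      exact mul_le_mul_of_nonneg_left h1 hcpos.le
    calc A * c * Real.exp (c * b x) * ‖fderiv ℝ b x‖ + 2 * B * ‖x - x0‖
        ≤ A * c * Real.exp (lam * L) * L + 2 * B * r0 := by
          gcongr
          exact hb2 x
      _ = γ := by
          have h6 : A * (Real.exp (lam * L) * (lam * L / δ + 2 / r0)) = γ := by
            rw [hA]; field_simp
          have h7 : A * c * Real.exp (lam * L) * L + 2 * B * r0 =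
              A * (Real.exp (lam * L) * (lam * L / δ + 2 / r0)) := by
            rw [hB, hc]; field_simp
          rw [h7, h6]
  · intro x hx
    obtain ⟨h1, h2, h3⟩ := hUΩ x hx
    rw [dv_gradient (hζc.contDiffAt.of_le two_le_top'), lp_zeta hb1]
    have h5 : Real.exp (-(lam * M)) ≤ Real.exp (c * b x) := by
      rw [Real.exp_le_exp]
      have h3 := mul_le_mul_of_nonneg_left h2.le hcpos.le
      have h5 : c * -(M * δ) = -(c * (M * δ)) := by ring
      rw [h5, hcb M] at h3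
      exact h3
    have h6 : 1 ≤ ‖gradient b x‖ ^ 2 := one_le_pow₀ (hgrad1 x)
    have h7 : -(C1 / δ) ≤ lp b x := (abs_le.1 (hb4 x)).1
    have h8 : A * c ^ 2 * Real.exp (c * b x) * 1 ≤
        A * c ^ 2 * Real.exp (c * b x) * ‖gradient b x‖ ^ 2 :=
      mul_le_mul_of_nonneg_left h6 (by positivity)
    have h9 : A * c * Real.exp (c * b x) * (-(C1 / δ)) ≤ A * c * Real.exp (c * b x) * lp b x :=
      mul_le_mul_of_nonneg_left h7 (by positivity)
    have h10 : A * c ^ 2 * Real.exp (c * b x) * 1 + A * c * Real.exp (c * b x) * (-(C1 / δ)) =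
        A * (lam / δ ^ 2) * Real.exp (c * b x) := by
      rw [hc, hlam]; field_simp; ring
    have h11 : A * (lam / δ ^ 2) * Real.exp (-(lam * M)) ≤ A * (lam / δ ^ 2) * Real.exp (c * b x) :=
      mul_le_mul_of_nonneg_left h5 (by positivity)
    have h12 : A * (lam / δ ^ 2) * Real.exp (-(lam * M)) - 2 * B * (m + 1) =
        A * (P / δ ^ 2 - Q) := by
      rw [hP, hQ, hB]; field_simp
    linarith

end Pool.Agent.RobinBall
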