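import Mathlib

/-!
# Mollification of Lipschitz functions
-/

set_option autoImplicit false
set_option linter.unusedSectionVars false

open MeasureTheory Filter Topology Metric ContinuousLinearMap
open scoped Convolution NNReal

namespace Pool.Agent.RobinBall.E

variable {E : Type*} [NormedAddCommGroup E] [InnerProductSpace ℝ E] [FiniteDimensional ℝ E]
  [MeasurableSpace E] [BorelSpace E]

/-- The standard bump of outer radius `1 / (j + 1)`. -/
noncomputable def bmp (E : Type*) [NormedAddCommGroup E] (j : ℕ) : ContDiffBump (0 : E) where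
  rIn := 1 / (2 * ((j : ℝ) + 1))
  rOut := 1 / ((j : ℝ) + 1)
  rIn_pos := by positivity
  rIn_lt_rOut := by
    apply one_div_lt_one_div_of_lt (by positivity)
    have : (0 : ℝ) < (j : ℝ) + 1 := by positivity
    linarith

/-- Mollification at scale `1 / (j + 1)`. -/
noncomputable def moll (u : E → ℝ) (j : ℕ) : E → ℝ :=
  (bmp E j).normed volume ⋆[lsmul ℝ ℝ, volume] u

lemma bmp_tendsto : Tendsto (fun j => (bmp E j).rOut) atTop (𝓝 0) :=
  tendsto_one_div_add_atTop_nhds_zero_nat

lemma moll_apply (u : E → ℝ) (j : ℕ) (x : E) :
    moll u j x = ∫ t, (bmp E j).normed volume t * u (x - t) := by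
  simp [moll, convolution_def]

lemma contDiff_moll {u : E → ℝ} (hu : LocallyIntegrable u volume) (j : ℕ) :
    ContDiff ℝ (⊤ : ℕ∞) (moll u j) :=
  (bmp E j).hasCompactSupport_normed.contDiff_convolution_left _
    (bmp E j).contDiff_normed hu

lemma hasCompactSupport_moll {u : E → ℝ} (hu : HasCompactSupport u) (j : ℕ) :
    HasCompactSupport (moll u j) :=
  (bmp E j).hasCompactSupport_normed.convolution _ hu

lemma abs_moll_sub_le {u : E → ℝ} {K : ℝ≥0} (hu : LipschitzWith K u) (j : ℕ) (x : E) :
    |moll u j x - u x| ≤ K * (1 / ((j : ℝ) + 1)) := by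
  have h := ContDiffBump.dist_normed_convolution_le (μ := (volume : Measure E)) (φ := bmp E j)
    (x₀ := x) (g := u) (ε := K * (1 / ((j : ℝ) + 1))) hu.continuous.aestronglyMeasurable (by
      intro y hy
      have h1 := hu.dist_le_mul y x
      have h2 : dist y x ≤ 1 / ((j : ℝ) + 1) := (mem_ball.1 hy).le
      exact h1.trans (mul_le_mul_of_nonneg_left h2 K.2))
  rwa [Real.dist_eq] at h

lemma ae_differentiableAt_sub {u : E → ℝ} {K : ℝ≥0} (hu : LipschitzWith K u) (x : E) :
    ∀ᵐ t ∂(volume : Measure E), DifferentiableAt ℝ u (x - t) := by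
  have h := hu.ae_differentiableAt (μ := (volume : Measure E))
  exact (Measure.measurePreserving_sub_left volume x).quasiMeasurePreserving.ae h

lemma hasFDerivAt_moll {u : E → ℝ} {K : ℝ≥0} (hu : LipschitzWith K u) (j : ℕ) (x : E) :
    HasFDerivAt (moll u j) (((bmp E j).normed volume ⋆[lsmul ℝ ℝ, volume] (fderiv ℝ u)) x) x := by
  have hφi : Integrable ((bmp E j).normed (volume : Measure E)) := (bmp E j).integrable_normed
  have hmeas : ∀ y : E, AEStronglyMeasurable
      (fun t => (bmp E j).normed volume t * u (y - t)) volume := fun y =>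
    ((bmp E j).continuous_normed.mul (hu.continuous.comp (by fun_prop))).aestronglyMeasurable
  have hint : ∀ y : E, Integrable (fun t => (bmp E j).normed volume t * u (y - t)) volume := by
    intro y
    apply Continuous.integrable_of_hasCompactSupport
    · exact (bmp E j).continuous_normed.mul (hu.continuous.comp (by fun_prop))
    · exact (bmp E j).hasCompactSupport_normed.mul_right
  have h := hasFDerivAt_integral_of_dominated_loc_of_lip' (𝕜 := ℝ) (μ := (volume : Measure E))
    (F := fun y t => (bmp E j).normed volume t * u (y - t)) (x₀ := x) (s := Set.univ)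
    (F' := fun t => (bmp E j).normed volume t • fderiv ℝ u (x - t))
    (bound := fun t => (bmp E j).normed volume t * K) univ_mem (fun y _ => hmeas y) (hint x)
    (by
      exact AEStronglyMeasurable.fun_smul
        (bmp E j).continuous_normed.aestronglyMeasurable
        ((measurable_fderiv ℝ u).comp (by fun_prop)).aestronglyMeasurable)
    (by
      refine Eventually.of_forall fun t y _ => ?_
      have h0 := (bmp E j).nonneg_normed (μ := (volume : Measure E)) t
      rw [← mul_sub, norm_mul, Real.norm_of_nonneg h0, mul_assoc]
      apply mul_le_mul_of_nonneg_left _ h0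
      have h1 := hu.dist_le_mul (y - t) (x - t)
      rw [dist_eq_norm, dist_eq_norm] at h1
      simpa using h1)
    (hφi.mul_const _)
    (by
      filter_upwards [ae_differentiableAt_sub hu x] with t ht
      have h1 : HasFDerivAt (fun y => u (y - t)) (fderiv ℝ u (x - t)) x := by
        have h2 := HasFDerivAt.comp (g := u) (f := fun y : E => y - t) x (ht.hasFDerivAt)
          ((hasFDerivAt_id x).sub_const t)
        rw [ContinuousLinearMap.comp_id] at h2
        exact h2
      exact h1.const_mul _)
  have h2 : moll u j = fun y => ∫ t, (bmp E j).normed volume t * u (y - t) := by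
    ext y; exact moll_apply u j y
  rw [h2]
  have h3 : ((bmp E j).normed volume ⋆[lsmul ℝ ℝ, volume] (fderiv ℝ u)) x =
      ∫ t, (bmp E j).normed volume t • fderiv ℝ u (x - t) := by
    simp [convolution_def]
  rw [h3]
  exact h.2

lemma locallyIntegrable_fderiv {u : E → ℝ} {K : ℝ≥0} (hu : LipschitzWith K u) :
    LocallyIntegrable (fderiv ℝ u) (volume : Measure E) := by
  rw [locallyIntegrable_iff]
  intro k hk
  apply Measure.integrableOn_of_bounded (M := K) hk.measure_lt_top.ne
  · exact (measurable_fderiv ℝ u).aestronglyMeasurable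
  · exact Eventually.of_forall fun x => norm_fderiv_le_of_lipschitz ℝ hu

lemma lipschitz_moll {u : E → ℝ} {K : ℝ≥0} (hu : LipschitzWith K u) (j : ℕ) :
    LipschitzWith K (moll u j) := by
  apply LipschitzWith.of_dist_le_mul
  intro x y
  rw [Real.dist_eq, moll_apply, moll_apply]
  have hint : ∀ y : E, Integrable (fun t => (bmp E j).normed volume t * u (y - t)) volume := by
    intro y
    apply Continuous.integrable_of_hasCompactSupport
    · exact (bmp E j).continuous_normed.mul (hu.continuous.comp (by fun_prop))
    · exact (bmp E j).hasCompactSupport_normed.mul_right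
  rw [← integral_sub (hint x) (hint y)]
  calc |∫ t, ((bmp E j).normed volume t * u (x - t) - (bmp E j).normed volume t * u (y - t))|
      ≤ ∫ t, |(bmp E j).normed volume t * u (x - t) - (bmp E j).normed volume t * u (y - t)| :=
        abs_integral_le_integral_abs
    _ ≤ ∫ t, (bmp E j).normed volume t * (K * dist x y) := by
        apply integral_mono_of_nonneg (Eventually.of_forall fun t => abs_nonneg _)
        · exact ((bmp E j).integrable_normed).mul_const _
        · refine Eventually.of_forall fun t => ?_
          have h0 := (bmp E j).nonneg_normed (μ := (volume : Measure E)) t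
          simp only
          rw [← mul_sub, abs_mul, abs_of_nonneg h0]
          apply mul_le_mul_of_nonneg_left _ h0
          have h1 := hu.dist_le_mul (x - t) (y - t)
          rw [Real.dist_eq] at h1
          simpa using h1
    _ = K * dist x y := by
        rw [integral_mul_const, (bmp E j).integral_normed, one_mul]

lemma norm_fderiv_moll_le {u : E → ℝ} {K : ℝ≥0} (hu : LipschitzWith K u) (j : ℕ) (x : E) :
    ‖fderiv ℝ (moll u j) x‖ ≤ K :=
  norm_fderiv_le_of_lipschitz ℝ (lipschitz_moll hu j)

lemma ae_tendsto_fderiv_moll {u : E → ℝ} {K : ℝ≥0} (hu : LipschitzWith K u) :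
    ∀ᵐ x ∂(volume : Measure E),
      Tendsto (fun j => fderiv ℝ (moll u j) x) atTop (𝓝 (fderiv ℝ u x)) := by
  have h := ContDiffBump.ae_convolution_tendsto_right_of_locallyIntegrable
    (μ := (volume : Measure E)) (φ := fun j => bmp E j) (l := atTop) (K := 2)
    (g := fderiv ℝ u) bmp_tendsto
    (Eventually.of_forall fun j => by simp [bmp]; field_simp; rfl) (locallyIntegrable_fderiv hu)
  filter_upwards [h] with x hx
  refine hx.congr fun j => ?_
  exact ((hasFDerivAt_moll hu j x).fderiv).symm

end Pool.Agent.RobinBall.E
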