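import Mathlib
import Pool.Agent.RobinBall.Defs
import Pool.Agent.RobinBall.Moll

/-!
# The Robin form on Lipschitz functions with compact support
-/

set_option autoImplicit false
set_option linter.unusedSectionVars false

open MeasureTheory Filter Topology Metric
open scoped NNReal ENNReal

namespace Pool.Agent.RobinBall.E

variable {m : ℕ}

/-- Lipschitz functions with compact support. -/
def LipC (m : ℕ) : Submodule ℝ (Em m → ℝ) where
  carrier := {v | (∃ K : ℝ≥0, LipschitzWith K v) ∧ HasCompactSupport v}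
  add_mem' := by
    rintro u v ⟨⟨K, hu⟩, hu'⟩ ⟨⟨L, hv⟩, hv'⟩
    exact ⟨⟨K + L, hu.add hv⟩, hu'.add hv'⟩
  zero_mem' := ⟨⟨0, LipschitzWith.const 0⟩, HasCompactSupport.zero⟩
  smul_mem' := by
    rintro c u ⟨⟨K, hu⟩, hu'⟩
    refine ⟨⟨‖c‖₊ * K, ?_⟩, hu'.smul_left⟩
    have := (lipschitzWith_smul c).comp hu
    exact this

lemma lc_lip (u : LipC m) : ∃ K : ℝ≥0, LipschitzWith K (u : Em m → ℝ) := u.2.1

lemma lc_compact (u : LipC m) : HasCompactSupport (u : Em m → ℝ) := u.2.2

lemma lc_continuous (u : LipC m) : Continuous (u : Em m → ℝ) := by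
  obtain ⟨K, hK⟩ := (lc_lip u)
  exact hK.continuous

lemma lc_ae_diff (u : LipC m) : ∀ᵐ x ∂(volume : Measure (Em m)),
    DifferentiableAt ℝ (u : Em m → ℝ) x := by
  obtain ⟨K, hK⟩ := (lc_lip u)
  exact hK.ae_differentiableAt

lemma lc_bounded (u : LipC m) : ∃ C : ℝ, ∀ x, ‖(u : Em m → ℝ) x‖ ≤ C :=
  (lc_compact u).exists_bound_of_continuous (lc_continuous u)

lemma lc_grad_bounded (u : LipC m) : ∃ C : ℝ, ∀ x, ‖gradient (u : Em m → ℝ) x‖ ≤ C := by
  obtain ⟨K, hK⟩ := (lc_lip u)
  refine ⟨K, fun x => ?_⟩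
  rw [gradient, LinearIsometryEquiv.norm_map]
  exact norm_fderiv_le_of_lipschitz ℝ hK

lemma measurable_gradient (u : Em m → ℝ) : Measurable (fun x => gradient u x) :=
  (InnerProductSpace.toDual ℝ (Em m)).symm.continuous.measurable.comp (measurable_fderiv ℝ u)

lemma norm_gradient (u : Em m → ℝ) (x : Em m) : ‖gradient u x‖ = ‖fderiv ℝ u x‖ := by
  rw [gradient, LinearIsometryEquiv.norm_map]

lemma gradient_add' {u v : Em m → ℝ} {x : Em m} (hu : DifferentiableAt ℝ u x)
    (hv : DifferentiableAt ℝ v x) : gradient (u + v) x = gradient u x + gradient v x := by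
  simp only [gradient]
  rw [fderiv_add hu hv, map_add]

lemma gradient_smul' {u : Em m → ℝ} {x : Em m} (c : ℝ) (hu : DifferentiableAt ℝ u x) :
    gradient (c • u) x = c • gradient u x := by
  simp only [gradient]
  rw [fderiv_const_smul hu, map_smul]

section

variable {Ω : Set (Em m)} (hb : Bornology.IsBounded Ω)

lemma integrableOn_inner_grad (hb : Bornology.IsBounded Ω) (u v : LipC m) :
    Integrable (fun x => inner ℝ (gradient (u : Em m → ℝ) x) (gradient (v : Em m → ℝ) x))
      (volume.restrict Ω) := by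
  obtain ⟨C, hC⟩ := (lc_grad_bounded u)
  obtain ⟨C', hC'⟩ := (lc_grad_bounded v)
  apply Measure.integrableOn_of_bounded (M := C * C') hb.measure_lt_top.ne
  · exact ((measurable_gradient _).inner (measurable_gradient _)).aestronglyMeasurable
  · refine Eventually.of_forall fun x => (norm_inner_le_norm _ _).trans ?_
    exact mul_le_mul (hC x) (hC' x) (norm_nonneg _) ((norm_nonneg _).trans (hC x))

lemma integrableOn_mul (hb : Bornology.IsBounded Ω) (u v : LipC m) :
    Integrable (fun x => (u : Em m → ℝ) x * (v : Em m → ℝ) x) (volume.restrict Ω) := by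
  obtain ⟨C, hC⟩ := (lc_bounded u)
  obtain ⟨C', hC'⟩ := (lc_bounded v)
  apply Measure.integrableOn_of_bounded (M := C * C') hb.measure_lt_top.ne
  · exact ((lc_continuous u).mul (lc_continuous v)).aestronglyMeasurable
  · refine Eventually.of_forall fun x => ?_
    rw [norm_mul]
    exact mul_le_mul (hC x) (hC' x) (norm_nonneg _) ((norm_nonneg _).trans (hC x))

lemma integrableOn_self (hb : Bornology.IsBounded Ω) (u : LipC m) :
    Integrable (fun x => (u : Em m → ℝ) x) (volume.restrict Ω) := by
  obtain ⟨C, hC⟩ := (lc_bounded u)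
  apply Measure.integrableOn_of_bounded (M := C) hb.measure_lt_top.ne
  · exact (lc_continuous u).aestronglyMeasurable
  · exact Eventually.of_forall fun x => hC x

lemma lc_integrable_bdry {Γ : Set (Em m)}
    (hf : Measure.hausdorffMeasure (m : ℝ) Γ < ⊤) (u v : LipC m) :
    Integrable (fun x => (u : Em m → ℝ) x * (v : Em m → ℝ) x)
      ((Measure.hausdorffMeasure (m : ℝ)).restrict Γ) := by
  obtain ⟨C, hC⟩ := (lc_bounded u)
  obtain ⟨C', hC'⟩ := (lc_bounded v)
  apply Measure.integrableOn_of_bounded (M := C * C') hf.ne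
  · exact ((lc_continuous u).mul (lc_continuous v)).aestronglyMeasurable
  · refine Eventually.of_forall fun x => ?_
    rw [norm_mul]
    exact mul_le_mul (hC x) (hC' x) (norm_nonneg _) ((norm_nonneg _).trans (hC x))

/-- The Robin form `∫_Ω ∇u·∇v + κ² ∫_Ω u v - a ∫_{∂Ω} u v dμH` on Lipschitz functions. -/
noncomputable def form (hb : Bornology.IsBounded Ω)
    (hf : Measure.hausdorffMeasure (m : ℝ) (frontier Ω) < ⊤) (a κ : ℝ) :
    LipC m →ₗ[ℝ] LipC m →ₗ[ℝ] ℝ :=
  LinearMap.mk₂ ℝ (fun u v =>
    (∫ x in Ω, inner ℝ (gradient (u : Em m → ℝ) x) (gradient (v : Em m → ℝ) x)) +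
      κ ^ 2 * (∫ x in Ω, (u : Em m → ℝ) x * (v : Em m → ℝ) x) -
      a * ∫ x in frontier Ω, (u : Em m → ℝ) x * (v : Em m → ℝ) x
        ∂(Measure.hausdorffMeasure (m : ℝ)))
    (by
      intro u u' v
      have h1 : ∫ x in Ω, inner ℝ (gradient (((u + u' : LipC m)) : Em m → ℝ) x)
          (gradient (v : Em m → ℝ) x) =
          (∫ x in Ω, inner ℝ (gradient (u : Em m → ℝ) x) (gradient (v : Em m → ℝ) x)) +
          ∫ x in Ω, inner ℝ (gradient (u' : Em m → ℝ) x) (gradient (v : Em m → ℝ) x) := by
        rw [← integral_add (integrableOn_inner_grad hb u v) (integrableOn_inner_grad hb u' v)]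
        apply integral_congr_ae
        filter_upwards [ae_restrict_of_ae (lc_ae_diff u), ae_restrict_of_ae (lc_ae_diff u')] with x hx hx'
        rw [Submodule.coe_add, gradient_add' hx hx', inner_add_left]
      have h2 : ∫ x in Ω, ((u + u' : LipC m) : Em m → ℝ) x * (v : Em m → ℝ) x =
          (∫ x in Ω, (u : Em m → ℝ) x * (v : Em m → ℝ) x) +
          ∫ x in Ω, (u' : Em m → ℝ) x * (v : Em m → ℝ) x := by
        rw [← integral_add (integrableOn_mul hb u v) (integrableOn_mul hb u' v)]
        congr 1; ext x; simp [add_mul]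
      have h3 : ∫ x in frontier Ω, ((u + u' : LipC m) : Em m → ℝ) x * (v : Em m → ℝ) x
            ∂(Measure.hausdorffMeasure (m : ℝ)) =
          (∫ x in frontier Ω, (u : Em m → ℝ) x * (v : Em m → ℝ) x
            ∂(Measure.hausdorffMeasure (m : ℝ))) +
          ∫ x in frontier Ω, (u' : Em m → ℝ) x * (v : Em m → ℝ) x
            ∂(Measure.hausdorffMeasure (m : ℝ)) := by
        rw [← integral_add (lc_integrable_bdry hf u v) (lc_integrable_bdry hf u' v)]
        congr 1; ext x; simp [add_mul]
      rw [h1, h2, h3]; ring)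
    (by
      intro c u v
      have h1 : ∫ x in Ω, inner ℝ (gradient (((c • u : LipC m)) : Em m → ℝ) x)
          (gradient (v : Em m → ℝ) x) =
          c * (∫ x in Ω, inner ℝ (gradient (u : Em m → ℝ) x) (gradient (v : Em m → ℝ) x)) := by
        rw [← integral_const_mul]
        apply integral_congr_ae
        filter_upwards [ae_restrict_of_ae (lc_ae_diff u)] with x hx
        rw [Submodule.coe_smul, gradient_smul' c hx, real_inner_smul_left]
      have h2 : ∫ x in Ω, ((c • u : LipC m) : Em m → ℝ) x * (v : Em m → ℝ) x =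
          c * ∫ x in Ω, (u : Em m → ℝ) x * (v : Em m → ℝ) x := by
        rw [← integral_const_mul]
        congr 1; ext x; simp [mul_assoc]
      have h3 : ∫ x in frontier Ω, ((c • u : LipC m) : Em m → ℝ) x * (v : Em m → ℝ) x
            ∂(Measure.hausdorffMeasure (m : ℝ)) =
          c * ∫ x in frontier Ω, (u : Em m → ℝ) x * (v : Em m → ℝ) x
            ∂(Measure.hausdorffMeasure (m : ℝ)) := by
        rw [← integral_const_mul]
        congr 1; ext x; simp [mul_assoc]
      rw [h1, h2, h3, smul_eq_mul]; ring)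
    (by
      intro v u u'
      have h1 : ∫ x in Ω, inner ℝ (gradient (v : Em m → ℝ) x)
          (gradient (((u + u' : LipC m)) : Em m → ℝ) x) =
          (∫ x in Ω, inner ℝ (gradient (v : Em m → ℝ) x) (gradient (u : Em m → ℝ) x)) +
          ∫ x in Ω, inner ℝ (gradient (v : Em m → ℝ) x) (gradient (u' : Em m → ℝ) x) := by
        rw [← integral_add (integrableOn_inner_grad hb v u) (integrableOn_inner_grad hb v u')]
        apply integral_congr_ae
        filter_upwards [ae_restrict_of_ae (lc_ae_diff u), ae_restrict_of_ae (lc_ae_diff u')] with x hx hx'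
        rw [Submodule.coe_add, gradient_add' hx hx', inner_add_right]
      have h2 : ∫ x in Ω, (v : Em m → ℝ) x * ((u + u' : LipC m) : Em m → ℝ) x =
          (∫ x in Ω, (v : Em m → ℝ) x * (u : Em m → ℝ) x) +
          ∫ x in Ω, (v : Em m → ℝ) x * (u' : Em m → ℝ) x := by
        rw [← integral_add (integrableOn_mul hb v u) (integrableOn_mul hb v u')]
        congr 1; ext x; simp [mul_add]
      have h3 : ∫ x in frontier Ω, (v : Em m → ℝ) x * ((u + u' : LipC m) : Em m → ℝ) x
            ∂(Measure.hausdorffMeasure (m : ℝ)) =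
          (∫ x in frontier Ω, (v : Em m → ℝ) x * (u : Em m → ℝ) x
            ∂(Measure.hausdorffMeasure (m : ℝ))) +
          ∫ x in frontier Ω, (v : Em m → ℝ) x * (u' : Em m → ℝ) x
            ∂(Measure.hausdorffMeasure (m : ℝ)) := by
        rw [← integral_add (lc_integrable_bdry hf v u) (lc_integrable_bdry hf v u')]
        congr 1; ext x; simp [mul_add]
      rw [h1, h2, h3]; ring)
    (by
      intro c v u
      have h1 : ∫ x in Ω, inner ℝ (gradient (v : Em m → ℝ) x)
          (gradient (((c • u : LipC m)) : Em m → ℝ) x) =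
          c * (∫ x in Ω, inner ℝ (gradient (v : Em m → ℝ) x) (gradient (u : Em m → ℝ) x)) := by
        rw [← integral_const_mul]
        apply integral_congr_ae
        filter_upwards [ae_restrict_of_ae (lc_ae_diff u)] with x hx
        rw [Submodule.coe_smul, gradient_smul' c hx, real_inner_smul_right]
      have h2 : ∫ x in Ω, (v : Em m → ℝ) x * ((c • u : LipC m) : Em m → ℝ) x =
          c * ∫ x in Ω, (v : Em m → ℝ) x * (u : Em m → ℝ) x := by
        rw [← integral_const_mul]
        congr 1; ext x; simp; ring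
      have h3 : ∫ x in frontier Ω, (v : Em m → ℝ) x * ((c • u : LipC m) : Em m → ℝ) x
            ∂(Measure.hausdorffMeasure (m : ℝ)) =
          c * ∫ x in frontier Ω, (v : Em m → ℝ) x * (u : Em m → ℝ) x
            ∂(Measure.hausdorffMeasure (m : ℝ)) := by
        rw [← integral_const_mul]
        congr 1; ext x; simp; ring
      rw [h1, h2, h3, smul_eq_mul]; ring)

lemma form_apply (hb : Bornology.IsBounded Ω)
    (hf : Measure.hausdorffMeasure (m : ℝ) (frontier Ω) < ⊤) (a κ : ℝ) (u v : LipC m) :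
    form hb hf a κ u v =
    (∫ x in Ω, inner ℝ (gradient (u : Em m → ℝ) x) (gradient (v : Em m → ℝ) x)) +
      κ ^ 2 * (∫ x in Ω, (u : Em m → ℝ) x * (v : Em m → ℝ) x) -
      a * ∫ x in frontier Ω, (u : Em m → ℝ) x * (v : Em m → ℝ) x
        ∂(Measure.hausdorffMeasure (m : ℝ)) := rfl

lemma form_symm (hb : Bornology.IsBounded Ω)
    (hf : Measure.hausdorffMeasure (m : ℝ) (frontier Ω) < ⊤) (a κ : ℝ) (u v : LipC m) :
    form hb hf a κ u v = form hb hf a κ v u := by
  rw [form_apply, form_apply]
  simp only [real_inner_comm, mul_comm]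

/-- The functional `v ↦ ∫_Ω v`. -/
noncomputable def load (hb : Bornology.IsBounded Ω) : LipC m →ₗ[ℝ] ℝ where
  toFun u := ∫ x in Ω, (u : Em m → ℝ) x
  map_add' u v := by
    rw [← integral_add (integrableOn_self hb u) (integrableOn_self hb v)]
    rfl
  map_smul' c u := by
    rw [RingHom.id_apply, smul_eq_mul, ← integral_const_mul]
    rfl

lemma load_apply (hb : Bornology.IsBounded Ω) (u : LipC m) :
    load hb u = ∫ x in Ω, (u : Em m → ℝ) x := rfl

end

end Pool.Agent.RobinBall.E
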