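import Mathlib
import Pool.Agent.RobinBall.Form

/-!
# Positivity, truncation and Gauss-Green for the Robin form
-/

set_option autoImplicit false
set_option linter.unusedSectionVars false

open MeasureTheory Filter Topology Metric
open scoped NNReal ENNReal

namespace Pool.Agent.RobinBall.E

variable {m : ℕ} {Ω : Set (Em m)}

theorem form_pos (hb : Bornology.IsBounded Ω)
    (hf : Measure.hausdorffMeasure (m : ℝ) (frontier Ω) < ⊤) {a κ δ : ℝ}
    (hR : ∀ u : Em m → ℝ, ContDiff ℝ 1 u → HasCompactSupport u →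
      δ * ∫ x in Ω, u x ^ 2 ≤ (∫ x in Ω, ‖fderiv ℝ u x‖ ^ 2) + κ ^ 2 * (∫ x in Ω, u x ^ 2)
        - a * ∫ x in frontier Ω, u x ^ 2 ∂(Measure.hausdorffMeasure (m : ℝ)))
    (u : LipC m) : δ * ∫ x in Ω, (u : Em m → ℝ) x ^ 2 ≤ form hb hf a κ u u := by
  obtain ⟨K, hK⟩ := lc_lip u
  obtain ⟨C, hC⟩ := lc_bounded u
  set w : ℕ → Em m → ℝ := fun j => moll (u : Em m → ℝ) j with hw
  have hloc : LocallyIntegrable (u : Em m → ℝ) volume := hK.continuous.locallyIntegrable
  have hsm : ∀ j, ContDiff ℝ 1 (w j) := fun j => (contDiff_moll hloc j).of_le (by simp)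
  have hcs : ∀ j, HasCompactSupport (w j) := fun j => hasCompactSupport_moll (lc_compact u) j
  have hlim : ∀ x, Tendsto (fun j => w j x) atTop (𝓝 ((u : Em m → ℝ) x)) := by
    intro x
    rw [tendsto_iff_dist_tendsto_zero]
    apply squeeze_zero (fun j => dist_nonneg) (g := fun j : ℕ => (K : ℝ) * (1 / ((j : ℝ) + 1)))
    · intro j
      rw [Real.dist_eq]
      exact abs_moll_sub_le hK j x
    · simpa using tendsto_one_div_add_atTop_nhds_zero_nat.const_mul (K : ℝ)
  have hbd : ∀ j x, |w j x| ≤ C + K := by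
    intro j x
    have h1 := abs_moll_sub_le hK j x
    have h2 : |w j x| ≤ |w j x - (u : Em m → ℝ) x| + |(u : Em m → ℝ) x| := by
      calc |w j x| = |(w j x - (u : Em m → ℝ) x) + (u : Em m → ℝ) x| := by ring_nf
        _ ≤ _ := abs_add_le _ _
    have h3 := hC x
    rw [Real.norm_eq_abs] at h3
    have h4 : (K : ℝ) * (1 / ((j : ℝ) + 1)) ≤ K := by
      apply mul_le_of_le_one_right K.2
      rw [div_le_one (by positivity)]
      linarith [(Nat.cast_nonneg j : (0 : ℝ) ≤ j)]
    linarith
  have hsq : ∀ (ν : Measure (Em m)), IsFiniteMeasure ν →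
      Tendsto (fun j => ∫ x, w j x ^ 2 ∂ν) atTop (𝓝 (∫ x, (u : Em m → ℝ) x ^ 2 ∂ν)) := by
    intro ν hν
    apply tendsto_integral_of_dominated_convergence (fun _ => (C + K) ^ 2)
    · intro j
      exact ((hsm j).continuous.pow 2).aestronglyMeasurable
    · exact integrable_const _
    · intro j
      refine Eventually.of_forall fun x => ?_
      rw [Real.norm_eq_abs, abs_of_nonneg (sq_nonneg _)]
      have := hbd j x
      rw [← sq_abs]
      exact pow_le_pow_left₀ (abs_nonneg _) this 2
    · exact Eventually.of_forall fun x => (hlim x).pow 2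
  have hfin1 : IsFiniteMeasure ((volume : Measure (Em m)).restrict Ω) :=
    ⟨by simpa using hb.measure_lt_top⟩
  have hfin2 : IsFiniteMeasure ((Measure.hausdorffMeasure (m : ℝ) :
      Measure (Em m)).restrict (frontier Ω)) := ⟨by simpa using hf⟩
  have h1 := hsq _ hfin1
  have h2 := hsq _ hfin2
  have h3 : Tendsto (fun j => ∫ x in Ω, ‖fderiv ℝ (w j) x‖ ^ 2) atTop
      (𝓝 (∫ x in Ω, ‖fderiv ℝ (u : Em m → ℝ) x‖ ^ 2)) := by
    apply tendsto_integral_of_dominated_convergence (fun _ => (K : ℝ) ^ 2)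
    · intro j
      exact ((measurable_fderiv ℝ (w j)).norm.pow_const 2).aestronglyMeasurable
    · exact integrable_const _
    · intro j
      refine Eventually.of_forall fun x => ?_
      rw [Real.norm_eq_abs, abs_of_nonneg (sq_nonneg _)]
      exact pow_le_pow_left₀ (norm_nonneg _) (norm_fderiv_moll_le hK j x) 2
    · filter_upwards [ae_restrict_of_ae (ae_tendsto_fderiv_moll hK)] with x hx
      exact (hx.norm).pow 2
  have key := le_of_tendsto_of_tendsto' (h1.const_mul δ)
    ((h3.add (h1.const_mul (κ ^ 2))).sub (h2.const_mul a)) (fun j => hR (w j) (hsm j) (hcs j))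
  rw [form_apply]
  have e1 : ∫ x in Ω, inner ℝ (gradient (u : Em m → ℝ) x) (gradient (u : Em m → ℝ) x) =
      ∫ x in Ω, ‖fderiv ℝ (u : Em m → ℝ) x‖ ^ 2 := by
    congr 1; ext x
    rw [real_inner_self_eq_norm_sq, norm_gradient]
  rw [e1]
  simpa only [pow_two] using key

/-- Positive part. -/
noncomputable def posp (u : LipC m) : LipC m :=
  ⟨fun x => max ((u : Em m → ℝ) x) 0, by
    obtain ⟨K, hK⟩ := lc_lip u
    exact ⟨K, hK.max_const 0⟩, by
    exact (lc_compact u).comp_left (g := fun t : ℝ => max t 0) (by simp)⟩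

lemma posp_apply (u : LipC m) (x : Em m) : (posp u : Em m → ℝ) x = max ((u : Em m → ℝ) x) 0 := rfl

lemma posp_nonneg (u : LipC m) (x : Em m) : 0 ≤ (posp u : Em m → ℝ) x := le_max_right _ _

lemma grad_posp (u : LipC m) : ∀ᵐ x ∂(volume : Measure (Em m)),
    gradient (posp u : Em m → ℝ) x =
      if 0 < (u : Em m → ℝ) x then gradient (u : Em m → ℝ) x else 0 := by
  filter_upwards [lc_ae_diff u, lc_ae_diff (posp u)] with x hx hx'
  split_ifs with h
  · have h1 : (posp u : Em m → ℝ) =ᶠ[𝓝 x] (u : Em m → ℝ) := by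
      filter_upwards [(lc_continuous u).continuousAt.eventually (lt_mem_nhds h)] with y hy
      rw [posp_apply, max_eq_left hy.le]
    simp only [gradient]
    rw [h1.fderiv_eq]
  · have h1 : IsLocalMin (posp u : Em m → ℝ) x := by
      refine Eventually.of_forall fun y => ?_
      rw [posp_apply u x, max_eq_right (not_lt.1 h)]
      exact posp_nonneg u y
    simp only [gradient]
    rw [h1.fderiv_eq_zero, map_zero]

lemma form_posp (hb : Bornology.IsBounded Ω)
    (hf : Measure.hausdorffMeasure (m : ℝ) (frontier Ω) < ⊤) (a κ : ℝ) (u : LipC m) :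
    form hb hf a κ u (posp u) = form hb hf a κ (posp u) (posp u) := by
  rw [form_apply, form_apply]
  have h1 : ∀ x, (u : Em m → ℝ) x * (posp u : Em m → ℝ) x =
      (posp u : Em m → ℝ) x * (posp u : Em m → ℝ) x := by
    intro x
    rw [posp_apply]
    rcases le_total ((u : Em m → ℝ) x) 0 with h | h
    · rw [max_eq_right h]; simp
    · rw [max_eq_left h]
  have h2 : ∫ x in Ω, inner ℝ (gradient (u : Em m → ℝ) x) (gradient (posp u : Em m → ℝ) x) =
      ∫ x in Ω, inner ℝ (gradient (posp u : Em m → ℝ) x) (gradient (posp u : Em m → ℝ) x) := by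
    apply integral_congr_ae
    filter_upwards [ae_restrict_of_ae (grad_posp u)] with x hx
    rw [hx]
    split_ifs <;> simp
  rw [h2]
  simp only [h1]

/-- A smooth function agrees near a bounded set with an element of `LipC`. -/
lemma exists_lc_eq (hb : Bornology.IsBounded Ω) {Z : Em m → ℝ} (hZ : ContDiff ℝ 1 Z) :
    ∃ (z : LipC m) (U : Set (Em m)), IsOpen U ∧ closure Ω ⊆ U ∧
      ∀ x ∈ U, (z : Em m → ℝ) x = Z x := by
  obtain ⟨R, hR⟩ := hb.subset_ball (0 : Em m)
  set R' : ℝ := max R 0 + 1 with hR'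
  have hR'0 : 0 < R' := by positivity
  let χ : ContDiffBump (0 : Em m) := ⟨R', R' + 1, hR'0, by linarith⟩
  have hcs : HasCompactSupport (fun x => χ x * Z x) := χ.hasCompactSupport.mul_right
  have hcd : ContDiff ℝ 1 (fun x => χ x * Z x) := (χ.contDiff).mul hZ
  obtain ⟨L, hL⟩ := hcd.lipschitzWith_of_hasCompactSupport hcs one_ne_zero
  refine ⟨⟨fun x => χ x * Z x, ⟨L, hL⟩, hcs⟩, ball 0 R', isOpen_ball, ?_, ?_⟩
  · intro x hx
    have h1 : closure Ω ⊆ closedBall 0 R :=
      (closure_mono hR).trans closure_ball_subset_closedBall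
    have h2 := h1 hx
    rw [mem_closedBall] at h2
    rw [mem_ball]
    have : R ≤ max R 0 := le_max_left _ _
    linarith
  · intro x hx
    have h1 : χ x = 1 := χ.one_of_mem_closedBall (ball_subset_closedBall hx)
    simp [h1]

end Pool.Agent.RobinBall.E
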