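import Mathlib
import Pool.Agent.RobinBall.Form2

/-!
# Gauss-Green applied to a scalar Lipschitz function times a smooth field
-/

set_option autoImplicit false
set_option linter.unusedSectionVars false

open MeasureTheory Filter Topology Metric
open scoped NNReal ENNReal

namespace Pool.Agent.RobinBall.E

variable {m : ℕ} {Ω : Set (Em m)}

/-- The Gauss-Green inequality as a property of `Ω` (proved for Lipschitz domains elsewhere). -/
def GG (Ω : Set (Em m)) : Prop :=
  ∀ (F : Em m → Em m) (K : ℝ≥0), LipschitzWith K F → HasCompactSupport F →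
    ∫ x in Ω, dv F x ≤ (cH m)⁻¹ * ∫ x in frontier Ω, ‖F x‖ ∂(Measure.hausdorffMeasure (m : ℝ))

lemma dv_smul {f : Em m → ℝ} {Y : Em m → Em m} {x : Em m} (hf : DifferentiableAt ℝ f x)
    (hY : DifferentiableAt ℝ Y x) :
    dv (fun y => f y • Y y) x = inner ℝ (gradient f x) (Y x) + f x * dv Y x := by
  unfold dv
  rw [fderiv_fun_smul hf hY]
  rw [ContinuousLinearMap.toLinearMap_add, map_add, ContinuousLinearMap.toLinearMap_smul, map_smul,
    smul_eq_mul, add_comm]
  congr 1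
  have h1 : (((fderiv ℝ f x).smulRight (Y x) : Em m →L[ℝ] Em m) : Em m →ₗ[ℝ] Em m) =
      ((fderiv ℝ f x : Em m →L[ℝ] ℝ) : Em m →ₗ[ℝ] ℝ).smulRight (Y x) := by
    ext v; simp
  rw [h1, LinearMap.trace_smulRight]
  simp only [gradient, ContinuousLinearMap.coe_coe]
  rw [InnerProductSpace.toDual_symm_apply]

lemma dv_congr {F G : Em m → Em m} {x : Em m} (h : F =ᶠ[𝓝 x] G) : dv F x = dv G x := by
  unfold dv
  rw [h.fderiv_eq]

theorem gg_form_abs (hGG : GG Ω) (φ : LipC m) {Y : Em m → Em m}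
    (hY : ContDiff ℝ 1 Y) :
    ∫ x in Ω, (inner ℝ (gradient (φ : Em m → ℝ) x) (Y x) + (φ : Em m → ℝ) x * dv Y x) ≤
      (cH m)⁻¹ * ∫ x in frontier Ω, |(φ : Em m → ℝ) x| * ‖Y x‖
        ∂(Measure.hausdorffMeasure (m : ℝ)) := by
  obtain ⟨R, hR⟩ := (lc_compact φ).isCompact.isBounded.subset_ball (0 : Em m)
  set R' : ℝ := max R 0 + 1 with hR'
  have hR'0 : 0 < R' := by positivity
  have hRR : R < R' := by have := le_max_left R 0; linarith
  let χ : ContDiffBump (0 : Em m) := ⟨R', R' + 1, hR'0, by linarith⟩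
  set Y' : Em m → Em m := fun x => χ x • Y x with hY'
  have hcs : HasCompactSupport Y' := χ.hasCompactSupport.smul_right
  have hcd : ContDiff ℝ 1 Y' := (χ.contDiff).smul hY
  obtain ⟨L, hL⟩ := hcd.lipschitzWith_of_hasCompactSupport hcs one_ne_zero
  obtain ⟨M, hM⟩ := hcs.exists_bound_of_continuous hcd.continuous
  obtain ⟨K, hK⟩ := lc_lip φ
  obtain ⟨C, hC⟩ := lc_bounded φ
  have hM0 : 0 ≤ M := (norm_nonneg _).trans (hM 0)
  have hC0 : 0 ≤ C := (norm_nonneg _).trans (hC 0)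
  set F : Em m → Em m := fun x => (φ : Em m → ℝ) x • Y' x with hF
  have hFL : LipschitzWith (C.toNNReal * L + K * M.toNNReal) F := by
    apply LipschitzWith.of_dist_le_mul
    intro x y
    rw [dist_eq_norm]
    have e1 : F x - F y = (φ : Em m → ℝ) x • (Y' x - Y' y) +
        ((φ : Em m → ℝ) x - (φ : Em m → ℝ) y) • Y' y := by
      simp only [hF]; module
    rw [e1]
    refine (norm_add_le _ _).trans ?_
    rw [norm_smul, norm_smul]
    have h1 : ‖Y' x - Y' y‖ ≤ L * dist x y := by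
      rw [← dist_eq_norm]; exact hL.dist_le_mul x y
    have h2 : ‖(φ : Em m → ℝ) x - (φ : Em m → ℝ) y‖ ≤ K * dist x y := by
      rw [← dist_eq_norm]; exact hK.dist_le_mul x y
    have h3 : ‖(φ : Em m → ℝ) x‖ * ‖Y' x - Y' y‖ ≤ C * (L * dist x y) :=
      mul_le_mul (hC x) h1 (norm_nonneg _) hC0
    have h4 : ‖(φ : Em m → ℝ) x - (φ : Em m → ℝ) y‖ * ‖Y' y‖ ≤ (K * dist x y) * M :=
      mul_le_mul h2 (hM y) (norm_nonneg _) (by positivity)
    have h5 : ((C.toNNReal * L + K * M.toNNReal : ℝ≥0) : ℝ) * dist x y =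
        C * (L * dist x y) + (K * dist x y) * M := by
      push_cast
      rw [Real.coe_toNNReal C hC0, Real.coe_toNNReal M hM0]
      ring
    rw [h5]
    exact add_le_add h3 h4
  have hFc : HasCompactSupport F := (lc_compact φ).smul_right
  have key := hGG F _ hFL hFc
  have hsupp : ∀ x, x ∈ tsupport (φ : Em m → ℝ) → Y' =ᶠ[𝓝 x] Y := by
    intro x hx
    have h1 : x ∈ ball (0 : Em m) R' := ball_subset_ball hRR.le (hR hx)
    filter_upwards [isOpen_ball.mem_nhds h1] with y hy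
    simp only [hY']
    rw [χ.one_of_mem_closedBall (ball_subset_closedBall hy), one_smul]
  have e2 : ∫ x in Ω, dv F x =
      ∫ x in Ω, (inner ℝ (gradient (φ : Em m → ℝ) x) (Y x) + (φ : Em m → ℝ) x * dv Y x) := by
    apply integral_congr_ae
    filter_upwards [ae_restrict_of_ae (lc_ae_diff φ)] with x hx
    by_cases hxs : x ∈ tsupport (φ : Em m → ℝ)
    · have h1 : F =ᶠ[𝓝 x] fun y => (φ : Em m → ℝ) y • Y y := by
        filter_upwards [hsupp x hxs] with y hy
        simp only [hF, hy]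
      rw [dv_congr h1, dv_smul hx ((hY.differentiable one_ne_zero) x)]
    · have h0 : (φ : Em m → ℝ) =ᶠ[𝓝 x] fun _ => 0 := by
        have := notMem_tsupport_iff_eventuallyEq.1 hxs
        exact this
      have h1 : F =ᶠ[𝓝 x] fun _ => 0 := by
        filter_upwards [h0] with y hy
        simp only [hF, hy, zero_smul]
      rw [dv_congr h1]
      have h2 : gradient (φ : Em m → ℝ) x = 0 := by
        simp only [gradient]
        rw [h0.fderiv_eq]
        simp
      rw [h2, h0.self_of_nhds]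
      simp [dv]
  have e3 : ∫ x in frontier Ω, ‖F x‖ ∂(Measure.hausdorffMeasure (m : ℝ)) =
      ∫ x in frontier Ω, |(φ : Em m → ℝ) x| * ‖Y x‖ ∂(Measure.hausdorffMeasure (m : ℝ)) := by
    congr 1; ext x
    simp only [hF]
    rw [norm_smul, Real.norm_eq_abs]
    by_cases hxs : x ∈ tsupport (φ : Em m → ℝ)
    · rw [(hsupp x hxs).self_of_nhds]
    · rw [image_eq_zero_of_notMem_tsupport hxs]; simp
  rw [e2, e3] at key
  exact key

theorem gg_form (hGG : GG Ω) (φ : LipC m) (hφ : ∀ x, 0 ≤ (φ : Em m → ℝ) x) {Y : Em m → Em m}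
    (hY : ContDiff ℝ 1 Y) :
    ∫ x in Ω, (inner ℝ (gradient (φ : Em m → ℝ) x) (Y x) + (φ : Em m → ℝ) x * dv Y x) ≤
      (cH m)⁻¹ * ∫ x in frontier Ω, (φ : Em m → ℝ) x * ‖Y x‖
        ∂(Measure.hausdorffMeasure (m : ℝ)) := by
  have h := gg_form_abs hGG φ hY
  simpa only [abs_of_nonneg (hφ _)] using h

lemma dv_neg' (Y : Em m → Em m) (x : Em m) : dv (fun y => -Y y) x = -dv Y x := by
  unfold dv
  rw [fderiv_fun_neg]
  simp

/-- Integration by parts with a field vanishing on the frontier. -/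
theorem gg_zero (hGG : GG Ω) (φ : LipC m) {Y : Em m → Em m}
    (hY : ContDiff ℝ 1 Y) (h0 : ∀ x ∈ frontier Ω, Y x = 0) :
    ∫ x in Ω, (inner ℝ (gradient (φ : Em m → ℝ) x) (Y x) + (φ : Em m → ℝ) x * dv Y x) = 0 := by
  have hz : ∀ Y' : Em m → Em m, (∀ x ∈ frontier Ω, Y' x = 0) →
      ∫ x in frontier Ω, |(φ : Em m → ℝ) x| * ‖Y' x‖ ∂(Measure.hausdorffMeasure (m : ℝ)) = 0 := by
    intro Y' hY'
    rw [setIntegral_congr_fun (g := fun _ => (0 : ℝ)) isClosed_frontier.measurableSet]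
    · simp
    · intro x hx
      simp [hY' x hx]
  have h1 := gg_form_abs hGG φ hY
  have h2 := gg_form_abs hGG φ (Y := fun x => -Y x) hY.neg
  rw [hz Y h0, mul_zero] at h1
  rw [hz (fun x => -Y x) (fun x hx => by rw [h0 x hx, neg_zero]), mul_zero] at h2
  have h3 : ∫ x in Ω, (inner ℝ (gradient (φ : Em m → ℝ) x) (-Y x) +
      (φ : Em m → ℝ) x * dv (fun y => -Y y) x) =
      -∫ x in Ω, (inner ℝ (gradient (φ : Em m → ℝ) x) (Y x) + (φ : Em m → ℝ) x * dv Y x) := by
    rw [← integral_neg]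
    congr 1; ext x
    rw [dv_neg', inner_neg_right]
    ring
  rw [h3] at h2
  linarith

end Pool.Agent.RobinBall.E
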