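import Mathlib

/-!
# Minimising sequences for a quadratic functional on an incomplete space
-/

set_option autoImplicit false

open Filter Topology

namespace Pool.Agent.RobinBall.E

lemma abs_le_of_quadratic {b c η : ℝ} (hη : 0 ≤ η) (hc : 0 ≤ c)
    (h : ∀ t : ℝ, -η ≤ t * b + t ^ 2 / 2 * c) : |b| ≤ Real.sqrt (2 * η) * Real.sqrt c := by
  rw [← Real.sqrt_mul (by positivity)]
  apply Real.abs_le_sqrt
  rcases hc.eq_or_lt with h0 | h0
  · subst h0
    have hb : b = 0 := by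
      by_contra hb
      have h1 := h (-(η + 1) / b)
      have h2 : -(η + 1) / b * b = -(η + 1) := by field_simp
      rw [h2] at h1
      linarith
    rw [hb]; simp
  · have h1 := h (-b / c)
    have h2 : -b / c * b + (-b / c) ^ 2 / 2 * c = -(b ^ 2 / (2 * c)) := by
      field_simp
      ring
    rw [h2] at h1
    have h3 : b ^ 2 / (2 * c) ≤ η := by linarith
    rw [div_le_iff₀ (by positivity)] at h3
    linarith

theorem exists_min_seq {V : Type*} [AddCommGroup V] [Module ℝ V] (A : V →ₗ[ℝ] V →ₗ[ℝ] ℝ)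
    (hs : ∀ u v, A u v = A v u) (hp : ∀ u, 0 ≤ A u u) (l : V →ₗ[ℝ] ℝ) (C : ℝ)
    (hC : ∀ u, -C ≤ A u u / 2 - l u) :
    ∃ (v : ℕ → V) (ε : ℕ → ℝ), (∀ k, 0 ≤ ε k) ∧ Tendsto ε atTop (𝓝 0) ∧
      (∀ k φ, |A (v k) φ - l φ| ≤ ε k * Real.sqrt (A φ φ)) ∧
      (∀ k j, Real.sqrt (A (v k - v j) (v k - v j)) ≤ ε k + ε j) := by
  classical
  set J : V → ℝ := fun u => A u u / 2 - l u with hJ
  have hbdd : BddBelow (Set.range J) := ⟨-C, by rintro _ ⟨u, rfl⟩; exact hC u⟩
  have hne : (Set.range J).Nonempty := ⟨_, 0, rfl⟩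
  set I : ℝ := sInf (Set.range J) with hI
  have hex : ∀ k : ℕ, ∃ u : V, J u < I + 1 / (2 * ((k : ℝ) + 1) ^ 2) := by
    intro k
    have hpos : (0 : ℝ) < 1 / (2 * ((k : ℝ) + 1) ^ 2) := by positivity
    obtain ⟨_, ⟨u, rfl⟩, hu⟩ := exists_lt_of_csInf_lt hne (lt_add_of_pos_right I hpos)
    exact ⟨u, hu⟩
  choose v hv using hex
  have key : ∀ k φ, |A (v k) φ - l φ| ≤ 1 / ((k : ℝ) + 1) * Real.sqrt (A φ φ) := by
    intro k φ
    have h1 : ∀ t : ℝ, -(1 / (2 * ((k : ℝ) + 1) ^ 2)) ≤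
        t * (A (v k) φ - l φ) + t ^ 2 / 2 * A φ φ := by
      intro t
      have h2 : I ≤ J (v k + t • φ) := csInf_le hbdd ⟨_, rfl⟩
      have h3 : J (v k + t • φ) = J (v k) + (t * (A (v k) φ - l φ) + t ^ 2 / 2 * A φ φ) := by
        simp only [hJ, map_add, map_smul, LinearMap.add_apply, LinearMap.smul_apply, smul_eq_mul,
          hs φ (v k)]
        ring
      have h4 := hv k
      linarith
    have h5 := abs_le_of_quadratic (by positivity) (hp φ) h1
    have h6 : Real.sqrt (2 * (1 / (2 * ((k : ℝ) + 1) ^ 2))) = 1 / ((k : ℝ) + 1) := by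
      rw [show 2 * (1 / (2 * ((k : ℝ) + 1) ^ 2)) = (1 / ((k : ℝ) + 1)) ^ 2 by field_simp]
      exact Real.sqrt_sq (by positivity)
    rwa [h6] at h5
  refine ⟨v, fun k => 1 / ((k : ℝ) + 1), fun k => by positivity,
    tendsto_one_div_add_atTop_nhds_zero_nat, key, ?_⟩
  intro k j
  set φ := v k - v j with hφ
  have h1 : A φ φ = (A (v k) φ - l φ) - (A (v j) φ - l φ) := by
    have h0 : A φ = A (v k) - A (v j) := by rw [hφ, map_sub]
    have : A φ φ = A (v k) φ - A (v j) φ := by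
      calc A φ φ = (A (v k) - A (v j)) φ := by rw [← h0]
        _ = _ := LinearMap.sub_apply _ _ _
    rw [this]; ring
  have h2 : A φ φ ≤ (1 / ((k : ℝ) + 1) + 1 / ((j : ℝ) + 1)) * Real.sqrt (A φ φ) := by
    rw [h1]
    have e1 := (abs_le.1 (key k φ)).2
    have e2 := (abs_le.1 (key j φ)).1
    rw [← h1]
    nlinarith [e1, e2]
  set r := Real.sqrt (A φ φ) with hr
  have hr0 : 0 ≤ r := Real.sqrt_nonneg _
  have hr2 : A φ φ = r * r := (Real.mul_self_sqrt (hp φ)).symm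
  rw [hr2] at h2
  rcases hr0.eq_or_lt with h0 | h0
  · rw [← h0]; positivity
  · exact le_of_mul_le_mul_right h2 h0

end Pool.Agent.RobinBall.E
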