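import Mathlib
import Pool.Agent.RobinBall.GGForm
import Pool.Agent.RobinBall.MinSeq

/-!
# The minimising sequence and its limit in `L²(Ω)`
-/

set_option autoImplicit false
set_option linter.unusedSectionVars false

open MeasureTheory Filter Topology Metric
open scoped NNReal ENNReal

namespace Pool.Agent.RobinBall.E

variable {m : ℕ} {Ω : Set (Em m)}

lemma memLp_two {Ω : Set (Em m)} (hb : Bornology.IsBounded Ω) (u : LipC m) :
    MemLp (u : Em m → ℝ) 2 (volume.restrict Ω) := by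
  obtain ⟨C, hC⟩ := lc_bounded u
  have : IsFiniteMeasure ((volume : Measure (Em m)).restrict Ω) :=
    ⟨by simpa using hb.measure_lt_top⟩
  exact MemLp.of_bound (lc_continuous u).aestronglyMeasurable C (Eventually.of_forall hC)

/-- Cauchy in `L²` implies convergence to some function. -/
theorem exists_L2_limit (hb : Bornology.IsBounded Ω) {v : ℕ → LipC m} {e : ℕ → ℝ}
    (he : Tendsto e atTop (𝓝 0))
    (hc : ∀ k j, ∫ x in Ω, ((v k - v j : LipC m) : Em m → ℝ) x ^ 2 ≤ (e k + e j) ^ 2) :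
    ∃ w : Em m → ℝ, MemLp w 2 (volume.restrict Ω) ∧
      Tendsto (fun k => ∫ x in Ω, ((v k : Em m → ℝ) x - w x) ^ 2) atTop (𝓝 0) := by
  classical
  have hmem := fun k => memLp_two hb (v k)
  set f : ℕ → Lp ℝ 2 (volume.restrict Ω) := fun k => (hmem k).toLp _ with hf
  have hnorm : ∀ (g : Em m → ℝ) (hg : MemLp g 2 (volume.restrict Ω)),
      ‖hg.toLp g‖ ^ 2 = ∫ x in Ω, g x ^ 2 := by
    intro g hg
    have h1 := @L2.inner_def (Em m) ℝ ℝ _ _ (volume.restrict Ω) _ _ (hg.toLp g) (hg.toLp g)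
    rw [real_inner_self_eq_norm_sq] at h1
    rw [h1]
    apply integral_congr_ae
    filter_upwards [hg.coeFn_toLp] with x hx
    rw [hx]
    simp [pow_two]
  have hcauchy : CauchySeq f := by
    rw [Metric.cauchySeq_iff']
    intro ε hε
    have h1 : ∀ᶠ k in atTop, |e k| < ε / 2 := by
      have := he.abs
      rw [abs_zero] at this
      exact this.eventually (gt_mem_nhds (by positivity))
    obtain ⟨N, hN⟩ := h1.exists_forall_of_atTop
    refine ⟨N, fun n hn => ?_⟩
    rw [dist_eq_norm]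
    have h2 : f n - f N = ((hmem n).sub (hmem N)).toLp _ := by
      simp only [hf]; rw [MemLp.toLp_sub]
    have h3 : ‖f n - f N‖ ^ 2 ≤ (e n + e N) ^ 2 := by
      rw [h2, hnorm]
      exact hc n N
    have h4 := hN n hn
    have h5 := hN N le_rfl
    have h6 : ‖f n - f N‖ ≤ |e n + e N| := by
      rw [← abs_of_nonneg (norm_nonneg (f n - f N))]
      exact sq_le_sq.1 h3
    have h7 := abs_add_le (e n) (e N)
    linarith
  obtain ⟨F, hF⟩ := cauchySeq_tendsto_of_complete hcauchy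
  refine ⟨F, Lp.memLp F, ?_⟩
  have h1 : Tendsto (fun k => ‖f k - F‖ ^ 2) atTop (𝓝 0) := by
    have := (tendsto_iff_norm_sub_tendsto_zero.1 hF).pow 2
    simpa using this
  refine h1.congr fun k => ?_
  have h2 : f k - F = ((hmem k).sub (Lp.memLp F)).toLp _ := by
    rw [MemLp.toLp_sub (hmem k) (Lp.memLp F)]; simp only [hf]; rw [Lp.toLp_coeFn]
  rw [h2, hnorm]
  rfl

/-- If the positive part of `g - v_k` tends to zero in `L²` on `Ω ∩ B`, then `g ≤ w` there. -/
lemma le_limit {B : Set (Em m)} (hBO : MeasurableSet (Ω ∩ B)) {v : ℕ → Em m → ℝ}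
    {w g : Em m → ℝ}
    (hvint : ∀ k, IntegrableOn (fun x => (v k x - w x) ^ 2) Ω)
    (hlim : Tendsto (fun k => ∫ x in Ω, (v k x - w x) ^ 2) atTop (𝓝 0))
    {φ : ℕ → Em m → ℝ} (hφ0 : ∀ k x, 0 ≤ φ k x)
    (hφint : ∀ k, IntegrableOn (fun x => φ k x ^ 2) Ω)
    (hφlim : Tendsto (fun k => ∫ x in Ω, φ k x ^ 2) atTop (𝓝 0))
    (hg : AEStronglyMeasurable g (volume.restrict (Ω ∩ B)))
    (hw : AEStronglyMeasurable w (volume.restrict (Ω ∩ B)))
    (hle : ∀ k, ∀ᵐ x ∂(volume.restrict (Ω ∩ B)), g x - w x ≤ φ k x + |v k x - w x|) :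
    ∀ᵐ x ∂(volume.restrict (Ω ∩ B)), g x ≤ w x := by
  have hbound : ∀ k, ∫⁻ x in Ω ∩ B, ENNReal.ofReal ((max (g x - w x) 0) ^ 2) ≤
      ENNReal.ofReal (2 * (∫ x in Ω, φ k x ^ 2) + 2 * ∫ x in Ω, (v k x - w x) ^ 2) := by
    intro k
    have hi1 : IntegrableOn (fun x => 2 * φ k x ^ 2 + 2 * (v k x - w x) ^ 2) Ω :=
      ((hφint k).const_mul 2).add ((hvint k).const_mul 2)
    calc ∫⁻ x in Ω ∩ B, ENNReal.ofReal ((max (g x - w x) 0) ^ 2)
        ≤ ∫⁻ x in Ω ∩ B, ENNReal.ofReal (2 * φ k x ^ 2 + 2 * (v k x - w x) ^ 2) := by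
          apply lintegral_mono_ae
          filter_upwards [hle k] with x hx
          apply ENNReal.ofReal_le_ofReal
          have h1 : max (g x - w x) 0 ≤ φ k x + |v k x - w x| :=
            max_le hx (add_nonneg (hφ0 k x) (abs_nonneg _))
          have h2 : (max (g x - w x) 0) ^ 2 ≤ (φ k x + |v k x - w x|) ^ 2 :=
            pow_le_pow_left₀ (le_max_right _ _) h1 2
          have h3 : (φ k x + |v k x - w x|) ^ 2 ≤ 2 * φ k x ^ 2 + 2 * (v k x - w x) ^ 2 := by
            rw [← sq_abs (v k x - w x)]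
            nlinarith [sq_nonneg (φ k x - |v k x - w x|)]
          exact h2.trans h3
      _ ≤ ∫⁻ x in Ω, ENNReal.ofReal (2 * φ k x ^ 2 + 2 * (v k x - w x) ^ 2) :=
          lintegral_mono_set Set.inter_subset_left
      _ = ENNReal.ofReal (∫ x in Ω, (2 * φ k x ^ 2 + 2 * (v k x - w x) ^ 2)) := by
          rw [ofReal_integral_eq_lintegral_ofReal hi1]
          exact Eventually.of_forall fun x => by positivity
      _ = _ := by
          rw [integral_add ((hφint k).const_mul 2) ((hvint k).const_mul 2), integral_const_mul,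
            integral_const_mul]
  have hlim0 : Tendsto (fun k => ENNReal.ofReal (2 * (∫ x in Ω, φ k x ^ 2) +
      2 * ∫ x in Ω, (v k x - w x) ^ 2)) atTop (𝓝 0) := by
    have h1 := (hφlim.const_mul 2).add (hlim.const_mul 2)
    have h2 := ENNReal.tendsto_ofReal h1
    simpa using h2
  have hzero : ∫⁻ x in Ω ∩ B, ENNReal.ofReal ((max (g x - w x) 0) ^ 2) = 0 :=
    le_antisymm (ge_of_tendsto' hlim0 hbound) bot_le
  rw [lintegral_eq_zero_iff'] at hzero
  · filter_upwards [hzero] with x hx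
    simp only [Pi.zero_apply, ENNReal.ofReal_eq_zero] at hx
    have h1 : max (g x - w x) 0 = 0 := by
      have h2 : (max (g x - w x) 0) ^ 2 = 0 := le_antisymm hx (sq_nonneg _)
      exact pow_eq_zero_iff (two_ne_zero) |>.1 h2
    have h3 : g x - w x ≤ 0 := by rw [← h1]; exact le_max_left _ _
    linarith
  · have h1 : AEMeasurable (fun x => g x - w x) (volume.restrict (Ω ∩ B)) :=
      hg.aemeasurable.sub hw.aemeasurable
    have h2 : AEMeasurable (fun x => max (g x - w x) 0) (volume.restrict (Ω ∩ B)) :=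
      h1.max aemeasurable_const
    exact (h2.pow_const 2).ennreal_ofReal

end Pool.Agent.RobinBall.E
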