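import Mathlib
import Pool.Agent.RobinBall.Limit

/-!
# Comparison arguments for the Robin form
-/

set_option autoImplicit false
set_option linter.unusedSectionVars false

open MeasureTheory Filter Topology Metric
open scoped NNReal ENNReal

namespace Pool.Agent.RobinBall.E

variable {m : ℕ} {Ω : Set (Em m)}

/-- Strict positivity of the Robin form, tested on smooth functions. -/
def RobinPos (Ω : Set (Em m)) (a κ δ : ℝ) : Prop :=
  ∀ u : Em m → ℝ, ContDiff ℝ 1 u → HasCompactSupport u →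
      δ * ∫ x in Ω, u x ^ 2 ≤ (∫ x in Ω, ‖fderiv ℝ u x‖ ^ 2) + κ ^ 2 * (∫ x in Ω, u x ^ 2)
        - a * ∫ x in frontier Ω, u x ^ 2 ∂(Measure.hausdorffMeasure (m : ℝ))

lemma form_nonneg (hb : Bornology.IsBounded Ω)
    (hf : Measure.hausdorffMeasure (m : ℝ) (frontier Ω) < ⊤) {a κ δ : ℝ} (hδ : 0 < δ)
    (hR : RobinPos Ω a κ δ) (u : LipC m) : 0 ≤ form hb hf a κ u u :=
  le_trans (mul_nonneg hδ.le (integral_nonneg fun x => sq_nonneg _)) (form_pos hb hf hR u)

lemma l2_le_form (hb : Bornology.IsBounded Ω)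
    (hf : Measure.hausdorffMeasure (m : ℝ) (frontier Ω) < ⊤) {a κ δ : ℝ} (hδ : 0 < δ)
    (hR : RobinPos Ω a κ δ) (u : LipC m) :
    ∫ x in Ω, (u : Em m → ℝ) x ^ 2 ≤ form hb hf a κ u u / δ := by
  rw [le_div_iff₀ hδ, mul_comm]
  exact form_pos hb hf hR u

lemma form_cs (hb : Bornology.IsBounded Ω)
    (hf : Measure.hausdorffMeasure (m : ℝ) (frontier Ω) < ⊤) {a κ δ : ℝ} (hδ : 0 < δ)
    (hR : RobinPos Ω a κ δ) (u v : LipC m) :
    |form hb hf a κ u v| ≤ Real.sqrt (form hb hf a κ u u) * Real.sqrt (form hb hf a κ v v) := by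
  have h0 := form_nonneg hb hf hδ hR u
  have h1 := form_nonneg hb hf hδ hR v
  have h2 := abs_le_of_quadratic (b := form hb hf a κ u v) (c := form hb hf a κ v v)
    (η := form hb hf a κ u u / 2) (by positivity) h1 (by
      intro t
      have h3 := form_nonneg hb hf hδ hR (u + t • v)
      simp only [map_add, map_smul, LinearMap.add_apply, LinearMap.smul_apply, smul_eq_mul,
        form_symm hb hf a κ v u] at h3
      nlinarith [h3])
  rwa [show 2 * (form hb hf a κ u u / 2) = form hb hf a κ u u by ring] at h2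

lemma form_trunc (hb : Bornology.IsBounded Ω)
    (hf : Measure.hausdorffMeasure (m : ℝ) (frontier Ω) < ⊤) (hO : IsOpen Ω) (a κ : ℝ)
    (D φ : LipC m) (hφ : ∀ x, 0 ≤ (φ : Em m → ℝ) x)
    (h : ∀ x ∈ closure Ω, 0 < (φ : Em m → ℝ) x → (φ : Em m → ℝ) =ᶠ[𝓝 x] (D : Em m → ℝ)) :
    form hb hf a κ D φ = form hb hf a κ φ φ := by
  rw [form_apply, form_apply]
  have h1 : ∀ x ∈ closure Ω, (D : Em m → ℝ) x * (φ : Em m → ℝ) x =
      (φ : Em m → ℝ) x * (φ : Em m → ℝ) x := by
    intro x hx
    rcases (hφ x).eq_or_lt with h0 | h0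
    · rw [← h0]; simp
    · rw [(h x hx h0).self_of_nhds]
  have h2 : ∫ x in Ω, inner ℝ (gradient (D : Em m → ℝ) x) (gradient (φ : Em m → ℝ) x) =
      ∫ x in Ω, inner ℝ (gradient (φ : Em m → ℝ) x) (gradient (φ : Em m → ℝ) x) := by
    apply setIntegral_congr_fun hO.measurableSet
    intro x hx
    have hx' := subset_closure hx
    simp only
    rcases (hφ x).eq_or_lt with h0 | h0
    · have hmin : IsLocalMin (φ : Em m → ℝ) x := by
        refine Eventually.of_forall fun y => ?_
        rw [← h0]; exact hφ y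
      have hg : gradient (φ : Em m → ℝ) x = 0 := by
        simp only [gradient]
        rw [hmin.fderiv_eq_zero, map_zero]
      rw [hg]; simp
    · have hg : gradient (φ : Em m → ℝ) x = gradient (D : Em m → ℝ) x := by
        simp only [gradient]
        rw [(h x hx' h0).fderiv_eq]
      rw [hg]
  have h3 : ∫ x in Ω, (D : Em m → ℝ) x * (φ : Em m → ℝ) x =
      ∫ x in Ω, (φ : Em m → ℝ) x * (φ : Em m → ℝ) x :=
    setIntegral_congr_fun hO.measurableSet fun x hx => h1 x (subset_closure hx)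
  have h4 : ∫ x in frontier Ω, (D : Em m → ℝ) x * (φ : Em m → ℝ) x
        ∂(Measure.hausdorffMeasure (m : ℝ)) =
      ∫ x in frontier Ω, (φ : Em m → ℝ) x * (φ : Em m → ℝ) x
        ∂(Measure.hausdorffMeasure (m : ℝ)) :=
    setIntegral_congr_fun isClosed_frontier.measurableSet
      fun x hx => h1 x (frontier_subset_closure hx)
  rw [h2, h3, h4]

lemma contDiff_gradient {Z : Em m → ℝ} (hZ : ContDiff ℝ 2 Z) :
    ContDiff ℝ 1 (fun x => gradient Z x) := by
  have h1 : ContDiff ℝ 1 (fderiv ℝ Z) := hZ.fderiv_right (by norm_num)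
  exact ((InnerProductSpace.toDual ℝ (Em m)).symm.contDiff).comp h1

lemma continuous_dv {Y : Em m → Em m} (hY : ContDiff ℝ 1 Y) : Continuous (dv Y) := by
  have h1 : Continuous (fderiv ℝ Y) := hY.continuous_fderiv one_ne_zero
  have h2 : Continuous (fun M : Em m →L[ℝ] Em m =>
      LinearMap.trace ℝ (Em m) (M : Em m →ₗ[ℝ] Em m)) := by
    let T : (Em m →L[ℝ] Em m) →ₗ[ℝ] ℝ :=
      (LinearMap.trace ℝ (Em m)).comp (ContinuousLinearMap.coeLM ℝ)
    exact T.continuous_of_finiteDimensional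
  exact h2.comp h1

lemma integrableOn_lc_mul (hb : Bornology.IsBounded Ω) (φ : LipC m) {f : Em m → ℝ}
    (hf : Continuous f) : Integrable (fun x => (φ : Em m → ℝ) x * f x) (volume.restrict Ω) := by
  have h1 : Continuous (fun x => (φ : Em m → ℝ) x * f x) := (lc_continuous φ).mul hf
  have h2 : HasCompactSupport (fun x => (φ : Em m → ℝ) x * f x) := (lc_compact φ).mul_right
  exact (h1.integrable_of_hasCompactSupport h2).integrableOn

/-- The form tested against a smooth nonnegative function whose logarithmic gradient is at most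
`a * cH m`. -/
lemma form_smooth_le (hGG : GG Ω) (hc : 0 < cH m) (hO : IsOpen Ω) (hb : Bornology.IsBounded Ω)
    (hf : Measure.hausdorffMeasure (m : ℝ) (frontier Ω) < ⊤) (a κ : ℝ)
    {Z : Em m → ℝ} (hZ : ContDiff ℝ 2 Z) (z : LipC m)
    (hz : ∀ x ∈ closure Ω, (z : Em m → ℝ) =ᶠ[𝓝 x] Z)
    (φ : LipC m) (hφ0 : ∀ x, 0 ≤ (φ : Em m → ℝ) x)
    (hgr : ∀ x ∈ closure Ω, 0 < (φ : Em m → ℝ) x → ‖gradient Z x‖ ≤ a * cH m * Z x) :
    form hb hf a κ z φ ≤ ∫ x in Ω, (φ : Em m → ℝ) x * (κ ^ 2 * Z x - dv (gradient Z) x) := by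
  have hY : ContDiff ℝ 1 (gradient Z) := contDiff_gradient hZ
  have h1 := gg_form hGG φ hφ0 hY
  have h2 : (cH m)⁻¹ * ∫ x in frontier Ω, (φ : Em m → ℝ) x * ‖gradient Z x‖
        ∂(Measure.hausdorffMeasure (m : ℝ)) ≤
      a * ∫ x in frontier Ω, (z : Em m → ℝ) x * (φ : Em m → ℝ) x
        ∂(Measure.hausdorffMeasure (m : ℝ)) := by
    rw [← integral_const_mul, ← integral_const_mul]
    have hfin : IsFiniteMeasure ((Measure.hausdorffMeasure (m : ℝ) :
      Measure (Em m)).restrict (frontier Ω)) := ⟨by simpa using hf⟩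
    apply setIntegral_mono_on
    · have h3 : Continuous (fun x => (φ : Em m → ℝ) x * ‖gradient Z x‖) :=
        (lc_continuous φ).mul hY.continuous.norm
      have h4 : HasCompactSupport (fun x => (φ : Em m → ℝ) x * ‖gradient Z x‖) :=
        (lc_compact φ).mul_right
      obtain ⟨C, hC⟩ := h4.exists_bound_of_continuous h3
      exact (Integrable.of_bound h3.aestronglyMeasurable C (Eventually.of_forall hC)).const_mul _
    · exact (lc_integrable_bdry hf z φ).const_mul _
    · exact isClosed_frontier.measurableSet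
    · intro x hx
      have hx' := frontier_subset_closure hx
      rw [(hz x hx').self_of_nhds]
      rcases (hφ0 x).eq_or_lt with h0 | h0
      · rw [← h0]; simp
      · have h5 := hgr x hx' h0
        have h6 : (cH m)⁻¹ * ‖gradient Z x‖ ≤ a * Z x := by
          rw [inv_mul_le_iff₀ hc]
          linarith
        calc (cH m)⁻¹ * ((φ : Em m → ℝ) x * ‖gradient Z x‖)
            = (φ : Em m → ℝ) x * ((cH m)⁻¹ * ‖gradient Z x‖) := by ring
          _ ≤ (φ : Em m → ℝ) x * (a * Z x) := mul_le_mul_of_nonneg_left h6 h0.le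
          _ = _ := by ring
  have hgz : ∀ x ∈ Ω, gradient (z : Em m → ℝ) x = gradient Z x := by
    intro x hx
    simp only [gradient]
    rw [(hz x (subset_closure hx)).fderiv_eq]
  have hi1 : Integrable (fun x => inner ℝ (gradient (φ : Em m → ℝ) x) (gradient Z x))
      (volume.restrict Ω) := by
    refine (integrableOn_inner_grad hb φ z).congr ?_
    filter_upwards [ae_restrict_mem hO.measurableSet] with x hx
    rw [hgz x hx]
  have hi2 : Integrable (fun x => (φ : Em m → ℝ) x * dv (gradient Z) x) (volume.restrict Ω) :=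
    integrableOn_lc_mul hb φ (continuous_dv hY)
  have hi3 : Integrable (fun x => (φ : Em m → ℝ) x * Z x) (volume.restrict Ω) :=
    integrableOn_lc_mul hb φ hZ.continuous
  rw [integral_add hi1 hi2] at h1
  rw [form_apply]
  have e1 : ∫ x in Ω, inner ℝ (gradient (z : Em m → ℝ) x) (gradient (φ : Em m → ℝ) x) =
      ∫ x in Ω, inner ℝ (gradient (φ : Em m → ℝ) x) (gradient Z x) := by
    apply setIntegral_congr_fun hO.measurableSet
    intro x hx
    simp only
    rw [hgz x hx, real_inner_comm]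
  have e2 : ∫ x in Ω, (z : Em m → ℝ) x * (φ : Em m → ℝ) x =
      ∫ x in Ω, (φ : Em m → ℝ) x * Z x := by
    apply setIntegral_congr_fun hO.measurableSet
    intro x hx
    simp only
    rw [(hz x (subset_closure hx)).self_of_nhds, mul_comm]
  have e3 : ∫ x in Ω, (φ : Em m → ℝ) x * (κ ^ 2 * Z x - dv (gradient Z) x) =
      κ ^ 2 * (∫ x in Ω, (φ : Em m → ℝ) x * Z x) -
        ∫ x in Ω, (φ : Em m → ℝ) x * dv (gradient Z) x := by
    rw [← integral_const_mul, ← integral_sub (hi3.const_mul _) hi2]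
    congr 1; ext x; ring
  rw [e1, e2, e3]
  linarith

lemma small_of_le {x r q : ℝ} (hx : 0 ≤ x) (hr : 0 ≤ r) (hq : 0 ≤ q) (h : x * x ≤ r * x + q) :
    x ≤ r + Real.sqrt q := by
  by_contra hlt
  push Not at hlt
  have h1 := Real.sqrt_nonneg q
  have h2 := Real.mul_self_sqrt hq
  have h3 : 0 < x := by linarith
  have h4 : (r + Real.sqrt q) * x < x * x := mul_lt_mul_of_pos_right hlt h3
  have h5 : Real.sqrt q * x ≥ q := by
    rw [← h2]
    have : Real.sqrt q ≤ x := by linarith
    nlinarith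
  nlinarith

end Pool.Agent.RobinBall.E
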