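import Mathlib
import Pool.Agent.RobinBall.Compare

/-!
# The weak solution and its properties
-/

set_option autoImplicit false
set_option linter.unusedSectionVars false
set_option linter.unusedVariables false

open MeasureTheory Filter Topology Metric
open scoped NNReal ENNReal

namespace Pool.Agent.RobinBall.E

variable {m : ℕ} {Ω : Set (Em m)}

/-- A minimising sequence together with its limit. -/
structure MinData (hb : Bornology.IsBounded Ω)
    (hf : Measure.hausdorffMeasure (m : ℝ) (frontier Ω) < ⊤) (a κ : ℝ) where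
  v : ℕ → LipC m
  ε : ℕ → ℝ
  w : Em m → ℝ
  ε_nonneg : ∀ k, 0 ≤ ε k
  ε_lim : Tendsto ε atTop (𝓝 0)
  key : ∀ k φ, |form hb hf a κ (v k) φ - load hb φ| ≤ ε k * Real.sqrt (form hb hf a κ φ φ)
  w_mem : MemLp w 2 (volume.restrict Ω)
  lim : Tendsto (fun k => ∫ x in Ω, ((v k : Em m → ℝ) x - w x) ^ 2) atTop (𝓝 0)

theorem exists_minData (hb : Bornology.IsBounded Ω)
    (hf : Measure.hausdorffMeasure (m : ℝ) (frontier Ω) < ⊤) {a κ δ : ℝ} (hδ : 0 < δ)
    (hR : RobinPos Ω a κ δ) : Nonempty (MinData hb hf a κ) := by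
  have hbelow : ∀ u : LipC m, -((volume Ω).toReal / (2 * δ)) ≤
      form hb hf a κ u u / 2 - load hb u := by
    intro u
    have h1 := form_pos hb hf hR u
    have hi1 := integrableOn_self hb u
    have hi2 := integrableOn_mul hb u u
    have hfin : IsFiniteMeasure ((volume : Measure (Em m)).restrict Ω) :=
      ⟨by simpa using hb.measure_lt_top⟩
    have h2 : load hb u ≤ δ / 2 * (∫ x in Ω, (u : Em m → ℝ) x ^ 2) +
        (volume Ω).toReal / (2 * δ) := by
      rw [load_apply]
      have h3 : ∫ x in Ω, (u : Em m → ℝ) x ≤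
          ∫ x in Ω, (δ / 2 * ((u : Em m → ℝ) x * (u : Em m → ℝ) x) + 1 / (2 * δ)) := by
        apply integral_mono hi1 ((hi2.const_mul _).add (integrable_const _))
        intro x
        simp only
        have h4 : 0 ≤ δ / 2 * ((u : Em m → ℝ) x - 1 / δ) ^ 2 := by positivity
        have h5 : δ / 2 * ((u : Em m → ℝ) x - 1 / δ) ^ 2 =
            δ / 2 * ((u : Em m → ℝ) x * (u : Em m → ℝ) x) + 1 / (2 * δ) - (u : Em m → ℝ) x := by
          field_simp
          ring
        simp only [Pi.add_apply]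
        linarith
      refine h3.trans (le_of_eq ?_)
      rw [integral_add (hi2.const_mul _) (integrable_const _), integral_const_mul]
      simp only [integral_const, smul_eq_mul, pow_two, Measure.real,
        Measure.restrict_apply_univ]
      ring
    linarith
  obtain ⟨v, ε, h1, h2, h3, h4⟩ := exists_min_seq (form hb hf a κ) (form_symm hb hf a κ)
    (form_nonneg hb hf hδ hR) (load hb) _ hbelow
  have h5 : ∀ k j, ∫ x in Ω, ((v k - v j : LipC m) : Em m → ℝ) x ^ 2 ≤
      (ε k / Real.sqrt δ + ε j / Real.sqrt δ) ^ 2 := by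
    intro k j
    have h6 := l2_le_form hb hf hδ hR (v k - v j)
    have h7 := h4 k j
    have h8 := form_nonneg hb hf hδ hR (v k - v j)
    have h9 : form hb hf a κ (v k - v j) (v k - v j) ≤ (ε k + ε j) ^ 2 := by
      rw [← Real.sq_sqrt h8]
      exact pow_le_pow_left₀ (Real.sqrt_nonneg _) h7 2
    refine h6.trans ?_
    rw [← add_div, div_pow, Real.sq_sqrt hδ.le]
    exact div_le_div_of_nonneg_right h9 hδ.le
  obtain ⟨w, hw, hlim⟩ := exists_L2_limit hb
    (by simpa using h2.div_const (Real.sqrt δ)) h5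
  exact ⟨⟨v, ε, w, h1, h2, h3, hw, hlim⟩⟩

variable {hb : Bornology.IsBounded Ω}
  {hf : Measure.hausdorffMeasure (m : ℝ) (frontier Ω) < ⊤} {a κ δ : ℝ}

lemma MinData.int_sq (d : MinData hb hf a κ) (k : ℕ) :
    IntegrableOn (fun x => ((d.v k : Em m → ℝ) x - d.w x) ^ 2) Ω :=
  ((memLp_two hb (d.v k)).sub d.w_mem).integrable_sq

lemma MinData.lower (d : MinData hb hf a κ) (k : ℕ) (φ : LipC m) :
    load hb φ - d.ε k * Real.sqrt (form hb hf a κ φ φ) ≤ form hb hf a κ (d.v k) φ := by
  have := (abs_le.1 (d.key k φ)).1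
  linarith

/-- If the `L²` norm of `φ_k` tends to zero and `g ≤ φ_k + v_k` on `Ω ∩ B` then `g ≤ w`. -/
lemma MinData.le_w (d : MinData hb hf a κ) {B : Set (Em m)}
    {g : Em m → ℝ} (hO : IsOpen Ω) (hB : IsOpen B) (φ : ℕ → LipC m)
    (hφ0 : ∀ k x, 0 ≤ (φ k : Em m → ℝ) x)
    (hφlim : Tendsto (fun k => ∫ x in Ω, (φ k : Em m → ℝ) x ^ 2) atTop (𝓝 0))
    (hg : Continuous g)
    (hle : ∀ k, ∀ x ∈ Ω ∩ B, g x ≤ (φ k : Em m → ℝ) x + (d.v k : Em m → ℝ) x) :
    ∀ᵐ x ∂(volume.restrict (Ω ∩ B)), g x ≤ d.w x := by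
  have hΩB : MeasurableSet (Ω ∩ B) := hO.measurableSet.inter hB.measurableSet
  refine le_limit (φ := fun k => (φ k : Em m → ℝ)) (v := fun k => (d.v k : Em m → ℝ))
    hΩB d.int_sq d.lim hφ0 ?_ hφlim hg.aestronglyMeasurable ?_ ?_
  · intro k
    have h0 : Integrable (fun x => (φ k : Em m → ℝ) x ^ 2) (volume.restrict Ω) := by
      simpa only [pow_two] using integrableOn_mul hb (φ k) (φ k)
    exact h0
  · exact d.w_mem.1.mono_measure (Measure.restrict_mono Set.inter_subset_left le_rfl)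
  · intro k
    filter_upwards [ae_restrict_mem hΩB] with x hx
    have h1 := hle k x hx
    have h2 := le_abs_self ((d.v k : Em m → ℝ) x - d.w x)
    linarith

/-- Passing from smallness in the form norm to smallness in `L²`. -/
lemma l2_lim_of_form (hδ : 0 < δ) (hR : RobinPos Ω a κ δ) {φ : ℕ → LipC m}
    (h : Tendsto (fun k => Real.sqrt (form hb hf a κ (φ k) (φ k))) atTop (𝓝 0)) :
    Tendsto (fun k => ∫ x in Ω, (φ k : Em m → ℝ) x ^ 2) atTop (𝓝 0) := by
  have h1 : Tendsto (fun k => (Real.sqrt (form hb hf a κ (φ k) (φ k))) ^ 2 / δ) atTop (𝓝 0) := by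
    have := (h.pow 2).div_const δ
    simpa using this
  refine squeeze_zero (fun k => integral_nonneg fun x => sq_nonneg _) (fun k => ?_) h1
  rw [Real.sq_sqrt (form_nonneg hb hf hδ hR _)]
  exact l2_le_form hb hf hδ hR (φ k)

lemma dv_const_zero (x : Em m) : dv (fun _ : Em m => (0 : Em m)) x = 0 := by
  simp [dv]

/-- The weak solution is bounded below by a positive constant. -/
theorem MinData.const_le (d : MinData hb hf a κ) (hGG : GG Ω) (hc : 0 < cH m) (hO : IsOpen Ω)
    (hδ : 0 < δ) (hR : RobinPos Ω a κ δ) (ha : 0 < a) (hκ : 0 < κ) :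
    ∀ᵐ x ∂(volume.restrict Ω), 1 / κ ^ 2 ≤ d.w x := by
  obtain ⟨z, U, hU, hΩU, hz⟩ := exists_lc_eq hb (Z := fun _ => 1 / κ ^ 2) contDiff_const
  have hz' : ∀ x ∈ closure Ω, (z : Em m → ℝ) =ᶠ[𝓝 x] fun _ => 1 / κ ^ 2 := by
    intro x hx
    filter_upwards [hU.mem_nhds (hΩU hx)] with y hy
    exact hz y hy
  set φ : ℕ → LipC m := fun k => posp (z - d.v k) with hφ
  have hsq : ∀ k, Real.sqrt (form hb hf a κ (φ k) (φ k)) ≤ d.ε k := by
    intro k
    have h1 : form hb hf a κ (z - d.v k) (φ k) = form hb hf a κ (φ k) (φ k) :=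
      form_posp hb hf a κ _
    have h2 := d.lower k (φ k)
    have hgrad : gradient (fun _ : Em m => (1 / κ ^ 2 : ℝ)) = fun _ => 0 := by
      funext x; simp [gradient]
    have h3 := form_smooth_le hGG hc hO hb hf a κ (Z := fun _ => 1 / κ ^ 2) contDiff_const z hz'
      (φ k) (posp_nonneg _) (by
        intro x _ _
        rw [hgrad]
        simp only [norm_zero]
        positivity)
    rw [hgrad] at h3
    have h4 : ∫ x in Ω, (φ k : Em m → ℝ) x * (κ ^ 2 * (1 / κ ^ 2) - dv (fun _ => (0 : Em m)) x) =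
        load hb (φ k) := by
      rw [load_apply]
      congr 1; ext x
      rw [dv_const_zero]
      field_simp
      ring
    rw [h4] at h3
    rw [map_sub, LinearMap.sub_apply] at h1
    have h5 : form hb hf a κ (φ k) (φ k) ≤
        d.ε k * Real.sqrt (form hb hf a κ (φ k) (φ k)) := by linarith
    have h6 := form_nonneg hb hf hδ hR (φ k)
    have h7 := small_of_le (Real.sqrt_nonneg (form hb hf a κ (φ k) (φ k))) (d.ε_nonneg k) le_rfl
      (by rw [Real.mul_self_sqrt h6]; linarith)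
    simpa using h7
  have hlim : Tendsto (fun k => Real.sqrt (form hb hf a κ (φ k) (φ k))) atTop (𝓝 0) :=
    squeeze_zero (fun k => Real.sqrt_nonneg _) hsq d.ε_lim
  have h1 := d.le_w (B := Set.univ) (g := fun _ => 1 / κ ^ 2) hO isOpen_univ φ
    (fun k x => posp_nonneg _ _) (l2_lim_of_form hδ hR hlim) continuous_const (by
      intro k x hx
      have h2 : (φ k : Em m → ℝ) x = max ((z : Em m → ℝ) x - (d.v k : Em m → ℝ) x) 0 := rfl
      rw [h2, ← hz x (hΩU (subset_closure hx.1))]
      have := le_max_left ((z : Em m → ℝ) x - (d.v k : Em m → ℝ) x) 0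
      linarith)
  simpa using h1

end Pool.Agent.RobinBall.E
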