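import Mathlib
import Pool.Agent.RobinBall.Defs
import Pool.Agent.RobinBall.Decomp
import Pool.Agent.RobinBall.GaussGreen
import Pool.Agent.RobinBall.BallGG

/-!
# Rayleigh quotients: lower bound on the ball, area of the sphere, lower bound on Lipschitz domains
-/

set_option autoImplicit false

open MeasureTheory Metric Set
open scoped MeasureTheory NNReal ENNReal Topology

namespace Pool.Agent.RobinBall

/-- The Rayleigh quotients of the Robin problem, as in the frozen statement. -/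
def rayl {m : ℕ} (α : ℝ) (Ω : Set (Em m)) : Set ℝ :=
  {t : ℝ | ∃ u : Em m → ℝ, ContDiff ℝ 1 u ∧ HasCompactSupport u ∧
        (∫ x in Ω, u x ^ 2) ≠ 0 ∧
        t = ((∫ x in Ω, ‖fderiv ℝ u x‖ ^ 2) +
              α * ∫ x in frontier Ω, u x ^ 2 ∂(MeasureTheory.Measure.hausdorffMeasure (m : ℝ)))
            / ∫ x in Ω, u x ^ 2}

theorem integrableOn_of_bdd {m : ℕ} {Ω : Set (Em m)} (hb : Bornology.IsBounded Ω)
    {f : Em m → ℝ} (hf : Continuous f) : IntegrableOn f Ω := by
  have h1 : IsCompact (closure Ω) := Metric.isCompact_of_isClosed_isBounded isClosed_closure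
    hb.closure
  exact (hf.continuousOn.integrableOn_compact h1).mono_set subset_closure

/-- Divergence of a scalar function times a vector field. -/
theorem dv_smul {m : ℕ} {φ : Em m → ℝ} {X : Em m → Em m} {x : Em m}
    (hφ : DifferentiableAt ℝ φ x) (hX : DifferentiableAt ℝ X x) :
    dv (fun y => φ y • X y) x = φ x * dv X x + fderiv ℝ φ x (X x) := by
  rw [dv_eq_trc, dv_eq_trc, fderiv_fun_smul hφ hX, ← trcL_apply, map_add, map_smul, smul_eq_mul,
    trcL_apply, trcL_apply]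
  congr 1
  exact LinearMap.trace_smulRight (fderiv ℝ φ x : Em m →ₗ[ℝ] ℝ) (X x)

theorem ball_lower {m : ℕ} (hm : 1 ≤ m) (c : Em m) {ρ β κ0 α : ℝ} (hρ : 0 < ρ)
    (hα : β = -α * cH m) {X : Em m → Em m}
    (hX : ContDiff ℝ 1 X) (hdv : ∀ x, dv X x + ‖X x‖ ^ 2 = κ0 ^ 2)
    (hXb : ∀ x, ‖x‖ = ρ → X x = (β / ρ) • x) {t : ℝ} (ht : t ∈ rayl α (ball c ρ)) :
    -κ0 ^ 2 ≤ t := by
  obtain ⟨u, hu, huc, hu0, rfl⟩ := ht
  have hpos : 0 < ∫ x in ball c ρ, u x ^ 2 :=
    lt_of_le_of_ne (integral_nonneg (fun x => sq_nonneg _)) (Ne.symm hu0)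
  have hXc : ContDiff ℝ 1 (fun x => X (x - c)) := hX.comp (contDiff_id.sub contDiff_const)
  have hF : ContDiff ℝ 1 (fun x => (u x ^ 2) • X (x - c)) := (hu.pow 2).smul hXc
  have h1 := ball_gauss_green hm c hρ hF
  have h2 : ∫ x in frontier (ball c ρ), inner ℝ ((u x ^ 2) • X (x - c)) (ρ⁻¹ • (x - c))
        ∂(Measure.hausdorffMeasure (m : ℝ)) =
      β * ∫ x in frontier (ball c ρ), u x ^ 2 ∂(Measure.hausdorffMeasure (m : ℝ)) := by
    rw [← integral_const_mul]
    apply setIntegral_congr_fun isClosed_frontier.measurableSet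
    intro x hx
    rw [frontier_ball _ hρ.ne', mem_sphere, dist_eq_norm] at hx
    change inner ℝ ((u x ^ 2) • X (x - c)) (ρ⁻¹ • (x - c)) = β * u x ^ 2
    rw [hXb _ hx, real_inner_smul_left, real_inner_smul_left, real_inner_smul_right,
      real_inner_self_eq_norm_sq, hx]
    field_simp
  rw [h2, hα] at h1
  have hcH := cH_pos m
  have h3 : (cH m)⁻¹ * (-α * cH m * ∫ x in frontier (ball c ρ), u x ^ 2
      ∂(Measure.hausdorffMeasure (m : ℝ))) = -α * ∫ x in frontier (ball c ρ), u x ^ 2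
      ∂(Measure.hausdorffMeasure (m : ℝ)) := by
    field_simp
  rw [h3] at h1
  have h4 : ∫ x in ball c ρ, dv (fun x => (u x ^ 2) • X (x - c)) x ≤
      ∫ x in ball c ρ, (‖fderiv ℝ u x‖ ^ 2 + κ0 ^ 2 * u x ^ 2) := by
    have hdvc : Continuous (dv (fun x => (u x ^ 2) • X (x - c))) := by
      have : dv (fun x => (u x ^ 2) • X (x - c)) =
          fun x => trcL m (fderiv ℝ (fun x => (u x ^ 2) • X (x - c)) x) := rfl
      rw [this]
      exact (trcL m).continuous.comp (hF.continuous_fderiv one_ne_zero)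
    have huf : Continuous (fderiv ℝ u) := hu.continuous_fderiv one_ne_zero
    have hucont := hu.continuous
    apply integral_mono (integrableOn_of_bdd isBounded_ball hdvc)
      (integrableOn_of_bdd isBounded_ball (by fun_prop))
    intro x
    have hud : DifferentiableAt ℝ u x := (hu.differentiable one_ne_zero).differentiableAt
    have hXd : DifferentiableAt ℝ (fun x => X (x - c)) x :=
      (hXc.differentiable one_ne_zero).differentiableAt
    have hu2 : DifferentiableAt ℝ (fun x => u x ^ 2) x := hud.pow 2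
    change dv (fun x => (u x ^ 2) • X (x - c)) x ≤ _
    rw [dv_smul hu2 hXd]
    have e1 : dv (fun x => X (x - c)) x = dv X (x - c) := by
      rw [dv_eq_trc, dv_eq_trc, fderiv_comp_sub]
    have e2 : dv X (x - c) = κ0 ^ 2 - ‖X (x - c)‖ ^ 2 := by
      have := hdv (x - c)
      linarith
    have e3 : fderiv ℝ (fun x => u x ^ 2) x (X (x - c)) =
        2 * u x * fderiv ℝ u x (X (x - c)) := by
      rw [fderiv_fun_pow 2 hud]
      simp
    rw [e1, e2, e3]
    have e4 : |fderiv ℝ u x (X (x - c))| ≤ ‖fderiv ℝ u x‖ * ‖X (x - c)‖ := by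
      have := (fderiv ℝ u x).le_opNorm (X (x - c))
      rwa [Real.norm_eq_abs] at this
    have e5 : u x * fderiv ℝ u x (X (x - c)) ≤ |u x| * (‖fderiv ℝ u x‖ * ‖X (x - c)‖) := by
      refine (le_abs_self _).trans ?_
      rw [abs_mul]
      exact mul_le_mul_of_nonneg_left e4 (abs_nonneg _)
    have e6 : |u x| ^ 2 = u x ^ 2 := sq_abs _
    nlinarith [sq_nonneg (‖fderiv ℝ u x‖ - |u x| * ‖X (x - c)‖)]
  have h5 : ∫ x in ball c ρ, (‖fderiv ℝ u x‖ ^ 2 + κ0 ^ 2 * u x ^ 2) =
      (∫ x in ball c ρ, ‖fderiv ℝ u x‖ ^ 2) + κ0 ^ 2 * ∫ x in ball c ρ, u x ^ 2 := by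
    have huf : Continuous (fderiv ℝ u) := hu.continuous_fderiv one_ne_zero
    have hucont := hu.continuous
    rw [integral_add (integrableOn_of_bdd isBounded_ball (by fun_prop))
      (integrableOn_of_bdd isBounded_ball (by fun_prop)), integral_const_mul]
  rw [le_div_iff₀ hpos]
  rw [h5] at h4
  linarith

theorem sphere_area {m : ℕ} (hm : 1 ≤ m) (c : Em m) {ρ : ℝ} (hρ : 0 < ρ) :
    (cH m)⁻¹ * (Measure.hausdorffMeasure (m : ℝ) (frontier (ball c ρ))).toReal =
      (m + 1) * (volume (Metric.ball (0 : Em m) 1)).toReal * ρ ^ m := by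
  have h1 := ball_gauss_green hm c hρ (F := fun x => x - c) (contDiff_id.sub contDiff_const)
  have h2 : ∀ x : Em m, dv (fun x => x - c) x = m + 1 := by
    intro x
    rw [dv_eq_trc, fderiv_sub_const, fderiv_fun_id]
    unfold trc
    have : ((ContinuousLinearMap.id ℝ (Em m) : Em m →L[ℝ] Em m) : Em m →ₗ[ℝ] Em m) =
        LinearMap.id := rfl
    rw [this, LinearMap.trace_id]
    simp
  have h3 : ∫ x in frontier (ball c ρ), inner ℝ (x - c) (ρ⁻¹ • (x - c))
        ∂(Measure.hausdorffMeasure (m : ℝ)) =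
      ∫ x in frontier (ball c ρ), ρ ∂(Measure.hausdorffMeasure (m : ℝ)) := by
    apply setIntegral_congr_fun isClosed_frontier.measurableSet
    intro x hx
    rw [frontier_ball _ hρ.ne', mem_sphere, dist_eq_norm] at hx
    change inner ℝ (x - c) (ρ⁻¹ • (x - c)) = ρ
    rw [real_inner_smul_right, real_inner_self_eq_norm_sq, hx]
    field_simp
  rw [h3] at h1
  simp only [h2] at h1
  rw [setIntegral_const, setIntegral_const, smul_eq_mul, smul_eq_mul] at h1
  have h4 : (volume : Measure (Em m)).real (ball c ρ) =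
      ρ ^ (m + 1) * (volume (Metric.ball (0 : Em m) 1)).toReal := by
    unfold Measure.real
    rw [Measure.addHaar_ball volume c hρ.le, ENNReal.toReal_mul,
      ENNReal.toReal_ofReal (by positivity)]
    simp
  rw [h4] at h1
  have h5 : (Measure.hausdorffMeasure (m : ℝ) : Measure (Em m)).real (frontier (ball c ρ)) =
      (Measure.hausdorffMeasure (m : ℝ) (frontier (ball c ρ))).toReal := rfl
  rw [h5] at h1
  have h6 : ρ * ((cH m)⁻¹ * (Measure.hausdorffMeasure (m : ℝ) (frontier (ball c ρ))).toReal) =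
      ρ * ((m + 1) * (volume (Metric.ball (0 : Em m) 1)).toReal * ρ ^ m) := by
    calc ρ * ((cH m)⁻¹ * (Measure.hausdorffMeasure (m : ℝ) (frontier (ball c ρ))).toReal)
        = (cH m)⁻¹ * ((Measure.hausdorffMeasure (m : ℝ) (frontier (ball c ρ))).toReal * ρ) := by
          ring
      _ = ρ ^ (m + 1) * (volume (Metric.ball (0 : Em m) 1)).toReal * (m + 1) := h1.symm
      _ = _ := by ring
  exact mul_left_cancel₀ hρ.ne' h6

theorem rayl_lower {m : ℕ} (hm : 1 ≤ m) {Ω : Set (Em m)} (hO : IsOpen Ω)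
    (hb : Bornology.IsBounded Ω) (hL : IsLipDom Ω) {α κ0 : ℝ} (hκ0 : 0 < κ0) (hα : α < 0)
    (hS : -κ0 ^ 2 < sInf (rayl α Ω)) :
    ∃ κ δ : ℝ, 0 < κ ∧ κ < κ0 ∧ 0 < δ ∧
      ∀ u : Em m → ℝ, ContDiff ℝ 1 u → HasCompactSupport u →
      δ * ∫ x in Ω, u x ^ 2 ≤ (∫ x in Ω, ‖fderiv ℝ u x‖ ^ 2) + κ ^ 2 * (∫ x in Ω, u x ^ 2)
        - (-α) * ∫ x in frontier Ω, u x ^ 2 ∂(Measure.hausdorffMeasure (m : ℝ)) := by
  obtain ⟨C, hC0, hC⟩ := trace_ineq hm hO hb hL
  -- the set of Rayleigh quotients is bounded below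
  have hbdd : BddBelow (rayl α Ω) := by
    refine ⟨-((-α) * C + ((-α) * C) ^ 2 / 4), ?_⟩
    rintro t ⟨u, hu, huc, hu0, rfl⟩
    have hpos : 0 < ∫ x in Ω, u x ^ 2 :=
      lt_of_le_of_ne (integral_nonneg (fun x => sq_nonneg _)) (Ne.symm hu0)
    rw [le_div_iff₀ hpos]
    have huf : Continuous (fderiv ℝ u) := hu.continuous_fderiv one_ne_zero
    have hucont := hu.continuous
    have h1 := hC u hu huc
    have h2 : (-α) * C * ∫ x in Ω, (u x ^ 2 + |u x| * ‖fderiv ℝ u x‖) ≤
        ((-α) * C + ((-α) * C) ^ 2 / 4) * (∫ x in Ω, u x ^ 2) +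
          ∫ x in Ω, ‖fderiv ℝ u x‖ ^ 2 := by
      rw [← integral_const_mul, ← integral_const_mul, ← integral_add
        (integrableOn_of_bdd hb (by fun_prop)) (integrableOn_of_bdd hb (by fun_prop))]
      apply integral_mono (integrableOn_of_bdd hb (by fun_prop))
        (integrableOn_of_bdd hb (by fun_prop))
      intro x
      change -α * C * (u x ^ 2 + |u x| * ‖fderiv ℝ u x‖) ≤
        (-α * C + (-α * C) ^ 2 / 4) * u x ^ 2 + ‖fderiv ℝ u x‖ ^ 2
      have e6 : |u x| ^ 2 = u x ^ 2 := sq_abs _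
      nlinarith [sq_nonneg (‖fderiv ℝ u x‖ - (-α * C) / 2 * |u x|)]
    have h3 : (-α) * ∫ x in frontier Ω, u x ^ 2 ∂(Measure.hausdorffMeasure (m : ℝ)) ≤
        (-α) * (C * ∫ x in Ω, (u x ^ 2 + |u x| * ‖fderiv ℝ u x‖)) :=
      mul_le_mul_of_nonneg_left h1 (by linarith)
    nlinarith
  set I := sInf (rayl α Ω) with hI
  have hmid : max 0 (-I) < κ0 ^ 2 := by
    apply max_lt
    · positivity
    · linarith
  set q := (max 0 (-I) + κ0 ^ 2) / 2 with hq
  have hq1 : max 0 (-I) < q := by rw [hq]; linarith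
  have hq2 : q < κ0 ^ 2 := by rw [hq]; linarith
  have hq0 : 0 < q := lt_of_le_of_lt (le_max_left _ _) hq1
  have hqI : -I < q := lt_of_le_of_lt (le_max_right _ _) hq1
  refine ⟨Real.sqrt q, I + q, Real.sqrt_pos.mpr hq0, ?_, by linarith, ?_⟩
  · rw [Real.sqrt_lt' hκ0]
    exact hq2
  · intro u hu huc
    rw [Real.sq_sqrt hq0.le]
    by_cases hu0 : (∫ x in Ω, u x ^ 2) = 0
    · rw [hu0]
      have hucont := hu.continuous
      have hint : IntegrableOn (fun x => u x ^ 2) Ω := integrableOn_of_bdd hb (by fun_prop)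
      have h1 : (fun x => u x ^ 2) =ᵐ[volume.restrict Ω] 0 :=
        (setIntegral_eq_zero_iff_of_nonneg_ae
          (Filter.Eventually.of_forall (fun x => sq_nonneg _)) hint).mp hu0
      have h2 : ∀ x ∈ Ω, u x = 0 := by
        by_contra hcon
        push Not at hcon
        obtain ⟨x, hx, hx0⟩ := hcon
        have hV : IsOpen (Ω ∩ {y | u y ≠ 0}) :=
          hO.inter (isOpen_ne_fun hucont continuous_const)
        have hVpos : 0 < volume (Ω ∩ {y | u y ≠ 0}) := hV.measure_pos volume ⟨x, hx, hx0⟩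
        have h3 : volume (Ω ∩ {y | u y ≠ 0}) = 0 := by
          rw [Filter.EventuallyEq, ae_restrict_iff' hO.measurableSet] at h1
          have h4 : volume {y | ¬ (y ∈ Ω → u y ^ 2 = (0 : Em m → ℝ) y)} = 0 := h1
          refine measure_mono_null ?_ h4
          rintro y ⟨hy, hy0⟩ h5
          apply hy0
          have := h5 hy
          simpa using this
        exact absurd h3 hVpos.ne'
      have h3 : ∀ x ∈ frontier Ω, u x = 0 := by
        intro x hx
        have hcl : closure Ω ⊆ {y | u y = 0} :=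
          closure_minimal h2 (isClosed_eq hucont continuous_const)
        exact hcl (frontier_subset_closure hx)
      have h4 : ∫ x in frontier Ω, u x ^ 2 ∂(Measure.hausdorffMeasure (m : ℝ)) = 0 := by
        rw [setIntegral_congr_fun (g := fun _ => (0 : ℝ)) isClosed_frontier.measurableSet]
        · simp
        · intro x hx
          change u x ^ 2 = 0
          rw [h3 x hx]; ring
      rw [h4]
      have h5 : 0 ≤ ∫ x in Ω, ‖fderiv ℝ u x‖ ^ 2 := integral_nonneg (fun x => sq_nonneg _)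
      linarith
    · have hpos : 0 < ∫ x in Ω, u x ^ 2 :=
        lt_of_le_of_ne (integral_nonneg (fun x => sq_nonneg _)) (Ne.symm hu0)
      have h1 := csInf_le hbdd (⟨u, hu, huc, hu0, rfl⟩ :
        ((∫ x in Ω, ‖fderiv ℝ u x‖ ^ 2) +
              α * ∫ x in frontier Ω, u x ^ 2 ∂(MeasureTheory.Measure.hausdorffMeasure (m : ℝ)))
            / (∫ x in Ω, u x ^ 2) ∈ rayl α Ω)
      rw [← hI, le_div_iff₀ hpos] at h1
      linarith

end Pool.Agent.RobinBall
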