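import Mathlib
import Pool.Agent.RobinBall.Rad.Field

/-!
# Radial comparison fields for the Robin problem with negative parameter

This file proves `radial_fields` (package C of the plan for the Robin problem).
-/

set_option autoImplicit false

open MeasureTheory Metric Set Filter
open scoped MeasureTheory NNReal ENNReal Topology

namespace Pool.Agent.RobinBall

namespace Rad

variable {m : ℕ} {κ : ℝ} (R : RD m κ)

/-- The field `X`. -/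
noncomputable def fX : Em m → Em m := rad R.y

/-- The field `Z`. -/
noncomputable def fZ (C : ℝ) : Em m → Em m := rad fun τ => C * R.w τ

/-- The inverse of `X`. -/
noncomputable def fT : Em m → Em m := Function.invFun (fX R)

/-- The field `Y`. -/
noncomputable def fY (C : ℝ) : Em m → Em m := fun p => fZ R C (fT R p)

/-- The radial density. -/
noncomputable def dS (C τ : ℝ) : ℝ :=
  C * R.A τ ^ 2 * (R.mu τ + m * R.y τ) / (R.mu τ * R.y τ ^ m)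

/-- The density. -/
noncomputable def fs (C : ℝ) : Em m → ℝ := fun p => dS R C (‖fT R p‖ ^ 2)

theorem fX_hasFDerivAt (x : Em m) :
    HasFDerivAt (fX R) (rk (R.y (‖x‖ ^ 2)) (2 * R.yD (‖x‖ ^ 2)) x) x :=
  rad_hasFDerivAt (R.y_hasDerivAt (sq_nonneg _))

theorem fZ_hasFDerivAt (C : ℝ) (x : Em m) :
    HasFDerivAt (fZ R C) (rk (C * R.w (‖x‖ ^ 2)) (2 * (C * R.wD (‖x‖ ^ 2))) x) x :=
  rad_hasFDerivAt (φ := fun τ => C * R.w τ) ((R.w_hasDerivAt _).const_mul C)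

theorem fX_contDiff : ContDiff ℝ 1 (fX R) :=
  contDiff_iff_contDiffAt.2 fun _ => rad_contDiffAt (R.y_contDiffAt (sq_nonneg _))

theorem fZ_contDiff (C : ℝ) : ContDiff ℝ 1 (fZ R C) :=
  contDiff_iff_contDiffAt.2 fun _ => rad_contDiffAt
    (contDiffAt_const.mul R.w_contDiff.contDiffAt)

theorem norm_fX (x : Em m) : ‖fX R x‖ = R.g ‖x‖ := by
  rw [fX, rad, norm_smul, Real.norm_eq_abs, abs_of_pos (R.y_pos (sq_nonneg _)), RD.g]
  ring

theorem fX_injective (hm : 1 ≤ m) : Function.Injective (fX R) := by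
  intro x y hxy
  have h1 : R.g ‖x‖ = R.g ‖y‖ := by rw [← norm_fX, ← norm_fX, hxy]
  have h2 : ‖x‖ = ‖y‖ := (R.g_strictMono hm).injective h1
  have h3 := R.y_pos (sq_nonneg ‖y‖)
  rw [fX, rad, rad, h2] at hxy
  exact smul_right_injective _ h3.ne' hxy

theorem fT_fX (hm : 1 ≤ m) (x : Em m) : fT R (fX R x) = x :=
  Function.leftInverse_invFun (fX_injective R hm) x

theorem fX_eigen (hm : 1 ≤ m) (x : Em m) :
    R.y (‖x‖ ^ 2) + 2 * R.yD (‖x‖ ^ 2) * ‖x‖ ^ 2 ≠ 0 := by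
  have h := R.mu_pos hm (sq_nonneg ‖x‖)
  rw [R.mu_eq (sq_nonneg _)] at h
  have : R.y (‖x‖ ^ 2) + 2 * R.yD (‖x‖ ^ 2) * ‖x‖ ^ 2 =
      R.y (‖x‖ ^ 2) + 2 * ‖x‖ ^ 2 * R.yD (‖x‖ ^ 2) := by ring
  rw [this]
  exact h.ne'

theorem fT_facts (hm : 1 ≤ m) (x : Em m) :
    ContDiffAt ℝ 1 (fT R) (fX R x) ∧
      HasFDerivAt (fT R) (rk (R.y (‖x‖ ^ 2))⁻¹
        (-(2 * R.yD (‖x‖ ^ 2) * (R.y (‖x‖ ^ 2))⁻¹ /
          (R.y (‖x‖ ^ 2) + 2 * R.yD (‖x‖ ^ 2) * ‖x‖ ^ 2))) x) (fX R x) := by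
  have hb : R.y (‖x‖ ^ 2) ≠ 0 := (R.y_pos (sq_nonneg _)).ne'
  exact invFun_facts (fX_contDiff R) (fX_injective R hm)
    (L := rkEquiv hb (fX_eigen R hm x)) (fX_hasFDerivAt R x)

theorem fY_contDiffAt (hm : 1 ≤ m) (C : ℝ) (x : Em m) : ContDiffAt ℝ 1 (fY R C) (fX R x) :=
  ContDiffAt.comp _ (fZ_contDiff R C).contDiffAt (fT_facts R hm x).1

theorem fY_fX (hm : 1 ≤ m) (C : ℝ) (x : Em m) : fY R C (fX R x) = fZ R C x := by
  rw [fY, fT_fX R hm]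

theorem fs_fX (hm : 1 ≤ m) (C : ℝ) (x : Em m) : fs R C (fX R x) = dS R C (‖x‖ ^ 2) := by
  rw [fs, fT_fX R hm]

theorem eigen_aux {y yd τ W Wd : ℝ} (hy : y ≠ 0) (hd : y + 2 * yd * τ ≠ 0) :
    (W * y⁻¹ + (W * (-(2 * yd * y⁻¹ / (y + 2 * yd * τ))) + Wd * y⁻¹ +
      Wd * (-(2 * yd * y⁻¹ / (y + 2 * yd * τ))) * τ) * τ) * (y + 2 * yd * τ) = W + Wd * τ := by
  obtain ⟨d, hdd⟩ : ∃ d, d = y + 2 * yd * τ := ⟨_, rfl⟩
  rw [← hdd] at hd ⊢
  field_simp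
  rw [hdd]
  ring

/-- The derivative of `Y`. -/
theorem fY_fderiv (hm : 1 ≤ m) (C : ℝ) (x : Em m) :
    ∃ b c : ℝ, fderiv ℝ (fY R C) (fX R x) = rk b c x ∧
      b * R.y (‖x‖ ^ 2) = C * R.w (‖x‖ ^ 2) ∧
      (b + c * ‖x‖ ^ 2) * R.mu (‖x‖ ^ 2) =
        C * (R.w (‖x‖ ^ 2) + m * (R.P (‖x‖ ^ 2) - R.w (‖x‖ ^ 2))) := by
  have hT := (fT_facts R hm x).2
  have hZ : HasFDerivAt (fZ R C) (rk (C * R.w (‖x‖ ^ 2)) (2 * (C * R.wD (‖x‖ ^ 2))) x)
      (fT R (fX R x)) := by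
    rw [fT_fX R hm]; exact fZ_hasFDerivAt R C x
  have hY : HasFDerivAt (fY R C) _ (fX R x) := hZ.comp (fX R x) hT
  have hb : R.y (‖x‖ ^ 2) ≠ 0 := (R.y_pos (sq_nonneg _)).ne'
  have hd := fX_eigen R hm x
  refine ⟨_, _, by rw [hY.fderiv, rk_comp_rk], ?_, ?_⟩
  · field_simp
  · have e1 := R.two_tau_wD (‖x‖ ^ 2)
    have e2 : R.mu (‖x‖ ^ 2) = R.y (‖x‖ ^ 2) + 2 * R.yD (‖x‖ ^ 2) * ‖x‖ ^ 2 := by
      rw [R.mu_eq (sq_nonneg _)]; ring
    rw [e2, eigen_aux hb hd, ← e1]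
    ring

/-- The key inequality at one point. -/
theorem key_ineq (hm : 1 ≤ m) {C θ : ℝ} (hC : 0 < C) {τ b d T ξ D : ℝ}
    (hτ : 0 ≤ τ) (hb : b * R.y τ = C * R.w τ)
    (hd : d * R.mu τ = C * (R.w τ + m * (R.P τ - R.w τ))) (hξ : 0 ≤ ξ) (hT : ξ ≤ T)
    (hθ : 0 < θ) (hTθ : T ≤ θ * (κ ^ 2 - τ * R.y τ ^ 2)) (hD : D ≤ ξ * ((T - ξ) / m) ^ m) :
    (θ ^ m)⁻¹ * dS R C τ * D ≤ b * (T - ξ) + d * ξ := by
  have hm0 : (0 : ℝ) < m := by exact_mod_cast hm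
  have hA := R.isRad.p0 τ hτ
  have hy := R.y_pos hτ
  have hmu := R.mu_pos hm hτ
  have hmy := R.mu_le_y hm hτ
  rw [R.kappa_sub hτ] at hTθ
  have hw := R.w_eq' hτ
  have hP := R.P_eq hτ
  rw [hw] at hb
  rw [hw, hP] at hd
  have hbe : b = C * (R.A τ ^ 2 * R.mu τ) / R.y τ := by
    rw [← hb]; field_simp
  have hde : d = C * (R.A τ ^ 2 * R.mu τ + m * (R.A τ ^ 2 * R.y τ - R.A τ ^ 2 * R.mu τ)) /
      R.mu τ := by
    rw [← hd]; field_simp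
  have hS : 0 ≤ dS R C τ := by
    rw [dS]; positivity
  have key := scalar_ineq' hm (ω := R.mu τ / R.y τ) (θ := θ) (a := ξ / R.mu τ)
    (b := (T - ξ) / (m * R.y τ)) (by positivity) ((div_le_one hy).2 hmy) (by positivity)
    (div_nonneg (sub_nonneg.2 hT) (by positivity))
    (by
      have e1 : R.mu τ / R.y τ * (ξ / R.mu τ) + m * ((T - ξ) / (m * R.y τ)) = T / R.y τ := by
        field_simp
        ring
      have e2 : θ * (R.mu τ / R.y τ + m) = θ * (R.mu τ + m * R.y τ) / R.y τ := by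
        field_simp
      rw [e1, e2]
      gcongr)
  calc (θ ^ m)⁻¹ * dS R C τ * D ≤ (θ ^ m)⁻¹ * dS R C τ * (ξ * ((T - ξ) / m) ^ m) := by
        gcongr
    _ = C * R.A τ ^ 2 * R.y τ * ((θ ^ m)⁻¹ * ((R.mu τ / R.y τ + m) *
          (ξ / R.mu τ * ((T - ξ) / (m * R.y τ)) ^ m))) := by
        rw [dS, div_pow (T - ξ) ((m : ℝ) * R.y τ) m, mul_pow (m : ℝ) (R.y τ) m,
          div_pow (T - ξ) (m : ℝ) m]
        field_simp
    _ ≤ C * R.A τ ^ 2 * R.y τ * (m * (R.mu τ / R.y τ) * ((T - ξ) / (m * R.y τ)) +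
          (R.mu τ / R.y τ + m * (1 - R.mu τ / R.y τ)) * (ξ / R.mu τ)) := by
        gcongr
    _ = b * (T - ξ) + d * ξ := by
        rw [hbe, hde]
        field_simp

theorem key_nonneg (hm : 1 ≤ m) {C : ℝ} (hC : 0 < C) {τ b d T ξ : ℝ}
    (hτ : 0 ≤ τ) (hb : b * R.y τ = C * R.w τ)
    (hd : d * R.mu τ = C * (R.w τ + m * (R.P τ - R.w τ))) (hξ : 0 ≤ ξ) (hT : ξ ≤ T) :
    0 ≤ b * (T - ξ) + d * ξ := by
  have hy := R.y_pos hτ
  have hmu := R.mu_pos hm hτ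
  have hw := R.w_pos hm hτ
  have hwP := R.w_le_P hm hτ
  have hb0 : 0 ≤ b := by
    have : 0 ≤ b * R.y τ := by rw [hb]; positivity
    exact nonneg_of_mul_nonneg_left this hy
  have hd0 : 0 ≤ d := by
    have : 0 ≤ d * R.mu τ := by
      rw [hd]
      have : 0 ≤ R.P τ - R.w τ := sub_nonneg.2 hwP
      positivity
    exact nonneg_of_mul_nonneg_left this hmu
  have : 0 ≤ T - ξ := sub_nonneg.2 hT
  positivity

theorem mem_ball_iff (hm : 1 ≤ m) {β ρ : ℝ} (hβ : R.g ρ = β) (x : Em m) :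
    fX R x ∈ ball (0 : Em m) β ↔ x ∈ ball (0 : Em m) ρ := by
  rw [mem_ball_zero_iff, mem_ball_zero_iff, norm_fX, ← hβ]
  exact (R.g_strictMono hm).lt_iff_lt

theorem exists_pre (hm : 1 ≤ m) {β ρ : ℝ} (hρ : 0 < ρ) (hβ : R.g ρ = β) {p : Em m}
    (hp : p ∈ ball (0 : Em m) β) : ∃ x ∈ ball (0 : Em m) ρ, fX R x = p := by
  obtain ⟨e, he, hpe⟩ := exists_dir p
  rw [mem_ball_zero_iff] at hp
  obtain ⟨r, hr, hrp⟩ := intermediate_value_Icc hρ.le (R.g_continuous.continuousOn)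
    (show ‖p‖ ∈ Icc (R.g 0) (R.g ρ) by
      rw [R.g_zero, hβ]; exact ⟨norm_nonneg _, hp.le⟩)
  have hn : ‖r • e‖ = r := by
    rw [norm_smul, he, Real.norm_eq_abs, abs_of_nonneg hr.1, mul_one]
  have hx : fX R (r • e) = p := by
    rw [fX, rad, hn, smul_smul, mul_comm]
    conv_rhs => rw [hpe]
    congr 1
  refine ⟨r • e, ?_, hx⟩
  rw [← mem_ball_iff R hm hβ, hx, mem_ball_zero_iff]
  exact hp

theorem image_ball (hm : 1 ≤ m) {β ρ : ℝ} (hρ : 0 < ρ) (hβ : R.g ρ = β) :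
    fX R '' ball (0 : Em m) ρ = ball (0 : Em m) β := by
  ext p
  constructor
  · rintro ⟨x, hx, rfl⟩
    exact (mem_ball_iff R hm hβ x).2 hx
  · intro hp
    obtain ⟨x, hx, hxp⟩ := exists_pre R hm hρ hβ hp
    exact ⟨x, hx, hxp⟩

theorem dS_continuousAt (hm : 1 ≤ m) (C : ℝ) {τ : ℝ} (hτ : 0 ≤ τ) :
    ContinuousAt (dS R C) τ := by
  have hA : ContinuousAt R.A τ := R.A_continuous.continuousAt
  have hy : ContinuousAt R.y τ := (R.y_hasDerivAt hτ).continuousAt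
  have hw : ContinuousAt R.w τ := R.w_continuous.continuousAt
  have hA0 := (R.isRad.p0 τ hτ).ne'
  have hmu : ContinuousAt R.mu τ := hw.div (hA.pow 2) (pow_ne_zero 2 hA0)
  have hy0 := (R.y_pos hτ).ne'
  have hmu0 := (R.mu_pos hm hτ).ne'
  exact ((continuousAt_const.mul (hA.pow 2)).mul (hmu.add (continuousAt_const.mul hy))).div
    (hmu.mul (hy.pow m)) (mul_ne_zero hmu0 (pow_ne_zero m hy0))

theorem dS_mul (hm : 1 ≤ m) (C : ℝ) {τ : ℝ} (hτ : 0 ≤ τ) :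
    R.y τ ^ m * R.mu τ * dS R C τ = C * (R.w τ + m * R.P τ) := by
  have hy := R.y_pos hτ
  have hmu := R.mu_pos hm hτ
  rw [dS, R.w_eq' hτ, R.P_eq hτ]
  field_simp

/-- Polar integration. -/
theorem integral_ball_radial (C : ℝ) {ρ : ℝ} (hρ : 0 < ρ) :
    ∫ x in ball (0 : Em m) ρ, C * (R.w (‖x‖ ^ 2) + m * R.P (‖x‖ ^ 2)) =
      (m + 1) * (volume (ball (0 : Em m) 1)).toReal * (C * (ρ ^ (m + 1) * R.w (ρ ^ 2))) := by
  set f : ℝ → ℝ := fun r => C * (R.w (r ^ 2) + m * R.P (r ^ 2)) with hf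
  have h1 : ∫ x in ball (0 : Em m) ρ, C * (R.w (‖x‖ ^ 2) + m * R.P (‖x‖ ^ 2)) =
      ∫ x : Em m, (Iio ρ).indicator f ‖x‖ := by
    rw [← integral_indicator measurableSet_ball]
    congr 1
    funext x
    by_cases hx : ‖x‖ < ρ
    · rw [indicator_of_mem (mem_ball_zero_iff.2 hx), indicator_of_mem (mem_Iio.2 hx)]
    · rw [indicator_of_notMem (fun h => hx (mem_ball_zero_iff.1 h)),
        indicator_of_notMem (fun h => hx (mem_Iio.1 h))]
  have hfin : Module.finrank ℝ (Em m) = m + 1 := by simp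
  rw [h1, integral_fun_norm_addHaar, hfin, Nat.add_sub_cancel, nsmul_eq_mul, smul_eq_mul]
  have h2 : ∫ y in Ioi (0 : ℝ), y ^ m • (Iio ρ).indicator f y =
      ∫ y in (0 : ℝ)..ρ, y ^ m * f y := by
    rw [intervalIntegral.integral_of_le hρ.le, integral_Ioc_eq_integral_Ioo,
      ← integral_indicator measurableSet_Ioi, ← integral_indicator measurableSet_Ioo]
    congr 1
    funext y
    by_cases h0 : 0 < y
    · by_cases h3 : y < ρ
      · rw [indicator_of_mem (mem_Ioi.2 h0), indicator_of_mem (mem_Iio.2 h3),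
          indicator_of_mem (show y ∈ Ioo 0 ρ from ⟨h0, h3⟩), smul_eq_mul]
      · rw [indicator_of_mem (mem_Ioi.2 h0), indicator_of_notMem (fun h => h3 (mem_Iio.1 h)),
          indicator_of_notMem (fun h : y ∈ Ioo 0 ρ => h3 h.2), smul_zero]
    · rw [indicator_of_notMem (fun h => h0 (mem_Ioi.1 h)),
        indicator_of_notMem (fun h : y ∈ Ioo 0 ρ => h0 h.1)]
  have h3 : ∫ y in (0 : ℝ)..ρ, y ^ m * f y = C * (ρ ^ (m + 1) * R.w (ρ ^ 2)) := by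
    have hder : ∀ r ∈ uIcc 0 ρ, HasDerivAt (fun r : ℝ => C * (r ^ (m + 1) * R.w (r ^ 2)))
        (r ^ m * f r) r := by
      intro r _
      refine ((R.rw_hasDerivAt m r).const_mul C).congr_deriv ?_
      rw [hf]
      ring
    have hcont : Continuous fun r : ℝ => r ^ m * f r := by
      have h1 := R.w_continuous
      have h2 := R.P_continuous
      rw [hf]
      fun_prop
    rw [intervalIntegral.integral_eq_sub_of_hasDerivAt hder (hcont.intervalIntegrable _ _)]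
    simp
  rw [h2, h3]
  simp only [Measure.real]
  push_cast
  ring

theorem integral_fs (hm : 1 ≤ m) (C : ℝ) {β ρ : ℝ} (hρ : 0 < ρ) (hβ : R.g ρ = β) :
    ∫ p in ball (0 : Em m) β, fs R C p =
      (m + 1) * (volume (ball (0 : Em m) 1)).toReal * (C * (ρ ^ (m + 1) * R.w (ρ ^ 2))) := by
  rw [← image_ball R hm hρ hβ, integral_image_eq_integral_abs_det_fderiv_smul volume
    measurableSet_ball (fun x _ => (fX_hasFDerivAt R x).hasFDerivWithinAt)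
    (fX_injective R hm).injOn, ← integral_ball_radial R C hρ]
  apply setIntegral_congr_fun measurableSet_ball
  intro x _
  have hy := R.y_pos (sq_nonneg ‖x‖)
  have hmu := R.mu_pos hm (sq_nonneg ‖x‖)
  have hdet : (rk (R.y (‖x‖ ^ 2)) (2 * R.yD (‖x‖ ^ 2)) x).det =
      R.y (‖x‖ ^ 2) ^ m * R.mu (‖x‖ ^ 2) := by
    rw [ContinuousLinearMap.det, det_rk hy.ne', R.mu_eq (sq_nonneg _)]
    ring
  simp only [hdet, smul_eq_mul]
  rw [abs_of_pos (by positivity), fs_fX R hm, dS_mul R hm C (sq_nonneg _)]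

end Rad

open Rad in
theorem radial_fields (m : ℕ) (hm : 1 ≤ m) {β ρ : ℝ} (hβ : 0 < β) (hρ : 0 < ρ) :
    ∃ (κ : ℝ) (X Y : Em m → Em m) (s : Em m → ℝ), 0 < κ ∧
      ContDiff ℝ 1 X ∧ (∀ x, dv X x + ‖X x‖ ^ 2 = κ ^ 2) ∧
      (∀ x, ‖x‖ = ρ → X x = (β / ρ) • x) ∧
      ContDiffOn ℝ 1 Y (Metric.ball 0 β) ∧ (∀ p ∈ Metric.ball (0 : Em m) β, ‖Y p‖ ≤ 1) ∧
      ContinuousOn s (Metric.ball 0 β) ∧ (∀ p ∈ Metric.ball (0 : Em m) β, 0 ≤ s p) ∧
      (∀ p ∈ Metric.ball (0 : Em m) β, ∀ M : Em m →L[ℝ] Em m, M.IsPositive →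
        0 ≤ trc ((fderiv ℝ Y p).comp M)) ∧
      (∀ p ∈ Metric.ball (0 : Em m) β, ∀ θ : ℝ, 0 < θ → θ ≤ 1 →
        ∀ M : Em m →L[ℝ] Em m, M.IsPositive → trc M ≤ θ * (κ ^ 2 - ‖p‖ ^ 2) →
        (θ ^ m)⁻¹ * s p * LinearMap.det (M : Em m →ₗ[ℝ] Em m) ≤ trc ((fderiv ℝ Y p).comp M)) ∧
      ∫ p in Metric.ball (0 : Em m) β, s p =
        (m + 1) * (volume (Metric.ball (0 : Em m) 1)).toReal * ρ ^ m := by
  obtain ⟨κ, hκ, R, hR⟩ := exists_kappa hm hβ hρ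
  have hwρ := R.w_pos hm (sq_nonneg ρ)
  set C : ℝ := 1 / (ρ * R.w (ρ ^ 2)) with hC
  have hC0 : 0 < C := by positivity
  refine ⟨κ, fX R, fY R C, fs R C, hκ, fX_contDiff R, ?_, ?_, ?_, ?_, ?_, ?_, ?_, ?_, ?_⟩
  · intro x
    have h1 : dv (fX R) x = trc (rk (R.y (‖x‖ ^ 2)) (2 * R.yD (‖x‖ ^ 2)) x) := by
      rw [dv, (fX_hasFDerivAt R x).fderiv, trc]
    rw [h1, trc_rk, norm_fX, RD.g]
    have := R.riccati (sq_nonneg ‖x‖)
    linear_combination this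
  · intro x hx
    rw [fX, rad, hx]
    congr 1
    rw [← hR, RD.g]
    field_simp
  · intro p hp
    obtain ⟨x, hx, rfl⟩ := exists_pre R hm hρ hR hp
    exact (fY_contDiffAt R hm C x).contDiffWithinAt
  · intro p hp
    obtain ⟨x, hx, rfl⟩ := exists_pre R hm hρ hR hp
    rw [fY_fX R hm, fZ, rad, norm_smul, Real.norm_eq_abs,
      abs_of_pos (mul_pos hC0 (R.w_pos hm (sq_nonneg _)))]
    have h1 := (R.zw_strictMono hm).monotone (mem_ball_zero_iff.1 hx).le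
    calc C * R.w (‖x‖ ^ 2) * ‖x‖ = C * (‖x‖ * R.w (‖x‖ ^ 2)) := by ring
      _ ≤ C * (ρ * R.w (ρ ^ 2)) := by gcongr
      _ = 1 := by rw [hC]; field_simp
  · intro p hp
    obtain ⟨x, hx, rfl⟩ := exists_pre R hm hρ hR hp
    apply ContinuousAt.continuousWithinAt
    have h1 : ContinuousAt (fT R) (fX R x) := (fT_facts R hm x).2.continuousAt
    have h2 : ContinuousAt (fun p => ‖fT R p‖ ^ 2) (fX R x) := h1.norm.pow 2
    exact ContinuousAt.comp (dS_continuousAt R hm C (sq_nonneg _)) h2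
  · intro p hp
    obtain ⟨x, hx, rfl⟩ := exists_pre R hm hρ hR hp
    rw [fs_fX R hm, dS]
    have hy := R.y_pos (sq_nonneg ‖x‖)
    have hmu := R.mu_pos hm (sq_nonneg ‖x‖)
    positivity
  · intro p hp M hM
    obtain ⟨x, hx, rfl⟩ := exists_pre R hm hρ hR hp
    obtain ⟨b, c, hYd, hb, hd⟩ := fY_fderiv R hm C x
    obtain ⟨e, he, hxe⟩ := exists_dir x
    rw [hYd, trc_rk_dir b c x e hxe M]
    exact key_nonneg R hm hC0 (sq_nonneg _) hb hd (inner_nonneg' hM e) (inner_le_trc hM he)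
  · intro p hp θ hθ hθ1 M hM hMθ
    obtain ⟨x, hx, rfl⟩ := exists_pre R hm hρ hR hp
    obtain ⟨b, c, hYd, hb, hd⟩ := fY_fderiv R hm C x
    obtain ⟨e, he, hxe⟩ := exists_dir x
    rw [hYd, trc_rk_dir b c x e hxe M, fs_fX R hm]
    refine key_ineq R hm hC0 (sq_nonneg _) hb hd (inner_nonneg' hM e) (inner_le_trc hM he) hθ ?_
      (det_le hm hM he)
    rw [norm_fX, RD.g] at hMθ
    convert hMθ using 2
    ring
  · rw [integral_fs R hm C hρ hR]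
    congr 1
    rw [hC]
    field_simp
    ring

end Pool.Agent.RobinBall
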