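import Mathlib
import Pool.Agent.RobinBall.Compare2

/-!
# The weak inequality inside and the margin at the boundary
-/

set_option autoImplicit false
set_option linter.unusedSectionVars false
set_option linter.unusedVariables false

open MeasureTheory Filter Topology Metric
open scoped NNReal ENNReal

namespace Pool.Agent.RobinBall.E

variable {m : ℕ} {Ω : Set (Em m)}

lemma int_cs {f g : Em m → ℝ} (hf : MemLp f 2 (volume.restrict Ω))
    (hg : MemLp g 2 (volume.restrict Ω)) :
    |∫ x in Ω, f x * g x| ≤ Real.sqrt (∫ x in Ω, f x ^ 2) * Real.sqrt (∫ x in Ω, g x ^ 2) := by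
  have hi1 : Integrable (fun x => f x * g x) (volume.restrict Ω) := hf.integrable_mul hg
  have hi2 := hf.integrable_sq
  have hi3 := hg.integrable_sq
  have h2 := abs_le_of_quadratic (b := ∫ x in Ω, f x * g x) (c := ∫ x in Ω, g x ^ 2)
    (η := (∫ x in Ω, f x ^ 2) / 2)
    (div_nonneg (integral_nonneg fun x => sq_nonneg _) zero_le_two)
    (integral_nonneg fun x => sq_nonneg _) (by
      intro t
      have h3 : 0 ≤ ∫ x in Ω, (f x + t * g x) ^ 2 := integral_nonneg fun x => sq_nonneg _
      have h4 : ∫ x in Ω, (f x + t * g x) ^ 2 = (∫ x in Ω, f x ^ 2) +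
          2 * t * (∫ x in Ω, f x * g x) + t ^ 2 * ∫ x in Ω, g x ^ 2 := by
        rw [← integral_const_mul, ← integral_const_mul, ← integral_add hi2 (hi1.const_mul _),
          ← integral_add _ (hi3.const_mul _)]
        · congr 1; ext x; ring
        · exact hi2.add (hi1.const_mul _)
      rw [h4] at h3
      linarith)
  rwa [show 2 * ((∫ x in Ω, f x ^ 2) / 2) = ∫ x in Ω, f x ^ 2 by ring] at h2

variable {hb : Bornology.IsBounded Ω}
  {hf : Measure.hausdorffMeasure (m : ℝ) (frontier Ω) < ⊤} {a κ δ : ℝ}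

/-- A bounded continuous function with compact support is in `L²`. -/
lemma memLp_of_cc {f : Em m → ℝ} (hc : Continuous f) (hs : HasCompactSupport f)
    (hb : Bornology.IsBounded Ω) : MemLp f 2 (volume.restrict Ω) := by
  obtain ⟨C, hC⟩ := hs.exists_bound_of_continuous hc
  have : IsFiniteMeasure ((volume : Measure (Em m)).restrict Ω) :=
    ⟨by simpa using hb.measure_lt_top⟩
  exact MemLp.of_bound hc.aestronglyMeasurable C (Eventually.of_forall hC)

theorem MinData.weak (d : MinData hb hf a κ) (hGG : GG Ω) (hO : IsOpen Ω) {φ : Em m → ℝ}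
    (hφ : ContDiff ℝ (⊤ : ℕ∞) φ) (hφc : HasCompactSupport φ) (hφs : tsupport φ ⊆ Ω)
    (hφ0 : ∀ x, 0 ≤ φ x) :
    0 ≤ ∫ x in Ω, d.w x * (κ ^ 2 * φ x - dv (gradient φ) x) := by
  have hφ1 : ContDiff ℝ 1 φ := hφ.of_le (by simp)
  have hφ2 : ContDiff ℝ 2 φ := contDiff_infty.1 hφ 2
  obtain ⟨L, hL⟩ := hφ1.lipschitzWith_of_hasCompactSupport hφc one_ne_zero
  set φ' : LipC m := ⟨φ, ⟨L, hL⟩, hφc⟩ with hφ'
  have hcoe : (φ' : Em m → ℝ) = φ := rfl
  have hY : ContDiff ℝ 1 (gradient φ) := contDiff_gradient hφ2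
  have hfr : ∀ x ∈ frontier Ω, φ =ᶠ[𝓝 x] 0 := by
    intro x hx
    apply notMem_tsupport_iff_eventuallyEq.1
    intro hx'
    have h1 := hφs hx'
    rw [hO.frontier_eq] at hx
    exact hx.2 h1
  have hgr0 : ∀ x, φ =ᶠ[𝓝 x] 0 → gradient φ x = 0 := by
    intro x hx
    simp only [gradient]
    rw [hx.fderiv_eq]
    simp
  have hcs : HasCompactSupport (gradient φ) := by
    apply HasCompactSupport.of_support_subset_isCompact hφc.isCompact
    intro x hx
    by_contra h
    exact hx (hgr0 x (notMem_tsupport_iff_eventuallyEq.1 h))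
  have hdvc : Continuous (dv (gradient φ)) := continuous_dv hY
  have hdvs : HasCompactSupport (dv (gradient φ)) := by
    apply HasCompactSupport.of_support_subset_isCompact hcs.isCompact
    intro x hx
    by_contra h
    apply hx
    have h1 := notMem_tsupport_iff_eventuallyEq.1 h
    have h2 : dv (gradient φ) x = dv (fun _ => (0 : Em m)) x := dv_congr h1
    rw [h2, dv_const_zero]
  set f : Em m → ℝ := fun x => κ ^ 2 * φ x - dv (gradient φ) x with hfdef
  have hfc : Continuous f := (continuous_const.mul hφ.continuous).sub hdvc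
  have hfs : HasCompactSupport f := (hφc.mul_left).sub hdvs
  have hfL : MemLp f 2 (volume.restrict Ω) := memLp_of_cc hfc hfs hb
  -- the identity for `v_k`
  have hid : ∀ k, form hb hf a κ (d.v k) φ' = ∫ x in Ω, (d.v k : Em m → ℝ) x * f x := by
    intro k
    have h1 := gg_zero hGG (d.v k) hY (fun x hx => hgr0 x (hfr x hx))
    have hi1 : Integrable (fun x => inner ℝ (gradient (d.v k : Em m → ℝ) x) (gradient φ x))
        (volume.restrict Ω) := integrableOn_inner_grad hb (d.v k) φ'
    have hi2 := integrableOn_lc_mul hb (d.v k) hdvc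
    have hi3 : Integrable (fun x => (d.v k : Em m → ℝ) x * φ x) (volume.restrict Ω) :=
      integrableOn_mul hb (d.v k) φ'
    rw [integral_add hi1 hi2] at h1
    rw [form_apply, hcoe]
    have h2 : ∫ x in frontier Ω, (d.v k : Em m → ℝ) x * φ x
        ∂(Measure.hausdorffMeasure (m : ℝ)) = 0 := by
      rw [setIntegral_congr_fun (g := fun _ => (0 : ℝ)) isClosed_frontier.measurableSet]
      · simp
      · intro x hx
        simp [(hfr x hx).self_of_nhds]
    have h3 : ∫ x in Ω, (d.v k : Em m → ℝ) x * f x =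
        κ ^ 2 * (∫ x in Ω, (d.v k : Em m → ℝ) x * φ x) -
          ∫ x in Ω, (d.v k : Em m → ℝ) x * dv (gradient φ) x := by
      rw [← integral_const_mul, ← integral_sub (hi3.const_mul _) hi2]
      congr 1; ext x; simp only [hfdef]; ring
    rw [h2, h3]
    linarith
  have hlim1 : Tendsto (fun k => ∫ x in Ω, (d.v k : Em m → ℝ) x * f x) atTop
      (𝓝 (∫ x in Ω, d.w x * f x)) := by
    rw [tendsto_iff_norm_sub_tendsto_zero]
    have h1 : Tendsto (fun k => Real.sqrt (∫ x in Ω, ((d.v k : Em m → ℝ) x - d.w x) ^ 2) *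
        Real.sqrt (∫ x in Ω, f x ^ 2)) atTop (𝓝 0) := by
      have h2 := (Real.continuous_sqrt.tendsto _).comp d.lim
      have h3 := h2.mul_const (Real.sqrt (∫ x in Ω, f x ^ 2))
      simpa using h3
    refine squeeze_zero (fun k => norm_nonneg _) (fun k => ?_) h1
    have h2 : (∫ x in Ω, (d.v k : Em m → ℝ) x * f x) - ∫ x in Ω, d.w x * f x =
        ∫ x in Ω, ((d.v k : Em m → ℝ) x - d.w x) * f x := by
      have i1 : Integrable (fun x => (d.v k : Em m → ℝ) x * f x) (volume.restrict Ω) :=
        (memLp_two hb (d.v k)).integrable_mul hfL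
      have i2 : Integrable (fun x => d.w x * f x) (volume.restrict Ω) :=
        d.w_mem.integrable_mul hfL
      rw [← integral_sub i1 i2]
      congr 1; ext x; ring
    rw [h2, Real.norm_eq_abs]
    exact int_cs ((memLp_two hb (d.v k)).sub d.w_mem) hfL
  have hlim2 : Tendsto (fun k => load hb φ' - d.ε k * Real.sqrt (form hb hf a κ φ' φ')) atTop
      (𝓝 (load hb φ')) := by
    have h1 := (d.ε_lim.mul_const (Real.sqrt (form hb hf a κ φ' φ'))).const_sub (load hb φ')
    simpa using h1
  have h3 : load hb φ' ≤ ∫ x in Ω, d.w x * f x := by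
    refine le_of_tendsto_of_tendsto' hlim2 hlim1 fun k => ?_
    rw [← hid k]
    exact d.lower k φ'
  refine le_trans ?_ h3
  rw [load_apply]
  exact integral_nonneg hφ0

/-- Product of two elements of `LipC`. -/
noncomputable def lmul (u v : LipC m) : LipC m :=
  ⟨fun x => (u : Em m → ℝ) x * (v : Em m → ℝ) x, by
    obtain ⟨K, hK⟩ := lc_lip u
    obtain ⟨L, hL⟩ := lc_lip v
    obtain ⟨C, hC⟩ := lc_bounded u
    obtain ⟨C', hC'⟩ := lc_bounded v
    have hC0 : 0 ≤ C := (norm_nonneg _).trans (hC 0)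
    have hC0' : 0 ≤ C' := (norm_nonneg _).trans (hC' 0)
    refine ⟨C.toNNReal * L + K * C'.toNNReal, ?_⟩
    apply LipschitzWith.of_dist_le_mul
    intro x y
    rw [dist_eq_norm]
    have e1 : (u : Em m → ℝ) x * (v : Em m → ℝ) x - (u : Em m → ℝ) y * (v : Em m → ℝ) y =
        (u : Em m → ℝ) x * ((v : Em m → ℝ) x - (v : Em m → ℝ) y) +
        ((u : Em m → ℝ) x - (u : Em m → ℝ) y) * (v : Em m → ℝ) y := by ring
    rw [e1]
    refine (norm_add_le _ _).trans ?_
    rw [norm_mul, norm_mul]
    have h1 : ‖(v : Em m → ℝ) x - (v : Em m → ℝ) y‖ ≤ L * dist x y := by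
      rw [← dist_eq_norm]; exact hL.dist_le_mul x y
    have h2 : ‖(u : Em m → ℝ) x - (u : Em m → ℝ) y‖ ≤ K * dist x y := by
      rw [← dist_eq_norm]; exact hK.dist_le_mul x y
    have h3 := mul_le_mul (hC x) h1 (norm_nonneg _) hC0
    have h4 := mul_le_mul h2 (hC' y) (norm_nonneg _) (by positivity)
    have h5 : ((C.toNNReal * L + K * C'.toNNReal : ℝ≥0) : ℝ) * dist x y =
        C * (L * dist x y) + (K * dist x y) * C' := by
      push_cast
      rw [Real.coe_toNNReal C hC0, Real.coe_toNNReal C' hC0']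
      ring
    rw [h5]
    exact add_le_add h3 h4, (lc_compact u).mul_right⟩

lemma lmul_apply (u v : LipC m) (x : Em m) :
    (lmul u v : Em m → ℝ) x = (u : Em m → ℝ) x * (v : Em m → ℝ) x := rfl

lemma gradient_exp {f : Em m → ℝ} {x : Em m} (hf : DifferentiableAt ℝ f x) :
    gradient (fun y => Real.exp (f y)) x = Real.exp (f x) • gradient f x := by
  simp only [gradient]
  rw [fderiv_exp hf, map_smul]

lemma dv_gradient_exp {f : Em m → ℝ} (hf : ContDiff ℝ 2 f) (x : Em m) :
    dv (gradient (fun y => Real.exp (f y))) x =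
      Real.exp (f x) * (‖gradient f x‖ ^ 2 + dv (gradient f) x) := by
  have hd : Differentiable ℝ f := hf.differentiable (by norm_num)
  have h1 : gradient (fun y => Real.exp (f y)) = fun y => Real.exp (f y) • gradient f y := by
    funext y; exact gradient_exp (hd y)
  rw [h1, dv_smul ((hd x).exp) ((contDiff_gradient hf).differentiable one_ne_zero x),
    gradient_exp (hd x), real_inner_smul_left, real_inner_self_eq_norm_sq]
  ring

lemma gradient_inner (p x : Em m) : gradient (fun y : Em m => (inner ℝ p y : ℝ)) x = p := by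
  have h1 : HasFDerivAt (fun y : Em m => (inner ℝ p y : ℝ)) (innerSL ℝ p) x :=
    (innerSL ℝ p).hasFDerivAt
  simp only [gradient]
  rw [h1.fderiv]
  exact (InnerProductSpace.toDual ℝ (Em m)).symm_apply_apply p

end Pool.Agent.RobinBall.E
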