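import Mathlib
import Pool.Agent.RobinBall.Margin

/-!
# The margin at the boundary
-/

set_option autoImplicit false
set_option linter.unusedSectionVars false
set_option linter.unusedVariables false

open MeasureTheory Filter Topology Metric
open scoped NNReal ENNReal Manifold ContDiff

namespace Pool.Agent.RobinBall.E

variable {m : ℕ} {Ω : Set (Em m)}

/-- Output of the barrier construction at `x0`. -/
def BarrierAt (Ω : Set (Em m)) (γ κ : ℝ) (x0 : Em m) : Prop :=
  ∃ (ζ : Em m → ℝ) (U : Set (Em m)) (r1 s2 e1 : ℝ), ContDiff ℝ (⊤ : ℕ∞) ζ ∧ IsOpen U ∧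
      Bornology.IsBounded U ∧ 0 < r1 ∧ 0 < e1 ∧ ball x0 r1 ⊆ U ∧
      (∀ x ∈ closure Ω ∩ closure U, s2 ≤ ζ x → x ∈ U) ∧
      (∀ x ∈ ball x0 r1, s2 + e1 ≤ ζ x) ∧
      (∀ x ∈ closure Ω ∩ U, ‖gradient ζ x‖ ≤ γ) ∧
      (∀ x ∈ closure Ω ∩ U, κ ^ 2 ≤ dv (gradient ζ) x)

/-- Smooth cutoff between a closed set and an open bounded neighbourhood. -/
lemma exists_cutoff {K U : Set (Em m)} (hK : IsClosed K) (hU : IsOpen U)
    (hUb : Bornology.IsBounded U) (hKU : K ⊆ U) :
    ∃ χ : LipC m, (∀ x, 0 ≤ (χ : Em m → ℝ) x) ∧ (∀ x ∈ K, (χ : Em m → ℝ) =ᶠ[𝓝 x] 1) ∧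
      ∀ x ∉ U, (χ : Em m → ℝ) x = 0 := by
  obtain ⟨f, h1, h2, h3⟩ := exists_contMDiffMap_one_nhds_of_subset_interior (n := 1)
    (𝓘(ℝ, Em m)) (s := K) (t := U) hK (by rwa [hU.interior_eq])
  have hcd : ContDiff ℝ 1 (f : Em m → ℝ) := f.contMDiff.contDiff
  have hcs : HasCompactSupport (f : Em m → ℝ) := by
    apply HasCompactSupport.of_support_subset_isCompact
      (K := closure U) hUb.isCompact_closure
    intro x hx
    by_contra h
    exact hx (h2 x fun h' => h (subset_closure h'))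
  obtain ⟨L, hL⟩ := hcd.lipschitzWith_of_hasCompactSupport hcs one_ne_zero
  refine ⟨⟨f, ⟨L, hL⟩, hcs⟩, fun x => (h3 x).1, fun x hx => ?_, h2⟩
  have h4 : ∀ᶠ y in 𝓝 x, f y = 1 := h1.filter_mono (nhds_le_nhdsSet hx)
  exact h4

variable {hb : Bornology.IsBounded Ω}
  {hf : Measure.hausdorffMeasure (m : ℝ) (frontier Ω) < ⊤} {a κ δ : ℝ}

/-- The excess over an exponential below the weak solution tends to zero. -/
lemma MinData.excess (d : MinData hb hf a κ) (hGG : GG Ω) (hcm : 0 < cH m) (hO : IsOpen Ω)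
    (hδ : 0 < δ) (hR : RobinPos Ω a κ δ) {β' : ℝ} (hββ : β' < a * cH m)
    {p : Em m} (hp : ‖p‖ ≤ β') {c : ℝ} (hc : 0 ≤ c)
    (hcw : ∀ᵐ x ∂(volume.restrict Ω), c * Real.exp (inner ℝ p x) ≤ d.w x)
    {z : LipC m} (hz : ∀ x ∈ closure Ω, (z : Em m → ℝ) =ᶠ[𝓝 x] fun y => Real.exp (inner ℝ p y)) :
    Tendsto (fun k => Real.sqrt (form hb hf a κ (posp (c • z - d.v k)) (posp (c • z - d.v k))))
      atTop (𝓝 0) := by
  set e : ℕ → LipC m := fun k => posp (c • z - d.v k) with he
  have hint : ContDiff ℝ 2 (fun y : Em m => (inner ℝ p y : ℝ)) := contDiff_const.inner ℝ contDiff_id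
  have hZ : ContDiff ℝ 2 (fun y : Em m => Real.exp (inner ℝ p y)) := hint.exp
  have hgradf : gradient (fun y : Em m => (inner ℝ p y : ℝ)) = fun _ => p := by
    funext x; exact gradient_inner p x
  have hgr : ∀ x, gradient (fun y : Em m => Real.exp (inner ℝ p y)) x =
      Real.exp (inner ℝ p x) • p := by
    intro x
    rw [gradient_exp ((hint.differentiable (by norm_num)) x), gradient_inner]
  have hdvz : ∀ x, dv (gradient (fun y : Em m => Real.exp (inner ℝ p y))) x =
      Real.exp (inner ℝ p x) * ‖p‖ ^ 2 := by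
    intro x
    rw [dv_gradient_exp hint, hgradf]
    simp [dv]
  -- L2 smallness
  have hl2 : Tendsto (fun k => ∫ x in Ω, (e k : Em m → ℝ) x ^ 2) atTop (𝓝 0) := by
    refine squeeze_zero (fun k => integral_nonneg fun x => sq_nonneg _) (fun k => ?_) d.lim
    apply integral_mono_ae
    · simpa only [pow_two] using integrableOn_mul hb (e k) (e k)
    · exact d.int_sq k
    · filter_upwards [hcw, ae_restrict_mem hO.measurableSet] with x hx hxΩ
      have h1 : (e k : Em m → ℝ) x = max (c * (z : Em m → ℝ) x - (d.v k : Em m → ℝ) x) 0 := rfl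
      rw [(hz x (subset_closure hxΩ)).self_of_nhds] at h1
      have h2 : (e k : Em m → ℝ) x ≤ |(d.v k : Em m → ℝ) x - d.w x| := by
        rw [h1]
        apply max_le _ (abs_nonneg _)
        have := neg_abs_le ((d.v k : Em m → ℝ) x - d.w x)
        linarith
      rw [← sq_abs ((d.v k : Em m → ℝ) x - d.w x)]
      exact pow_le_pow_left₀ (posp_nonneg _ _) h2 2
  -- the bound
  set q : ℕ → ℝ := fun k => c * κ ^ 2 *
    (Real.sqrt (∫ x in Ω, (e k : Em m → ℝ) x ^ 2) *
      Real.sqrt (∫ x in Ω, (z : Em m → ℝ) x ^ 2)) with hq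
  have hq0 : ∀ k, 0 ≤ q k := fun k => by positivity
  have hqlim : Tendsto q atTop (𝓝 0) := by
    have h2 := (Real.continuous_sqrt.tendsto _).comp hl2
    have h3 := (h2.mul_const (Real.sqrt (∫ x in Ω, (z : Em m → ℝ) x ^ 2))).const_mul (c * κ ^ 2)
    simpa [hq] using h3
  have hbound : ∀ k, Real.sqrt (form hb hf a κ (e k) (e k)) ≤ d.ε k + Real.sqrt (q k) := by
    intro k
    have h1 : form hb hf a κ (c • z - d.v k) (e k) = form hb hf a κ (e k) (e k) :=
      form_posp hb hf a κ _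
    have h2 := d.lower k (e k)
    have h3 := form_smooth_le hGG hcm hO hb hf a κ hZ z hz (e k) (posp_nonneg _) (by
      intro x _ _
      rw [hgr, norm_smul, Real.norm_of_nonneg (Real.exp_pos _).le, mul_comm]
      exact mul_le_mul_of_nonneg_right (by linarith) (Real.exp_pos _).le)
    have h4 : ∫ x in Ω, (e k : Em m → ℝ) x * (κ ^ 2 * Real.exp (inner ℝ p x) -
        dv (gradient (fun y : Em m => Real.exp (inner ℝ p y))) x) ≤
        κ ^ 2 * ∫ x in Ω, (e k : Em m → ℝ) x * (z : Em m → ℝ) x := by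
      rw [← integral_const_mul]
      apply integral_mono_ae
      · exact integrableOn_lc_mul hb (e k) ((continuous_const.mul hZ.continuous).sub
          (continuous_dv (contDiff_gradient hZ)))
      · exact (integrableOn_mul hb (e k) z).const_mul _
      · filter_upwards [ae_restrict_mem hO.measurableSet] with x hxΩ
        rw [hdvz, (hz x (subset_closure hxΩ)).self_of_nhds]
        have h5 : 0 ≤ (e k : Em m → ℝ) x := posp_nonneg _ _
        have h6 := (Real.exp_pos (inner ℝ p x)).le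
        have h7 : 0 ≤ (e k : Em m → ℝ) x * (Real.exp (inner ℝ p x) * ‖p‖ ^ 2) := by positivity
        nlinarith
    have h5 := (le_abs_self _).trans (int_cs (memLp_two hb (e k)) (memLp_two hb z))
    have h6 : 0 ≤ load hb (e k) := by
      rw [load_apply]; exact integral_nonneg (posp_nonneg _)
    have h7 : c * form hb hf a κ z (e k) ≤ q k := by
      have h8 : form hb hf a κ z (e k) ≤ κ ^ 2 *
          (Real.sqrt (∫ x in Ω, (e k : Em m → ℝ) x ^ 2) *
            Real.sqrt (∫ x in Ω, (z : Em m → ℝ) x ^ 2)) :=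
        (h3.trans h4).trans (mul_le_mul_of_nonneg_left h5 (sq_nonneg κ))
      calc c * form hb hf a κ z (e k) ≤ c * (κ ^ 2 *
          (Real.sqrt (∫ x in Ω, (e k : Em m → ℝ) x ^ 2) *
            Real.sqrt (∫ x in Ω, (z : Em m → ℝ) x ^ 2))) := mul_le_mul_of_nonneg_left h8 hc
        _ = q k := by simp only [hq]; ring
    rw [map_sub, LinearMap.sub_apply, map_smul, LinearMap.smul_apply, smul_eq_mul] at h1
    have h8 := form_nonneg hb hf hδ hR (e k)
    apply small_of_le (Real.sqrt_nonneg _) (d.ε_nonneg k) (hq0 k)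
    rw [Real.mul_self_sqrt h8]
    linarith
  refine squeeze_zero (fun k => Real.sqrt_nonneg _) hbound ?_
  have h1 := d.ε_lim.add ((Real.continuous_sqrt.tendsto _).comp hqlim)
  simpa using h1

theorem MinData.margin_local (d : MinData hb hf a κ) (hGG : GG Ω) (hcm : 0 < cH m)
    (hO : IsOpen Ω) (hδ : 0 < δ) (hR : RobinPos Ω a κ δ) {β' : ℝ} (hββ : β' < a * cH m)
    {x0 : Em m} {ζ : Em m → ℝ} {U : Set (Em m)} {r1 s2 e1 : ℝ} (hζ : ContDiff ℝ (⊤ : ℕ∞) ζ)
    (hU : IsOpen U) (hUb : Bornology.IsBounded U) (he1 : 0 < e1) (hball : ball x0 r1 ⊆ U)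
    (h1 : ∀ x ∈ closure Ω ∩ closure U, s2 ≤ ζ x → x ∈ U)
    (h2 : ∀ x ∈ ball x0 r1, s2 + e1 ≤ ζ x)
    (h3 : ∀ x ∈ closure Ω ∩ U, ‖gradient ζ x‖ ≤ a * cH m - β')
    (h4 : ∀ x ∈ closure Ω ∩ U, κ ^ 2 ≤ dv (gradient ζ) x)
    {p : Em m} (hp : ‖p‖ ≤ β') {c : ℝ} (hc : 0 ≤ c)
    (hcw : ∀ᵐ x ∂(volume.restrict Ω), c * Real.exp (inner ℝ p x) ≤ d.w x) :
    ∀ᵐ x ∂(volume.restrict (Ω ∩ ball x0 r1)),
      c * Real.exp e1 * Real.exp (inner ℝ p x) ≤ d.w x := by
  have hζ2 : ContDiff ℝ 2 ζ := contDiff_infty.1 hζ 2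
  have hint : ContDiff ℝ 2 (fun y : Em m => (inner ℝ p y : ℝ)) := contDiff_const.inner ℝ contDiff_id
  have hF : ContDiff ℝ 2 (fun y : Em m => (inner ℝ p y : ℝ) + ζ y) := hint.add hζ2
  have hz0 : ContDiff ℝ 2 (fun y : Em m => Real.exp (inner ℝ p y)) := hint.exp
  have hZ0 : ContDiff ℝ 2 (fun y : Em m => Real.exp ((inner ℝ p y : ℝ) + ζ y)) := hF.exp
  obtain ⟨z, V, hV, hΩV, hzV⟩ := exists_lc_eq hb (hz0.of_le one_le_two)
  obtain ⟨Z, V', hV', hΩV', hZV'⟩ := exists_lc_eq hb (hZ0.of_le one_le_two)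
  have hz : ∀ x ∈ closure Ω, (z : Em m → ℝ) =ᶠ[𝓝 x] fun y => Real.exp (inner ℝ p y) := by
    intro x hx
    filter_upwards [hV.mem_nhds (hΩV hx)] with y hy
    exact hzV y hy
  have hZ : ∀ x ∈ closure Ω, (Z : Em m → ℝ) =ᶠ[𝓝 x]
      fun y => Real.exp ((inner ℝ p y : ℝ) + ζ y) := by
    intro x hx
    filter_upwards [hV'.mem_nhds (hΩV' hx)] with y hy
    exact hZV' y hy
  have hgradF : ∀ x, gradient (fun y : Em m => (inner ℝ p y : ℝ) + ζ y) x = p + gradient ζ x := by
    intro x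
    have := gradient_add' (u := fun y : Em m => (inner ℝ p y : ℝ)) (v := ζ) (x := x)
      ((hint.differentiable (by norm_num)) x) ((hζ2.differentiable (by norm_num)) x)
    rw [gradient_inner] at this
    exact this
  have hgradZ : ∀ x, gradient (fun y : Em m => Real.exp ((inner ℝ p y : ℝ) + ζ y)) x =
      Real.exp ((inner ℝ p x : ℝ) + ζ x) • (p + gradient ζ x) := by
    intro x
    rw [gradient_exp ((hF.differentiable (by norm_num)) x), hgradF]
  have hdvF : ∀ x, dv (gradient (fun y : Em m => (inner ℝ p y : ℝ) + ζ y)) x =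
      dv (gradient ζ) x := by
    intro x
    have h5 : gradient (fun y : Em m => (inner ℝ p y : ℝ) + ζ y) = fun y => p + gradient ζ y := by
      funext y; exact hgradF y
    rw [h5]
    unfold dv
    rw [fderiv_const_add]
  have hdvZ : ∀ x, dv (gradient (fun y : Em m => Real.exp ((inner ℝ p y : ℝ) + ζ y))) x =
      Real.exp ((inner ℝ p x : ℝ) + ζ x) * (‖p + gradient ζ x‖ ^ 2 + dv (gradient ζ) x) := by
    intro x
    rw [dv_gradient_exp hF, hgradF, hdvF]
  set e : ℕ → LipC m := fun k => posp (c • z - d.v k) with he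
  have helim : Tendsto (fun k => Real.sqrt (form hb hf a κ (e k) (e k))) atTop (𝓝 0) :=
    d.excess hGG hcm hO hδ hR hββ hp hc hcw hz
  -- cutoff
  have hK : IsClosed ((closure Ω ∩ closure U) ∩ {x | s2 ≤ ζ x}) :=
    (isClosed_closure.inter isClosed_closure).inter
      (isClosed_le continuous_const hζ.continuous)
  obtain ⟨χ, hχ0, hχ1, hχU⟩ := exists_cutoff hK hU hUb (fun x hx => h1 x hx.1 hx.2)
  set c' : ℝ := c * Real.exp (-s2) with hc'
  have hc'0 : 0 ≤ c' := by positivity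
  set D : ℕ → LipC m := fun k => c' • Z - d.v k - e k with hD
  set φ : ℕ → LipC m := fun k => lmul χ (posp (D k)) with hφ
  have hφ0 : ∀ k x, 0 ≤ (φ k : Em m → ℝ) x := fun k x =>
    mul_nonneg (hχ0 x) (posp_nonneg _ _)
  have hDx : ∀ k x, (D k : Em m → ℝ) x = c' * (Z : Em m → ℝ) x - (d.v k : Em m → ℝ) x -
      (e k : Em m → ℝ) x := fun k x => rfl
  have hex : ∀ k x, (e k : Em m → ℝ) x = max (c * (z : Em m → ℝ) x - (d.v k : Em m → ℝ) x) 0 :=
    fun k x => rfl
  have hposK : ∀ k, ∀ x ∈ closure Ω, 0 < (φ k : Em m → ℝ) x →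
      x ∈ U ∧ x ∈ (closure Ω ∩ closure U) ∩ {x | s2 ≤ ζ x} ∧ 0 < (D k : Em m → ℝ) x := by
    intro k x hx hpos
    have hxU : x ∈ U := by
      by_contra h
      have : (φ k : Em m → ℝ) x = 0 := by
        rw [hφ]; simp only [lmul_apply, hχU x h, zero_mul]
      linarith
    have hDpos : 0 < (D k : Em m → ℝ) x := by
      by_contra h
      have h5 : (posp (D k) : Em m → ℝ) x = 0 := by
        rw [posp_apply, max_eq_right (not_lt.1 h)]
      have : (φ k : Em m → ℝ) x = 0 := by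
        rw [hφ]; simp only [lmul_apply, h5, mul_zero]
      linarith
    refine ⟨hxU, ⟨⟨hx, subset_closure hxU⟩, ?_⟩, hDpos⟩
    by_contra hlt
    simp only [Set.mem_ofPred_eq, not_le] at hlt
    rw [hDx, hex, (hZ x hx).self_of_nhds, (hz x hx).self_of_nhds] at hDpos
    have h5 := le_max_left (c * Real.exp (inner ℝ p x) - (d.v k : Em m → ℝ) x) 0
    have h6 : c' * Real.exp ((inner ℝ p x : ℝ) + ζ x) ≤ c * Real.exp (inner ℝ p x) := by
      rw [hc', mul_assoc, ← Real.exp_add]
      apply mul_le_mul_of_nonneg_left _ hc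
      apply Real.exp_le_exp.2
      linarith
    linarith
  have hform : ∀ k, form hb hf a κ (D k) (φ k) = form hb hf a κ (φ k) (φ k) := by
    intro k
    apply form_trunc hb hf hO a κ (D k) (φ k) (hφ0 k)
    intro x hx hpos
    obtain ⟨hxU, hxK, hDpos⟩ := hposK k x hx hpos
    filter_upwards [hχ1 x hxK, (lc_continuous (D k)).continuousAt.eventually (lt_mem_nhds hDpos)]
      with y hy hy'
    rw [hφ]
    simp only [lmul_apply]
    rw [hy, posp_apply, max_eq_left hy'.le]
    simp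
  have hsq : ∀ k, Real.sqrt (form hb hf a κ (φ k) (φ k)) ≤
      d.ε k + Real.sqrt (form hb hf a κ (e k) (e k)) := by
    intro k
    have h5 := hform k
    have h6 := d.lower k (φ k)
    have h7 := form_smooth_le hGG hcm hO hb hf a κ hZ0 Z hZ (φ k) (hφ0 k) (by
      intro x hx hpos
      obtain ⟨hxU, hxK, hDpos⟩ := hposK k x hx hpos
      rw [hgradZ, norm_smul, Real.norm_of_nonneg (Real.exp_pos _).le, mul_comm]
      apply mul_le_mul_of_nonneg_right _ (Real.exp_pos _).le
      have h8 := norm_add_le p (gradient ζ x)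
      have h9 := h3 x ⟨hx, hxU⟩
      linarith)
    have h8 : ∫ x in Ω, (φ k : Em m → ℝ) x * (κ ^ 2 * Real.exp ((inner ℝ p x : ℝ) + ζ x) -
        dv (gradient (fun y : Em m => Real.exp ((inner ℝ p y : ℝ) + ζ y))) x) ≤ 0 := by
      apply setIntegral_nonpos hO.measurableSet
      intro x hx
      rcases (hφ0 k x).eq_or_lt with h9 | h9
      · rw [← h9, zero_mul]
      · obtain ⟨hxU, hxK, hDpos⟩ := hposK k x (subset_closure hx) h9
        apply mul_nonpos_of_nonneg_of_nonpos h9.le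
        rw [hdvZ]
        have h10 := h4 x ⟨subset_closure hx, hxU⟩
        have h11 := Real.exp_pos ((inner ℝ p x : ℝ) + ζ x)
        have h12 := sq_nonneg ‖p + gradient ζ x‖
        nlinarith
    have h9 : c' * form hb hf a κ Z (φ k) ≤ 0 :=
      mul_nonpos_of_nonneg_of_nonpos hc'0 (h7.trans h8)
    have h10 : 0 ≤ load hb (φ k) := by
      rw [load_apply]; exact integral_nonneg (hφ0 k)
    have h11 := (neg_abs_le (form hb hf a κ (e k) (φ k)))
    have h12 := form_cs hb hf hδ hR (e k) (φ k)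
    simp only [hD, map_sub, LinearMap.sub_apply, map_smul, LinearMap.smul_apply,
      smul_eq_mul] at h5
    have h13 := form_nonneg hb hf hδ hR (φ k)
    have h14 := small_of_le (r := d.ε k + Real.sqrt (form hb hf a κ (e k) (e k))) (q := 0)
      (Real.sqrt_nonneg (form hb hf a κ (φ k) (φ k)))
      (add_nonneg (d.ε_nonneg k) (Real.sqrt_nonneg _)) le_rfl (by
        rw [Real.mul_self_sqrt h13, add_mul]
        linarith)
    simpa using h14
  have hφlim : Tendsto (fun k => Real.sqrt (form hb hf a κ (φ k) (φ k))) atTop (𝓝 0) := by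
    refine squeeze_zero (fun k => Real.sqrt_nonneg _) hsq ?_
    simpa using d.ε_lim.add helim
  have hφ2 := l2_lim_of_form hδ hR hφlim
  have he2 := l2_lim_of_form hδ hR helim
  have hsum : Tendsto (fun k => ∫ x in Ω, ((φ k + e k : LipC m) : Em m → ℝ) x ^ 2) atTop
      (𝓝 0) := by
    have h5 := (hφ2.const_mul 2).add (he2.const_mul 2)
    simp only [mul_zero, add_zero] at h5
    refine squeeze_zero (fun k => integral_nonneg fun x => sq_nonneg _) (fun k => ?_) h5
    have i1 : Integrable (fun x => (φ k : Em m → ℝ) x ^ 2) (volume.restrict Ω) := by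
      simpa only [pow_two] using integrableOn_mul hb (φ k) (φ k)
    have i2 : Integrable (fun x => (e k : Em m → ℝ) x ^ 2) (volume.restrict Ω) := by
      simpa only [pow_two] using integrableOn_mul hb (e k) (e k)
    have i3 : Integrable (fun x => ((φ k + e k : LipC m) : Em m → ℝ) x ^ 2)
        (volume.restrict Ω) := by
      simpa only [pow_two] using integrableOn_mul hb (φ k + e k) (φ k + e k)
    rw [← integral_const_mul, ← integral_const_mul, ← integral_add (i1.const_mul 2)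
      (i2.const_mul 2)]
    apply integral_mono i3 ((i1.const_mul 2).add (i2.const_mul 2))
    intro x
    have h6 : ((φ k + e k : LipC m) : Em m → ℝ) x = (φ k : Em m → ℝ) x + (e k : Em m → ℝ) x := rfl
    simp only [h6, Pi.add_apply]
    nlinarith [sq_nonneg ((φ k : Em m → ℝ) x - (e k : Em m → ℝ) x)]
  have hfinal := d.le_w (B := ball x0 r1)
    (g := fun x => c' * Real.exp ((inner ℝ p x : ℝ) + ζ x)) hO isOpen_ball (fun k => φ k + e k)
    (fun k x => add_nonneg (hφ0 k x) (posp_nonneg _ _)) hsum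
    (continuous_const.mul hZ0.continuous) (by
      intro k x hx
      have hxc := subset_closure hx.1
      have hxU := hball hx.2
      have hs := h2 x hx.2
      have hxK : x ∈ (closure Ω ∩ closure U) ∩ {x | s2 ≤ ζ x} :=
        ⟨⟨hxc, subset_closure hxU⟩, by simp only [Set.mem_ofPred_eq]; linarith⟩
      have h5 : (φ k : Em m → ℝ) x = (posp (D k) : Em m → ℝ) x := by
        rw [hφ]
        simp only [lmul_apply]
        rw [(hχ1 x hxK).self_of_nhds]
        simp
      have h6 : ((φ k + e k : LipC m) : Em m → ℝ) x =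
        (φ k : Em m → ℝ) x + (e k : Em m → ℝ) x := rfl
      have h7 : (D k : Em m → ℝ) x ≤ (posp (D k) : Em m → ℝ) x := le_max_left _ _
      rw [hDx, (hZ x hxc).self_of_nhds] at h7
      rw [h6, h5]
      linarith)
  filter_upwards [hfinal, ae_restrict_mem (hO.measurableSet.inter measurableSet_ball)] with x hx hxB
  refine le_trans ?_ hx
  have hs := h2 x hxB.2
  rw [hc', mul_assoc, mul_assoc, ← Real.exp_add, ← Real.exp_add]
  apply mul_le_mul_of_nonneg_left _ hc
  apply Real.exp_le_exp.2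
  linarith

/-- Uniform margin near the whole boundary. -/
theorem MinData.margin (d : MinData hb hf a κ) (hGG : GG Ω) (hcm : 0 < cH m)
    (hO : IsOpen Ω) (hne : (frontier Ω).Nonempty) (hδ : 0 < δ) (hR : RobinPos Ω a κ δ) {β' : ℝ}
    (hββ : β' < a * cH m)
    (hbar : ∀ x0 ∈ frontier Ω, BarrierAt Ω (a * cH m - β') κ x0) :
    ∃ η e1 : ℝ, 0 < η ∧ 0 < e1 ∧ ∀ p ∈ closedBall (0 : Em m) β', ∀ c : ℝ, 0 ≤ c →
      (∀ᵐ x ∂(volume.restrict Ω), c * Real.exp (inner ℝ p x) ≤ d.w x) →
      (∀ᵐ x ∂(volume.restrict Ω), infDist x (frontier Ω) < η →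
        c * Real.exp e1 * Real.exp (inner ℝ p x) ≤ d.w x) := by
  have hcomp : IsCompact (frontier Ω) := hb.isCompact_closure.of_isClosed_subset
    isClosed_frontier frontier_subset_closure
  have key : ∃ V : Set (Em m), IsOpen V ∧ frontier Ω ⊆ V ∧ ∃ e1 : ℝ, 0 < e1 ∧
      ∀ p ∈ closedBall (0 : Em m) β', ∀ c : ℝ, 0 ≤ c →
      (∀ᵐ x ∂(volume.restrict Ω), c * Real.exp (inner ℝ p x) ≤ d.w x) →
      (∀ᵐ x ∂(volume.restrict Ω), x ∈ V →
        c * Real.exp e1 * Real.exp (inner ℝ p x) ≤ d.w x) := by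
    refine hcomp.induction_on (p := fun S => ∃ V : Set (Em m), IsOpen V ∧ S ⊆ V ∧ ∃ e1 : ℝ,
      0 < e1 ∧ ∀ p ∈ closedBall (0 : Em m) β', ∀ c : ℝ, 0 ≤ c →
      (∀ᵐ x ∂(volume.restrict Ω), c * Real.exp (inner ℝ p x) ≤ d.w x) →
      (∀ᵐ x ∂(volume.restrict Ω), x ∈ V →
        c * Real.exp e1 * Real.exp (inner ℝ p x) ≤ d.w x)) ?_ ?_ ?_ ?_
    · exact ⟨∅, isOpen_empty, le_rfl, 1, one_pos, fun p _ c _ _ =>
        Eventually.of_forall fun x hx => absurd hx (Set.notMem_empty x)⟩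
    · rintro s t hst ⟨V, hV, htV, e1, he1, h⟩
      exact ⟨V, hV, hst.trans htV, e1, he1, h⟩
    · rintro s t ⟨V, hV, hsV, e1, he1, h⟩ ⟨W, hW, htW, e2, he2, h'⟩
      refine ⟨V ∪ W, hV.union hW, Set.union_subset_union hsV htW, min e1 e2,
        lt_min he1 he2, fun p hp c hc hcw => ?_⟩
      filter_upwards [h p hp c hc hcw, h' p hp c hc hcw] with x hx hx' hxVW
      rcases hxVW with hxV | hxW
      · refine le_trans ?_ (hx hxV)
        apply mul_le_mul_of_nonneg_right _ (Real.exp_pos _).le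
        apply mul_le_mul_of_nonneg_left _ hc
        exact Real.exp_le_exp.2 (min_le_left _ _)
      · refine le_trans ?_ (hx' hxW)
        apply mul_le_mul_of_nonneg_right _ (Real.exp_pos _).le
        apply mul_le_mul_of_nonneg_left _ hc
        exact Real.exp_le_exp.2 (min_le_right _ _)
    · intro x0 hx0
      obtain ⟨ζ, U, r1, s2, e1, hζ, hU, hUb, hr1, he1, hball, h1, h2, h3, h4⟩ := hbar x0 hx0
      refine ⟨ball x0 r1, mem_nhdsWithin_of_mem_nhds (ball_mem_nhds x0 hr1), ball x0 r1,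
        isOpen_ball, le_rfl, e1, he1, fun p hp c hc hcw => ?_⟩
      have hp' : ‖p‖ ≤ β' := by simpa using hp
      have h5 := d.margin_local hGG hcm hO hδ hR hββ hζ hU hUb he1 hball h1 h2 h3 h4 hp' hc hcw
      rw [Set.inter_comm, ← Measure.restrict_restrict measurableSet_ball,
        ae_restrict_iff' measurableSet_ball] at h5
      exact h5
  obtain ⟨V, hV, hfV, e1, he1, h⟩ := key
  obtain ⟨η, hη, hηV⟩ := hcomp.exists_thickening_subset_open hV hfV
  refine ⟨η, e1, hη, he1, fun p hp c hc hcw => ?_⟩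
  filter_upwards [h p hp c hc hcw] with x hx hxη
  apply hx
  apply hηV
  rw [mem_thickening_iff]
  exact (infDist_lt_iff hne).1 hxη

end Pool.Agent.RobinBall.E
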