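import Mathlib
import Pool.Agent.RobinBall.Defs
import Pool.Agent.RobinBall.SuperOfWeakA

/-!
# Package E2: from a weak supersolution with a margin at the boundary to a smooth one
-/

set_option autoImplicit false

open MeasureTheory Metric Filter Topology
open scoped MeasureTheory NNReal ENNReal Convolution

namespace Pool.Agent.RobinBall.H58

variable {m : ℕ}

lemma two_le_top : (2 : WithTop ℕ∞) ≤ ((⊤ : ℕ∞) : WithTop ℕ∞) := by
  exact WithTop.coe_le_coe.2 (le_top : (2 : ℕ∞) ≤ ⊤)

lemma mem_of_dist_lt {Ω : Set (Em m)} (hΩ : Ω ≠ Set.univ) {x z : Em m} (hx : x ∈ Ω)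
    (h : dist x z < infDist x (frontier Ω)) : z ∈ Ω := by
  by_contra hz
  obtain ⟨y, hy, hxy⟩ := exists_mem_frontier_infDist_compl_eq_dist hx hΩ
  have h1 : infDist x Ωᶜ ≤ dist x z := infDist_le_dist_of_mem hz
  have h2 : infDist x (frontier Ω) ≤ dist x y := infDist_le_dist_of_mem hy
  linarith

lemma hasFDerivAt_const_sub_comp {f : Em m → ℝ} (hf : Differentiable ℝ f) (x y : Em m) :
    HasFDerivAt (fun y => f (x - y)) (-(fderiv ℝ f (x - y))) y := by
  have h1 : HasFDerivAt (fun y : Em m => x - y) (-(ContinuousLinearMap.id ℝ (Em m))) y :=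
    (hasFDerivAt_id y).const_sub x
  have h2 := (hf (x - y)).hasFDerivAt.comp y h1
  rwa [ContinuousLinearMap.comp_neg, ContinuousLinearMap.comp_id] at h2

lemma lp_const_sub {f : Em m → ℝ} (hf : ContDiff ℝ (⊤ : ℕ∞) f) (x y : Em m) :
    lp (fun y => f (x - y)) y = lp f (x - y) := by
  have h1 : ∀ v, dd v (fun y => f (x - y)) = fun y => - dd v f (x - y) := by
    intro v
    funext y
    unfold dd
    rw [(hasFDerivAt_const_sub_comp (hf.differentiable (by simp)) x y).fderiv]
    rfl
  rw [lp_eq, lp_eq]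
  refine Finset.sum_congr rfl fun i _ => ?_
  rw [h1]
  have h2 := hasFDerivAt_const_sub_comp ((dd_contDiff hf (bb i)).differentiable (by simp)) x y
  unfold dd at h2 ⊢
  rw [h2.fun_neg.fderiv]
  simp

lemma lap_conv_le {Ω : Set (Em m)} (hO : IsOpen Ω) {κ : ℝ} {w : Em m → ℝ}
    (hw : LocallyIntegrable (Ω.indicator w) volume)
    (hweak : ∀ φ : Em m → ℝ, ContDiff ℝ (⊤ : ℕ∞) φ → HasCompactSupport φ → tsupport φ ⊆ Ω →
      (∀ x, 0 ≤ φ x) → 0 ≤ ∫ x in Ω, w x * (κ ^ 2 * φ x - dv (gradient φ) x))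
    (φ : ContDiffBump (0 : Em m)) {x : Em m} (hx : closedBall x φ.rOut ⊆ Ω) :
    lp (φ.normed volume ⋆[ContinuousLinearMap.lsmul ℝ ℝ, volume] (Ω.indicator w)) x ≤
      κ ^ 2 * (φ.normed volume ⋆[ContinuousLinearMap.lsmul ℝ ℝ, volume] (Ω.indicator w)) x := by
  set ρ : Em m → ℝ := φ.normed (volume : Measure (Em m)) with hρ
  set W := Ω.indicator w with hW
  have hρs : ContDiff ℝ (⊤ : ℕ∞) ρ := φ.contDiff_normed
  have hρc : HasCompactSupport ρ := φ.hasCompactSupport_normed
  set ψ : Em m → ℝ := fun y => ρ (x - y) with hψ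
  have hψs : ContDiff ℝ (⊤ : ℕ∞) ψ := hρs.comp (contDiff_const.sub contDiff_id)
  have hsupp : Function.support ψ ⊆ closedBall x φ.rOut := by
    intro y hy
    have h1 : x - y ∈ Function.support ρ := hy
    rw [hρ, φ.support_normed_eq, mem_ball_zero_iff] at h1
    rw [mem_closedBall, dist_eq_norm, norm_sub_rev]
    exact h1.le
  have hts : tsupport ψ ⊆ closedBall x φ.rOut := closure_minimal hsupp isClosed_closedBall
  have hψc : HasCompactSupport ψ :=
    HasCompactSupport.of_support_subset_isCompact (isCompact_closedBall x φ.rOut) hsupp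
  have h0 := hweak ψ hψs hψc (hts.trans hx) (fun y => φ.nonneg_normed _)
  have h1 : (∫ y in Ω, w y * (κ ^ 2 * ψ y - dv (gradient ψ) y)) =
      ∫ y, (κ ^ 2 * ρ (x - y) - lp ρ (x - y)) * W y := by
    rw [← integral_indicator hO.measurableSet]
    refine integral_congr_ae (Eventually.of_forall fun y => ?_)
    have h2 : dv (gradient ψ) y = lp ρ (x - y) := by
      rw [dv_gradient (hψs.contDiffAt.of_le two_le_top)]
      exact lp_const_sub hρs x y
    simp only [hW, Set.indicator]
    by_cases hy : y ∈ Ω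
    · rw [if_pos hy, if_pos hy, h2]
      ring
    · rw [if_neg hy, if_neg hy]
      ring
  have hlps : Continuous (lp ρ) := by
    unfold lp
    exact continuous_finsetSum _ fun i _ => (dd_contDiff (dd_contDiff hρs (bb i)) (bb i)).continuous
  have hlpc : HasCompactSupport (lp ρ) := by
    refine HasCompactSupport.of_support_subset_isCompact hρc.isCompact ?_
    intro y hy
    by_contra hcon
    apply hy
    rw [lp_eq]
    refine Finset.sum_eq_zero fun i _ => ?_
    have h3 : y ∉ tsupport (dd (bb i) (dd (bb i) ρ)) := by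
      intro h4
      have t1 : ∀ f : Em m → ℝ, tsupport (dd (bb i) f) ⊆ tsupport f := by
        intro f
        refine closure_minimal (fun z hz => ?_) (isClosed_tsupport f)
        by_contra hz'
        apply hz
        have : z ∉ tsupport (fderiv ℝ f) := fun h => hz' (tsupport_fderiv_subset ℝ h)
        unfold dd
        rw [image_eq_zero_of_notMem_tsupport this]
        rfl
      exact hcon (t1 _ (t1 _ h4))
    exact image_eq_zero_of_notMem_tsupport h3
  have i1 : Integrable (fun y => ρ (x - y) * W y) volume := by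
    have := (HasCompactSupport.convolutionExists_left (ContinuousLinearMap.lsmul ℝ ℝ) hρc
      hρs.continuous hw x).integrable_swap
    simpa only [ContinuousLinearMap.lsmul_apply, smul_eq_mul] using this
  have i2 : Integrable (fun y => lp ρ (x - y) * W y) volume := by
    have := (HasCompactSupport.convolutionExists_left (ContinuousLinearMap.lsmul ℝ ℝ) hlpc
      hlps hw x).integrable_swap
    simpa only [ContinuousLinearMap.lsmul_apply, smul_eq_mul] using this
  have h2 : (∫ y, (κ ^ 2 * ρ (x - y) - lp ρ (x - y)) * W y) =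
      κ ^ 2 * (ρ ⋆[ContinuousLinearMap.lsmul ℝ ℝ, volume] W) x -
        (lp ρ ⋆[ContinuousLinearMap.lsmul ℝ ℝ, volume] W) x := by
    rw [convolution_eq_swap, convolution_eq_swap, ← integral_const_mul, ← integral_sub]
    · refine integral_congr_ae (Eventually.of_forall fun y => ?_)
      simp only [ContinuousLinearMap.lsmul_apply, smul_eq_mul]
      ring
    · simpa only [ContinuousLinearMap.lsmul_apply, smul_eq_mul] using i1.const_mul (κ ^ 2)
    · simpa only [ContinuousLinearMap.lsmul_apply, smul_eq_mul] using i2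
  rw [lp_conv hρs hρc hw x]
  rw [h1, h2] at h0
  linarith

lemma exists_best {Ω : Set (Em m)} (hO : IsOpen Ω) (hne : Ω.Nonempty) {R : ℝ}
    (hR : ∀ x ∈ Ω, ‖x‖ ≤ R) {w : Em m → ℝ} {c0 : ℝ} (hc0 : 0 < c0)
    (hw0 : ∀ᵐ x ∂(volume.restrict Ω), c0 ≤ w x) :
    ∃ c : Em m → ℝ, (∀ p, 0 < c p) ∧
      (∀ p, ∀ᵐ x ∂(volume.restrict Ω), c p * Real.exp (inner ℝ p x) ≤ w x) ∧
      (∀ p c', 0 ≤ c' → (∀ᵐ x ∂(volume.restrict Ω), c' * Real.exp (inner ℝ p x) ≤ w x) →
        c' ≤ c p) := by
  have hin : ∀ᵐ x ∂(volume.restrict Ω), x ∈ Ω := ae_restrict_mem hO.measurableSet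
  have hne' : (ae ((volume : Measure (Em m)).restrict Ω)).NeBot := by
    rw [ae_restrict_neBot]
    exact (hO.measure_pos volume hne).ne'
  set C : Em m → Set ℝ := fun p =>
    {c | 0 ≤ c ∧ ∀ᵐ x ∂(volume.restrict Ω), c * Real.exp (inner ℝ p x) ≤ w x} with hC
  have hmem : ∀ p, c0 * Real.exp (-(‖p‖ * R)) ∈ C p := by
    intro p
    refine ⟨by positivity, ?_⟩
    filter_upwards [hw0, hin] with x hx hxΩ
    refine le_trans ?_ hx
    have h1 : inner ℝ p x ≤ ‖p‖ * R :=
      (real_inner_le_norm p x).trans (mul_le_mul_of_nonneg_left (hR x hxΩ) (norm_nonneg _))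
    have h2 : Real.exp (-(‖p‖ * R)) * Real.exp (inner ℝ p x) ≤ 1 := by
      rw [← Real.exp_add]
      apply Real.exp_le_one_iff.2
      linarith
    rw [mul_assoc]
    exact mul_le_of_le_one_right hc0.le h2
  have hbdd : ∀ p, BddAbove (C p) := by
    intro p
    by_contra hcon
    rw [not_bddAbove_iff] at hcon
    have h1 : ∀ n : ℕ, ∀ᵐ x ∂(volume.restrict Ω), (n : ℝ) * Real.exp (inner ℝ p x) ≤ w x := by
      intro n
      obtain ⟨c, hc, hcn⟩ := hcon n
      filter_upwards [hc.2] with x hx
      exact (mul_le_mul_of_nonneg_right hcn.le (Real.exp_pos _).le).trans hx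
    have h2 := ae_all_iff.2 h1
    obtain ⟨x, hx⟩ := h2.exists
    obtain ⟨n, hn⟩ := exists_nat_gt (w x / Real.exp (inner ℝ p x))
    rw [div_lt_iff₀ (Real.exp_pos _)] at hn
    exact absurd (hx n) (not_le.2 hn)
  refine ⟨fun p => sSup (C p), ?_, ?_, ?_⟩
  · intro p
    exact lt_of_lt_of_le (by positivity) (le_csSup (hbdd p) (hmem p))
  · intro p
    have h1 : ∀ n : ℕ, ∀ᵐ x ∂(volume.restrict Ω),
        (sSup (C p) - 1 / ((n : ℝ) + 1)) * Real.exp (inner ℝ p x) ≤ w x := by
      intro n
      have h2 : sSup (C p) - 1 / ((n : ℝ) + 1) < sSup (C p) := by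
        have : 0 < 1 / ((n : ℝ) + 1) := by positivity
        linarith
      obtain ⟨c, hc, hcn⟩ := exists_lt_of_lt_csSup ⟨_, hmem p⟩ h2
      filter_upwards [hc.2] with x hx
      exact (mul_le_mul_of_nonneg_right hcn.le (Real.exp_pos _).le).trans hx
    filter_upwards [ae_all_iff.2 h1] with x hx
    have h3 : Tendsto (fun n : ℕ => (sSup (C p) - 1 / ((n : ℝ) + 1)) * Real.exp (inner ℝ p x))
        atTop (𝓝 ((sSup (C p) - 0) * Real.exp (inner ℝ p x))) :=
      (tendsto_const_nhds.sub tendsto_one_div_add_atTop_nhds_zero_nat).mul_const _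
    rw [sub_zero] at h3
    exact le_of_tendsto h3 (Eventually.of_forall hx)
  · intro p c' hc' h
    exact le_csSup (hbdd p) ⟨hc', h⟩

end Pool.Agent.RobinBall.H58

namespace Pool.Agent.RobinBall

open H58

theorem super_of_weak {m : ℕ} {Ω : Set (Em m)} (hO : IsOpen Ω) (hne : Ω.Nonempty)
    (hb : Bornology.IsBounded Ω) {κ β' : ℝ} (hβ' : 0 < β')
    {w : Em m → ℝ} (hw : MemLp w 2 (volume.restrict Ω))
    {c0 : ℝ} (hc0 : 0 < c0) (hw0 : ∀ᵐ x ∂(volume.restrict Ω), c0 ≤ w x)
    (hweak : ∀ φ : Em m → ℝ, ContDiff ℝ (⊤ : ℕ∞) φ → HasCompactSupport φ → tsupport φ ⊆ Ω →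
      (∀ x, 0 ≤ φ x) → 0 ≤ ∫ x in Ω, w x * (κ ^ 2 * φ x - dv (gradient φ) x))
    {η e1 : ℝ} (hη : 0 < η) (he1 : 0 < e1)
    (hmargin : ∀ p ∈ closedBall (0 : Em m) β', ∀ c : ℝ, 0 ≤ c →
      (∀ᵐ x ∂(volume.restrict Ω), c * Real.exp (inner ℝ p x) ≤ w x) →
      (∀ᵐ x ∂(volume.restrict Ω), infDist x (frontier Ω) < η →
        c * Real.exp e1 * Real.exp (inner ℝ p x) ≤ w x)) :
    ∃ (D : Set (Em m)) (h : Em m → ℝ), IsOpen D ∧ D ⊆ Ω ∧ ContDiffOn ℝ (⊤ : ℕ∞) h D ∧
      (∀ p ∈ Metric.closedBall (0 : Em m) β', ∃ x ∈ D, ∀ y ∈ D,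
        h x - inner ℝ p x ≤ h y - inner ℝ p y) ∧
      (∀ x ∈ D, trc (hess h x) + ‖gradient h x‖ ^ 2 ≤ κ ^ 2) := by
  have hΩu : Ω ≠ Set.univ := by
    rintro rfl
    exact NormedSpace.unbounded_univ ℝ (Em m) hb
  obtain ⟨R0, hR0⟩ := hb.exists_norm_le
  obtain ⟨R, hRdef⟩ : ∃ R : ℝ, R = max R0 1 := ⟨_, rfl⟩
  have hRpos : 0 < R := by rw [hRdef]; exact lt_max_of_lt_right one_pos
  have hR : ∀ x ∈ Ω, ‖x‖ ≤ R := fun x hx => (hR0 x hx).trans (by rw [hRdef]; exact le_max_left _ _)
  -- integrability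
  have hfin : IsFiniteMeasure ((volume : Measure (Em m)).restrict Ω) :=
    ⟨by rw [Measure.restrict_apply_univ]; exact hb.measure_lt_top⟩
  have hwint : Integrable w (volume.restrict Ω) := hw.integrable (by norm_num)
  set W : Em m → ℝ := Ω.indicator w with hWdef
  have hWint : Integrable W volume := (integrable_indicator_iff hO.measurableSet).2 hwint
  have hWloc : LocallyIntegrable W volume := hWint.locallyIntegrable
  have hWeq : ∀ x ∈ Ω, W x = w x := fun x hx => Set.indicator_of_mem hx w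
  -- the bumps
  set φ : ℕ → ContDiffBump (0 : Em m) := fun n =>
    ⟨1 / ((n : ℝ) + 1) / 2, 1 / ((n : ℝ) + 1), by positivity, by
      have : 0 < 1 / ((n : ℝ) + 1) := by positivity
      linarith⟩ with hφ
  have hφout : Tendsto (fun n => (φ n).rOut) atTop (𝓝 0) := tendsto_one_div_add_atTop_nhds_zero_nat
  have hφin : ∀ᶠ n in atTop, (φ n).rOut ≤ 2 * (φ n).rIn := by
    refine Eventually.of_forall fun n => ?_
    change 1 / ((n : ℝ) + 1) ≤ 2 * (1 / ((n : ℝ) + 1) / 2)
    linarith
  set wn : ℕ → Em m → ℝ := fun n =>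
    ((φ n).normed volume ⋆[ContinuousLinearMap.lsmul ℝ ℝ, volume] W) with hwn
  have hwns : ∀ n, ContDiff ℝ (⊤ : ℕ∞) (wn n) := fun n =>
    (φ n).hasCompactSupport_normed.contDiff_convolution_left _ (φ n).contDiff_normed hWloc
  have hleb : ∀ᵐ x ∂(volume : Measure (Em m)), Tendsto (fun n => wn n x) atTop (𝓝 (W x)) :=
    ContDiffBump.ae_convolution_tendsto_right_of_locallyIntegrable hφout hφin hWloc
  obtain ⟨c, hcpos, hcle, hcmax⟩ := exists_best hO hne hR hc0 hw0
  have hin : ∀ᵐ x ∂(volume.restrict Ω), x ∈ Ω := ae_restrict_mem hO.measurableSet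
  have hccomp : ∀ p q, c p ≤ c q * Real.exp (‖p - q‖ * R) := by
    intro p q
    have h1 : c p * Real.exp (-(‖p - q‖ * R)) ≤ c q := by
      refine hcmax q _ (mul_nonneg (hcpos p).le (Real.exp_pos _).le) ?_
      filter_upwards [hcle p, hin] with x hx hxΩ
      refine le_trans ?_ hx
      rw [mul_assoc, ← Real.exp_add]
      refine mul_le_mul_of_nonneg_left (Real.exp_le_exp.2 ?_) (hcpos p).le
      have h2 : inner ℝ (q - p) x ≤ ‖p - q‖ * R := by
        rw [← norm_sub_rev]
        exact (real_inner_le_norm _ x).trans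
          (mul_le_mul_of_nonneg_left (hR x hxΩ) (norm_nonneg _))
      rw [inner_sub_left] at h2
      linarith
    calc c p = c p * Real.exp (-(‖p - q‖ * R)) * Real.exp (‖p - q‖ * R) := by
          rw [mul_assoc, ← Real.exp_add]
          simp
      _ ≤ _ := mul_le_mul_of_nonneg_right h1 (Real.exp_pos _).le
  -- interior points with a small value, uniformly in `p`
  have hnet : ∀ᶠ n in atTop, ∀ q ∈ closedBall (0 : Em m) β', ∃ x ∈ Ω,
      η ≤ infDist x (frontier Ω) ∧
      wn n x * Real.exp (-inner ℝ q x) < c q * Real.exp (3 * e1 / 4) := by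
    refine (isCompact_closedBall (0 : Em m) β').induction_on
      (p := fun t => ∀ᶠ n in atTop, ∀ q ∈ t, ∃ x ∈ Ω, η ≤ infDist x (frontier Ω) ∧
        wn n x * Real.exp (-inner ℝ q x) < c q * Real.exp (3 * e1 / 4)) ?_ ?_ ?_ ?_
    · exact Eventually.of_forall fun n q hq => hq.elim
    · intro s t hst ht
      filter_upwards [ht] with n hn q hq
      exact hn q (hst hq)
    · intro s t hs ht
      filter_upwards [hs, ht] with n h1 h2 q hq
      rcases hq with hq | hq
      · exact h1 q hq
      · exact h2 q hq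
    · intro p hp
      have hfreq : ∃ᶠ x in ae ((volume : Measure (Em m)).restrict Ω),
          ¬ (c p * Real.exp (e1 / 2)) * Real.exp (inner ℝ p x) ≤ w x := by
        intro hcon
        have h1 := hcmax p (c p * Real.exp (e1 / 2)) (mul_nonneg (hcpos p).le (Real.exp_pos _).le)
          (by
            filter_upwards [hcon] with x hx
            exact not_not.1 hx)
        have h2 : 1 < Real.exp (e1 / 2) := Real.one_lt_exp_iff.2 (by positivity)
        have h3 := hcpos p
        nlinarith
      have hmar := hmargin p hp (c p) (hcpos p).le (hcle p)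
      obtain ⟨x, hx1, hx2, hx3, hx4⟩ := (hfreq.and_eventually
        ((hmar.and hin).and (ae_restrict_of_ae hleb))).exists.imp
          (fun x hx => (⟨hx.1, hx.2.1.1, hx.2.1.2, hx.2.2⟩ : _ ∧ _ ∧ _ ∧ _))
      have hx5 : η ≤ infDist x (frontier Ω) := by
        by_contra hcon
        apply hx1
        refine le_trans ?_ (hx2 (not_le.1 hcon))
        refine mul_le_mul_of_nonneg_right ?_ (Real.exp_pos _).le
        refine mul_le_mul_of_nonneg_left (Real.exp_le_exp.2 ?_) (hcpos p).le
        linarith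
      rw [hWeq x hx3] at hx4
      have hev : ∀ᶠ n in atTop, wn n x < c p * Real.exp (e1 / 2) * Real.exp (inner ℝ p x) :=
        hx4.eventually (gt_mem_nhds (not_le.1 hx1))
      refine ⟨closedBall (0 : Em m) β' ∩ ball p (e1 / 8 / R), ?_, ?_⟩
      · exact inter_mem_nhdsWithin _ (ball_mem_nhds p (by positivity))
      · filter_upwards [hev] with n hn q hq
        refine ⟨x, hx3, hx5, ?_⟩
        have hqp : ‖p - q‖ * R < e1 / 8 := by
          have := hq.2
          rw [mem_ball, dist_eq_norm, norm_sub_rev, lt_div_iff₀ hRpos] at this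
          exact this
        have h1 : inner ℝ (p - q) x ≤ ‖p - q‖ * R :=
          (real_inner_le_norm _ x).trans (mul_le_mul_of_nonneg_left (hR x hx3) (norm_nonneg _))
        rw [inner_sub_left] at h1
        calc wn n x * Real.exp (-inner ℝ q x)
            < c p * Real.exp (e1 / 2) * Real.exp (inner ℝ p x) * Real.exp (-inner ℝ q x) :=
              mul_lt_mul_of_pos_right hn (Real.exp_pos _)
          _ = c p * Real.exp (e1 / 2 + inner ℝ p x - inner ℝ q x) := by
              rw [mul_assoc, mul_assoc, ← Real.exp_add, ← Real.exp_add]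
              congr 2
              ring
          _ ≤ (c q * Real.exp (‖p - q‖ * R)) * Real.exp (e1 / 2 + inner ℝ p x - inner ℝ q x) :=
              mul_le_mul_of_nonneg_right (hccomp p q) (Real.exp_pos _).le
          _ = c q * Real.exp (‖p - q‖ * R + (e1 / 2 + inner ℝ p x - inner ℝ q x)) := by
              rw [mul_assoc, ← Real.exp_add]
          _ ≤ c q * Real.exp (3 * e1 / 4) := by
              refine mul_le_mul_of_nonneg_left (Real.exp_le_exp.2 ?_) (hcpos q).le
              linarith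
  -- choice of `n`
  obtain ⟨n, hn1, hn2, hn3⟩ := ((hnet.and (hφout.eventually (gt_mem_nhds
    (by positivity : (0 : ℝ) < η / 4)))).and (hφout.eventually (gt_mem_nhds
    (by positivity : (0 : ℝ) < e1 / 4 / β')))).exists.imp (fun n hn => (⟨hn.1.1, hn.1.2, hn.2⟩ : _ ∧ _ ∧ _))
  have hn3' : β' * (φ n).rOut < e1 / 4 := by
    rw [lt_div_iff₀ hβ'] at hn3
    linarith
  have hrpos : 0 < (φ n).rOut := (φ n).rOut_pos
  set D : Set (Em m) := {x | x ∈ Ω ∧ η / 2 < infDist x (frontier Ω)} with hD
  have hDO : IsOpen D := hO.inter (isOpen_lt continuous_const (continuous_infDist_pt _))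
  have hball : ∀ x ∈ D, ∀ y ∈ closedBall x (φ n).rOut, y ∈ Ω := by
    intro x hx y hy
    refine mem_of_dist_lt hΩu hx.1 ?_
    rw [mem_closedBall, dist_comm] at hy
    linarith [hx.2]
  have hwnc0 : ∀ x ∈ D, c0 ≤ wn n x := by
    intro x hx
    refine conv_ge (φ n) hWloc ?_
    have h1 := (ae_restrict_iff' hO.measurableSet).1 hw0
    filter_upwards [h1] with y hy hy'
    have hyΩ := hball x hx y (ball_subset_closedBall hy')
    rw [hWeq y hyΩ]
    exact hy hyΩ
  have hwnpos : ∀ x ∈ D, 0 < wn n x := fun x hx => lt_of_lt_of_le hc0 (hwnc0 x hx)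
  refine ⟨D, fun x => Real.log (wn n x), hDO, fun x hx => hx.1, ?_, ?_, ?_⟩
  · exact (hwns n).contDiffOn.log fun x hx => (hwnpos x hx).ne'
  · -- the minimum
    intro p hp
    obtain ⟨x0, hx0Ω, hx0η, hx0⟩ := hn1 p hp
    set F : Em m → ℝ := fun x => wn n x * Real.exp (-inner ℝ p x) with hF
    have hFc : Continuous F := (hwns n).continuous.mul
      (Real.continuous_exp.comp (continuous_const.inner continuous_id).neg)
    set Kc : Set (Em m) := closure Ω ∩ {x | 3 * η / 4 ≤ infDist x (frontier Ω)} with hKc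
    have hKcomp : IsCompact Kc := hb.isCompact_closure.inter_right
      (isClosed_le continuous_const (continuous_infDist_pt _))
    have hx0K : x0 ∈ Kc := ⟨subset_closure hx0Ω, by
      change 3 * η / 4 ≤ _
      linarith⟩
    obtain ⟨x, hxK, hxmin⟩ := hKcomp.exists_isMinOn ⟨x0, hx0K⟩ hFc.continuousOn
    have hxΩ : x ∈ Ω := by
      by_contra hcon
      have h1 : x ∈ frontier Ω := by
        rw [hO.frontier_eq]
        exact ⟨hxK.1, hcon⟩
      have h2 := infDist_zero_of_mem h1
      have h3 : 3 * η / 4 ≤ infDist x (frontier Ω) := hxK.2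
      linarith
    have hxD : x ∈ D := ⟨hxΩ, by
      have h3 : 3 * η / 4 ≤ infDist x (frontier Ω) := hxK.2
      linarith⟩
    refine ⟨x, hxD, fun y hy => ?_⟩
    have hmain : F x ≤ F y := by
      by_cases hyc : 3 * η / 4 ≤ infDist y (frontier Ω)
      · exact hxmin ⟨subset_closure hy.1, hyc⟩
      · have h1 : c p * Real.exp (3 * e1 / 4) * Real.exp (inner ℝ p y) ≤ wn n y := by
          refine conv_ge (φ n) hWloc ?_
          have h2 := (ae_restrict_iff' hO.measurableSet).1
            (hmargin p hp (c p) (hcpos p).le (hcle p))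
          filter_upwards [h2] with z hz hz'
          have hzΩ := hball y hy z (ball_subset_closedBall hz')
          rw [hWeq z hzΩ]
          have h3 : infDist z (frontier Ω) < η := by
            have := infDist_le_infDist_add_dist (s := frontier Ω) (x := z) (y := y)
            rw [mem_ball] at hz'
            linarith [not_le.1 hyc]
          refine le_trans ?_ (hz hzΩ h3)
          rw [mul_assoc, mul_assoc, ← Real.exp_add, ← Real.exp_add]
          refine mul_le_mul_of_nonneg_left (Real.exp_le_exp.2 ?_) (hcpos p).le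
          have h4 : inner ℝ p (y - z) ≤ β' * (φ n).rOut := by
            refine (real_inner_le_norm _ _).trans ?_
            refine mul_le_mul ?_ ?_ (norm_nonneg _) hβ'.le
            · simpa using hp
            · rw [mem_ball, dist_eq_norm, norm_sub_rev] at hz'
              exact hz'.le
          rw [inner_sub_right] at h4
          linarith
        have h2 : c p * Real.exp (3 * e1 / 4) ≤ F y := by
          have h3 := mul_le_mul_of_nonneg_right h1 (Real.exp_pos (-inner ℝ p y)).le
          rw [mul_assoc, ← Real.exp_add] at h3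
          simpa using h3
        have h3 : F x ≤ F x0 := hxmin hx0K
        have h4 : F x0 < c p * Real.exp (3 * e1 / 4) := hx0
        linarith
    have hFpos : 0 < F x := mul_pos (hwnpos x hxD) (Real.exp_pos _)
    have h5 := Real.log_le_log hFpos hmain
    simp only [hF] at h5
    rw [Real.log_mul (hwnpos x hxD).ne' (Real.exp_pos _).ne',
      Real.log_mul (hwnpos y hy).ne' (Real.exp_pos _).ne', Real.log_exp, Real.log_exp] at h5
    linarith
  · intro x hx
    have h1 : ContDiffAt ℝ 2 (fun x => Real.log (wn n x)) x :=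
      (((hwns n).of_le two_le_top).contDiffAt).log (hwnpos x hx).ne'
    rw [trc_hess h1, norm_gradient_sq, lp_log ((hwns n).of_le two_le_top)
      (hwnpos x hx), div_le_iff₀ (hwnpos x hx)]
    exact lap_conv_le hO hWloc hweak (φ n) (fun y hy => hball x hx y hy)

end Pool.Agent.RobinBall
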