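import Mathlib
import Pool.Agent.RobinBall.Margin2
import Pool.Agent.RobinBall.SuperOfWeak
import Pool.Agent.RobinBall.GaussGreen
import Pool.Agent.RobinBall.Barrier

/-!
# The smooth positive supersolution
-/

set_option autoImplicit false

open MeasureTheory Filter Topology Metric
open scoped NNReal ENNReal

namespace Pool.Agent.RobinBall

open E

lemma frontier_nonempty_of_bounded {m : ℕ} {Ω : Set (Em m)} (hO : IsOpen Ω) (hne : Ω.Nonempty)
    (hb : Bornology.IsBounded Ω) : (frontier Ω).Nonempty := by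
  rw [Set.nonempty_iff_ne_empty]
  intro h
  have h1 : IsClopen Ω := isClopen_iff_frontier_eq_empty.2 h
  rcases isClopen_iff.1 h1 with h2 | h2
  · exact hne.ne_empty h2
  · rw [h2] at hb
    exact NormedSpace.unbounded_univ ℝ (Em m) hb

theorem supersolution {m : ℕ} (hm : 1 ≤ m) {Ω : Set (Em m)} (hO : IsOpen Ω)
    (hne : Ω.Nonempty) (hb : Bornology.IsBounded Ω) (hL : IsLipDom Ω) {a κ δ : ℝ} (ha : 0 < a)
    (hκ : 0 < κ) (hδ : 0 < δ)
    (hR : ∀ u : Em m → ℝ, ContDiff ℝ 1 u → HasCompactSupport u →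
      δ * ∫ x in Ω, u x ^ 2 ≤ (∫ x in Ω, ‖fderiv ℝ u x‖ ^ 2) + κ ^ 2 * (∫ x in Ω, u x ^ 2)
        - a * ∫ x in frontier Ω, u x ^ 2 ∂(Measure.hausdorffMeasure (m : ℝ)))
    {β' : ℝ} (hβ' : 0 < β') (hββ : β' < a * cH m) :
    ∃ (D : Set (Em m)) (h : Em m → ℝ), IsOpen D ∧ D ⊆ Ω ∧ ContDiffOn ℝ (⊤ : ℕ∞) h D ∧
      (∀ p ∈ Metric.closedBall (0 : Em m) β', ∃ x ∈ D, ∀ y ∈ D,
        h x - inner ℝ p x ≤ h y - inner ℝ p y) ∧
      (∀ x ∈ D, trc (hess h x) + ‖gradient h x‖ ^ 2 ≤ κ ^ 2) := by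
  have hf := frontier_lt_top hm hO hb hL
  have hGG : GG Ω := fun F K hF hFc => gauss_green_le hm hO hb hL hF hFc
  have hcm : 0 < cH m := cH_pos m
  have hR' : RobinPos Ω a κ δ := hR
  obtain ⟨d⟩ := exists_minData hb hf hδ hR'
  obtain ⟨η, e1, hη, he1, hmargin⟩ := d.margin hGG hcm hO
    (frontier_nonempty_of_bounded hO hne hb) hδ hR' hββ
    (fun x0 hx0 => barrier hL hx0 (γ := a * cH m - β') (by linarith) κ)
  exact super_of_weak hO hne hb hβ' d.w_mem (c0 := 1 / κ ^ 2) (by positivity)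
    (d.const_le hGG hcm hO hδ hR' ha hκ)
    (fun φ h1 h2 h3 h4 => d.weak hGG hO h1 h2 h3 h4) hη he1 hmargin

end Pool.Agent.RobinBall
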