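import Mathlib
import Pool.Agent.RobinBall.Defs
import Pool.Agent.RobinBall.FinalA
import Pool.Agent.RobinBall.Radial
import Pool.Agent.RobinBall.Abp
import Pool.Agent.RobinBall.Supersolution

/-!
# The ball maximises the first Robin eigenvalue (negative parameter, prescribed boundary measure)
-/

set_option autoImplicit false

open MeasureTheory Metric Set
open scoped MeasureTheory NNReal ENNReal Topology

namespace Pool.Agent.RobinBall

theorem robin_ball_max {m : ℕ} (hm : 1 ≤ m) {α : ℝ} (hα : α < 0) {Ω : Set (Em m)} (hO : IsOpen Ω)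
    (hne : Ω.Nonempty) (hb : Bornology.IsBounded Ω) (hL : IsLipDom Ω) (c : Em m) {ρ : ℝ}
    (hρ : 0 < ρ)
    (harea : Measure.hausdorffMeasure (m : ℝ) (frontier (Metric.ball c ρ)) =
      Measure.hausdorffMeasure (m : ℝ) (frontier Ω)) :
    sInf (rayl α Ω) ≤ sInf (rayl α (Metric.ball c ρ)) := by
  have hcH := cH_pos m
  set β : ℝ := -α * cH m with hβdef
  have hβ : 0 < β := mul_pos (by linarith) hcH
  obtain ⟨κ0, X, Y, s, hκ0, hX, hdv, hXb, hY, hY1, hs, hs0, hY0, hYs, hint⟩ :=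
    radial_fields m hm hβ hρ
  have hball : -κ0 ^ 2 ≤ sInf (rayl α (Metric.ball c ρ)) := by
    rcases (rayl α (Metric.ball c ρ)).eq_empty_or_nonempty with he | hn
    · rw [he, Real.sInf_empty]
      nlinarith [sq_nonneg κ0]
    · exact le_csInf hn (fun t ht => ball_lower hm c hρ hβdef hX hdv hXb ht)
  by_contra hcon
  push Not at hcon
  have hSgt : -κ0 ^ 2 < sInf (rayl α Ω) := lt_of_le_of_lt hball hcon
  obtain ⟨κ, δ, hκ, hκκ0, hδ, hR⟩ := rayl_lower hm hO hb hL hκ0 hα hSgt
  set θ : ℝ := κ ^ 2 / κ0 ^ 2 with hθdef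
  have hθ : 0 < θ := by positivity
  have hθ1 : θ < 1 := by
    rw [hθdef, div_lt_one (by positivity)]
    exact pow_lt_pow_left₀ hκκ0 hκ.le two_ne_zero
  set S : ℝ := (cH m)⁻¹ * (Measure.hausdorffMeasure (m : ℝ) (frontier Ω)).toReal with hSdef
  set P : ℝ := (m + 1) * (volume (Metric.ball (0 : Em m) 1)).toReal * ρ ^ m with hPdef
  have hSP : S = P := by
    rw [hSdef, hPdef, ← harea]
    exact sphere_area hm c hρ
  have hvol : 0 < (volume (Metric.ball (0 : Em m) 1)).toReal :=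
    ENNReal.toReal_pos (measure_ball_pos volume 0 one_pos).ne' measure_ball_lt_top.ne
  have hP : 0 < P := by
    rw [hPdef]
    positivity
  have hSb : ∀ F : Em m → Em m, ContDiff ℝ 1 F → HasCompactSupport F → (∀ x, ‖F x‖ ≤ 1) →
      ∫ x in Ω, dv F x ≤ S := by
    intro F hF hFc hF1
    obtain ⟨L, hL'⟩ := hF.lipschitzWith_of_hasCompactSupport hFc one_ne_zero
    refine (gauss_green_le hm hO hb hL hL' hFc).trans ?_
    rw [hSdef]
    apply mul_le_mul_of_nonneg_left _ (inv_nonneg.mpr hcH.le)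
    have hfin := frontier_lt_top hm hO hb hL
    have : IsFiniteMeasure ((Measure.hausdorffMeasure (m : ℝ) : Measure (Em m)).restrict
        (frontier Ω)) := ⟨by rwa [Measure.restrict_apply_univ]⟩
    calc ∫ x in frontier Ω, ‖F x‖ ∂(Measure.hausdorffMeasure (m : ℝ))
        ≤ ∫ x in frontier Ω, (1 : ℝ) ∂(Measure.hausdorffMeasure (m : ℝ)) := by
          apply integral_mono
          · exact hF.continuous.norm.integrable_of_hasCompactSupport hFc.norm
          · exact integrable_const _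
          · intro x
            exact hF1 x
      _ = (Measure.hausdorffMeasure (m : ℝ) (frontier Ω)).toReal := by
          rw [setIntegral_const, smul_eq_mul, mul_one]
          rfl
  have hYs' : ∀ p ∈ Metric.ball (0 : Em m) β, ∀ M : Em m →L[ℝ] Em m, M.IsPositive →
        trc M ≤ θ * (κ0 ^ 2 - ‖p‖ ^ 2) →
        (θ ^ m)⁻¹ * s p * LinearMap.det (M : Em m →ₗ[ℝ] Em m) ≤ trc ((fderiv ℝ Y p).comp M) :=
    fun p hp M hM hMt => hYs p hp θ hθ hθ1.le M hM hMt
  have key : ∀ β' : ℝ, 0 < β' → β' < β →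
      (θ ^ m)⁻¹ * ∫ p in Metric.ball (0 : Em m) β', s p ≤ S := by
    intro β' hβ' hββ
    obtain ⟨D, h, hD, hDΩ, hh, hcontact, hpde⟩ :=
      supersolution hm hO hne hb hL (a := -α) (by linarith) hκ hδ hR hβ' hββ
    refine abp hm hb hO hD hDΩ hβ' hββ hθ hθ1.le hSb hY hY1 hs hs0 hY0 hYs' hh hcontact ?_
    intro x hx _
    have h1 := hpde x hx
    have h2 : θ * (κ0 ^ 2 - ‖gradient h x‖ ^ 2) = κ ^ 2 - θ * ‖gradient h x‖ ^ 2 := by
      rw [hθdef]
      field_simp
    rw [h2]
    have h3 : θ * ‖gradient h x‖ ^ 2 ≤ 1 * ‖gradient h x‖ ^ 2 :=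
      mul_le_mul_of_nonneg_right hθ1.le (sq_nonneg _)
    linarith
  -- pass to the limit
  have hsint : IntegrableOn s (Metric.ball (0 : Em m) β) := by
    by_contra hn
    have := integral_undef hn
    rw [hint] at this
    exact hP.ne' this
  have hun : (⋃ n : ℕ, Metric.ball (0 : Em m) (β - β / (n + 2))) = Metric.ball (0 : Em m) β := by
    apply Subset.antisymm
    · apply iUnion_subset
      intro n
      apply ball_subset_ball
      have : 0 < β / ((n : ℝ) + 2) := by positivity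
      linarith
    · intro p hp
      rw [mem_ball, dist_zero_right] at hp
      obtain ⟨n, hn⟩ := exists_nat_gt (β / (β - ‖p‖))
      refine mem_iUnion.mpr ⟨n, ?_⟩
      rw [mem_ball, dist_zero_right]
      have h1 : 0 < β - ‖p‖ := by linarith
      have h2 : β / ((n : ℝ) + 2) < β - ‖p‖ := by
        rw [div_lt_iff₀ (by positivity)]
        rw [div_lt_iff₀ h1] at hn
        nlinarith
      linarith
  have hmono : Monotone (fun n : ℕ => Metric.ball (0 : Em m) (β - β / (n + 2))) := by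
    intro a b hab
    apply ball_subset_ball
    have hab' : (a : ℝ) ≤ b := by exact_mod_cast hab
    have : β / ((b : ℝ) + 2) ≤ β / ((a : ℝ) + 2) := by
      apply div_le_div_of_nonneg_left hβ.le (by positivity)
      linarith
    linarith
  have hlim := tendsto_setIntegral_of_monotone (μ := volume) (f := s)
    (fun n => measurableSet_ball) hmono (by rw [hun]; exact hsint)
  rw [hun, hint] at hlim
  have hlim2 := hlim.const_mul ((θ ^ m)⁻¹)
  have hle : (θ ^ m)⁻¹ * P ≤ S := by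
    refine le_of_tendsto hlim2 (Filter.Eventually.of_forall (fun n => ?_))
    apply key
    · have : β / ((n : ℝ) + 2) < β := by
        rw [div_lt_iff₀ (by positivity)]
        nlinarith [(Nat.cast_nonneg n : (0 : ℝ) ≤ n)]
      linarith
    · have : 0 < β / ((n : ℝ) + 2) := by positivity
      linarith
  rw [hSP] at hle
  have hθm : θ ^ m < 1 := pow_lt_one₀ hθ.le hθ1 (by omega)
  have hinv : 1 < (θ ^ m)⁻¹ := (one_lt_inv₀ (pow_pos hθ m)).mpr hθm
  nlinarith

/-- The statement of the frozen statement `S06467`, for all `m ≥ 1`. -/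
theorem robin_main : ∀ m : ℕ, 1 ≤ m → ∀ α : ℝ, α < 0 →
  ∀ Ω : Set (EuclideanSpace ℝ (Fin (m+1))), IsOpen Ω → IsConnected Ω → Bornology.IsBounded Ω →
  (∀ x ∈ frontier Ω, ∃ r : ℝ, 0 < r ∧
      ∃ R : EuclideanSpace ℝ (Fin (m+1)) ≃ₗᵢ[ℝ] EuclideanSpace ℝ (Fin (m+1)),
      ∃ K : NNReal, ∃ g : (Fin m → ℝ) → ℝ, LipschitzWith K g ∧
        ∀ y ∈ Metric.ball x r,
          (y ∈ Ω ↔ EuclideanSpace.proj (Fin.last m) (R y) <
              g (fun i => EuclideanSpace.proj (Fin.castSucc i) (R y)))) →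
  ∀ (c : EuclideanSpace ℝ (Fin (m+1))) (ρ : ℝ), 0 < ρ →
    MeasureTheory.Measure.hausdorffMeasure (m : ℝ) (frontier (Metric.ball c ρ)) =
      MeasureTheory.Measure.hausdorffMeasure (m : ℝ) (frontier Ω) →
    sInf {t : ℝ | ∃ u : EuclideanSpace ℝ (Fin (m+1)) → ℝ, ContDiff ℝ 1 u ∧ HasCompactSupport u ∧
        (∫ x in Ω, u x ^ 2) ≠ 0 ∧
        t = ((∫ x in Ω, ‖fderiv ℝ u x‖ ^ 2) +
              α * ∫ x in frontier Ω, u x ^ 2 ∂(MeasureTheory.Measure.hausdorffMeasure (m : ℝ)))
            / ∫ x in Ω, u x ^ 2}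
    ≤ sInf {t : ℝ | ∃ u : EuclideanSpace ℝ (Fin (m+1)) → ℝ, ContDiff ℝ 1 u ∧ HasCompactSupport u ∧
        (∫ x in Metric.ball c ρ, u x ^ 2) ≠ 0 ∧
        t = ((∫ x in Metric.ball c ρ, ‖fderiv ℝ u x‖ ^ 2) +
              α * ∫ x in frontier (Metric.ball c ρ), u x ^ 2
                    ∂(MeasureTheory.Measure.hausdorffMeasure (m : ℝ)))
            / ∫ x in Metric.ball c ρ, u x ^ 2} := by
  intro m hm α hα Ω hO hcon hb hL c ρ hρ harea
  exact robin_ball_max hm hα hO hcon.nonempty hb hL c hρ harea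

end Pool.Agent.RobinBall
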