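import Mathlib
import Pool.Agent.RobinBall.Final

/-!
# The first Robin eigenvalue as an infimum over `H¹`

The Rayleigh quotient over the closure of the smooth functions (values, gradients and boundary
values together), for any normalisation of the surface measure.
-/

set_option autoImplicit false

open MeasureTheory Metric Set Filter
open scoped MeasureTheory NNReal ENNReal Topology

namespace Pool.Agent.RobinBall

section Limit

variable {X F : Type*} [MeasurableSpace X] [NormedAddCommGroup F] {μ : Measure X}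

theorem sq_diff_le {a b d s : ℝ} (hd : |a - b| ≤ d) (hb : 0 ≤ b) (ha : 0 ≤ a) (hs : 0 < s) :
    |a ^ 2 - b ^ 2| ≤ (1 + 1 / s) * d ^ 2 + s * b ^ 2 := by
  have hd0 : 0 ≤ d := (abs_nonneg _).trans hd
  have h1 : |a ^ 2 - b ^ 2| = |a - b| * (a + b) := by
    rw [sq_sub_sq, abs_mul, abs_of_nonneg (by linarith : 0 ≤ a + b)]; ring
  have h2 : a + b ≤ 2 * b + d := by
    have := (abs_le.mp hd).2
    linarith
  have h3 : |a - b| * (a + b) ≤ d * (2 * b + d) :=
    mul_le_mul hd h2 (by linarith) hd0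
  have h4 : 2 * b * d ≤ s * b ^ 2 + d ^ 2 / s := by
    have h5 : 0 ≤ (s * b - d) ^ 2 / s := by positivity
    have h6 : (s * b - d) ^ 2 / s = s * b ^ 2 - 2 * b * d + d ^ 2 / s := by
      field_simp
      ring
    linarith
  have h7 : (1 + 1 / s) * d ^ 2 = d ^ 2 + d ^ 2 / s := by ring
  rw [h1, h7]
  nlinarith

theorem sq_tendsto {f : ℕ → X → F} {g : X → F} (hf : ∀ k, MemLp (f k) 2 μ) (hg : MemLp g 2 μ)
    (h : Tendsto (fun k => ∫ x, ‖f k x - g x‖ ^ 2 ∂μ) atTop (𝓝 0)) :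
    Tendsto (fun k => ∫ x, ‖f k x‖ ^ 2 ∂μ) atTop (𝓝 (∫ x, ‖g x‖ ^ 2 ∂μ)) := by
  have ig : Integrable (fun x => ‖g x‖ ^ 2) μ := (memLp_two_iff_integrable_sq_norm hg.1).1 hg
  have iff' : ∀ k, Integrable (fun x => ‖f k x‖ ^ 2) μ := fun k =>
    (memLp_two_iff_integrable_sq_norm (hf k).1).1 (hf k)
  have id' : ∀ k, Integrable (fun x => ‖f k x - g x‖ ^ 2) μ := fun k => by
    have h1 : MemLp (fun x => f k x - g x) 2 μ := (hf k).sub hg
    exact (memLp_two_iff_integrable_sq_norm h1.1).1 h1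
  rw [Metric.tendsto_atTop]
  intro ε hε
  set A := ∫ x, ‖g x‖ ^ 2 ∂μ with hA
  have hA0 : 0 ≤ A := integral_nonneg fun x => by positivity
  set s : ℝ := ε / (2 * (A + 1)) with hs
  have hs0 : 0 < s := by positivity
  have hsA : s * A < ε / 2 := by
    rw [hs, div_mul_eq_mul_div, div_lt_div_iff₀ (by positivity) (by norm_num)]
    nlinarith
  have hc : 0 < 1 + 1 / s := by positivity
  obtain ⟨N, hN⟩ := (Metric.tendsto_atTop.1 h) (ε / 2 / (1 + 1 / s)) (by positivity)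
  refine ⟨N, fun k hk => ?_⟩
  have h1 := hN k hk
  rw [Real.dist_eq, sub_zero, abs_of_nonneg (integral_nonneg fun x => by positivity),
    lt_div_iff₀ hc] at h1
  rw [Real.dist_eq, hA, ← integral_sub (iff' k) ig]
  calc |∫ x, (‖f k x‖ ^ 2 - ‖g x‖ ^ 2) ∂μ| ≤ ∫ x, |‖f k x‖ ^ 2 - ‖g x‖ ^ 2| ∂μ :=
        abs_integral_le_integral_abs
    _ ≤ ∫ x, ((1 + 1 / s) * ‖f k x - g x‖ ^ 2 + s * ‖g x‖ ^ 2) ∂μ := by
        apply integral_mono ((iff' k).sub ig).abs (((id' k).const_mul _).add (ig.const_mul _))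
        intro x
        exact sq_diff_le (abs_norm_sub_norm_le _ _) (norm_nonneg _) (norm_nonneg _) hs0
    _ = (1 + 1 / s) * (∫ x, ‖f k x - g x‖ ^ 2 ∂μ) + s * A := by
        rw [integral_add ((id' k).const_mul _) (ig.const_mul _), integral_const_mul,
          integral_const_mul]
    _ < ε := by linarith

end Limit

variable {m : ℕ}

/-- `u` is a function of class `H¹` on `Ω` with gradient `G` and boundary values `τ`: the triple
`(u, G, τ)` is a limit of triples `(φ, ∇φ, φ)` in `L²(Ω)`, `L²(Ω)` and `L²(∂Ω)`, where the `φ` are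
`C¹` functions with compact support on the whole space. -/
structure IsH1 (σ : Measure (Em m)) (Ω : Set (Em m)) (u : Em m → ℝ) (G : Em m → Em m)
    (τ : Em m → ℝ) : Prop where
  memLp_fun : MemLp u 2 (volume.restrict Ω)
  memLp_grad : MemLp G 2 (volume.restrict Ω)
  memLp_trace : MemLp τ 2 (σ.restrict (frontier Ω))
  approx : ∃ φ : ℕ → Em m → ℝ, (∀ k, ContDiff ℝ 1 (φ k) ∧ HasCompactSupport (φ k)) ∧
    Tendsto (fun k => ∫ x in Ω, (φ k x - u x) ^ 2) atTop (𝓝 0) ∧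
    Tendsto (fun k => ∫ x in Ω, ‖gradient (φ k) x - G x‖ ^ 2) atTop (𝓝 0) ∧
    Tendsto (fun k => ∫ x in frontier Ω, (φ k x - τ x) ^ 2 ∂σ) atTop (𝓝 0)

/-- The Rayleigh quotients of the functions of class `H¹`. -/
def h1Quotients (σ : Measure (Em m)) (α : ℝ) (Ω : Set (Em m)) : Set ℝ :=
  {t | ∃ (u : Em m → ℝ) (G : Em m → Em m) (τ : Em m → ℝ), IsH1 σ Ω u G τ ∧
    (∫ x in Ω, u x ^ 2) ≠ 0 ∧
    t = ((∫ x in Ω, ‖G x‖ ^ 2) + α * ∫ x in frontier Ω, τ x ^ 2 ∂σ) / ∫ x in Ω, u x ^ 2}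

/-- The Rayleigh quotients of the `C¹` functions with compact support. -/
def c1Quotients (σ : Measure (Em m)) (α : ℝ) (Ω : Set (Em m)) : Set ℝ :=
  {t | ∃ u : Em m → ℝ, ContDiff ℝ 1 u ∧ HasCompactSupport u ∧ (∫ x in Ω, u x ^ 2) ≠ 0 ∧
    t = ((∫ x in Ω, ‖gradient u x‖ ^ 2) + α * ∫ x in frontier Ω, u x ^ 2 ∂σ) /
      ∫ x in Ω, u x ^ 2}

theorem continuous_gradient_of {u : Em m → ℝ} (hu : ContDiff ℝ 1 u) :
    Continuous (fun x => gradient u x) :=
  (InnerProductSpace.toDual ℝ (Em m)).symm.continuous.comp (hu.continuous_fderiv one_ne_zero)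

theorem hasCompactSupport_gradient {u : Em m → ℝ} (hu : HasCompactSupport u) :
    HasCompactSupport (fun x => gradient u x) := by
  have h1 : HasCompactSupport (fderiv ℝ u) := hu.fderiv ℝ
  exact h1.comp_left (g := (InnerProductSpace.toDual ℝ (Em m)).symm) (map_zero _)

section Quot

variable {σ : Measure (Em m)} {Ω : Set (Em m)}

theorem isH1_of_contDiff (hσ : σ (frontier Ω) < ⊤) {u : Em m → ℝ} (hu : ContDiff ℝ 1 u)
    (hc : HasCompactSupport u) : IsH1 σ Ω u (fun x => gradient u x) u := by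
  have : IsFiniteMeasure (σ.restrict (frontier Ω)) := ⟨by rwa [Measure.restrict_apply_univ]⟩
  refine ⟨hu.continuous.memLp_of_hasCompactSupport hc,
    (continuous_gradient_of hu).memLp_of_hasCompactSupport (hasCompactSupport_gradient hc),
    hu.continuous.memLp_of_hasCompactSupport hc, fun _ => u, fun _ => ⟨hu, hc⟩, ?_, ?_, ?_⟩
  · simp
  · simp
  · simp

theorem c1_subset_h1 (hσ : σ (frontier Ω) < ⊤) (α : ℝ) :
    c1Quotients σ α Ω ⊆ h1Quotients σ α Ω := by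
  rintro t ⟨u, hu, hc, h0, rfl⟩
  exact ⟨u, _, u, isH1_of_contDiff hσ hu hc, h0, rfl⟩

theorem isGLB_h1 (hσ : σ (frontier Ω) < ⊤) {α l : ℝ} (h : IsGLB (c1Quotients σ α Ω) l) :
    IsGLB (h1Quotients σ α Ω) l := by
  have : IsFiniteMeasure (σ.restrict (frontier Ω)) := ⟨by rwa [Measure.restrict_apply_univ]⟩
  refine ⟨?_, fun b hb => h.2 fun t ht => hb (c1_subset_h1 hσ α ht)⟩
  rintro t ⟨u, G, τ, hH, h0, rfl⟩
  obtain ⟨φ, hφ, h1, h2, h3⟩ := hH.approx
  have hpos : 0 < ∫ x in Ω, u x ^ 2 :=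
    lt_of_le_of_ne (integral_nonneg (fun x => sq_nonneg _)) (Ne.symm h0)
  have m1 : ∀ k, MemLp (φ k) 2 (volume.restrict Ω) := fun k =>
    (hφ k).1.continuous.memLp_of_hasCompactSupport (hφ k).2
  have m2 : ∀ k, MemLp (fun x => gradient (φ k) x) 2 (volume.restrict Ω) := fun k =>
    (continuous_gradient_of (hφ k).1).memLp_of_hasCompactSupport
      (hasCompactSupport_gradient (hφ k).2)
  have m3 : ∀ k, MemLp (φ k) 2 (σ.restrict (frontier Ω)) := fun k =>
    (hφ k).1.continuous.memLp_of_hasCompactSupport (hφ k).2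
  have t1 := sq_tendsto m1 hH.memLp_fun (by simpa only [Real.norm_eq_abs, sq_abs] using h1)
  have t2 := sq_tendsto m2 hH.memLp_grad h2
  have t3 := sq_tendsto m3 hH.memLp_trace (by simpa only [Real.norm_eq_abs, sq_abs] using h3)
  simp only [Real.norm_eq_abs, sq_abs] at t1 t3
  rw [le_div_iff₀ hpos]
  refine le_of_tendsto_of_tendsto (t1.const_mul l) (t2.add (t3.const_mul α)) ?_
  filter_upwards [t1.eventually (lt_mem_nhds hpos)] with k hk
  have h4 := h.1 ⟨φ k, (hφ k).1, (hφ k).2, hk.ne', rfl⟩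
  rwa [le_div_iff₀ hk] at h4

end Quot

/-- The Rayleigh quotients are bounded below. -/
theorem rayl_bddBelow (hm : 1 ≤ m) {Ω : Set (Em m)} (hO : IsOpen Ω)
    (hb : Bornology.IsBounded Ω) (hL : IsLipDom Ω) {α : ℝ} (hα : α < 0) :
    BddBelow (rayl α Ω) := by
  obtain ⟨C, hC0, hC⟩ := trace_ineq hm hO hb hL
  refine ⟨-((-α) * C + ((-α) * C) ^ 2 / 4), ?_⟩
  rintro t ⟨u, hu, huc, hu0, rfl⟩
  have hpos : 0 < ∫ x in Ω, u x ^ 2 :=
    lt_of_le_of_ne (integral_nonneg (fun x => sq_nonneg _)) (Ne.symm hu0)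
  rw [le_div_iff₀ hpos]
  have huf : Continuous (fderiv ℝ u) := hu.continuous_fderiv one_ne_zero
  have hucont := hu.continuous
  have h1 := hC u hu huc
  have h2 : (-α) * C * ∫ x in Ω, (u x ^ 2 + |u x| * ‖fderiv ℝ u x‖) ≤
      ((-α) * C + ((-α) * C) ^ 2 / 4) * (∫ x in Ω, u x ^ 2) +
        ∫ x in Ω, ‖fderiv ℝ u x‖ ^ 2 := by
    rw [← integral_const_mul, ← integral_const_mul, ← integral_add
      (integrableOn_of_bdd hb (by fun_prop)) (integrableOn_of_bdd hb (by fun_prop))]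
    apply integral_mono (integrableOn_of_bdd hb (by fun_prop))
      (integrableOn_of_bdd hb (by fun_prop))
    intro x
    change -α * C * (u x ^ 2 + |u x| * ‖fderiv ℝ u x‖) ≤
      (-α * C + (-α * C) ^ 2 / 4) * u x ^ 2 + ‖fderiv ℝ u x‖ ^ 2
    have e6 : |u x| ^ 2 = u x ^ 2 := sq_abs _
    nlinarith [sq_nonneg (‖fderiv ℝ u x‖ - (-α * C) / 2 * |u x|)]
  have h3 : (-α) * ∫ x in frontier Ω, u x ^ 2 ∂(Measure.hausdorffMeasure (m : ℝ)) ≤
      (-α) * (C * ∫ x in Ω, (u x ^ 2 + |u x| * ‖fderiv ℝ u x‖)) :=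
    mul_le_mul_of_nonneg_left h1 (by linarith)
  nlinarith

theorem rayl_nonempty {Ω : Set (Em m)} (hO : IsOpen Ω) (hne : Ω.Nonempty)
    (hb : Bornology.IsBounded Ω) (α : ℝ) : (rayl α Ω).Nonempty := by
  obtain ⟨R, hR⟩ := hb.subset_closedBall (0 : Em m)
  set f : ContDiffBump (0 : Em m) := ⟨|R| + 1, |R| + 2, by positivity, by linarith⟩ with hf
  have hone : ∀ x ∈ Ω, f x = 1 := fun x hx => by
    apply f.one_of_mem_closedBall
    have h1 := hR hx
    rw [mem_closedBall] at h1 ⊢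
    have h2 : R ≤ |R| := le_abs_self R
    change dist x 0 ≤ |R| + 1
    linarith
  refine ⟨_, f, f.contDiff, f.hasCompactSupport, ?_, rfl⟩
  have h3 : ∫ x in Ω, f x ^ 2 = ∫ x in Ω, (1 : ℝ) := by
    apply setIntegral_congr_fun hO.measurableSet
    intro x hx
    change f x ^ 2 = 1
    rw [hone x hx, one_pow]
  rw [h3, setIntegral_const, smul_eq_mul, mul_one, Measure.real]
  exact (ENNReal.toReal_pos (hO.measure_pos volume hne).ne' hb.measure_lt_top.ne).ne'

theorem norm_gradient' (u : Em m → ℝ) (x : Em m) : ‖gradient u x‖ = ‖fderiv ℝ u x‖ :=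
  LinearIsometryEquiv.norm_map _ _

theorem c1Quotients_eq (κ : ℝ≥0∞) (α : ℝ) (Ω : Set (Em m)) :
    c1Quotients (κ • Measure.hausdorffMeasure (m : ℝ)) α Ω = rayl (α * κ.toReal) Ω := by
  ext t
  simp only [c1Quotients, rayl, mem_ofPred_eq, Measure.restrict_smul, integral_smul_measure,
    smul_eq_mul, norm_gradient', mul_assoc]

/-- **The ball maximises the first Robin eigenvalue** (infimum over `H¹`, and over `C¹`). -/
theorem robin_h1 (hm : 1 ≤ m) {α : ℝ} (hα : α < 0) {κ : ℝ≥0∞} (hκ0 : κ ≠ 0) (hκ1 : κ ≠ ⊤)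
    {Ω : Set (Em m)} (hO : IsOpen Ω) (hne : Ω.Nonempty) (hb : Bornology.IsBounded Ω)
    (hL : IsLipDom Ω) (c : Em m) {ρ : ℝ} (hρ : 0 < ρ)
    (harea : (κ • Measure.hausdorffMeasure (m : ℝ)) (frontier (ball c ρ)) =
      (κ • Measure.hausdorffMeasure (m : ℝ)) (frontier Ω)) :
    ∃ l L : ℝ,
      IsGLB (h1Quotients (κ • Measure.hausdorffMeasure (m : ℝ)) α Ω) l ∧
      IsGLB (c1Quotients (κ • Measure.hausdorffMeasure (m : ℝ)) α Ω) l ∧
      IsGLB (h1Quotients (κ • Measure.hausdorffMeasure (m : ℝ)) α (ball c ρ)) L ∧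
      IsGLB (c1Quotients (κ • Measure.hausdorffMeasure (m : ℝ)) α (ball c ρ)) L ∧ l ≤ L := by
  have hk : 0 < κ.toReal := ENNReal.toReal_pos hκ0 hκ1
  have hα' : α * κ.toReal < 0 := mul_neg_of_neg_of_pos hα hk
  have harea' : Measure.hausdorffMeasure (m : ℝ) (frontier (ball c ρ)) =
      Measure.hausdorffMeasure (m : ℝ) (frontier Ω) := by
    simpa only [Measure.smul_apply, smul_eq_mul, ENNReal.mul_right_inj hκ0 hκ1] using harea
  have hcH := cH_pos m
  have hβ : 0 < -(α * κ.toReal) * cH m := mul_pos (by linarith) hcH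
  obtain ⟨κ0, X, Y, s, hκ0', hX, hdv, hXb, -⟩ := radial_fields m hm hβ hρ
  have gB : IsGLB (c1Quotients (κ • Measure.hausdorffMeasure (m : ℝ)) α (ball c ρ))
      (sInf (rayl (α * κ.toReal) (ball c ρ))) := by
    rw [c1Quotients_eq]
    exact isGLB_csInf (rayl_nonempty isOpen_ball (nonempty_ball.2 hρ) isBounded_ball _)
      ⟨_, fun t ht => ball_lower hm c hρ rfl hX hdv hXb ht⟩
  have gΩ : IsGLB (c1Quotients (κ • Measure.hausdorffMeasure (m : ℝ)) α Ω)
      (sInf (rayl (α * κ.toReal) Ω)) := by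
    rw [c1Quotients_eq]
    exact isGLB_csInf (rayl_nonempty hO hne hb _) (rayl_bddBelow hm hO hb hL hα')
  have fΩ : (κ • Measure.hausdorffMeasure (m : ℝ)) (frontier Ω) < ⊤ := by
    rw [Measure.smul_apply, smul_eq_mul]
    exact ENNReal.mul_lt_top hκ1.lt_top (frontier_lt_top hm hO hb hL)
  have fB : (κ • Measure.hausdorffMeasure (m : ℝ)) (frontier (ball c ρ)) < ⊤ := by
    rw [harea]
    exact fΩ
  exact ⟨_, _, isGLB_h1 fΩ gΩ, gΩ, isGLB_h1 fB gB, gB,
    robin_ball_max hm hα' hO hne hb hL c hρ harea'⟩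

end Pool.Agent.RobinBall
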